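import Pool.Agent.Lib.MP_12eca1_ag.P.Defs

/-!
Common lemmas on lengths of polynomials, lattices of forms and states of the descent.
-/

set_option linter.unusedSectionVars false

namespace Pool.Agent.Lib.MP_12eca1_ag.P

open MvPolynomial Filter Module

lemma degree_of_mem_support {σ K : Type*} [CommSemiring K] {P : MvPolynomial σ K} {R : ℕ}
    (h : P.IsHomogeneous R) {m : σ →₀ ℕ} (hm : m ∈ P.support) : m.degree = R := by
  rw [Finsupp.degree_eq_weight_one]; exact h (MvPolynomial.mem_support_iff.mp hm)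

lemma card_le_of_degree_le {σ : Type*} [Fintype σ] {s : Finset (σ →₀ ℕ)} {R : ℕ}
    (h : ∀ m ∈ s, m.degree ≤ R) : s.card ≤ (R + 1) ^ Fintype.card σ := by
  classical
  refine (Finset.card_le_card_of_injOn (t := Fintype.piFinset fun _ : σ => Finset.range (R + 1))
    (fun m : σ →₀ ℕ => ⇑m) (fun m hm => ?_) fun _ _ _ _ h => DFunLike.coe_injective h).trans (by simp)
  exact Finset.mem_coe.mpr (Fintype.mem_piFinset.mpr fun i => Finset.mem_range.mpr
    (Nat.lt_succ_of_le ((Finsupp.le_degree i m).trans (h m hm))))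

lemma card_support_le {σ K : Type*} [Fintype σ] [CommSemiring K] {P : MvPolynomial σ K} {R : ℕ}
    (h : P.totalDegree ≤ R) : P.support.card ≤ (R + 1) ^ Fintype.card σ :=
  card_le_of_degree_le fun _ hm => (le_totalDegree hm).trans h

/-! ### The length of a polynomial -/

section L1

variable {σ τ K : Type*} [NormedCommRing K]

lemma l1_nonneg (P : MvPolynomial σ K) : 0 ≤ l1 P := Finset.sum_nonneg fun _ _ => norm_nonneg _

lemma l1_eq_sum {P : MvPolynomial σ K} {s : Finset (σ →₀ ℕ)} (h : P.support ⊆ s) :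
    l1 P = ∑ m ∈ s, ‖coeff m P‖ :=
  Finset.sum_subset h fun m _ hm => by rw [notMem_support_iff.mp hm, norm_zero]

lemma sum_le_l1 (P : MvPolynomial σ K) (s : Finset (σ →₀ ℕ)) : ∑ m ∈ s, ‖coeff m P‖ ≤ l1 P := by
  classical
  rw [l1_eq_sum (Finset.subset_union_right (s₁ := s))]
  exact Finset.sum_le_sum_of_subset_of_nonneg Finset.subset_union_left fun _ _ _ => norm_nonneg _

lemma norm_coeff_le_l1 (P : MvPolynomial σ K) (m : σ →₀ ℕ) : ‖coeff m P‖ ≤ l1 P := by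
  simpa using sum_le_l1 P {m}

@[simp] lemma l1_zero : l1 (0 : MvPolynomial σ K) = 0 := by simp [l1]

lemma l1_add_le (P Q : MvPolynomial σ K) : l1 (P + Q) ≤ l1 P + l1 Q := by
  refine le_trans (Finset.sum_le_sum fun m _ => ?_)
    ((Finset.sum_add_distrib (s := (P + Q).support)).le.trans
      (add_le_add (sum_le_l1 P _) (sum_le_l1 Q _)))
  rw [coeff_add]; exact norm_add_le _ _

@[simp] lemma l1_neg (P : MvPolynomial σ K) : l1 (-P) = l1 P := by simp [l1]

lemma l1_sub_le (P Q : MvPolynomial σ K) : l1 (P - Q) ≤ l1 P + l1 Q := by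
  rw [sub_eq_add_neg, ← l1_neg Q]; exact l1_add_le _ _

lemma l1_sum_le {ι : Type*} (s : Finset ι) (f : ι → MvPolynomial σ K) :
    l1 (∑ i ∈ s, f i) ≤ ∑ i ∈ s, l1 (f i) :=
  Finset.le_sum_of_subadditive l1 l1_zero.le l1_add_le s f

@[simp] lemma l1_monomial (m : σ →₀ ℕ) (a : K) : l1 (monomial m a) = ‖a‖ := by
  classical
  rw [l1_eq_sum (support_monomial_subset (s := m) (a := a))]; simp

@[simp] lemma l1_C (a : K) : l1 (C a : MvPolynomial σ K) = ‖a‖ := l1_monomial 0 a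

@[simp] lemma l1_X [NormOneClass K] (i : σ) : l1 (X i : MvPolynomial σ K) = 1 := by
  rw [X, l1_monomial, norm_one]

@[simp] lemma l1_one [NormOneClass K] : l1 (1 : MvPolynomial σ K) = 1 := by
  rw [← C_1, l1_C, norm_one]

lemma l1_mul_le (P Q : MvPolynomial σ K) : l1 (P * Q) ≤ l1 P * l1 Q := by
  conv_lhs => rw [P.as_sum, Q.as_sum, Finset.sum_mul_sum]
  rw [l1.eq_1 P, l1.eq_1 Q, Finset.sum_mul_sum]
  refine (l1_sum_le _ _).trans (Finset.sum_le_sum fun m _ => (l1_sum_le _ _).trans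
    (Finset.sum_le_sum fun n _ => ?_))
  rw [monomial_mul, l1_monomial]; exact norm_mul_le _ _

lemma l1_mul_le_of_le {P Q : MvPolynomial σ K} {a b : ℝ} (h1 : l1 P ≤ a) (h2 : l1 Q ≤ b) :
    l1 (P * Q) ≤ a * b :=
  (l1_mul_le P Q).trans (mul_le_mul h1 h2 (l1_nonneg _) ((l1_nonneg _).trans h1))

lemma l1_C_mul_le (a : K) (P : MvPolynomial σ K) : l1 (C a * P) ≤ ‖a‖ * l1 P := by
  simpa using l1_mul_le (C a) P

lemma l1_smul_le (a : K) (P : MvPolynomial σ K) : l1 (a • P) ≤ ‖a‖ * l1 P := by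
  rw [smul_eq_C_mul]; exact l1_C_mul_le a P

lemma l1_pow_le [NormOneClass K] {P : MvPolynomial σ K} {a : ℝ} (h : l1 P ≤ a) (n : ℕ) :
    l1 (P ^ n) ≤ a ^ n := by
  induction n with
  | zero => simp
  | succ n ih => rw [pow_succ, pow_succ]; exact l1_mul_le_of_le ih h

lemma l1_prod_le [NormOneClass K] {ι : Type*} (s : Finset ι) (f : ι → MvPolynomial σ K)
    (a : ι → ℝ) (h : ∀ i ∈ s, l1 (f i) ≤ a i) : l1 (∏ i ∈ s, f i) ≤ ∏ i ∈ s, a i := by
  classical
  induction s using Finset.induction_on with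
  | empty => simp
  | insert i s hi ih =>
    rw [Finset.prod_insert hi, Finset.prod_insert hi]
    exact l1_mul_le_of_le (h i (Finset.mem_insert_self _ _))
      (ih fun j hj => h j (Finset.mem_insert_of_mem hj))

lemma l1_homogeneousComponent_le (n : ℕ) (P : MvPolynomial σ K) :
    l1 (homogeneousComponent n P) ≤ l1 P := by
  refine le_trans (Finset.sum_le_sum fun m _ => ?_) (sum_le_l1 P _)
  rw [coeff_homogeneousComponent]
  split_ifs <;> simp

lemma l1_aeval_monomial_le [NormOneClass K] {f : σ → MvPolynomial τ K} {B : ℝ}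
    (hf : ∀ i, l1 (f i) ≤ B) (m : σ →₀ ℕ) (a : K) :
    l1 (aeval f (monomial m a)) ≤ ‖a‖ * B ^ m.degree := by
  rw [aeval_monomial, algebraMap_eq]
  refine l1_mul_le_of_le (l1_C a).le ?_
  rw [Finsupp.degree_apply, ← Finset.prod_pow_eq_pow_sum]
  exact l1_prod_le _ _ _ fun i _ => l1_pow_le (hf i) _

lemma l1_aeval_le [NormOneClass K] {f : σ → MvPolynomial τ K} {B : ℝ} (hB : 1 ≤ B)
    (hf : ∀ i, l1 (f i) ≤ B) {P : MvPolynomial σ K} {n : ℕ} (hP : P.totalDegree ≤ n) :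
    l1 (aeval f P) ≤ B ^ n * l1 P := by
  conv_lhs => rw [P.as_sum, map_sum]
  rw [l1.eq_1 P, Finset.mul_sum]
  refine (l1_sum_le _ _).trans (Finset.sum_le_sum fun m hm =>
    (l1_aeval_monomial_le hf m _).trans ?_)
  rw [mul_comm]
  exact mul_le_mul_of_nonneg_right (pow_le_pow_right₀ hB ((le_totalDegree hm).trans hP))
    (norm_nonneg _)

lemma l1_aeval_le_of_isHomogeneous [NormOneClass K] {f : σ → MvPolynomial τ K} {B : ℝ}
    (hf : ∀ i, l1 (f i) ≤ B) {P : MvPolynomial σ K} {n : ℕ} (hP : P.IsHomogeneous n) :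
    l1 (aeval f P) ≤ B ^ n * l1 P := by
  conv_lhs => rw [P.as_sum, map_sum]
  rw [l1.eq_1 P, Finset.mul_sum]
  refine (l1_sum_le _ _).trans (Finset.sum_le_sum fun m hm =>
    (l1_aeval_monomial_le hf m _).trans (le_of_eq ?_))
  rw [mul_comm, degree_of_mem_support hP hm]

lemma l1_rename_le (f : σ → τ) (P : MvPolynomial σ K) : l1 (rename f P) ≤ l1 P := by
  conv_lhs => rw [P.as_sum, map_sum]
  refine (l1_sum_le _ _).trans (Finset.sum_le_sum fun m _ => ?_)
  rw [rename_monomial, l1_monomial]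

end L1

/-! ### Integral polynomials -/

section ToC

variable {σ : Type*}

@[simp] lemma coeff_toC (P : MvPolynomial σ ℤ) (m : σ →₀ ℕ) :
    coeff m (toC P) = ((coeff m P : ℤ) : ℂ) := coeff_map _ _ _

lemma toC_injective : Function.Injective (toC : MvPolynomial σ ℤ → MvPolynomial σ ℂ) :=
  map_injective _ Int.cast_injective

@[simp] lemma toC_X (i : σ) : toC (X i) = X i := map_X _ i

@[simp] lemma toC_C (a : ℤ) : toC (C a : MvPolynomial σ ℤ) = C (a : ℂ) := map_C _ a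

@[simp] lemma toC_monomial (m : σ →₀ ℕ) (a : ℤ) : toC (monomial m a) = monomial m (a : ℂ) :=
  map_monomial _ m a

@[simp] lemma support_toC (P : MvPolynomial σ ℤ) : (toC P).support = P.support :=
  support_map_of_injective P Int.cast_injective

@[simp] lemma l1_toC (P : MvPolynomial σ ℤ) : l1 (toC P) = l1 P := by
  simp [l1, Int.norm_eq_abs]

lemma isHomogeneous_toC {P : MvPolynomial σ ℤ} {n : ℕ} (h : P.IsHomogeneous n) :
    (toC P).IsHomogeneous n := h.map _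

lemma homogeneousComponent_toC (P : MvPolynomial σ ℤ) (n : ℕ) :
    homogeneousComponent n (toC P) = toC (homogeneousComponent n P) := by
  ext m
  rw [coeff_toC, coeff_homogeneousComponent, coeff_homogeneousComponent, coeff_toC]
  split_ifs <;> simp

lemma aeval_toC {A : Type*} [CommRing A] [Algebra ℂ A] (x : σ → A) (P : MvPolynomial σ ℤ) :
    aeval x (toC P) = aeval x P := by
  induction P using MvPolynomial.induction_on with
  | C a => simp
  | add p q hp hq => simp [hp, hq]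
  | mul_X p i hp => simp [hp]

lemma eval_toC (x : σ → ℂ) (P : MvPolynomial σ ℤ) : eval x (toC P) = aeval x P := by
  rw [← aeval_toC]; rfl

lemma mem_Jl {J : Ideal (MvPolynomial σ ℤ)} {R : ℕ} {P : MvPolynomial σ ℂ} :
    P ∈ Jl J R ↔ ∃ Q, Q ∈ J ∧ Q.IsHomogeneous R ∧ toC Q = P := by
  simp [Jl, and_assoc]

lemma toC_mem_Jl {J : Ideal (MvPolynomial σ ℤ)} {R : ℕ} {P : MvPolynomial σ ℤ} :
    toC P ∈ Jl J R ↔ P ∈ J ∧ P.IsHomogeneous R :=
  mem_Jl.trans ⟨fun ⟨_, h1, h2, h3⟩ => toC_injective h3 ▸ ⟨h1, h2⟩, fun h => ⟨P, h.1, h.2, rfl⟩⟩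

lemma Jl_mono {J J' : Ideal (MvPolynomial σ ℤ)} (h : J ≤ J') (R : ℕ) : Jl J R ≤ Jl J' R :=
  fun _ hP => let ⟨Q, h1, h2, h3⟩ := mem_Jl.mp hP; mem_Jl.mpr ⟨Q, h h1, h2, h3⟩

lemma monomial_mem_Jl_top {m : σ →₀ ℕ} {R : ℕ} (h : m.degree = R) :
    monomial m (1 : ℂ) ∈ Jl (⊤ : Ideal (MvPolynomial σ ℤ)) R :=
  mem_Jl.mpr ⟨monomial m 1, trivial, isHomogeneous_monomial _ h, by simp⟩

lemma Jl_top_eq (R : ℕ) : Jl (⊤ : Ideal (MvPolynomial σ ℤ)) R =
    Submodule.span ℤ ((fun m => monomial m (1 : ℂ)) '' {m : σ →₀ ℕ | m.degree = R}) := by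
  refine le_antisymm (fun P hP => ?_) (Submodule.span_le.mpr ?_)
  · obtain ⟨Q, -, h2, rfl⟩ := mem_Jl.mp hP
    rw [Q.as_sum, map_sum]
    refine Submodule.sum_mem _ fun m hm => ?_
    have : toC (monomial m (coeff m Q)) = coeff m Q • monomial m (1 : ℂ) := by
      rw [toC_monomial, smul_monomial]; simp
    rw [this]
    exact Submodule.smul_mem _ _ (Submodule.subset_span ⟨m, degree_of_mem_support h2 hm, rfl⟩)
  · rintro _ ⟨m, hm, rfl⟩
    exact monomial_mem_Jl_top hm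

lemma mem_span_Jl_top {R : ℕ} {P : MvPolynomial σ ℂ} :
    P ∈ Submodule.span ℂ (Jl (⊤ : Ideal (MvPolynomial σ ℤ)) R : Set (MvPolynomial σ ℂ)) ↔
      P.IsHomogeneous R := by
  refine ⟨fun h => ?_, fun h => ?_⟩
  · refine (Submodule.span_le (p := homogeneousSubmodule σ ℂ R)).mpr (fun Q hQ => ?_) h
    obtain ⟨Q, -, h2, rfl⟩ := mem_Jl.mp hQ
    exact isHomogeneous_toC h2
  · rw [P.as_sum]
    refine Submodule.sum_mem _ fun m hm => ?_
    have : monomial m (coeff m P) = coeff m P • monomial m (1 : ℂ) := by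
      rw [smul_monomial]; simp
    rw [this]
    exact Submodule.smul_mem _ _
      (Submodule.subset_span (monomial_mem_Jl_top (degree_of_mem_support h hm)))

/-- families of integral polynomials independent over `ℤ` are independent over `ℂ` -/
lemma linearIndependent_of_int {n : Type*} {v : n → MvPolynomial σ ℂ} (h1 : ∀ i, ∃ Q, v i = toC Q)
    (h2 : LinearIndependent ℤ v) : LinearIndependent ℂ v := by
  choose w hw using h1
  have h3 : LinearIndependent ℤ w :=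
    LinearIndependent.of_comp toC.toAddMonoidHom.toIntLinearMap (by
      rwa [show v = ⇑toC.toAddMonoidHom.toIntLinearMap ∘ w from funext hw] at h2)
  have h4 := Module.Flat.linearIndependent_one_tmul (S := ℂ) h3
  have h5 := h4.map' (algebraTensorAlgEquiv ℤ ℂ (σ := σ)).toLinearMap
    (LinearMap.ker_eq_bot.mpr (algebraTensorAlgEquiv ℤ ℂ (σ := σ)).injective)
  have h6 : v = ⇑(algebraTensorAlgEquiv ℤ ℂ (σ := σ)).toLinearMap ∘ fun x => 1 ⊗ₜ[ℤ] w x :=
    funext fun i => by simp [hw, toC]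
  rw [h6]; exact h5

lemma isLat_of_int {N : Submodule ℤ (MvPolynomial σ ℂ)} (h1 : N.FG) (h2 : ∀ P ∈ N, ∃ Q, P = toC Q) :
    IsLat N := ⟨h1, fun _ _ hv => linearIndependent_of_int fun i => h2 _ (hv i)⟩

end ToC

section Lat

variable {V E : Type*} [AddCommGroup V] [Module ℂ V] [NormedAddCommGroup E]
  [InnerProductSpace ℂ E]

lemma IsLat.mono {N Λ : Submodule ℤ V} (h : IsLat Λ) (hN : N ≤ Λ) : IsLat N :=
  ⟨by
    have : Module.Finite ℤ Λ := Module.Finite.iff_fg.mpr h.1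
    exact Module.Finite.iff_fg.mp
      (Module.Finite.of_injective (Submodule.inclusion hN) (Submodule.inclusion_injective hN)),
    fun n v hv => h.2 n v fun i => hN (hv i)⟩

lemma IsLat.li {Λ : Submodule ℤ V} (h : IsLat Λ) {n : Type*} [Fintype n] {v : n → V}
    (h1 : ∀ i, v i ∈ Λ) (h2 : LinearIndependent ℤ v) : LinearIndependent ℂ v :=
  (linearIndependent_equiv (Fintype.equivFin n).symm).mp
    (h.2 _ _ (fun _ => h1 _) ((linearIndependent_equiv (Fintype.equivFin n).symm).mpr h2))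

lemma exists_isBas {N : Submodule ℤ V} (h : N.FG) : ∃ v : Fin (finrank ℤ N) → V, IsBas N v := by
  have : Module.Finite ℤ N := Module.Finite.iff_fg.mpr h
  have : IsAddTorsionFree V := .of_isTorsionFree ℂ V
  let b := Module.finBasis ℤ N
  refine ⟨fun i => b i, b.linearIndependent.map' N.subtype N.ker_subtype, ?_⟩
  have h2 := congrArg (Submodule.map N.subtype) b.span_eq
  rwa [Submodule.map_span, ← Set.range_comp, Submodule.map_top, Submodule.range_subtype] at h2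

@[simp] lemma lcov_bot (ι : V →ₗ[ℂ] E) : lcov ι ⊥ = 0 := by
  have : IsEmpty (Fin (finrank ℤ (⊥ : Submodule ℤ V))) := by rw [finrank_bot]; infer_instance
  unfold lcov
  split_ifs
  · simp [lvol]
  · rfl

end Lat

section Hilb

variable {σ E : Type*} [NormedAddCommGroup E] [InnerProductSpace ℂ E]

lemma isLat_Jl [Finite σ] (J : Ideal (MvPolynomial σ ℤ)) (R : ℕ) : IsLat (Jl J R) := by
  refine IsLat.mono (isLat_of_int ?_ fun P hP => ?_) (Jl_mono le_top R)
  · rw [Jl_top_eq]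
    exact Submodule.fg_span ((Finsupp.finite_of_degree_eq R).image _)
  · obtain ⟨Q, -, -, h⟩ := mem_Jl.mp hP
    exact ⟨Q, h.symm⟩

lemma finrank_Jl_mono [Finite σ] {J J' : Ideal (MvPolynomial σ ℤ)} (h : J ≤ J') (R : ℕ) :
    finrank ℤ (Jl J R) ≤ finrank ℤ (Jl J' R) :=
  have : Module.Finite ℤ (Jl J' R) := Module.Finite.iff_fg.mpr (isLat_Jl J' R).1
  Submodule.finrank_mono (Jl_mono h R)

@[simp] lemma Hf_top (R : ℕ) : Hf (⊤ : Ideal (MvPolynomial σ ℤ)) R = 0 := sub_self _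

@[simp] lemma chi_top (ι : MvPolynomial σ ℂ →ₗ[ℂ] E) (R : ℕ) : chi ι ⊤ R = 0 := sub_self _

lemma Hf_anti [Finite σ] {J J' : Ideal (MvPolynomial σ ℤ)} (h : J ≤ J') (R : ℕ) :
    Hf J' R ≤ Hf J R :=
  sub_le_sub_left (by exact_mod_cast finrank_Jl_mono h R) _

lemma Hf_nonneg [Finite σ] (J : Ideal (MvPolynomial σ ℤ)) (R : ℕ) : 0 ≤ Hf J R :=
  (Hf_top R).symm.le.trans (Hf_anti le_top R)

lemma Hf_nat [Finite σ] (J : Ideal (MvPolynomial σ ℤ)) (R : ℕ) : ∃ n : ℕ, Hf J R = n :=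
  ⟨_, (Nat.cast_sub (finrank_Jl_mono (le_top (a := J)) R)).symm⟩

lemma mem_col {J : Ideal (MvPolynomial σ ℤ)} {g P : MvPolynomial σ ℤ} :
    P ∈ col J g ↔ g * P ∈ J := Iff.rfl

end Hilb

lemma chi_nonneg (hI : StI) {σ E : Type} [Finite σ] [NormedAddCommGroup E] [InnerProductSpace ℂ E]
    {ι : MvPolynomial σ ℂ →ₗ[ℂ] E} (hι : Function.Injective ι) {J : Ideal (MvPolynomial σ ℤ)}
    {R : ℕ} (h : Hf J R = 0) : 0 ≤ chi ι J R :=
  sub_nonneg.mpr (hI _ _ ι _ _ hι (isLat_Jl ⊤ R) (Jl_mono le_top R)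
    (by exact_mod_cast (sub_eq_zero.mp h).symm))

/-! ### The Euclidean norm and the twisted norm -/

section L2

variable {σ κ : Type}

@[simp] lemma l2_apply (P : MvPolynomial σ ℂ) (m : σ →₀ ℕ) : l2 σ P m = coeff m P := rfl

lemma l2_injective : Function.Injective (l2 σ) := fun P Q h => by
  ext m; rw [← l2_apply, h, l2_apply]

lemma norm_l2_sq {P : MvPolynomial σ ℂ} {s : Finset (σ →₀ ℕ)} (h : P.support ⊆ s) :
    ‖l2 σ P‖ ^ 2 = ∑ m ∈ s, ‖coeff m P‖ ^ 2 := by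
  have h1 := lp.norm_rpow_eq_tsum (p := 2) (by norm_num) (l2 σ P)
  simp only [ENNReal.toReal_ofNat, Real.rpow_ofNat, l2_apply] at h1
  rw [h1, tsum_eq_sum]
  intro m hm
  rw [notMem_support_iff.mp fun h2 => hm (h h2)]; simp

lemma norm_coeff_le_l2 (P : MvPolynomial σ ℂ) (m : σ →₀ ℕ) : ‖coeff m P‖ ≤ ‖l2 σ P‖ :=
  lp.norm_apply_le_norm (by norm_num) (l2 σ P) m

lemma l1_le_card_mul (P : MvPolynomial σ ℂ) : l1 P ≤ P.support.card * ‖l2 σ P‖ := by
  simpa [l1] using Finset.sum_le_card_nsmul _ _ _ fun m (_ : m ∈ P.support) => norm_coeff_le_l2 P m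

lemma norm_l2_monomial_mul (m : σ →₀ ℕ) (a : ℂ) (P : MvPolynomial σ ℂ) :
    ‖l2 σ (monomial m a * P)‖ = ‖a‖ * ‖l2 σ P‖ := by
  classical
  refine (pow_left_inj₀ (norm_nonneg _) (by positivity) two_ne_zero).mp ?_
  have h1 : (monomial m a * P).support ⊆ P.support.image (m + ·) := fun n hn => by
    rw [MvPolynomial.mem_support_iff, coeff_monomial_mul'] at hn
    split_ifs at hn with h
    · exact Finset.mem_image.mpr ⟨n - m, MvPolynomial.mem_support_iff.mpr (right_ne_zero_of_mul hn),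
        add_tsub_cancel_of_le h⟩
    · exact absurd rfl hn
  rw [norm_l2_sq h1, Finset.sum_image fun _ _ _ _ h => add_left_cancel h, mul_pow,
    norm_l2_sq subset_rfl, Finset.mul_sum]
  exact Finset.sum_congr rfl fun n _ => by rw [coeff_monomial_mul, norm_mul, mul_pow]

lemma norm_l2_mul_le (g P : MvPolynomial σ ℂ) : ‖l2 σ (g * P)‖ ≤ l1 g * ‖l2 σ P‖ := by
  conv_lhs => rw [g.as_sum, Finset.sum_mul, map_sum]
  rw [l1, Finset.sum_mul]
  exact (norm_sum_le _ _).trans (Finset.sum_le_sum fun m _ => (norm_l2_monomial_mul _ _ _).le)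

lemma norm_l2_one : ‖l2 σ 1‖ = 1 := by
  classical
  refine (pow_left_inj₀ (norm_nonneg _) zero_le_one two_ne_zero).mp ?_
  rw [norm_l2_sq (s := {0}) (by rw [← C_1]; exact support_monomial_subset)]
  simp

lemma norm_l2_le_l1 (P : MvPolynomial σ ℂ) : ‖l2 σ P‖ ≤ l1 P := by
  simpa [norm_l2_one] using norm_l2_mul_le P 1

@[simp] lemma tay_X_none (θ : κ → ℂ) (ε : ℂ) : tay θ ε (X none) = 1 := by simp [tay]

@[simp] lemma tay_X_some (θ : κ → ℂ) (ε : ℂ) (i : κ) :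
    tay θ ε (X (some i)) = C (θ i) + C ε * X i := by simp [tay]

@[simp] lemma tay_C (θ : κ → ℂ) (ε a : ℂ) : tay θ ε (C a) = C a := by simp [tay]

variable (θ : κ → ℂ) (U : ℝ) (δ R : ℕ)

lemma norm_tw_sq (P : MvPolynomial (Option κ) ℂ) : ‖tw θ U δ R P‖ ^ 2 = ‖l2 _ P‖ ^ 2 +
    (Real.exp (U * (R / δ : ℕ)) * ‖l2 κ (tay θ ((Real.exp (-U) : ℝ) : ℂ) P)‖) ^ 2 := by
  rw [WithLp.prod_norm_sq_eq_of_L2]
  congr 2
  change ‖((Real.exp (U * (R / δ : ℕ)) : ℝ) : ℂ) • l2 κ (tay θ _ P)‖ = _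
  rw [norm_smul, Complex.norm_real, Real.norm_of_nonneg (Real.exp_pos _).le]

lemma norm_l2_le_tw (P : MvPolynomial (Option κ) ℂ) : ‖l2 _ P‖ ≤ ‖tw θ U δ R P‖ :=
  (pow_le_pow_iff_left₀ (norm_nonneg _) (norm_nonneg _) two_ne_zero).mp (by
    rw [norm_tw_sq]; exact le_add_of_nonneg_right (sq_nonneg _))

lemma norm_tay_le_tw (P : MvPolynomial (Option κ) ℂ) :
    Real.exp (U * (R / δ : ℕ)) * ‖l2 κ (tay θ ((Real.exp (-U) : ℝ) : ℂ) P)‖ ≤ ‖tw θ U δ R P‖ :=
  (pow_le_pow_iff_left₀ (by positivity) (norm_nonneg _) two_ne_zero).mp (by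
    rw [norm_tw_sq]; exact le_add_of_nonneg_left (sq_nonneg _))

lemma tw_injective : Function.Injective (tw θ U δ R) :=
  (injective_iff_map_eq_zero _).mpr fun P hP => l2_injective (by
    have := norm_l2_le_tw θ U δ R P
    rw [hP, norm_zero] at this
    rw [map_zero, norm_le_zero_iff.mp this])

lemma norm_tw_le (P : MvPolynomial (Option κ) ℂ) : ‖tw θ U δ R P‖ ≤
    l1 P + Real.exp (U * (R / δ : ℕ)) * l1 (tay θ ((Real.exp (-U) : ℝ) : ℂ) P) := by
  have h1 := norm_l2_le_l1 P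
  have h2 := mul_le_mul_of_nonneg_left (norm_l2_le_l1 (tay θ ((Real.exp (-U) : ℝ) : ℂ) P))
    (Real.exp_pos (U * (R / δ : ℕ))).le
  have h3 := norm_nonneg (l2 _ P)
  have h4 : 0 ≤ Real.exp (U * (R / δ : ℕ)) * ‖l2 κ (tay θ ((Real.exp (-U) : ℝ) : ℂ) P)‖ := by
    positivity
  refine (pow_le_pow_iff_left₀ (norm_nonneg _) (by linarith) two_ne_zero).mp ?_
  rw [norm_tw_sq]
  nlinarith

lemma norm_tw_mul_le (R' : ℕ) {g : MvPolynomial (Option κ) ℂ} {γ : ℝ} (h1 : l1 g ≤ γ)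
    (h2 : Real.exp (U * (R' / δ : ℕ)) * l1 (tay θ ((Real.exp (-U) : ℝ) : ℂ) g) ≤
      γ * Real.exp (U * (R / δ : ℕ))) (P : MvPolynomial (Option κ) ℂ) :
    ‖tw θ U δ R' (g * P)‖ ≤ γ * ‖tw θ U δ R P‖ := by
  have h0 : 0 ≤ γ := (l1_nonneg g).trans h1
  refine (pow_le_pow_iff_left₀ (norm_nonneg _) (by positivity) two_ne_zero).mp ?_
  rw [mul_pow, norm_tw_sq, norm_tw_sq, mul_add, ← mul_pow, ← mul_pow, map_mul (tay θ _)]
  refine add_le_add (pow_le_pow_left₀ (norm_nonneg _) ((norm_l2_mul_le g P).trans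
    (mul_le_mul_of_nonneg_right h1 (norm_nonneg _))) 2) (pow_le_pow_left₀ (by positivity) ?_ 2)
  refine (mul_le_mul_of_nonneg_left (norm_l2_mul_le _ _) (Real.exp_pos _).le).trans ?_
  rw [← mul_assoc, ← mul_assoc]
  exact mul_le_mul_of_nonneg_right h2 (norm_nonneg _)

end L2

/-! ### The ideal of a point -/

section VI

variable {κ : Type*} (θ : κ → ℂ)

@[simp] lemma pt_none : pt θ none = 1 := rfl

@[simp] lemma pt_some (i : κ) : pt θ (some i) = θ i := rfl

lemma vI_isPrime : (vI θ).IsPrime := RingHom.ker_isPrime _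

lemma vI_aux {P : MvPolynomial (Option κ) ℤ} {n : ℕ} (h : P.IsHomogeneous n) :
    eval₂Hom (Int.castRingHom (Polynomial ℂ)) (fun o => Polynomial.C (pt θ o) * Polynomial.X) P =
      Polynomial.monomial n (aeval (pt θ) P) := by
  conv => rw [P.as_sum, map_sum, map_sum, map_sum]
  refine Finset.sum_congr rfl fun m hm => ?_
  rw [eval₂Hom_monomial, aeval_monomial, ← degree_of_mem_support h hm, Finsupp.degree_apply,
    ← Polynomial.C_mul_X_pow_eq_monomial, ← Finset.prod_pow_eq_pow_sum, Finsupp.prod, Finsupp.prod,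
    map_mul, map_prod, mul_assoc, ← Finset.prod_mul_distrib]
  simp [mul_pow]

lemma mem_vI_iff {P : MvPolynomial (Option κ) ℤ} {n : ℕ} (h : P.IsHomogeneous n) :
    P ∈ vI θ ↔ aeval (pt θ) P = 0 := by
  rw [vI, RingHom.mem_ker, vI_aux θ h, Polynomial.monomial_eq_zero_iff]

lemma vI_isHom : IsHom (vI θ) := fun P hP n => by
  rw [mem_vI_iff θ (homogeneousComponent_isHomogeneous n P)]
  rw [vI, RingHom.mem_ker, ← sum_homogeneousComponent P, map_sum] at hP
  have h1 := congrArg (Polynomial.coeff · n) hP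
  simp only [vI_aux θ (homogeneousComponent_isHomogeneous _ P), Polynomial.finset_sum_coeff,
    Polynomial.coeff_monomial, Polynomial.coeff_zero, Finset.sum_ite_eq', Finset.mem_range] at h1
  split_ifs at h1 with h2
  · exact h1
  · rw [homogeneousComponent_eq_zero _ _ (by omega), map_zero]

end VI

/-! ### States of the descent -/

section ZP

variable {E A : Type*} [NormedAddCommGroup E] [InnerProductSpace ℝ E] [CommRing A]
  {M M' : Submodule ℤ E} {g : E → A} {R R' L L' : ℝ} {v w : A}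

lemma Val.mono (h : v ∈ Val M g R L) (hM : M ≤ M') (hR : R ≤ R') (hL : L ≤ L') :
    v ∈ Val M' g R' L' :=
  let ⟨l, h1, h2, h3⟩ := h
  ⟨l, fun p hp => ⟨hM (h1 p hp).1, (h1 p hp).2.trans hR⟩, h2.trans hL, h3⟩

lemma Val.zero (hL : 0 ≤ L) : (0 : A) ∈ Val M g R L := ⟨[], by simp, by simpa, by simp⟩

lemma Val.single {a : E} (ha : a ∈ M) (hR : ‖a‖ ≤ R) {n : ℤ} (hn : |(n : ℝ)| ≤ L) :
    (n : A) * g a ∈ Val M g R L := ⟨[(n, a)], by simpa using ⟨ha, hR⟩, by simpa, by simp⟩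

lemma Val.add (h1 : v ∈ Val M g R L) (h2 : w ∈ Val M g R L') : v + w ∈ Val M g R (L + L') := by
  obtain ⟨l, a1, a2, rfl⟩ := h1
  obtain ⟨l', b1, b2, rfl⟩ := h2
  refine ⟨l ++ l', fun p hp => (List.mem_append.mp hp).elim (a1 p) (b1 p), ?_, by simp⟩
  rw [List.map_append, List.sum_append]
  exact add_le_add a2 b2

lemma Val.neg (h : v ∈ Val M g R L) : -v ∈ Val M g R L := by
  obtain ⟨l, a1, a2, rfl⟩ := h
  refine ⟨l.map fun p => (-p.1, p.2), fun p hp => ?_, ?_, ?_⟩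
  · obtain ⟨p', hp', rfl⟩ := List.mem_map.mp hp
    exact a1 p' hp'
  · simpa [Function.comp_def] using a2
  · simp [Function.comp_def, List.sum_neg]

lemma Val.sum {ι : Type*} (s : Finset ι) (f : ι → A) (l : ι → ℝ)
    (h : ∀ i ∈ s, f i ∈ Val M g R (l i)) : ∑ i ∈ s, f i ∈ Val M g R (∑ i ∈ s, l i) := by
  classical
  induction s using Finset.induction_on with
  | empty => simpa using Val.zero le_rfl
  | insert i s hi ih =>
    rw [Finset.sum_insert hi, Finset.sum_insert hi]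
    exact Val.add (h i (Finset.mem_insert_self _ _))
      (ih fun j hj => h j (Finset.mem_insert_of_mem hj))

lemma Val.mul (hg : ∀ a ∈ M, ∀ b ∈ M, g (a + b) = g a * g b) (h : v ∈ Val M g R L) {a : E}
    (ha : a ∈ M) : v * g a ∈ Val M g (R + ‖a‖) L := by
  obtain ⟨l, a1, a2, rfl⟩ := h
  refine ⟨l.map fun p => (p.1, p.2 + a), fun p hp => ?_, by simpa [Function.comp_def] using a2, ?_⟩
  · obtain ⟨p', hp', rfl⟩ := List.mem_map.mp hp
    exact ⟨M.add_mem (a1 p' hp').1 ha, (norm_add_le _ _).trans (add_le_add_left (a1 p' hp').2 _)⟩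
  · rw [← List.sum_map_mul_right, List.map_map]
    exact congrArg List.sum (List.map_congr_left fun p hp => by
      simp [hg _ (a1 p hp).1 a ha, mul_assoc])

lemma Val.mem_adjoin [Algebra ℚ A] (h : v ∈ Val M g R L) : v ∈ Algebra.adjoin ℚ (g '' M) := by
  obtain ⟨l, a1, -, rfl⟩ := h
  refine Subalgebra.list_sum_mem _ fun x hx => ?_
  obtain ⟨p, hp, rfl⟩ := List.mem_map.mp hx
  exact Subalgebra.mul_mem _ (intCast_mem _ _) (Algebra.subset_adjoin ⟨p.2, (a1 p hp).1, rfl⟩)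

lemma Cnt.mono {t : ℕ} {α α' : ℝ} (h : Cnt M' g t α) (hM : M ≤ M') (hα : α ≤ α') : Cnt M g t α' := by
  filter_upwards [h, eventually_ge_atTop 0] with R h1 h2 s hs
  refine (h1 s fun v hv => Val.mono (hs v hv) hM le_rfl le_rfl).trans ?_
  gcongr

lemma Vol.mono {ρ : ℕ} {β β' : ℝ} (h : Vol M ρ β) (hβ : β ≤ β') : Vol M ρ β' := by
  filter_upwards [h, eventually_ge_atTop 0] with R ⟨s, h1, h2⟩ h3
  refine ⟨s, h1, le_trans ?_ h2⟩
  gcongr

lemma Thin.mono {t t' : ℝ} (h : Thin M t) (ht : t ≤ t') : Thin M t' := fun ξ h1 h2 =>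
  (Real.exp_le_exp.mpr (neg_le_neg ht)).trans (h ξ h1 h2)

lemma Sep.mono {ζ : E →ₗ[ℝ] ℂ} {x x' : ℝ} (h : Sep M' ζ x) (hM : M ≤ M') (hx : x' ≤ x) :
    Sep M ζ x' := fun a h1 h2 h3 => (Real.exp_le_exp.mpr hx).trans (h a (hM h1) h2 h3)

variable [Algebra ℚ A] {ζ : E →ₗ[ℝ] ℂ} {W : Submodule ℤ ℂ} {ev : A →ₐ[ℚ] ℂ} {ρ τ : ℕ}
  {α α' β β' : ℝ}

lemma St.mono (h : St ζ W M g ev ρ τ α β) (hα : α ≤ α') (hβ : β ≤ β') : St ζ W M g ev ρ τ α' β' :=
  { h with cnt := h.cnt.mono le_rfl hα, vol := h.vol.mono hβ }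

lemma St.finite (h : St ζ W M g ev ρ τ α β) : Module.Finite ℤ M := Module.Finite.iff_fg.mpr h.fg

lemma St.free (h : St ζ W M g ev ρ τ α β) : Module.Free ℤ M :=
  have := h.finite
  have : IsAddTorsionFree E := .of_isTorsionFree ℝ E
  inferInstance

lemma St.mul_neg (h : St ζ W M g ev ρ τ α β) {a : E} (ha : a ∈ M) : g a * g (-a) = 1 := by
  rw [← h.mul a ha _ (M.neg_mem ha), add_neg_cancel, h.one]

lemma St.nsmul (h : St ζ W M g ev ρ τ α β) {a : E} (ha : a ∈ M) (n : ℕ) : g (n • a) = g a ^ n := by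
  induction n with
  | zero => simpa using h.one
  | succ n ih => rw [succ_nsmul, h.mul _ (nsmul_mem ha n) a ha, ih, pow_succ]

lemma St.tau_eq_zero (h : St ζ W M g ev 0 τ α β) : τ = 0 := by
  have := h.finite
  have : IsAddTorsionFree E := .of_isTorsionFree ℝ E
  have : Nontrivial A := ev.domain_nontrivial
  have h1 : M = ⊥ := Submodule.finrank_eq_zero.mp h.rk
  have h2 := h.ind
  have h3 : Algebra.adjoin ℚ (g '' M) = ⊥ := by
    rw [h1, eq_bot_iff, Algebra.adjoin_le_iff]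
    rintro _ ⟨a, ha, rfl⟩
    rw [(Submodule.mem_bot ℤ).mp ha, h.one]
    exact one_mem _
  have : Algebra.IsAlgebraic ℚ (⊥ : Subalgebra ℚ A) := ⟨fun ⟨_, ⟨c, rfl⟩⟩ => isAlgebraic_algebraMap c⟩
  rw [h3, trdeg_eq_zero] at h2
  simpa using h2

end ZP

end Pool.Agent.Lib.MP_12eca1_ag.P
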