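import Mathlib

/-!
Definitions and statements for the polynomial bound in the large transcendence degree theorem
without the technical hypothesis.
-/

namespace Pool.Agent.Lib.MP_12eca1_ag.P

open MvPolynomial Filter Module

/-! ### Covolumes of lattices in Hermitian spaces -/

section Vol

variable {V E : Type*} [AddCommGroup V] [Module ℂ V] [NormedAddCommGroup E]
  [InnerProductSpace ℂ E]

/-- half of the logarithm of the Gram determinant -/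
noncomputable def lvol {n : Type*} [Fintype n] [DecidableEq n] (v : n → E) : ℝ :=
  Real.log ‖(Matrix.gram ℂ v).det‖ / 2

/-- a finitely generated subgroup whose independent families are independent over `ℂ` -/
def IsLat (N : Submodule ℤ V) : Prop :=
  N.FG ∧ ∀ (n : ℕ) (v : Fin n → V), (∀ i, v i ∈ N) → LinearIndependent ℤ v → LinearIndependent ℂ v

/-- a basis of a subgroup -/
def IsBas (N : Submodule ℤ V) {n : Type*} (v : n → V) : Prop :=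
  LinearIndependent ℤ v ∧ Submodule.span ℤ (Set.range v) = N

open Classical in
/-- the logarithm of the covolume of `N` for the Hermitian form pulled back by `ι` -/
noncomputable def lcov (ι : V →ₗ[ℂ] E) (N : Submodule ℤ V) : ℝ :=
  if h : ∃ v : Fin (finrank ℤ N) → V, IsBas N v then lvol fun i => ι (h.choose i) else 0

end Vol

/-- comparison of relative volumes through distances to flags -/
def StV : Prop :=
  ∀ (E E' : Type) [NormedAddCommGroup E] [InnerProductSpace ℂ E] [NormedAddCommGroup E']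
    [InnerProductSpace ℂ E'] (a a' b : ℕ) (v : Fin a → E) (u : Fin b → E) (v' : Fin a' → E')
    (u' : Fin b → E') (γ : Fin b → ℝ), LinearIndependent ℂ (Sum.elim v u) →
    LinearIndependent ℂ (Sum.elim v' u') → (∀ i, 0 < γ i) →
    (∀ i, ∀ s' ∈ Submodule.span ℂ (Set.range v' ∪ u' '' Set.Iio i),
      ∃ s ∈ Submodule.span ℂ (Set.range v ∪ u '' Set.Iio i), ‖u i - s‖ ≤ γ i * ‖u' i - s'‖) →
    lvol (Sum.elim v u) - lvol v ≤ ∑ i, Real.log (γ i) + (lvol (Sum.elim v' u') - lvol v')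

/-- change of basis -/
def StChg : Prop :=
  ∀ (E n : Type) [NormedAddCommGroup E] [InnerProductSpace ℂ E] [Fintype n] [DecidableEq n]
    (v : n → E) (A : Matrix n n ℂ), LinearIndependent ℂ v → A.det ≠ 0 →
    lvol (fun i => ∑ j, A i j • v j) = Real.log ‖A.det‖ + lvol v

/-- the index formula -/
def StIdx : Prop :=
  ∀ (V E n : Type) [AddCommGroup V] [Module ℂ V] [NormedAddCommGroup E] [InnerProductSpace ℂ E]
    [Fintype n] [DecidableEq n] (ι : V →ₗ[ℂ] E) (Λ : Submodule ℤ V) (v : n → V),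
    Function.Injective ι → IsLat Λ → (∀ i, v i ∈ Λ) → LinearIndependent ℤ v →
    Fintype.card n = finrank ℤ Λ →
    (Submodule.span ℤ (Set.range v)).toAddSubgroup.relIndex Λ.toAddSubgroup ≠ 0 ∧
    lvol (fun i => ι (v i)) = lcov ι Λ +
      Real.log ((Submodule.span ℤ (Set.range v)).toAddSubgroup.relIndex Λ.toAddSubgroup)

/-- covolumes and a bounded linear map -/
def StL : Prop :=
  ∀ (V' V E' E : Type) [AddCommGroup V'] [Module ℂ V'] [AddCommGroup V] [Module ℂ V]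
    [NormedAddCommGroup E'] [InnerProductSpace ℂ E'] [NormedAddCommGroup E] [InnerProductSpace ℂ E]
    (ι' : V' →ₗ[ℂ] E') (ι : V →ₗ[ℂ] E) (φ : V' →ₗ[ℂ] V) (Λ' : Submodule ℤ V')
    (Λ N : Submodule ℤ V) (γ : ℝ), Function.Injective ι' → Function.Injective ι → IsLat Λ' →
    IsLat Λ → N ≤ Λ → Λ'.map (φ.restrictScalars ℤ) ≤ Λ → 0 < γ →
    (∀ x ∈ Submodule.span ℂ (Λ' : Set V'), ‖ι (φ x)‖ ≤ γ * ‖ι' x‖) →
    finrank ℤ ↥(N ⊔ Λ'.map (φ.restrictScalars ℤ)) +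
        finrank ℤ ↥(Λ' ⊓ N.comap (φ.restrictScalars ℤ)) = finrank ℤ N + finrank ℤ Λ' ∧
    lcov ι (N ⊔ Λ'.map (φ.restrictScalars ℤ)) - lcov ι N ≤
      ((finrank ℤ Λ' : ℝ) - finrank ℤ ↥(Λ' ⊓ N.comap (φ.restrictScalars ℤ))) * Real.log γ +
        (lcov ι' Λ' - lcov ι' (Λ' ⊓ N.comap (φ.restrictScalars ℤ)))

/-- a Hadamard inequality for a quotient -/
def StHad : Prop :=
  ∀ (V E : Type) [AddCommGroup V] [Module ℂ V] [NormedAddCommGroup E] [InnerProductSpace ℂ E]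
    (ι : V →ₗ[ℂ] E) (Λ N : Submodule ℤ V) (G : Set V) (γ : ℝ), Function.Injective ι → IsLat Λ →
    N ⊔ Submodule.span ℤ G = Λ → 0 < γ →
    (∀ g ∈ G, ∃ s ∈ Submodule.span ℂ (N : Set V), ‖ι (g - s)‖ ≤ γ) →
    lcov ι Λ - lcov ι N ≤ ((finrank ℤ Λ : ℝ) - finrank ℤ N) * Real.log γ

/-- a sublattice of the same rank has a larger covolume -/
def StI : Prop :=
  ∀ (V E : Type) [AddCommGroup V] [Module ℂ V] [NormedAddCommGroup E] [InnerProductSpace ℂ E]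
    (ι : V →ₗ[ℂ] E) (Λ N : Submodule ℤ V), Function.Injective ι → IsLat Λ → N ≤ Λ →
    finrank ℤ N = finrank ℤ Λ → lcov ι Λ ≤ lcov ι N

/-- the gain in the covolume of a quotient when the norm is enlarged -/
def StM : Prop :=
  ∀ (V E₀ E₁ n : Type) [AddCommGroup V] [Module ℂ V] [NormedAddCommGroup E₀]
    [InnerProductSpace ℂ E₀] [NormedAddCommGroup E₁] [InnerProductSpace ℂ E₁] [Fintype n]
    (ι₀ : V →ₗ[ℂ] E₀) (ι₁ : V →ₗ[ℂ] E₁) (Λ N : Submodule ℤ V) (Y : Submodule ℂ V) (u : n → V)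
    (lam : ℝ), Function.Injective ι₀ → Function.Injective ι₁ → IsLat Λ → N ≤ Λ →
    Y ≤ Submodule.span ℂ (Λ : Set V) → 1 ≤ lam →
    (∀ x ∈ Submodule.span ℂ (Λ : Set V), ‖ι₀ x‖ ≤ ‖ι₁ x‖) →
    (∀ x ∈ Submodule.span ℂ (Λ : Set V), ∃ y ∈ Y, lam * ‖ι₀ (x - y)‖ ≤ ‖ι₁ x‖) →
    (∀ i, u i ∈ Submodule.span ℂ (Λ : Set V)) →
    (∀ c : n → ℂ, ∑ i, c i • u i ∈ Y ⊔ Submodule.span ℂ (N : Set V) → c = 0) →
    lcov ι₀ Λ - lcov ι₀ N + Fintype.card n * Real.log lam ≤ lcov ι₁ Λ - lcov ι₁ N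

/-! ### Norms on polynomials -/

/-- the sum of the absolute values of the coefficients -/
noncomputable def l1 {σ K : Type*} [NormedCommRing K] (P : MvPolynomial σ K) : ℝ :=
  ∑ m ∈ P.support, ‖coeff m P‖

/-- the space of square summable coefficient families -/
abbrev L2 (σ : Type) : Type := lp (fun _ : σ →₀ ℕ => ℂ) 2

/-- the family of coefficients -/
noncomputable def l2 (σ : Type) : MvPolynomial σ ℂ →ₗ[ℂ] L2 σ where
  toFun P := ⟨fun m => coeff m P, (memℓp_zero (P.support.finite_toSet.subset fun m hm => by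
    simpa using hm)).of_exponent_ge zero_le⟩
  map_add' P Q := by ext m; simp
  map_smul' c P := by ext m; simp

/-- integral polynomials as complex polynomials -/
noncomputable def toC {σ : Type*} : MvPolynomial σ ℤ →+* MvPolynomial σ ℂ :=
  MvPolynomial.map (Int.castRingHom ℂ)

/-- the lattice of forms of degree `R` in an ideal -/
noncomputable def Jl {σ : Type*} (J : Ideal (MvPolynomial σ ℤ)) (R : ℕ) :
    Submodule ℤ (MvPolynomial σ ℂ) :=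
  (J.restrictScalars ℤ ⊓ homogeneousSubmodule σ ℤ R).map toC.toAddMonoidHom.toIntLinearMap

/-- lattices of integral polynomials have covolume at least one -/
def StZ : Prop :=
  ∀ (σ : Type) (N : Submodule ℤ (MvPolynomial σ ℂ)), N.FG → (∀ P ∈ N, ∃ Q, P = toC Q) →
    0 ≤ lcov (l2 σ) N

/-! ### The arithmetic Hilbert function of a homogeneous ideal -/

section Hilb

variable {σ E : Type*} [NormedAddCommGroup E] [InnerProductSpace ℂ E]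

/-- homogeneous ideals -/
def IsHom (J : Ideal (MvPolynomial σ ℤ)) : Prop := ∀ P ∈ J, ∀ n, homogeneousComponent n P ∈ J

/-- the ideal quotient by an element -/
noncomputable def col (J : Ideal (MvPolynomial σ ℤ)) (g : MvPolynomial σ ℤ) :
    Ideal (MvPolynomial σ ℤ) := Submodule.comap (LinearMap.mulLeft (MvPolynomial σ ℤ) g) J

/-- the geometric Hilbert function -/
noncomputable def Hf (J : Ideal (MvPolynomial σ ℤ)) (R : ℕ) : ℝ :=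
  (finrank ℤ (Jl (⊤ : Ideal (MvPolynomial σ ℤ)) R) : ℝ) - finrank ℤ (Jl J R)

/-- the arithmetic Hilbert function -/
noncomputable def chi (ι : MvPolynomial σ ℂ →ₗ[ℂ] E) (J : Ideal (MvPolynomial σ ℤ)) (R : ℕ) : ℝ :=
  lcov ι (Jl J R) - lcov ι (Jl ⊤ R)

/-- the Hilbert function grows at most like `R ^ (t - 1)` -/
def HB (J : Ideal (MvPolynomial σ ℤ)) (t : ℕ) : Prop :=
  ∃ C : ℝ, ∀ᶠ R : ℕ in atTop, Hf J R * R ≤ C * R ^ t

/-- the twisted arithmetic Hilbert function is negative of order `R ^ t` -/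
def Neg (ι : ℕ → MvPolynomial σ ℂ →ₗ[ℂ] E) (k : ℝ) (J : Ideal (MvPolynomial σ ℤ)) (t : ℕ) : Prop :=
  ∃ c : ℝ, 0 < c ∧ ∃ᶠ R : ℕ in atTop, chi (ι R) J R + k * R * Hf J R ≤ -c * R ^ t

end Hilb

/-- the exact sequence of multiplication by a form -/
def StX : Prop :=
  ∀ (σ E' E : Type) [Fintype σ] [NormedAddCommGroup E'] [InnerProductSpace ℂ E']
    [NormedAddCommGroup E] [InnerProductSpace ℂ E] (ι' : MvPolynomial σ ℂ →ₗ[ℂ] E')
    (ι : MvPolynomial σ ℂ →ₗ[ℂ] E) (J : Ideal (MvPolynomial σ ℤ)) (g : MvPolynomial σ ℤ)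
    (e R : ℕ) (γ : ℝ), Function.Injective ι' → Function.Injective ι → IsHom J →
    g.IsHomogeneous e → 0 < γ →
    (∀ P : MvPolynomial σ ℂ, P.IsHomogeneous R → ‖ι (toC g * P)‖ ≤ γ * ‖ι' P‖) →
    Hf J (R + e) = Hf (J ⊔ Ideal.span {g}) (R + e) + Hf (col J g) R ∧
    chi ι (J ⊔ Ideal.span {g}) (R + e) + chi ι' (col J g) R - Hf (col J g) R * Real.log γ ≤
      chi ι J (R + e)

/-- the elimination process -/
def StC : Prop :=
  ∀ (σ E : Type) [Fintype σ] [NormedAddCommGroup E] [InnerProductSpace ℂ E]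
    (ι : ℕ → MvPolynomial σ ℂ →ₗ[ℂ] E) (k : ℝ) (δ : ℕ) (F : Set (MvPolynomial σ ℤ)),
    (∀ R, Function.Injective (ι R)) → 0 ≤ k → 1 ≤ δ →
    (∀ (g : MvPolynomial σ ℤ) (e : ℕ), g.IsHomogeneous e → ∃ γ : ℝ, 0 < γ ∧ ∀ R,
      ∀ P : MvPolynomial σ ℂ, P.IsHomogeneous R → ‖ι (R + e) (toC g * P)‖ ≤ γ * ‖ι R P‖) →
    (∀ f ∈ F, f.IsHomogeneous δ ∧ ∀ R, ∀ P : MvPolynomial σ ℂ, P.IsHomogeneous R →
      ‖ι (R + δ) (toC f * P)‖ ≤ Real.exp (k * δ) * ‖ι R P‖) →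
    ∀ (t : ℕ) (p : Ideal (MvPolynomial σ ℤ)), IsHom p → p.IsPrime → HB p t → Neg ι k p t →
    ∃ (q : Ideal (MvPolynomial σ ℤ)) (t' : ℕ), IsHom q ∧ p ≤ q ∧ (∀ f ∈ F, f ∈ q) ∧ HB q t' ∧
      Neg ι k q t'

/-- the spectral radius formula in a quotient of the Wiener algebra of a polydisc -/
def StG : Prop :=
  ∀ (σ : Type) (I : Ideal (MvPolynomial σ ℂ)) (a : MvPolynomial σ ℂ) (s : ℝ), 0 < s →
    (∀ x : σ → ℂ, (∀ i, ‖x i‖ ≤ 1) → (∀ P ∈ I, eval x P = 0) → ‖eval x a‖ ≤ s) →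
    ∀ᶠ k : ℕ in atTop, ∃ Q : MvPolynomial σ ℂ, a ^ k - Q ∈ I ∧ l1 Q ≤ (2 * s) ^ k

/-- projective coordinates of a point -/
def pt {κ : Type*} (θ : κ → ℂ) : Option κ → ℂ := fun o => o.elim 1 θ

/-- the scaled Taylor expansion of a form at a point -/
noncomputable def tay {κ : Type*} (θ : κ → ℂ) (ε : ℂ) :
    MvPolynomial (Option κ) ℂ →ₐ[ℂ] MvPolynomial κ ℂ :=
  aeval fun o => o.elim 1 fun i => C (θ i) + C ε * X i

/-- the twisted Hermitian structure on forms of degree `R` -/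
noncomputable def tw {κ : Type} (θ : κ → ℂ) (U : ℝ) (δ R : ℕ) :
    MvPolynomial (Option κ) ℂ →ₗ[ℂ] WithLp 2 (L2 (Option κ) × L2 κ) :=
  (WithLp.linearEquiv 2 ℂ (L2 (Option κ) × L2 κ)).symm.toLinearMap ∘ₗ
    (l2 (Option κ)).prod (((Real.exp (U * (R / δ : ℕ)) : ℝ) : ℂ) •
      (l2 κ ∘ₗ (tay θ ((Real.exp (-U) : ℝ) : ℂ)).toLinearMap))

/-- without a zero near the point the twisted Hilbert function is not very negative -/
def StN : Prop :=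
  ∀ (κ : Type) [Fintype κ] (θ : κ → ℂ) (B U ρ : ℝ) (δ : ℕ) (J : Ideal (MvPolynomial (Option κ) ℤ)),
    1 ≤ B → (∀ i, ‖θ i‖ + 1 ≤ B) → 0 ≤ U → 0 ≤ ρ → 2 ≤ δ → IsHom J →
    (¬ ∃ θ' : κ → ℂ, (∀ i, ‖θ' i - θ i‖ ≤ Real.exp (-ρ)) ∧ ∀ P ∈ J, aeval (pt θ') P = 0) →
    ∀ᶠ R : ℕ in atTop,
      -(Hf J R * (1 + R * (2 * Real.log B + (1 + ρ) / δ))) ≤ chi (tw θ U δ R) J R

/-- `T` of the coordinates form a transcendence basis of the field of the point -/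
def TB {κ : Type*} (θ : κ → ℂ) (T : ℕ) : Prop :=
  ∃ e : Fin T → κ, AlgebraicIndependent ℚ (θ ∘ e) ∧
    ∀ i, IsAlgebraic (Algebra.adjoin ℚ (Set.range (θ ∘ e))) (θ i)

/-- existence of a transcendence basis among the coordinates -/
def StTB : Prop :=
  ∀ (κ : Type) [Fintype κ] (θ : κ → ℂ) (T : ℕ),
    Algebra.trdeg ℚ (IntermediateField.adjoin ℚ (Set.range θ)) ≤ T → ∃ T' ≤ T, TB θ T'

/-- the size of monomials over a transcendence basis -/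
def StS : Prop :=
  ∀ (κ : Type) [Fintype κ] (θ : κ → ℂ) (T : ℕ), TB θ T → ∃ d C : ℕ, ∀ R : ℕ,
    ∃ Φ : (κ →₀ ℕ) → Fin d → MvPolynomial (Fin T) ℤ,
      (∀ m, m.degree ≤ R → ∀ l, (Φ m l).totalDegree ≤ C * (R + 1) ∧ l1 (Φ m l) ≤ (C : ℝ) ^ (R + 1)) ∧
      ∀ P : MvPolynomial κ ℤ, P.totalDegree ≤ R →
        (aeval θ P = 0 ↔ ∀ l, ∑ m ∈ P.support, coeff m P • Φ m l = 0)

/-- the homogeneous prime ideal of a point -/
noncomputable def vI {κ : Type*} (θ : κ → ℂ) : Ideal (MvPolynomial (Option κ) ℤ) :=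
  RingHom.ker (eval₂Hom (Int.castRingHom (Polynomial ℂ))
    fun o => Polynomial.C (pt θ o) * Polynomial.X)

/-- upper bounds for the Hilbert functions of the ideal of a point -/
def StD1 : Prop :=
  ∀ (κ : Type) [Fintype κ] (θ : κ → ℂ) (T : ℕ), TB θ T → ∃ C : ℝ, 0 < C ∧ ∀ R : ℕ, 1 ≤ R →
    Hf (vI θ) R ≤ C * R ^ T ∧ chi (l2 (Option κ)) (vI θ) R ≤ C * R ^ (T + 1)

/-- forms of degree `R` vanishing at the point to order larger than `j` -/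
noncomputable def Yv {κ : Type*} (θ : κ → ℂ) (ε : ℂ) (j R : ℕ) :
    Submodule ℂ (MvPolynomial (Option κ) ℂ) :=
  homogeneousSubmodule (Option κ) ℂ R ⊓
    ((idealOfVars κ ℂ ^ (j + 1)).restrictScalars ℂ).comap (tay θ ε).toLinearMap

/-- a lower bound for the Hilbert-Samuel function at the point -/
def StD3 : Prop :=
  ∀ (κ : Type) [Fintype κ] (θ : κ → ℂ) (T : ℕ), TB θ T → ∀ (ε : ℂ) (j R : ℕ), ε ≠ 0 → T * j ≤ R →
    ∃ u : (Fin T → Fin j) → MvPolynomial (Option κ) ℂ, (∀ b, (u b).IsHomogeneous R) ∧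
      ∀ c : (Fin T → Fin j) → ℂ,
        ∑ b, c b • u b ∈ Yv θ ε (T * j) R ⊔ Submodule.span ℂ (Jl (vI θ) R : Set _) → c = 0

/-- the twisted Hilbert function of the ideal of the point is negative -/
def StD : Prop :=
  ∀ (κ : Type) [Fintype κ] (θ : κ → ℂ) (T : ℕ), TB θ T → ∃ C : ℝ, 0 < C ∧ HB (vI θ) (T + 1) ∧
    ∀ (δ : ℕ) (k U : ℝ), 1 ≤ δ → 0 ≤ k → C * δ ^ (T + 1) * (1 + k) ≤ U →
      Neg (tw θ U δ) k (vI θ) (T + 1)

/-- the sharp local Nullstellen inequality -/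
def StB : Prop :=
  ∀ (κ : Type) [Fintype κ] (θ : κ → ℂ) (T : ℕ), TB θ T → ∃ C : ℝ, 0 < C ∧
    ∀ (δ : ℕ) (h ρ U : ℝ) (F : Set (MvPolynomial κ ℤ)), 1 ≤ δ → 0 ≤ h → 0 ≤ ρ →
      C * δ ^ T * (h + ρ + δ) ≤ U →
      (∀ f ∈ F, f.totalDegree ≤ δ ∧ l1 f ≤ Real.exp h ∧ ‖aeval θ f‖ ≤ Real.exp (-U)) →
      ∃ θ' : κ → ℂ, (∀ i, ‖θ' i - θ i‖ ≤ Real.exp (-ρ)) ∧ (∀ f ∈ F, aeval θ' f = 0) ∧
        ∀ Q : MvPolynomial κ ℤ, aeval θ Q = 0 → aeval θ' Q = 0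

/-! ### The zero estimate and the auxiliary function -/

/-- a hypersurface section lowers the dimension by at most one -/
def StE : Prop :=
  ∀ (k A : Type) [Field k] [CommRing A] [IsDomain A] [Algebra k A] [Algebra.FiniteType k A]
    (f : A) (q : Ideal A), q ∈ (Ideal.span {f}).minimalPrimes →
    Algebra.trdeg k A ≤ Algebra.trdeg k (A ⧸ q) + 1

/-- the number of components of an intersection of hypersurfaces -/
def StF1 : Prop :=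
  ∀ m : ℕ, ∃ c : ℕ, ∀ (D : ℕ) (F : Set (MvPolynomial (Fin m) ℂ)), 1 ≤ D →
    (∀ f ∈ F, f.totalDegree ≤ D) → ∀ s : Finset (Ideal (MvPolynomial (Fin m) ℂ)),
      (∀ q ∈ s, q ∈ (Ideal.span F).minimalPrimes) → s.card ≤ c * D ^ m

/-- the zero estimate on a torus -/
def StF : Prop :=
  ∀ m : ℕ, ∃ c : ℕ, ∀ (n D S : ℕ) (γ : Fin m → Fin n → ℂ) (P : MvPolynomial (Fin m) ℂ), 1 ≤ D →
    (∀ i j, γ i j ≠ 0) → P ≠ 0 → P.totalDegree ≤ D →
    (∀ s : Fin n → ℕ, (∀ j, s j ≤ m * S) → eval (fun i => ∏ j, γ i j ^ s j) P = 0) →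
    ∃ lam : Fin m → ℤ, lam ≠ 0 ∧ (∀ i, |lam i| ≤ D) ∧
      (Set.range fun s : Fin n → Fin (S + 1) =>
        ∏ i, (∏ j, γ i j ^ (s j : ℕ)) ^ lam i).ncard ≤ c * D ^ m

/-- the auxiliary function -/
def StA : Prop :=
  ∀ (m k : ℕ) (Z b : ℝ), 2 * k < m → 2 ≤ k → ∀ᶠ t : ℕ in atTop, ∀ x : Fin m → ℂ, (∀ i, ‖x i‖ ≤ Z) →
    ∃ p : (Fin m → Fin t) → ℤ, p ≠ 0 ∧ (∀ a, |p a| ≤ 1) ∧ ∀ w : ℂ, ‖w‖ ≤ Z * t →
      ‖∑ a, (p a : ℂ) * Complex.exp ((∑ i, ((a i : ℕ) : ℂ) * x i) * w)‖ ≤ Real.exp (-(b * t ^ k))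

/-! ### The descent on subtori -/

section ZP

variable {E A : Type*} [NormedAddCommGroup E] [InnerProductSpace ℝ E] [CommRing A]

/-- values of integral Laurent polynomials with exponents of norm at most `R` and length at
most `L` -/
def Val (M : Submodule ℤ E) (g : E → A) (R L : ℝ) : Set A :=
  {v | ∃ l : List (ℤ × E), (∀ p ∈ l, p.2 ∈ M ∧ ‖p.2‖ ≤ R) ∧
    (l.map fun p => |(p.1 : ℝ)|).sum ≤ L ∧ v = (l.map fun p => (p.1 : A) * g p.2).sum}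

/-- an upper bound for the number of values -/
def Cnt (M : Submodule ℤ E) (g : E → A) (t : ℕ) (α : ℝ) : Prop :=
  ∀ᶠ R : ℝ in atTop, ∀ s : Finset A, (∀ v ∈ s, v ∈ Val M g R (Real.exp R)) →
    (s.card : ℝ) ≤ Real.exp (Real.exp α * R ^ t)

/-- a lower bound for the number of lattice points -/
def Vol (M : Submodule ℤ E) (ρ : ℕ) (β : ℝ) : Prop :=
  ∀ᶠ R : ℝ in atTop, ∃ s : Finset E, (∀ a ∈ s, a ∈ M ∧ ‖a‖ ≤ R) ∧ Real.exp (-β) * R ^ ρ ≤ s.card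

/-- a lower bound for the dual lattice -/
def Thin (M : Submodule ℤ E) (t : ℝ) : Prop :=
  ∀ ξ : E, (∀ a ∈ M, ∃ n : ℤ, inner ℝ ξ a = n) → (∃ a ∈ M, inner ℝ ξ a ≠ 0) → Real.exp (-t) ≤ ‖ξ‖

/-- integral linear forms extend to real linear forms -/
def Disc (M : Submodule ℤ E) : Prop :=
  ∀ ψ : M →ₗ[ℤ] ℤ, ∃ ξ : E, ∀ a : M, inner ℝ ξ (a : E) = ψ a

/-- a lower bound for the lattice vectors killed by `ζ` -/
def Sep (M : Submodule ℤ E) (ζ : E →ₗ[ℝ] ℂ) (x : ℝ) : Prop :=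
  ∀ a ∈ M, ζ a = 0 → a ≠ 0 → Real.exp x ≤ ‖a‖

/-- a state of the descent: a lattice of characters, a generic point `g` and the
specialisation `exp ∘ ζ` -/
structure St [Algebra ℚ A] (ζ : E →ₗ[ℝ] ℂ) (W : Submodule ℤ ℂ) (M : Submodule ℤ E) (g : E → A)
    (ev : A →ₐ[ℚ] ℂ) (ρ τ : ℕ) (α β : ℝ) : Prop where
  fg : M.FG
  rk : finrank ℤ M = ρ
  disc : Disc M
  inW : ∀ a ∈ M, ζ a ∈ W
  one : g 0 = 1
  mul : ∀ a ∈ M, ∀ b ∈ M, g (a + b) = g a * g b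
  spec : ∀ a ∈ M, ev (g a) = Complex.exp (ζ a)
  ind : (τ : Cardinal) ≤ Algebra.trdeg ℚ (Algebra.adjoin ℚ (g '' M))
  cnt : Cnt M g (τ + 1) α
  vol : Vol M ρ β

end ZP

/-- passing to the subtorus defined by a trivial character -/
def StQ : Prop :=
  ∀ (E A : Type) [NormedAddCommGroup E] [InnerProductSpace ℝ E] [CommRing A] [Algebra ℚ A]
    (ζ : E →ₗ[ℝ] ℂ) (W : Submodule ℤ ℂ) (M : Submodule ℤ E) (g : E → A) (ev : A →ₐ[ℚ] ℂ)
    (ρ τ : ℕ) (α β t : ℝ) (a₀ : E), St ζ W M g ev ρ τ α β → Thin M t → a₀ ∈ M → a₀ ≠ 0 →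
    ζ a₀ = 0 → g a₀ = 1 → (∀ a ∈ M, ζ a = 0 → a ≠ 0 → 2 * ‖a₀‖ ≤ 3 * ‖a‖) →
    ∃ (ρ' : ℕ) (M' : Submodule ℤ E) (g' : E → A), ρ = ρ' + 1 ∧
      St ζ W M' g' ev ρ' τ (α + (τ + 1)) (β - Real.log ‖a₀‖ + 2) ∧ Thin M' t ∧
      Sep M' ζ (Real.log ‖a₀‖ - 2)

/-- cutting the generic point by a character -/
def StK : Prop :=
  ∀ (E A : Type) [NormedAddCommGroup E] [InnerProductSpace ℝ E] [CommRing A] [IsDomain A]
    [Algebra ℚ A] (ζ : E →ₗ[ℝ] ℂ) (W : Submodule ℤ ℂ) (M : Submodule ℤ E) (g : E → A)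
    (ev : A →ₐ[ℚ] ℂ) (ρ τ : ℕ) (α β : ℝ) (a₀ : E), St ζ W M g ev ρ τ α β → a₀ ∈ M → ζ a₀ = 0 →
    g a₀ ≠ 1 → ∃ (τ' : ℕ) (A' : Type) (_ : CommRing A') (_ : IsDomain A') (_ : Algebra ℚ A')
      (g' : E → A') (ev' : A' →ₐ[ℚ] ℂ), τ = τ' + 1 ∧ g' a₀ = 1 ∧
      St ζ W M g' ev' ρ τ' (α + Real.log (‖a₀‖ + 1) + 2 * (τ + 1)) β

/-- projecting to a quotient torus -/
def StDr : Prop :=
  ∀ (E A : Type) [NormedAddCommGroup E] [InnerProductSpace ℝ E] [CommRing A] [IsDomain A]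
    [Algebra ℚ A] (ζ : E →ₗ[ℝ] ℂ) (W : Submodule ℤ ℂ) (M : Submodule ℤ E) (g : E → A)
    (ev : A →ₐ[ℚ] ℂ) (ρ τ : ℕ) (α β t : ℝ), St ζ W M g ev (ρ + 1) τ α β → Thin M t →
    ∃ (M' : Submodule ℤ E) (x : ℝ), M' ≤ M ∧ x ≤ t ∧ Thin M' (x + 2) ∧
      (St ζ W M' g ev ρ τ α (β - x + 2 + ρ) ∨ ∃ τ', τ = τ' + 1 ∧
        St ζ W M' g ev ρ τ' (α + x + 2 * (τ + 1)) (β - x + 2 + ρ))

/-- a weak form of the theorem of Dobrowolski -/
def StDob : Prop :=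
  ∀ (γ : ℂ) (d : ℕ) (P : Polynomial ℚ), γ ≠ 0 → P ≠ 0 → P.natDegree ≤ d →
    Polynomial.aeval γ P = 0 → (∃ j, 0 < j ∧ j ≤ 2 * d ^ 2 ∧ γ ^ j = 1) ∨
      ∃ k, 0 < k ∧ k ≤ 24 * d ^ 2 ∧ ∀ Q : Polynomial ℤ, Q ≠ 0 → (∀ i, |Q.coeff i| ≤ 1) →
        Polynomial.aeval (γ ^ k) Q ≠ 0

/-- lower bounds in dimension zero -/
def StT : Prop :=
  ∀ (E A : Type) [NormedAddCommGroup E] [InnerProductSpace ℝ E] [CommRing A] [Algebra ℚ A]
    (ζ : E →ₗ[ℝ] ℂ) (W : Submodule ℤ ℂ) (M : Submodule ℤ E) (g : E → A) (ev : A →ₐ[ℚ] ℂ)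
    (ρ : ℕ) (α β Z : ℝ), St ζ W M g ev ρ 0 α β → 1 ≤ Z → (∀ v, ‖ζ v‖ ≤ Z * ‖v‖) →
    0 ≤ α ∧ ((∀ a ∈ M, ζ a = 0 → a = 0) → -β ≤ ρ * (3 * α + 6 + Real.log Z))

/-- the descent: the lattice of relations of the specialisation contains a short vector -/
def StH : Prop :=
  ∀ (n r T : ℕ) (Z α β : ℝ), r < n → 4 * r * T < n → 1 ≤ Z → ∃ μ : ℝ,
    ∀ (E A : Type) [NormedAddCommGroup E] [InnerProductSpace ℝ E] [CommRing A] [IsDomain A]
      [Algebra ℚ A] (ζ : E →ₗ[ℝ] ℂ) (W : Submodule ℤ ℂ) (M : Submodule ℤ E) (g : E → A)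
      (ev : A →ₐ[ℚ] ℂ) (τ : ℕ), τ ≤ T → W.FG → finrank ℤ W ≤ r → (∀ v, ‖ζ v‖ ≤ Z * ‖v‖) →
      St ζ W M g ev n τ α β → Thin M 0 → Sep M ζ 0 →
      ∃ a ∈ M, a ≠ 0 ∧ ζ a = 0 ∧ (‖a‖ ≤ μ ∨ g a = 1)

/-- the standard lattice -/
def ZL (n : ℕ) : Submodule ℤ (EuclideanSpace ℝ (Fin n)) where
  carrier := {a | ∀ i, ∃ k : ℤ, a i = k}
  add_mem' := fun {a b} ha hb i => by
    obtain ⟨k, hk⟩ := ha i
    obtain ⟨l, hl⟩ := hb i
    exact ⟨k + l, by simp [hk, hl]⟩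
  zero_mem' := fun _ => ⟨0, by simp⟩
  smul_mem' := fun c a ha i => by
    obtain ⟨k, hk⟩ := ha i
    exact ⟨c * k, by simp [hk]⟩

/-- the linear form with coefficients `z` -/
noncomputable def zt {n : ℕ} (z : Fin n → ℂ) : EuclideanSpace ℝ (Fin n) →ₗ[ℝ] ℂ where
  toFun a := ∑ i, (a i : ℂ) * z i
  map_add' a b := by simp [add_mul, Finset.sum_add_distrib]
  map_smul' c a := by simp [Finset.mul_sum, mul_assoc]

/-- the exponentials and their inverses -/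
noncomputable def ex2 {n : ℕ} (z : Fin n → ℂ) : Fin n ⊕ Fin n → ℂ :=
  Sum.elim (fun i => Complex.exp (z i)) fun i => Complex.exp (-z i)

/-- the initial state of the descent -/
def StIn : Prop :=
  ∀ (n T : ℕ) (z : Fin n → ℂ), TB (ex2 z) T →
    Thin (ZL n) 0 ∧ (∀ a ∈ ZL n, a ≠ 0 → 1 ≤ ‖a‖) ∧
    ∃ (A : Type) (_ : CommRing A) (_ : IsDomain A) (_ : Algebra ℚ A)
      (g : EuclideanSpace ℝ (Fin n) → A) (α β : ℝ),
      (∀ a ∈ ZL n, g a = 1 → Complex.exp (zt z a) = 1) ∧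
      ∀ (z' : Fin n → ℂ) (W : Submodule ℤ ℂ), (∀ a ∈ ZL n, zt z' a ∈ W) →
        (∀ Q : MvPolynomial (Fin n ⊕ Fin n) ℤ, aeval (ex2 z) Q = 0 → aeval (ex2 z') Q = 0) →
        ∃ ev : A →ₐ[ℚ] ℂ, St (zt z') W (ZL n) g ev n T α β

/-- few small linear forms at every large scale -/
def StM1 : Prop :=
  ∀ (T r n : ℕ) (z : Fin n → ℂ), r < n → 4 * r * T < n → LinearIndependent ℚ z →
    Algebra.trdeg ℚ (IntermediateField.adjoin ℚ (Set.range fun i => Complex.exp (z i))) ≤ T →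
    ∀ᶠ q : ℕ in atTop, ¬ ∃ M : Fin (n - r) → Fin n → ℤ, LinearIndependent ℤ M ∧
      ∀ k, (∀ i, |M k i| ≤ (q : ℤ)) ∧ ‖∑ i, (M k i : ℂ) * z i‖ ≤ Real.exp (-(q : ℝ) ^ (T + 2))

/-- the technical hypothesis at one scale gives a contradiction -/
def StOne : Prop :=
  ∀ (T m n : ℕ) (x : Fin m → ℂ) (y : Fin n → ℂ) (c : ℝ), 0 < c →
    Algebra.trdeg ℚ (IntermediateField.adjoin ℚ
      (Set.range fun ij : Fin m × Fin n => Complex.exp (x ij.1 * y ij.2))) ≤ T →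
    ∀ᶠ q : ℕ in atTop, ∀ (e : Fin (6 * T + 5) → Fin m) (e' : Fin (6 * T + 8) → Fin n),
      (∀ a : Fin (6 * T + 5) → ℤ, a ≠ 0 → (∀ i, |a i| ≤ q) →
        c * Real.exp (-(q : ℝ) ^ (T + 2)) ≤ ‖∑ i, (a i : ℂ) * x (e i)‖) →
      ¬ ∀ s : Fin (6 * T + 8) → ℤ, s ≠ 0 → (∀ j, |s j| ≤ q) →
        c * Real.exp (-(q : ℝ) ^ (T + 2)) ≤ ‖∑ j, (s j : ℂ) * y (e' j)‖

end Pool.Agent.Lib.MP_12eca1_ag.P
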