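import Pool.Agent.Lib.MP_12eca1_ag.P.Basic

/-!
The sharp local Nullstellen inequality.
-/

namespace Pool.Agent.Lib.MP_12eca1_ag.P

open MvPolynomial Filter Module

namespace JB

variable {κ : Type} {θ : κ → ℂ} {B U : ℝ}

lemma exists_near [Fintype κ] (hB : 1 ≤ B) (hθ : ∀ i, ‖θ i‖ + 1 ≤ B) (hU : 0 ≤ U) {j R : ℕ}
    (hj : j ≤ R) {P : MvPolynomial (Option κ) ℂ} (hP : P.IsHomogeneous R) :
    ∃ y ∈ Yv θ ((Real.exp (-U) : ℝ) : ℂ) j R, l1 (P - y) ≤
      (R + 1) ^ Fintype.card κ * (Real.exp (U * j) * B ^ R) *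
        ‖l2 κ (tay θ ((Real.exp (-U) : ℝ) : ℂ) P)‖ := by
  classical
  set ε : ℂ := ((Real.exp (-U) : ℝ) : ℂ) with hε
  have hε0 : ε ≠ 0 := by rw [hε]; exact_mod_cast (Real.exp_pos _).ne'
  set f : κ → MvPolynomial (Option κ) ℂ := fun i => C ε⁻¹ * (X (some i) - C (θ i) * X none) with hf
  have f1 : ∀ i, l1 (f i) ≤ Real.exp U * B := fun i => l1_mul_le_of_le (by
    rw [l1_C, norm_inv, hε, Complex.norm_real, Real.norm_of_nonneg (Real.exp_pos _).le,
      ← Real.exp_neg, neg_neg]) ((l1_sub_le _ _).trans (by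
    have := l1_C_mul_le (θ i) (X none : MvPolynomial (Option κ) ℂ)
    rw [l1_X] at this ⊢
    linarith [hθ i]))
  have f2 : ∀ i, (f i).IsHomogeneous 1 := fun i =>
    ((isHomogeneous_X _ _).sub ((isHomogeneous_X _ _).C_mul _)).C_mul _
  have f3 : ∀ Q, tay θ ε (aeval f Q) = Q := fun Q => by
    have : (tay θ ε).comp (aeval f) = AlgHom.id ℂ _ := algHom_ext fun i => by
      simp only [AlgHom.comp_apply, aeval_X, hf, map_mul, map_sub, tay_C, tay_X_some, tay_X_none,
        AlgHom.id_apply, mul_one, add_sub_cancel_left, ← mul_assoc]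
      rw [← C_mul, inv_mul_cancel₀ hε0, C_1, one_mul]
    exact DFunLike.congr_fun this Q
  set Q := tay θ ε P with hQ
  set s := Q.support.filter fun b => b.degree ≤ j with hs
  have hs1 : ∀ b ∈ s, b.degree ≤ j := fun b hb => (Finset.mem_filter.mp hb).2
  refine ⟨P - ∑ b ∈ s, aeval f (monomial b (coeff b Q)) * X none ^ (R - b.degree), ⟨?_, ?_⟩, ?_⟩
  · refine hP.sub (IsHomogeneous.sum _ _ _ fun b hb => ?_)
    have h1 := ((isHomogeneous_monomial (d := b) (coeff b Q) rfl).aeval f f2).mul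
      (isHomogeneous_X_pow (R := ℂ) (none : Option κ) (R - b.degree))
    rwa [one_mul, Nat.add_sub_cancel' ((hs1 b hb).trans hj)] at h1
  · change tay θ ε _ ∈ idealOfVars κ ℂ ^ (j + 1)
    rw [mem_pow_idealOfVars_iff']
    intro x hx
    simp only [map_sub, map_sum, map_mul, map_pow, f3, tay_X_none, one_pow, mul_one, coeff_sub,
      coeff_sum, coeff_monomial, Finset.sum_ite_eq', ← hQ]
    split_ifs with h
    · exact sub_self _
    · rw [sub_zero]
      by_contra h1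
      exact h (Finset.mem_filter.mpr ⟨MvPolynomial.mem_support_iff.mpr h1, by omega⟩)
  · rw [sub_sub_cancel]
    refine (l1_sum_le _ _).trans ((Finset.sum_le_card_nsmul _ _
      (Real.exp (U * j) * B ^ R * ‖l2 κ Q‖) fun b hb => ?_).trans ?_)
    · refine (l1_mul_le_of_le (l1_aeval_monomial_le f1 b _)
        (l1_pow_le (l1_X none).le _)).trans ?_
      rw [one_pow, mul_one, mul_comm, mul_pow, ← Real.exp_nat_mul, mul_comm _ U]
      have h1 : (b.degree : ℝ) ≤ j := by exact_mod_cast hs1 b hb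
      have h2 := norm_coeff_le_l2 Q b
      have h3 := (hs1 b hb).trans hj
      gcongr
    · rw [nsmul_eq_mul, mul_assoc ((R + 1 : ℝ) ^ _)]
      refine mul_le_mul_of_nonneg_right ?_ (by positivity)
      exact_mod_cast card_le_of_degree_le fun b hb => (hs1 b hb).trans hj

lemma gain (h3 : StD3) (hM : StM) [Fintype κ] {T : ℕ} (hTB : TB θ T) (hB : 1 ≤ B)
    (hθ : ∀ i, ‖θ i‖ + 1 ≤ B) (hU : 0 ≤ U) {δ j R : ℕ} (hj : T * j ≤ R) {x : ℝ} (hx : 0 ≤ x)
    (hx' : x + U * (T * j : ℕ) + R * (Real.log B + Fintype.card κ) ≤ U * (R / δ : ℕ)) :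
    chi (tw θ U δ R) (vI θ) R + j ^ T * x ≤ chi (l2 (Option κ)) (vI θ) R := by
  obtain ⟨u, u1, u2⟩ := h3 κ θ T hTB ((Real.exp (-U) : ℝ) : ℂ) j R
    (by exact_mod_cast (Real.exp_pos _).ne') hj
  have := hM _ _ _ (Fin T → Fin j) (l2 (Option κ)) (tw θ U δ R) (Jl ⊤ R) (Jl (vI θ) R)
    (Yv θ ((Real.exp (-U) : ℝ) : ℂ) (T * j) R) u (Real.exp x) l2_injective (tw_injective θ U δ R)
    (isLat_Jl ⊤ R) (Jl_mono le_top R) (fun y hy => mem_span_Jl_top.mpr hy.1) (Real.one_le_exp hx)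
    (fun P _ => norm_l2_le_tw θ U δ R P) (fun P hP => ?_) (fun b => mem_span_Jl_top.mpr (u1 b)) u2
  · rw [Real.log_exp] at this
    simp only [Fintype.card_pi, Fintype.card_fin, Finset.prod_const, Finset.card_univ,
      Nat.cast_pow] at this
    unfold chi
    linarith
  obtain ⟨y, y1, y2⟩ := exists_near hB hθ hU hj (mem_span_Jl_top.mp hP)
  refine ⟨y, y1, le_trans ?_ (norm_tay_le_tw θ U δ R P)⟩
  refine (mul_le_mul_of_nonneg_left ((norm_l2_le_l1 _).trans y2) (Real.exp_pos x).le).trans ?_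
  rw [← mul_assoc]
  refine mul_le_mul_of_nonneg_right (le_trans ?_ (Real.exp_le_exp.mpr hx')) (norm_nonneg _)
  rw [mul_add, Real.exp_add, Real.exp_add, Real.exp_add, Real.exp_nat_mul (Real.log B),
    Real.exp_log (by linarith), mul_comm (R : ℝ), Real.exp_nat_mul]
  have h1 : (R + 1 : ℝ) ^ Fintype.card κ ≤ Real.exp R ^ Fintype.card κ :=
    pow_le_pow_left₀ (by positivity) (Real.add_one_le_exp _) _
  calc _ = Real.exp x * Real.exp (U * (T * j : ℕ)) * (B ^ R * (R + 1) ^ Fintype.card κ) := by ring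
    _ ≤ _ := by gcongr

lemma l1_tay_le (hB : 1 ≤ B) (hθ : ∀ i, ‖θ i‖ + 1 ≤ B) {e : ℝ} (h0 : 0 ≤ e) (h1 : e ≤ 1)
    {g : MvPolynomial (Option κ) ℂ} {n : ℕ} (hg : g.IsHomogeneous n) :
    l1 (tay θ e g) ≤ ‖eval (pt θ) g‖ + e * (B ^ n * l1 g) := by
  classical
  have a1 : tay θ e g = aeval (fun i => C (e : ℂ) * X i) (tay θ 1 g) := by
    have : tay θ e = (aeval fun i => C (e : ℂ) * X i).comp (tay θ 1) := algHom_ext fun o => by
      cases o <;> simp
    exact DFunLike.congr_fun this g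
  have a2 : coeff 0 (tay θ 1 g) = eval (pt θ) g := by
    have : constantCoeff.comp (tay θ 1).toRingHom = eval (pt θ) :=
      ringHom_ext (fun a => by simp) fun o => by cases o <;> simp
    exact DFunLike.congr_fun this g
  have a3 : l1 (tay θ 1 g) ≤ B ^ n * l1 g := l1_aeval_le_of_isHomogeneous (fun o => by
    cases o with
    | none => simpa using hB
    | some i => exact (l1_add_le _ _).trans (by simpa using hθ i)) hg
  rw [a1, ← a2]
  generalize tay θ 1 g = Q at a3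
  refine le_trans ?_ (add_le_add_right (mul_le_mul_of_nonneg_left a3 h0) _)
  conv_lhs => rw [Q.as_sum, map_sum]
  refine (l1_sum_le _ _).trans ((Finset.sum_le_sum
    (g := fun m => (if m = 0 then ‖coeff m Q‖ else 0) + e * ‖coeff m Q‖) fun m _ => ?_).trans ?_)
  · refine (l1_aeval_monomial_le (B := e) (fun i => (l1_C_mul_le _ _).trans (by
      simp [abs_of_nonneg h0])) m _).trans ?_
    split_ifs with h
    · rw [h, map_zero, pow_zero, mul_one]; exact le_add_of_nonneg_right (by positivity)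
    · rw [zero_add, mul_comm]
      exact mul_le_mul_of_nonneg_right (pow_le_of_le_one h0 h1
        (mt (Finsupp.degree_eq_zero_iff m).mp h)) (norm_nonneg _)
  · rw [Finset.sum_add_distrib, Finset.sum_ite_eq', ← Finset.mul_sum]
    refine add_le_add_left ?_ _
    split_ifs
    · rfl
    · exact norm_nonneg _

/-- homogenisation -/
noncomputable def hz (δ : ℕ) (f : MvPolynomial κ ℤ) : MvPolynomial (Option κ) ℤ :=
  ∑ m ∈ f.support, rename some (monomial m (coeff m f)) * X none ^ (δ - m.degree)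

lemma hz_hom {δ : ℕ} {f : MvPolynomial κ ℤ} (h : f.totalDegree ≤ δ) : (hz δ f).IsHomogeneous δ :=
  IsHomogeneous.sum _ _ _ fun m hm => by
    have h1 := ((isHomogeneous_monomial (d := m) (coeff m f) rfl).rename_isHomogeneous (f := some)).mul
      (isHomogeneous_X_pow (R := ℤ) (none : Option κ) (δ - m.degree))
    rwa [Nat.add_sub_cancel' (show m.degree ≤ δ from (le_totalDegree hm).trans h)] at h1

lemma aeval_hz (x : κ → ℂ) (δ : ℕ) (f : MvPolynomial κ ℤ) : aeval (pt x) (hz δ f) = aeval x f := by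
  conv_rhs => rw [f.as_sum]
  simp only [hz, map_sum, map_mul, map_pow, aeval_X, pt_none, one_pow, mul_one, aeval_rename]
  rfl

lemma l1_hz (δ : ℕ) (f : MvPolynomial κ ℤ) : l1 (hz δ f) ≤ l1 f := by
  refine (l1_sum_le _ _).trans (Finset.sum_le_sum fun m _ => ?_)
  simpa using l1_mul_le_of_le ((l1_rename_le some _).trans (l1_monomial m (coeff m f)).le)
    (l1_pow_le (l1_X (K := ℤ) (none : Option κ)).le (δ - m.degree))

end JB

theorem stD (h1 : StD1) (h3 : StD3) (hM : StM) : StD := by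
  intro κ _ θ T hTB
  obtain ⟨C₁, hC₁, h1⟩ := h1 κ θ T hTB
  set B : ℝ := 1 + ∑ i, ‖θ i‖ with hBd
  have hθ : ∀ i, ‖θ i‖ + 1 ≤ B := fun i => by
    have := Finset.single_le_sum (f := fun i => ‖θ i‖) (fun _ _ => norm_nonneg _) (Finset.mem_univ i)
    linarith
  have hB : 1 ≤ B := le_add_of_nonneg_right (by positivity)
  set c₀ : ℝ := Real.log B + Fintype.card κ with hc₀
  have hc : 0 ≤ c₀ := add_nonneg (Real.log_nonneg hB) (by positivity)
  set a : ℝ := (8 * (T + 1)) ^ T with ha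
  have ha0 : 0 < a := by positivity
  refine ⟨8 * a * (C₁ + 1) + 8 * c₀, by positivity, ⟨C₁, ?_⟩, fun δ k U hδ hk hU => ⟨1, one_pos, ?_⟩⟩
  · filter_upwards [eventually_ge_atTop 1] with R hR
    rw [pow_succ, ← mul_assoc]
    exact mul_le_mul_of_nonneg_right (h1 R hR).1 (by positivity)
  refine Eventually.frequently ?_
  filter_upwards [eventually_ge_atTop (2 * (T + 1) * δ)] with R hR
  have hδ' : (1 : ℝ) ≤ δ := by exact_mod_cast hδ
  have hδ1 : (δ : ℝ) ≤ δ ^ (T + 1) := le_self_pow₀ hδ' (by omega)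
  have hR1 : 1 ≤ R := le_trans (Nat.succ_le_of_lt (by positivity)) hR
  have hU0 : 0 ≤ U := le_trans (by positivity) hU
  obtain ⟨b1, b2⟩ := h1 R hR1
  set q := R / δ with hq
  set j := q / (2 * (T + 1)) with hj
  have q1 : 2 * (T + 1) ≤ q := (Nat.le_div_iff_mul_le hδ).mpr hR
  have q2 : 1 ≤ j := (Nat.le_div_iff_mul_le (by positivity)).mpr (by omega)
  have q3 : 2 * (T + 1) * j ≤ q := Nat.mul_div_le _ _
  have q4 : R < δ * (q + 1) := Nat.lt_mul_div_succ R hδ
  have q5 : q < 2 * (T + 1) * (j + 1) := Nat.lt_mul_div_succ q (by positivity)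
  have q6 : q ≤ R := Nat.div_le_self _ _
  have q7 : R ≤ 2 * (δ * q) := by nlinarith
  have q8 : q ≤ 4 * (T + 1) * j := by nlinarith
  have q9 : R ≤ 8 * (T + 1) * δ * j := by nlinarith
  have q10 : 2 * (T * j) ≤ q := by nlinarith
  have r7 : (R : ℝ) ≤ 2 * (δ * q) := by exact_mod_cast q7
  have r9 : (R : ℝ) ≤ 8 * (T + 1) * δ * j := by exact_mod_cast q9
  have r10 : (2 * (T * j : ℕ) : ℝ) ≤ q := by exact_mod_cast q10
  have hR0 : (0 : ℝ) ≤ R := by positivity
  have u1 : 8 * c₀ * δ ≤ U := by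
    refine le_trans ?_ hU
    have : 0 ≤ 8 * a * (C₁ + 1) := by positivity
    calc 8 * c₀ * δ = 8 * c₀ * δ * 1 := (mul_one _).symm
      _ ≤ _ := by gcongr <;> linarith
  have u2 : 8 * a * (C₁ + 1) * δ ^ (T + 1) * (1 + k) ≤ U := by
    refine le_trans ?_ hU
    gcongr; linarith
  have hg := JB.gain h3 hM hTB hB hθ hU0 (δ := δ) (j := j) (R := R) (by omega)
    (x := U * R / (8 * δ)) (by positivity) (by
      rw [← hq, ← hc₀]
      have e1 : U * R / (8 * δ) ≤ U * q / 4 := by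
        rw [div_le_div_iff₀ (by positivity) (by positivity)]
        nlinarith [mul_le_mul_of_nonneg_left r7 hU0]
      have e2 : R * c₀ ≤ U * q / 4 := by
        nlinarith [mul_le_mul_of_nonneg_right r7 hc,
          mul_le_mul_of_nonneg_right u1 (Nat.cast_nonneg (α := ℝ) q)]
      nlinarith [mul_le_mul_of_nonneg_left r10 hU0])
  have e1 : (R : ℝ) ^ T ≤ a * δ ^ T * j ^ T := by
    rw [ha, ← mul_pow, ← mul_pow]; gcongr
  have e2 : (C₁ + 1) * (1 + k) * R ^ (T + 1) ≤ j ^ T * (U * R / (8 * δ)) := by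
    rw [← mul_div_assoc, le_div_iff₀ (by positivity)]
    calc _ = (C₁ + 1) * (1 + k) * R ^ T * (R * 8 * δ) := by ring
      _ ≤ (C₁ + 1) * (1 + k) * (a * δ ^ T * j ^ T) * (R * 8 * δ) := by gcongr
      _ = j ^ T * ((8 * a * (C₁ + 1) * δ ^ (T + 1) * (1 + k)) * R) := by ring
      _ ≤ _ := by gcongr
  have e3 : k * R * Hf (vI θ) R ≤ k * C₁ * R ^ (T + 1) := by
    calc _ ≤ k * R * (C₁ * R ^ T) := by gcongr
      _ = _ := by ring
  have e4 : 0 ≤ k * (R : ℝ) ^ (T + 1) := by positivity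
  nlinarith

theorem stB (hC : StC) (hN : StN) (hD : StD) : StB := by
  intro κ _ θ T hTB
  obtain ⟨C₁, hC₁, hH, hD⟩ := hD κ θ T hTB
  set B : ℝ := 1 + ∑ i, ‖θ i‖ with hBd
  have hθ : ∀ i, ‖θ i‖ + 1 ≤ B := fun i => by
    have := Finset.single_le_sum (f := fun i => ‖θ i‖) (fun _ _ => norm_nonneg _) (Finset.mem_univ i)
    linarith
  have hB : 1 ≤ B := le_add_of_nonneg_right (by positivity)
  have hL := Real.log_nonneg hB
  refine ⟨C₁ * 2 ^ T * (3 + 4 * Real.log B), by positivity,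
    fun δ h ρ U F hδ hh hρ hU hF => ?_⟩
  have hδ' : (1 : ℝ) ≤ δ := by exact_mod_cast hδ
  have hU0 : 0 ≤ U := le_trans (by positivity) hU
  set k : ℝ := 2 * Real.log B + (1 + ρ + h) / (δ + 1 : ℕ) with hk
  have hk0 : 0 ≤ k := by positivity
  have hkd : k * (δ + 1 : ℕ) = 2 * Real.log B * (δ + 1 : ℕ) + (1 + ρ + h) := by
    rw [hk]; field_simp
  have he : Real.exp (-U) ≤ 1 := Real.exp_le_one_iff.mpr (by linarith)
  obtain ⟨q, t, q1, q2, q3, ⟨C₂, q4⟩, c, hc, q5⟩ := hC (Option κ) _ (tw θ U (δ + 1)) k (δ + 1)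
    (JB.hz (δ + 1) '' F) (tw_injective θ U (δ + 1)) hk0 (by omega) (fun g e _ => by
      have a1 := l1_nonneg (toC g)
      have a2 := l1_nonneg (tay θ ((Real.exp (-U) : ℝ) : ℂ) (toC g))
      refine ⟨l1 (toC g) + Real.exp (U * e) * l1 (tay θ ((Real.exp (-U) : ℝ) : ℂ) (toC g)) + 1,
        by positivity, fun R P _ => norm_tw_mul_le θ U _ R _ ?_ ?_ P⟩
      · have : 0 ≤ Real.exp (U * e) * l1 (tay θ ((Real.exp (-U) : ℝ) : ℂ) (toC g)) := by positivity
        linarith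
      · have a3 : (R + e) / (δ + 1) ≤ e + R / (δ + 1) := by
          rw [add_comm e, ← Nat.add_mul_div_right _ _ (Nat.succ_pos δ)]
          exact Nat.div_le_div_right (by nlinarith)
        have a4 : (((R + e) / (δ + 1) : ℕ) : ℝ) ≤ e + (R / (δ + 1) : ℕ) := by exact_mod_cast a3
        calc _ ≤ Real.exp (U * (e + (R / (δ + 1) : ℕ))) *
              l1 (tay θ ((Real.exp (-U) : ℝ) : ℂ) (toC g)) := by gcongr
          _ = Real.exp (U * e) * l1 (tay θ ((Real.exp (-U) : ℝ) : ℂ) (toC g)) *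
              Real.exp (U * (R / (δ + 1) : ℕ)) := by rw [mul_add, Real.exp_add]; ring
          _ ≤ _ := by gcongr; linarith)
    (by
      rintro _ ⟨f, hf, rfl⟩
      obtain ⟨f1, f2, f3⟩ := hF f hf
      have f4 := JB.hz_hom (f1.trans (Nat.le_succ δ))
      have f5 : l1 (toC (JB.hz (δ + 1) f)) ≤ Real.exp h := by
        rw [l1_toC]; exact (JB.l1_hz _ _).trans f2
      have f6 : 1 + B ^ (δ + 1) * Real.exp h ≤ Real.exp (k * (δ + 1 : ℕ)) := by
        rw [hkd, Real.exp_add, mul_assoc, mul_comm (Real.log B), two_mul, Real.exp_add,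
          Real.exp_nat_mul, Real.exp_log (by linarith), Real.exp_add, Real.exp_add]
        have b1 : 1 ≤ B ^ (δ + 1) := one_le_pow₀ hB
        have b2 := Real.one_le_exp hh
        have b3 := Real.one_le_exp hρ
        have b4 := Real.add_one_le_exp 1
        have b5 : 1 ≤ B ^ (δ + 1) * Real.exp h := one_le_mul_of_one_le_of_one_le b1 b2
        calc _ ≤ 1 * (B ^ (δ + 1) * Real.exp h) * (2 * 1) := by linarith
          _ ≤ B ^ (δ + 1) * (B ^ (δ + 1) * Real.exp h) * (Real.exp 1 * Real.exp ρ) := by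
            gcongr; linarith
          _ = _ := by ring
      refine ⟨f4, fun R P _ => norm_tw_mul_le θ U _ R _ (f5.trans (le_trans ?_ f6)) ?_ P⟩
      · nlinarith [one_le_pow₀ (n := δ + 1) hB, Real.exp_pos h]
      · have b1 := JB.l1_tay_le hB hθ (Real.exp_pos (-U)).le he (isHomogeneous_toC f4)
        rw [eval_toC, JB.aeval_hz] at b1
        rw [Nat.add_div_right _ (Nat.succ_pos δ), Nat.cast_succ, mul_add, mul_one, Real.exp_add,
          mul_assoc, mul_comm]
        refine mul_le_mul_of_nonneg_right (le_trans ?_ f6) (Real.exp_pos _).le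
        calc _ ≤ Real.exp U * (Real.exp (-U) + Real.exp (-U) * (B ^ (δ + 1) * Real.exp h)) := by
              refine mul_le_mul_of_nonneg_left (b1.trans ?_) (Real.exp_pos _).le
              gcongr
          _ = _ := by rw [mul_add, ← mul_assoc, ← Real.exp_add]; simp)
    (T + 1) (vI θ) (vI_isHom θ) (vI_isPrime θ) hH (hD (δ + 1) k U (by omega) hk0 (by
      refine le_trans ?_ hU
      have b1 : ((δ + 1 : ℕ) : ℝ) ^ T ≤ 2 ^ T * δ ^ T := by
        rw [← mul_pow]; push_cast; gcongr; linarith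
      have b2 : ((δ + 1 : ℕ) : ℝ) * (1 + k) ≤ (3 + 4 * Real.log B) * (h + ρ + δ) := by
        rw [mul_add, mul_comm _ k, hkd]
        push_cast
        nlinarith [mul_nonneg hL hh, mul_nonneg hL hρ, mul_le_mul_of_nonneg_left hδ' hL]
      calc _ = C₁ * ((δ + 1 : ℕ) : ℝ) ^ T * (((δ + 1 : ℕ) : ℝ) * (1 + k)) := by ring
        _ ≤ C₁ * (2 ^ T * δ ^ T) * ((3 + 4 * Real.log B) * (h + ρ + δ)) := by gcongr
        _ = _ := by ring))
  obtain ⟨θ', t1, t2⟩ : ∃ θ' : κ → ℂ, (∀ i, ‖θ' i - θ i‖ ≤ Real.exp (-ρ)) ∧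
      ∀ P ∈ q, aeval (pt θ') P = 0 := by
    by_contra hcon
    obtain ⟨R, r1, r2, r3, r4⟩ := (q5.and_eventually ((hN κ θ B U ρ (δ + 1) q hB hθ hU0 hρ
      (by omega) q1 hcon).and (q4.and (eventually_gt_atTop ⌈|C₂| / c⌉₊)))).exists
    have r5 : |C₂| / c < R := (Nat.le_ceil _).trans_lt (by exact_mod_cast r4)
    have r6 : (0 : ℝ) < R := lt_of_le_of_lt (by positivity) r5
    have r7 := Hf_nonneg q R
    have r8 : 2 * Real.log B + (1 + ρ) / (δ + 1 : ℕ) ≤ k :=
      add_le_add_right (div_le_div_of_nonneg_right (by linarith) (by positivity)) _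
    have r9 : c * R ^ t ≤ Hf q R := by
      nlinarith [mul_le_mul_of_nonneg_left r8 (mul_nonneg r7 r6.le)]
    rw [div_lt_iff₀ hc] at r5
    have r10 : (0 : ℝ) < R ^ t := by positivity
    nlinarith [mul_le_mul_of_nonneg_right r9 r6.le, mul_lt_mul_of_pos_right r5 r10,
      mul_le_mul_of_nonneg_right (le_abs_self C₂) r10.le]
  refine ⟨θ', t1, fun f hf => ?_, fun Q hQ => ?_⟩
  · rw [← JB.aeval_hz θ' (δ + 1), t2 _ (q3 _ ⟨f, hf, rfl⟩)]
  · rw [← JB.aeval_hz θ' Q.totalDegree]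
    exact t2 _ (q2 ((mem_vI_iff θ (JB.hz_hom le_rfl)).mpr (by rw [JB.aeval_hz, hQ])))

end Pool.Agent.Lib.MP_12eca1_ag.P
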