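import Pool.Agent.Lib.MP_12eca1_ag.P.Defs

/-!
The elimination process for the arithmetic Hilbert function.
-/

namespace Pool.Agent.Lib.MP_12eca1_ag.P

open MvPolynomial Filter Module

namespace JC

section Ideals

variable {σ : Type*} {J J' : Ideal (MvPolynomial σ ℤ)} {g : MvPolynomial σ ℤ} {e : ℕ}

lemma mem_col {P : MvPolynomial σ ℤ} : P ∈ col J g ↔ g * P ∈ J := Iff.rfl

lemma comp_mul (hg : g.IsHomogeneous e) (P : MvPolynomial σ ℤ) (m : ℕ) :
    homogeneousComponent m (g * P) =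
      if e ≤ m then g * homogeneousComponent (m - e) P else 0 := by
  induction P using MvPolynomial.induction_on' with
  | monomial d c =>
    have h1 : (monomial d c : MvPolynomial σ ℤ).IsHomogeneous d.degree :=
      isHomogeneous_monomial c rfl
    rw [homogeneousComponent_of_mem (hg.mul h1), homogeneousComponent_of_mem h1]
    split_ifs <;> first | rfl | omega | simp
  | add P Q h1 h2 =>
    rw [mul_add, map_add, map_add, h1, h2]
    split_ifs
    · rw [mul_add]
    · simp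

lemma isHom_sup (hJ : IsHom J) (hg : g.IsHomogeneous e) : IsHom (J ⊔ Ideal.span {g}) := by
  intro P hP n
  obtain ⟨a, ha, b, hb, rfl⟩ := Submodule.mem_sup.1 hP
  obtain ⟨c, rfl⟩ := Ideal.mem_span_singleton.1 hb
  rw [map_add, comp_mul hg]
  refine Submodule.add_mem_sup (hJ a ha n) ?_
  split_ifs
  · exact Ideal.mem_span_singleton.2 (dvd_mul_right _ _)
  · exact zero_mem _

lemma isHom_col (hJ : IsHom J) (hg : g.IsHomogeneous e) : IsHom (col J g) := by
  intro P hP n
  have := hJ _ (mem_col.1 hP) (n + e)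
  rwa [comp_mul hg, if_pos (by omega), Nat.add_sub_cancel] at this

lemma le_col : J ≤ col J g := fun _ h => mem_col.2 (J.mul_mem_left g h)

lemma col_prime (hJ : J.IsPrime) (hg : g ∉ J) : col J g = J :=
  le_antisymm (fun _ h => (hJ.mem_or_mem (mem_col.1 h)).resolve_left hg) le_col

lemma exists_prime [Finite σ] (hJ : IsHom J) (hne : J ≠ ⊤) :
    ∃ (g : MvPolynomial σ ℤ) (e : ℕ), g.IsHomogeneous e ∧ g ∉ J ∧ (col J g).IsPrime := by
  obtain ⟨_, ⟨g, e, h1, h2, rfl⟩, hmax⟩ := set_has_maximal_iff_noetherian.2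
    (inferInstance : IsNoetherian (MvPolynomial σ ℤ) (MvPolynomial σ ℤ))
    {q | ∃ (g : MvPolynomial σ ℤ) (e : ℕ), g.IsHomogeneous e ∧ g ∉ J ∧ col J g = q}
    ⟨_, 1, 0, isHomogeneous_one σ ℤ, (Ideal.ne_top_iff_one J).1 hne, rfl⟩
  refine ⟨g, e, h1, h2, ?_⟩
  let := MvPolynomial.gradedAlgebra (σ := σ) (R := ℤ)
  refine Ideal.IsHomogeneous.isPrime_of_homogeneous_mem_or_mem (𝒜 := homogeneousSubmodule σ ℤ)
    (fun n P hP => (decomposition.decompose'_apply P n).symm ▸ isHom_col hJ h1 P hP n)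
    ((Ideal.ne_top_iff_one _).2 fun h => h2 (by simpa [mem_col] using h)) ?_
  rintro a b ⟨n, ha⟩ - hab
  by_cases h : a ∈ col J g
  · exact Or.inl h
  · right
    have h3 : col J g ≤ col J (g * a) := fun P hP => by
      rw [mem_col, mul_right_comm]
      exact J.mul_mem_right a hP
    have h4 := (h3.lt_or_eq).resolve_left (hmax _ ⟨g * a, e + n, h1.mul ha, h, rfl⟩)
    rw [h4, mem_col, mul_assoc]
    exact hab

lemma Jl_mono (h : J ≤ J') (R : ℕ) : Jl J R ≤ Jl J' R :=
  Submodule.map_mono (inf_le_inf_right _ h)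

lemma Jl_fg [Finite σ] (J : Ideal (MvPolynomial σ ℤ)) (R : ℕ) : (Jl J R).FG :=
  Submodule.FG.map _ ((homogeneousSubmodule_fg σ ℤ R).of_le inf_le_right)

lemma isLat [Finite σ] (J : Ideal (MvPolynomial σ ℤ)) (R : ℕ) : IsLat (Jl J R) := by
  refine ⟨Jl_fg J R, fun n v hv hi => ?_⟩
  choose w _ hw using hv
  obtain rfl : v = fun i => toC (w i) := funext fun i => (hw i).symm
  classical
  let s : Finset (σ →₀ ℕ) := Finset.univ.biUnion fun i => (w i).support
  have h1 : LinearIndependent ℤ fun (i : Fin n) (m : s) => coeff m.1 (w i) := by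
    rw [Fintype.linearIndependent_iff] at hi ⊢
    intro c hc
    refine hi c ?_
    have : ∑ i, c i • w i = 0 := by
      ext m
      by_cases hm : m ∈ s
      · rw [coeff_sum]
        simp only [coeff_smul]
        simpa using congrFun hc ⟨m, hm⟩
      · rw [coeff_sum]
        refine Finset.sum_eq_zero fun i _ => ?_
        rw [coeff_smul, notMem_support_iff.1 fun h =>
          hm (Finset.mem_biUnion.2 ⟨i, Finset.mem_univ i, h⟩), smul_zero]
    simpa [map_sum] using congrArg toC this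
  have h2 := (linearIndependent_algebraMap_comp_iff (S := ℂ)).2 h1
  refine LinearIndependent.of_comp (LinearMap.pi fun m : s => lcoeff ℂ m.1) ?_
  have e : (LinearMap.pi fun m : s => lcoeff ℂ m.1) ∘ (fun i => toC (w i)) =
      fun i => algebraMap ℤ ℂ ∘ fun m : s => coeff m.1 (w i) := by
    ext i m
    simp [toC, coeff_map]
  rw [e]
  exact h2

lemma rank_mono [Finite σ] (h : J ≤ J') (R : ℕ) : finrank ℤ (Jl J R) ≤ finrank ℤ (Jl J' R) := by
  have : Module.Finite ℤ (Jl J' R) := Module.Finite.iff_fg.2 (Jl_fg J' R)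
  exact Submodule.finrank_mono (Jl_mono h R)

lemma Hf_anti [Finite σ] (h : J ≤ J') (R : ℕ) : Hf J' R ≤ Hf J R := by
  have : (finrank ℤ (Jl J R) : ℝ) ≤ finrank ℤ (Jl J' R) := by exact_mod_cast rank_mono h R
  unfold Hf
  linarith

lemma Hf_top (R : ℕ) : Hf (⊤ : Ideal (MvPolynomial σ ℤ)) R = 0 := sub_self _

lemma Hf_nonneg [Finite σ] (J : Ideal (MvPolynomial σ ℤ)) (R : ℕ) : 0 ≤ Hf J R :=
  (Hf_top R).ge.trans (Hf_anti le_top R)

lemma rank_eq [Finite σ] {R : ℕ} (h : Hf J R < 1) :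
    finrank ℤ (Jl J R) = finrank ℤ (Jl (⊤ : Ideal (MvPolynomial σ ℤ)) R) := by
  refine le_antisymm (rank_mono le_top R) (Nat.lt_succ_iff.1 ?_)
  have : (finrank ℤ (Jl (⊤ : Ideal (MvPolynomial σ ℤ)) R) : ℝ) < finrank ℤ (Jl J R) + 1 := by
    unfold Hf at h
    linarith
  exact_mod_cast this

lemma Hf_vars (h : ∀ i, X i ∈ J) {R : ℕ} (hR : 1 ≤ R) : Hf J R = 0 := by
  have : Jl J R = Jl ⊤ R := by
    refine le_antisymm (Jl_mono le_top R) (Submodule.map_mono fun P hP => ⟨?_, hP.2⟩)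
    have h1 : Ideal.span (X '' Set.univ) ≤ J := Ideal.span_le.2 (by
      rintro _ ⟨i, -, rfl⟩
      exact h i)
    refine h1 (mem_ideal_span_X_image.2 fun m hm => ?_)
    by_contra hc
    obtain rfl : m = 0 := by
      ext i
      by_contra hi
      exact hc ⟨i, trivial, hi⟩
    have := hP.2 (mem_support_iff.1 hm)
    simp only [map_zero] at this
    omega
  rw [Hf, this, sub_self]

end Ideals

section Main

variable {σ E : Type} [Fintype σ] [NormedAddCommGroup E] [InnerProductSpace ℂ E]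
  {ι : ℕ → MvPolynomial σ ℂ →ₗ[ℂ] E} {k : ℝ} {J p : Ideal (MvPolynomial σ ℤ)} {t : ℕ}

/-- the twisted arithmetic Hilbert function -/
noncomputable def psi (ι : ℕ → MvPolynomial σ ℂ →ₗ[ℂ] E) (k : ℝ) (J : Ideal (MvPolynomial σ ℤ))
    (R : ℕ) : ℝ := chi (ι R) J R + k * R * Hf J R

/-- the negation of `Neg` -/
def Good (ι : ℕ → MvPolynomial σ ℂ →ₗ[ℂ] E) (k : ℝ) (J : Ideal (MvPolynomial σ ℤ)) (t : ℕ) : Prop :=
  ∀ c : ℝ, 0 < c → ∀ᶠ R : ℕ in atTop, -c * R ^ t < psi ι k J R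

/-- multiplication by forms is bounded -/
def Bd (ι : ℕ → MvPolynomial σ ℂ →ₗ[ℂ] E) (g : MvPolynomial σ ℤ) (e : ℕ) (γ : ℝ) : Prop :=
  ∀ R, ∀ P : MvPolynomial σ ℂ, P.IsHomogeneous R → ‖ι (R + e) (toC g * P)‖ ≤ γ * ‖ι R P‖

omit [Fintype σ] in
lemma good_iff : Good ι k J t ↔ ¬ Neg ι k J t := by
  simp only [Good, Neg, psi, not_exists, not_and, not_frequently, not_le]

lemma step (hX : StX) (hι : ∀ R, Function.Injective (ι R)) (hJ : IsHom J) {g : MvPolynomial σ ℤ}
    {e : ℕ} (hg : g.IsHomogeneous e) {γ : ℝ} (hγ : 0 < γ) (hb : Bd ι g e γ) (R : ℕ) :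
    Hf J (R + e) = Hf (J ⊔ Ideal.span {g}) (R + e) + Hf (col J g) R ∧
    psi ι k (J ⊔ Ideal.span {g}) (R + e) + psi ι k (col J g) R +
      (k * e - Real.log γ) * Hf (col J g) R ≤ psi ι k J (R + e) := by
  obtain ⟨h1, h2⟩ := hX σ E E (ι R) (ι (R + e)) J g e R γ (hι _) (hι _) hJ hg hγ (hb R)
  refine ⟨h1, ?_⟩
  unfold psi
  rw [h1]
  push_cast
  linarith

omit [Fintype σ] in
lemma good_top : Good ι k ⊤ t := fun c hc => by
  filter_upwards [eventually_ge_atTop 1] with R hR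
  have : (0 : ℝ) < R := by exact_mod_cast hR
  have : 0 < c * (R : ℝ) ^ t := by positivity
  rw [psi, chi, Hf_top, sub_self]
  linarith

lemma good_zero (hI : StI) (hι : ∀ R, Function.Injective (ι R)) (h : HB J 0) : Good ι k J 0 := by
  obtain ⟨C, hC⟩ := h
  intro c hc
  filter_upwards [hC, (tendsto_natCast_atTop_atTop (R := ℝ)).eventually_gt_atTop C] with R h1 h2
  have h3 : Hf J R < 1 := by
    by_contra h
    nlinarith [mul_le_mul_of_nonneg_right (not_lt.1 h) (Nat.cast_nonneg (α := ℝ) R)]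
  have h4 := rank_eq h3
  have h5 := hI _ _ (ι R) _ _ (hι R) (isLat ⊤ R) (Jl_mono le_top R) h4
  rw [psi, chi, Hf, h4]
  simp only [sub_self, mul_zero, pow_zero]
  linarith

lemma HB.small (h : HB J t) (a : ℝ) {c : ℝ} (hc : 0 < c) :
    ∀ᶠ R : ℕ in atTop, a * Hf J R ≤ c * R ^ t := by
  obtain ⟨C, hC⟩ := h
  filter_upwards [hC, (tendsto_natCast_atTop_atTop (R := ℝ)).eventually_ge_atTop (|a| * C / c),
    eventually_ge_atTop 1] with R h1 h2 h3
  have r : (0 : ℝ) < R := by exact_mod_cast h3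
  rw [div_le_iff₀ hc] at h2
  refine le_of_mul_le_mul_right ?_ r
  have h4 := mul_le_mul_of_nonneg_right (le_abs_self a) (mul_nonneg (Hf_nonneg J R) r.le)
  have h5 := mul_le_mul_of_nonneg_left h1 (abs_nonneg a)
  have h6 := mul_le_mul_of_nonneg_right h2 (pow_pos r t).le
  nlinarith

lemma good_of_primes (hX : StX) (hι : ∀ R, Function.Injective (ι R))
    (hb : ∀ (g : MvPolynomial σ ℤ) (e : ℕ), g.IsHomogeneous e → ∃ γ : ℝ, 0 < γ ∧ Bd ι g e γ)
    (hJ : IsHom J) (h : ∀ q, IsHom q → q.IsPrime → J ≤ q → HB q t ∧ Good ι k q t) :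
    Good ι k J t := by
  induction J using IsNoetherian.induction with
  | _ J ih =>
    by_cases hne : J = ⊤
    · rw [hne]; exact good_top
    obtain ⟨g, e, h1, h2, h3⟩ := exists_prime hJ hne
    obtain ⟨γ, hγ, hb'⟩ := hb g e h1
    obtain ⟨q1, q2⟩ := h _ (isHom_col hJ h1) h3 le_col
    have g1 := ih (J ⊔ Ideal.span {g}) (lt_of_le_of_ne le_sup_left fun e => h2 (by
        rw [e]; exact Submodule.mem_sup_right (Ideal.mem_span_singleton_self g)))
      (isHom_sup hJ h1) fun q a b c => h q a b (le_sup_left.trans c)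
    intro c hc
    have c3 : 0 < c / 3 := by positivity
    rw [← map_add_atTop_eq_nat e, eventually_map]
    filter_upwards [(tendsto_add_atTop_nat e).eventually (g1 _ c3), q2 _ c3,
      HB.small q1 (Real.log γ - k * e) c3] with R a1 a2 a3
    have a4 := (step (k := k) hX hι hJ h1 hγ hb' R).2
    have a5 : (R : ℝ) ^ t ≤ ((R + e : ℕ) : ℝ) ^ t :=
      pow_le_pow_left₀ (Nat.cast_nonneg R) (by exact_mod_cast Nat.le_add_right R e) t
    nlinarith

lemma HB_step (hX : StX) (hι : ∀ R, Function.Injective (ι R))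
    (hb : ∀ (g : MvPolynomial σ ℤ) (e : ℕ), g.IsHomogeneous e → ∃ γ : ℝ, 0 < γ ∧ Bd ι g e γ)
    (hp : IsHom p) (hp' : p.IsPrime) (h : HB p (t + 1)) {f : MvPolynomial σ ℤ} {δ : ℕ}
    (hf : f.IsHomogeneous δ) (hf' : f ∉ p) {q : Ideal (MvPolynomial σ ℤ)} (hq : IsHom q)
    (hq' : q.IsPrime) (hle : p ⊔ Ideal.span {f} ≤ q) : HB q t := by
  by_cases hv : ∀ i, X i ∈ q
  · refine ⟨0, ?_⟩
    filter_upwards [eventually_ge_atTop 1] with R hR
    simp [Hf_vars hv hR]
  obtain ⟨i, hi⟩ := not_forall.1 hv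
  have mono : Monotone (Hf q) := monotone_nat_of_le_succ fun R => by
    obtain ⟨γ, hγ, hb'⟩ := hb _ 1 (isHomogeneous_X ℤ i)
    have := (step (k := 0) hX hι hq (isHomogeneous_X ℤ i) hγ hb' R).1
    rw [col_prime hq' hi] at this
    linarith [Hf_nonneg (q ⊔ Ideal.span {X i}) (R + 1)]
  have tel : ∀ R j : ℕ, Hf q R * j ≤ Hf p (R + j * δ) := fun R j => by
    induction j with
    | zero => simpa using Hf_nonneg p R
    | succ j ih =>
      obtain ⟨γ, hγ, hb'⟩ := hb f δ hf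
      have a1 := (step (k := 0) hX hι hp hf hγ hb' (R + j * δ)).1
      rw [col_prime hp' hf'] at a1
      have a2 := Hf_anti hle (R + j * δ + δ)
      have a3 := mono (show R ≤ R + j * δ + δ by omega)
      rw [show R + (j + 1) * δ = R + j * δ + δ by ring]
      push_cast
      linarith
  obtain ⟨C, hC⟩ := h
  refine ⟨C * (1 + δ) ^ t, ?_⟩
  have tt : Tendsto (fun R : ℕ => R + R * δ) atTop atTop :=
    tendsto_atTop_mono (fun R => Nat.le_add_right R _) tendsto_id
  filter_upwards [tt.eventually hC, eventually_ge_atTop 1] with R a1 a2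
  have r : (0 : ℝ) < (R + R * δ : ℕ) := by exact_mod_cast (by omega : 0 < R + R * δ)
  rw [pow_succ, ← mul_assoc] at a1
  refine (tel R R).trans ((le_of_mul_le_mul_right a1 r).trans_eq ?_)
  push_cast
  rw [mul_assoc, ← mul_pow]
  congr 2
  ring

lemma good_step (hX : StX) (hι : ∀ R, Function.Injective (ι R)) (hp : IsHom p) (hp' : p.IsPrime)
    {f : MvPolynomial σ ℤ} {δ : ℕ} (hδ : 1 ≤ δ) (hf : f.IsHomogeneous δ) (hf' : f ∉ p)
    (hb : Bd ι f δ (Real.exp (k * δ))) (h : Good ι k (p ⊔ Ideal.span {f}) t) :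
    Good ι k p (t + 1) := by
  intro c hc
  have c2 : 0 < c / 2 := by positivity
  obtain ⟨R₀, h0⟩ := eventually_atTop.1 (h _ c2)
  obtain ⟨C, hC⟩ := ((Set.finite_Iio (R₀ + δ)).image (psi ι k p)).bddBelow
  have key : ∀ R : ℕ, min C 0 - c / 2 * R ^ (t + 1) ≤ psi ι k p R := fun R => by
    induction R using Nat.strong_induction_on with
    | _ R ih =>
      by_cases hR : R < R₀ + δ
      · have a1 := hC ⟨R, hR, rfl⟩
        have a2 : 0 ≤ c / 2 * (R : ℝ) ^ (t + 1) := by positivity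
        linarith [min_le_left C 0]
      · obtain ⟨S, rfl⟩ : ∃ S, R = S + δ := ⟨R - δ, by omega⟩
        have a1 := ih S (by omega)
        have a2 := h0 (S + δ) (by omega)
        have a3 := (step (k := k) hX hι hp hf (Real.exp_pos _) hb S).2
        rw [col_prime hp' hf', Real.log_exp, sub_self, zero_mul, add_zero] at a3
        have a4 : (S : ℝ) ^ t ≤ ((S + δ : ℕ) : ℝ) ^ t :=
          pow_le_pow_left₀ (Nat.cast_nonneg S) (by exact_mod_cast Nat.le_add_right S δ) t
        have a5 : (S : ℝ) + 1 ≤ (S + δ : ℕ) := by exact_mod_cast (by omega : S + 1 ≤ S + δ)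
        have a6 : (S : ℝ) ^ (t + 1) + ((S + δ : ℕ) : ℝ) ^ t ≤ ((S + δ : ℕ) : ℝ) ^ (t + 1) := by
          have b1 := mul_le_mul_of_nonneg_right a4 (Nat.cast_nonneg (α := ℝ) S)
          have b2 := mul_le_mul_of_nonneg_left a5 (by positivity : 0 ≤ ((S + δ : ℕ) : ℝ) ^ t)
          rw [pow_succ, pow_succ]
          linarith
        nlinarith
  filter_upwards [(tendsto_natCast_atTop_atTop (R := ℝ)).eventually_gt_atTop
    (-min C 0 / (c / 2)), eventually_ge_atTop 1] with R a1 a2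
  have r : (1 : ℝ) ≤ R := by exact_mod_cast a2
  have a3 : (R : ℝ) ≤ R ^ (t + 1) := le_self_pow₀ r (by omega)
  rw [div_lt_iff₀ c2] at a1
  nlinarith [key R]

end Main

end JC

open JC in
theorem stC (hX : StX) (hI : StI) : StC := by
  intro σ E _ _ _ ι k δ F hι _ hδ hb hF t
  induction t with
  | zero => exact fun p _ _ h1 h2 => absurd h2 (good_iff.1 (good_zero hI hι h1))
  | succ t ih =>
    intro p hp hp' h1 h2
    by_cases h : ∀ f ∈ F, f ∈ p
    · exact ⟨p, t + 1, hp, le_rfl, h, h1, h2⟩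
    simp only [not_forall] at h
    obtain ⟨f, hf, hf'⟩ := h
    by_contra hc
    refine good_iff.1 (good_step hX hι hp hp' hδ (hF f hf).1 hf' (hF f hf).2
      (good_of_primes hX hι hb (isHom_sup hp (hF f hf).1) fun q a b c => ?_)) h2
    have d := HB_step hX hι hb hp hp' h1 (hF f hf).1 hf' a b c
    refine ⟨d, good_iff.2 fun n => hc ?_⟩
    obtain ⟨q', t', e1, e2, e3⟩ := ih q a b d n
    exact ⟨q', t', e1, (le_sup_left.trans c).trans e2, e3⟩

end Pool.Agent.Lib.MP_12eca1_ag.P
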