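import Pool.Agent.Lib.MP_12eca1_ag.P.Defs

/-!
Upper bounds for the geometric and the arithmetic Hilbert function of the ideal of a point.
-/

namespace Pool.Agent.Lib.MP_12eca1_ag.P

open MvPolynomial Filter Module

namespace JD1

theorem toC_inj {σ : Type*} : Function.Injective (toC (σ := σ)) :=
  MvPolynomial.map_injective _ (RingHom.injective_int _)

theorem coeff_toC {σ : Type*} (m : σ →₀ ℕ) (P : MvPolynomial σ ℤ) :
    coeff m (toC P) = ((coeff m P : ℤ) : ℂ) := by
  simp [toC, coeff_map]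

theorem toC_monomial {σ : Type*} (m : σ →₀ ℕ) (c : ℤ) :
    toC (monomial m c) = monomial m (c : ℂ) := by
  simp [toC]

theorem l2_apply {σ : Type} (P : MvPolynomial σ ℂ) (m : σ →₀ ℕ) : l2 σ P m = coeff m P := rfl

theorem l2_inj (σ : Type) : Function.Injective (l2 σ) := fun P Q h => by
  ext m
  rw [← l2_apply, h, l2_apply]

theorem norm_coeff_le {σ : Type} (P : MvPolynomial σ ℂ) (m : σ →₀ ℕ) :
    ‖coeff m P‖ ≤ ‖l2 σ P‖ :=
  lp.norm_apply_le_norm (by norm_num) (l2 σ P) m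

theorem norm_l2_monomial {σ : Type} (m : σ →₀ ℕ) (c : ℂ) : ‖l2 σ (monomial m c)‖ = ‖c‖ := by
  classical
  have : l2 σ (monomial m c) = lp.single 2 m c := by
    ext n
    rw [l2_apply, coeff_monomial, lp.single_apply, Pi.single_apply]
    simp [eq_comm]
  rw [this, lp.norm_single (by norm_num)]

theorem isLat_of_int {σ : Type} {N : Submodule ℤ (MvPolynomial σ ℂ)} (hN : N.FG)
    (h : ∀ P ∈ N, ∃ Q, P = toC Q) : IsLat N := by
  refine ⟨hN, fun n v hv hi => ?_⟩
  choose Q hQ using fun i => h _ (hv i)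
  have hq := (LinearIndependent.iff_fractionRing ℤ ℚ).1 hi
  rw [Fintype.linearIndependent_iff] at hq ⊢
  intro c hc i
  refine (Module.forall_dual_apply_eq_zero_iff ℚ _).1 fun f => ?_
  refine hq (fun i => f (c i)) ?_ i
  ext m
  have h1 := congrArg (coeff m) hc
  simp only [coeff_sum, coeff_smul, hQ, coeff_toC, coeff_zero] at h1 ⊢
  have h2 : ∑ j, f (c j) * ((coeff m (Q j) : ℤ) : ℚ) = 0 := by
    have := congrArg f h1
    rw [map_sum, map_zero] at this
    rw [← this]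
    refine Finset.sum_congr rfl fun j _ => ?_
    rw [smul_eq_mul, mul_comm (c j), ← zsmul_eq_mul, map_zsmul, zsmul_eq_mul, mul_comm]
  have h3 := congrArg (fun x : ℚ => (x : ℂ)) h2
  simpa [Rat.smul_def] using h3

theorem mem_Jl {σ : Type*} {J : Ideal (MvPolynomial σ ℤ)} {R : ℕ} {x : MvPolynomial σ ℂ} :
    x ∈ Jl J R ↔ ∃ P, P ∈ J ∧ P.IsHomogeneous R ∧ x = toC P := by
  simp only [Jl, Submodule.mem_map, Submodule.mem_inf, Submodule.restrictScalars_mem,
    mem_homogeneousSubmodule]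
  exact ⟨fun ⟨P, ⟨h1, h2⟩, e⟩ => ⟨P, h1, h2, e.symm⟩, fun ⟨P, h1, h2, e⟩ => ⟨P, ⟨h1, h2⟩, e.symm⟩⟩

theorem fg_top {σ : Type} [Fintype σ] (R : ℕ) : (Jl (⊤ : Ideal (MvPolynomial σ ℤ)) R).FG := by
  unfold Jl
  refine Submodule.FG.map _ ?_
  rw [Submodule.restrictScalars_top, top_inf_eq]
  exact homogeneousSubmodule_fg _ _ R

theorem degree_eq {σ K : Type*} [CommSemiring K] {P : MvPolynomial σ K} {R : ℕ}
    (hP : P.IsHomogeneous R) {m : σ →₀ ℕ} (hm : m ∈ P.support) : m.degree = R := by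
  by_contra h
  exact mem_support_iff.1 hm (hP.coeff_eq_zero h)

theorem mem_vI {κ : Type*} (θ : κ → ℂ) {P : MvPolynomial (Option κ) ℤ} {R : ℕ}
    (hP : P.IsHomogeneous R) : P ∈ vI θ ↔ aeval (pt θ) P = 0 := by
  have : eval₂Hom (Int.castRingHom (Polynomial ℂ)) (fun o => Polynomial.C (pt θ o) * Polynomial.X)
      P = Polynomial.C (aeval (pt θ) P) * Polynomial.X ^ R := by
    rw [coe_eval₂Hom, eval₂_eq, aeval_def, eval₂_eq, map_sum, Finset.sum_mul]
    refine Finset.sum_congr rfl fun m hm => ?_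
    rw [← degree_eq hP hm, Finsupp.degree_apply]
    simp only [mul_pow, Finset.prod_mul_distrib, Finset.prod_pow_eq_pow_sum, map_mul, map_prod,
      map_pow, mul_assoc]
    simp
  rw [vI, RingHom.mem_ker, this, mul_eq_zero, Polynomial.C_eq_zero,
    or_iff_left (pow_ne_zero _ Polynomial.X_ne_zero)]

theorem card_support_le {σ : Type} [Fintype σ] {P : MvPolynomial σ ℂ} {R : ℕ}
    (hP : P.IsHomogeneous R) : P.support.card ≤ (R + 1) ^ Fintype.card σ := by
  classical
  have : P.support.card ≤ (Fintype.piFinset fun _ : σ => Finset.range (R + 1)).card := by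
    refine Finset.card_le_card_of_injOn (fun m => ⇑m) (fun m hm => ?_)
      (fun m _ n _ e => DFunLike.coe_injective e)
    simp only [Finset.mem_coe, Fintype.mem_piFinset, Finset.mem_range]
    intro o
    have := Finsupp.le_degree o m
    rw [degree_eq hP hm] at this
    omega
  simpa using this

theorem lcov_bot {V E : Type*} [AddCommGroup V] [Module ℂ V] [NormedAddCommGroup E]
    [InnerProductSpace ℂ E] (ι : V →ₗ[ℂ] E) : lcov ι ⊥ = 0 := by
  unfold lcov
  split_ifs with h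
  · have : IsEmpty (Fin (finrank ℤ (⊥ : Submodule ℤ V))) := by
      rw [finrank_bot]; infer_instance
    simp [lvol]
  · rfl

/-- placing a polynomial in the slot `l` -/
noncomputable def slot {T d : ℕ} (l : Fin d) :
    MvPolynomial (Fin T) ℤ →ₗ[ℤ] MvPolynomial (Fin T ⊕ Fin d) ℂ where
  toFun Q := toC (X (Sum.inr l) * rename Sum.inl Q)
  map_add' P Q := by simp [mul_add]
  map_smul' c P := by simp [mul_left_comm]

theorem slot_apply {T d : ℕ} (l : Fin d) (Q : MvPolynomial (Fin T) ℤ) :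
    slot l Q = toC (X (Sum.inr l) * rename Sum.inl Q) := rfl

theorem slot_eq_zero {T d : ℕ} {Q : Fin d → MvPolynomial (Fin T) ℤ} :
    ∑ l, slot l (Q l) = 0 ↔ ∀ l, Q l = 0 := by
  refine ⟨fun h l => ?_, fun h => by simp [h]⟩
  simp only [slot_apply] at h
  rw [← map_sum, ← map_zero toC] at h
  have h1 := congrArg (aeval (R := ℤ) (Sum.elim X fun l' => if l' = l then 1 else 0 :
    Fin T ⊕ Fin d → MvPolynomial (Fin T) ℤ)) (toC_inj h)
  simp only [map_sum, map_mul, aeval_rename, aeval_X, Sum.elim_comp_inl, Sum.elim_inr,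
    aeval_X_left_apply, map_zero] at h1
  simpa using h1

theorem norm_slot {T d : ℕ} (l : Fin d) (Q : MvPolynomial (Fin T) ℤ) :
    ‖l2 _ (slot l Q)‖ ≤ l1 Q := by
  conv_lhs => rw [Q.as_sum, map_sum, map_sum]
  refine (norm_sum_le _ _).trans (Finset.sum_le_sum fun m _ => ?_)
  rw [slot_apply, rename_monomial, X, monomial_mul, toC_monomial, norm_l2_monomial]
  simp [Int.norm_eq_abs]

theorem slot_mem {T d K : ℕ} (l : Fin d) {Q : MvPolynomial (Fin T) ℤ} (hQ : Q.totalDegree ≤ K) :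
    slot l Q ∈ Submodule.span ℤ (Set.range fun a : Fin d × (Fin T → Fin (K + 1)) =>
      slot a.1 (monomial (Finsupp.equivFunOnFinite.symm fun t => (a.2 t : ℕ)) (1 : ℤ))) := by
  rw [Q.as_sum, map_sum]
  refine Submodule.sum_mem _ fun m hm => ?_
  rw [show monomial m (coeff m Q) = coeff m Q • monomial m (1 : ℤ) by simp [smul_monomial],
    map_smul]
  refine Submodule.smul_mem _ _ (Submodule.subset_span ⟨(l, fun t => ⟨m t, ?_⟩), ?_⟩)
  · have h1 := monomial_le_degreeOf t hm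
    have h2 := degreeOf_le_totalDegree Q t
    omega
  · simp

/-- the linear map with prescribed values on monomials -/
noncomputable def lin {σ V : Type} [AddCommGroup V] [Module ℂ V] (G : (σ →₀ ℕ) → V) :
    MvPolynomial σ ℂ →ₗ[ℂ] V := (basisMonomials σ ℂ).constr ℂ G

theorem lin_monomial {σ V : Type} [AddCommGroup V] [Module ℂ V] (G : (σ →₀ ℕ) → V)
    (m : σ →₀ ℕ) (c : ℂ) : lin G (monomial m c) = c • G m := by
  rw [show monomial m c = c • basisMonomials σ ℂ m by simp [smul_monomial], map_smul, lin,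
    Basis.constr_basis]

theorem lin_apply {σ V : Type} [AddCommGroup V] [Module ℂ V] (G : (σ →₀ ℕ) → V)
    (P : MvPolynomial σ ℂ) : lin G P = ∑ m ∈ P.support, coeff m P • G m := by
  conv_lhs => rw [P.as_sum, map_sum]
  simp only [lin_monomial]

theorem lin_toC {σ V : Type} [AddCommGroup V] [Module ℂ V] (G : (σ →₀ ℕ) → V)
    (P : MvPolynomial σ ℤ) : lin G (toC P) = ∑ m ∈ P.support, coeff m P • G m := by
  conv_lhs => rw [P.as_sum, map_sum, map_sum]
  simp only [toC_monomial, lin_monomial, Int.cast_smul_eq_zsmul]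

theorem num_bound (N d C R : ℕ) (hR : 1 ≤ R) :
    ((R : ℝ) + 1) ^ N * (d * (C : ℝ) ^ (R + 1)) ≤ Real.exp ((N + d + 2 * C) * R) := by
  have hR' : (1 : ℝ) ≤ R := by exact_mod_cast hR
  have h1 : ((R : ℝ) + 1) ^ N ≤ Real.exp (N * R) := by
    rw [Real.exp_nat_mul]
    exact pow_le_pow_left₀ (by positivity) (Real.add_one_le_exp _) _
  have h2 : (d : ℝ) ≤ Real.exp (d * R) := by
    have := Real.add_one_le_exp ((d : ℝ) * R)
    nlinarith [Nat.cast_nonneg (α := ℝ) d]
  have h3 : (C : ℝ) ^ (R + 1) ≤ Real.exp (2 * C * R) := by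
    calc (C : ℝ) ^ (R + 1) ≤ Real.exp C ^ (R + 1) :=
          pow_le_pow_left₀ (by positivity) (by linarith [Real.add_one_le_exp (C : ℝ)]) _
      _ = Real.exp ((R + 1 : ℕ) * C) := (Real.exp_nat_mul _ _).symm
      _ ≤ _ := Real.exp_le_exp.2 (by push_cast; nlinarith [Nat.cast_nonneg (α := ℝ) C])
  rw [show ((N : ℝ) + d + 2 * C) * R = N * R + (d * R + 2 * C * R) by ring, Real.exp_add,
    Real.exp_add]
  gcongr

end JD1

open JD1 in
theorem stD1 (hS : StS) (hL : StL) (hZ : StZ) : StD1 := by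
  intro κ _ θ T hT
  have hT' : TB (pt θ) T := by
    obtain ⟨e, h1, h2⟩ := hT
    refine ⟨some ∘ e, h1, fun o => ?_⟩
    cases o with
    | none => exact isAlgebraic_one
    | some i => exact h2 i
  obtain ⟨d, C, hΦ⟩ := hS (Option κ) (pt θ) T hT'
  set N := Fintype.card (Option κ)
  refine ⟨(d * (2 * C + 1) ^ T + 1) * (N + d + 2 * C + 1), by positivity, fun R hR => ?_⟩
  obtain ⟨Φ, h1, h2⟩ := hΦ R
  let φ := lin fun m => ∑ l, slot l (Φ m l)
  have hφ : ∀ P, φ (toC P) = ∑ l, slot l (∑ m ∈ P.support, coeff m P • Φ m l) := fun P => by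
    simp only [φ, lin_toC, map_sum, map_smul, Finset.smul_sum]
    exact Finset.sum_comm
  have hint : ∀ x ∈ (Jl (⊤ : Ideal (MvPolynomial (Option κ) ℤ)) R).map (φ.restrictScalars ℤ),
      ∃ Q, x = toC Q := by
    rintro _ ⟨x, hx, rfl⟩
    obtain ⟨P, -, -, rfl⟩ := mem_Jl.1 hx
    exact ⟨_, (hφ P).trans (map_sum toC _ _).symm⟩
  have hfg := (fg_top (σ := Option κ) R).map (φ.restrictScalars ℤ)
  have hker : Jl ⊤ R ⊓ (⊥ : Submodule ℤ _).comap (φ.restrictScalars ℤ) = Jl (vI θ) R := by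
    ext x
    simp only [Submodule.mem_inf, Submodule.mem_comap, Submodule.mem_bot, mem_Jl,
      LinearMap.restrictScalars_apply]
    constructor
    · rintro ⟨⟨P, -, hP, rfl⟩, e⟩
      rw [hφ, slot_eq_zero, ← h2 P hP.totalDegree_le, ← mem_vI θ hP] at e
      exact ⟨P, e, hP, rfl⟩
    · rintro ⟨P, e, hP, rfl⟩
      refine ⟨⟨P, trivial, hP, rfl⟩, ?_⟩
      rwa [hφ, slot_eq_zero, ← h2 P hP.totalDegree_le, ← mem_vI θ hP]
  have hγ : ∀ x ∈ Submodule.span ℂ (Jl (⊤ : Ideal (MvPolynomial (Option κ) ℤ)) R : Set _),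
      ‖l2 _ (φ x)‖ ≤ Real.exp ((N + d + 2 * C) * R) * ‖l2 _ x‖ := fun x hx => by
    have hx' : x.IsHomogeneous R := by
      refine (Submodule.span_le (p := homogeneousSubmodule (Option κ) ℂ R)).2 (fun y hy => ?_) hx
      obtain ⟨P, -, hP, rfl⟩ := mem_Jl.1 hy
      exact hP.map _
    have hG : ∀ m ∈ x.support, ‖l2 _ (∑ l, slot l (Φ m l))‖ ≤ d * (C : ℝ) ^ (R + 1) :=
      fun m hm => by
        rw [map_sum]
        refine (norm_sum_le _ _).trans ((Finset.sum_le_card_nsmul _ _ ((C : ℝ) ^ (R + 1))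
          fun l _ => (norm_slot l _).trans (h1 m (degree_eq hx' hm).le l).2).trans (by simp))
    simp only [φ, lin_apply]
    rw [map_sum]
    refine (norm_sum_le _ _).trans ((Finset.sum_le_card_nsmul _ _
      (‖l2 _ x‖ * (d * (C : ℝ) ^ (R + 1))) fun m hm => ?_).trans ?_)
    · rw [map_smul, norm_smul]
      exact mul_le_mul (norm_coeff_le x m) (hG m hm) (norm_nonneg _) (norm_nonneg _)
    · have h3 : (x.support.card : ℝ) ≤ ((R : ℝ) + 1) ^ N := by
        exact_mod_cast card_support_le hx'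
      rw [nsmul_eq_mul]
      calc _ ≤ ((R : ℝ) + 1) ^ N * (‖l2 _ x‖ * (d * (C : ℝ) ^ (R + 1))) := by gcongr
        _ = ((R : ℝ) + 1) ^ N * (d * (C : ℝ) ^ (R + 1)) * ‖l2 _ x‖ := by ring
        _ ≤ _ := by gcongr; exact num_bound N d C R hR
  obtain ⟨r1, r2⟩ := hL _ _ _ _ (l2 _) (l2 _) φ (Jl ⊤ R) _ ⊥ _ (l2_inj _) (l2_inj _)
    (isLat_of_int (fg_top R) fun x hx => by
      obtain ⟨P, -, -, e⟩ := mem_Jl.1 hx
      exact ⟨P, e⟩) (isLat_of_int hfg hint) bot_le le_rfl (Real.exp_pos _) hγ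
  rw [bot_sup_eq, hker] at r1 r2
  rw [finrank_bot, zero_add] at r1
  rw [lcov_bot, Real.log_exp] at r2
  have r3 := hZ _ _ hfg hint
  have r4 : finrank ℤ ((Jl (⊤ : Ideal (MvPolynomial (Option κ) ℤ)) R).map (φ.restrictScalars ℤ)) ≤
      d * (C * (R + 1) + 1) ^ T := by
    have hle : (Jl (⊤ : Ideal (MvPolynomial (Option κ) ℤ)) R).map (φ.restrictScalars ℤ) ≤
        Submodule.span ℤ (Set.range fun a : Fin d × (Fin T → Fin (C * (R + 1) + 1)) =>
          slot a.1 (monomial (Finsupp.equivFunOnFinite.symm fun t => (a.2 t : ℕ)) (1 : ℤ))) := by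
      rintro _ ⟨x, hx, rfl⟩
      obtain ⟨P, -, hP, rfl⟩ := mem_Jl.1 hx
      rw [LinearMap.restrictScalars_apply, hφ]
      refine Submodule.sum_mem _ fun l _ => ?_
      rw [map_sum]
      refine Submodule.sum_mem _ fun m hm => ?_
      rw [map_smul]
      exact Submodule.smul_mem _ _ (slot_mem l (h1 m (degree_eq hP hm).le l).1)
    have := Module.Finite.span_of_finite ℤ (Set.finite_range
      fun a : Fin d × (Fin T → Fin (C * (R + 1) + 1)) =>
        slot a.1 (monomial (Finsupp.equivFunOnFinite.symm fun t => (a.2 t : ℕ)) (1 : ℤ)))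
    refine (Submodule.finrank_mono hle).trans ((finrank_range_le_card _).trans ?_)
    simp
  have hR' : (1 : ℝ) ≤ R := by exact_mod_cast hR
  have r5 : Hf (vI θ) R ≤ d * (2 * C + 1) ^ T * R ^ T := by
    have a1 : Hf (vI θ) R ≤ d * ((C : ℝ) * (R + 1) + 1) ^ T := by
      rw [Hf, ← r1]
      push_cast
      rw [add_sub_cancel_right]
      exact_mod_cast r4
    refine a1.trans ?_
    rw [mul_assoc, ← mul_pow]
    gcongr
    nlinarith [Nat.cast_nonneg (α := ℝ) C]
  have p1 : (0 : ℝ) ≤ d * (2 * C + 1) ^ T := by positivity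
  have p2 : (0 : ℝ) ≤ N + d + 2 * C := by positivity
  constructor
  · exact r5.trans (mul_le_mul_of_nonneg_right (by nlinarith) (by positivity))
  · have a2 : chi (l2 (Option κ)) (vI θ) R ≤ Hf (vI θ) R * ((N + d + 2 * C) * R) := by
      rw [chi, Hf]; linarith
    calc _ ≤ d * (2 * C + 1) ^ T * R ^ T * (((N : ℝ) + d + 2 * C) * R) := by
          refine a2.trans ?_
          gcongr
      _ = d * (2 * C + 1) ^ T * ((N : ℝ) + d + 2 * C) * R ^ (T + 1) := by ring
      _ ≤ _ := mul_le_mul_of_nonneg_right (by nlinarith) (by positivity)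

end Pool.Agent.Lib.MP_12eca1_ag.P
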