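import Pool.Agent.Lib.MP_12eca1_ag.P.Defs

/-! A lower bound for the Hilbert-Samuel function through a formally etale lift. -/

namespace Pool.Agent.Lib.MP_12eca1_ag.P

open MvPolynomial Filter Module

namespace JD3

/-- lifting a separable algebraic extension through a nilpotent thickening -/
theorem lift_field {F K B C : Type} [Field F] [CharZero F] [Field K] [Algebra F K]
    [Algebra.IsAlgebraic F K] [CommRing B] [CommRing C] (φ : F →+* B) (π : B →+* C)
    (hπ : Function.Surjective π) (hn : IsNilpotent (RingHom.ker π)) (ψ : K →+* C)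
    (h : ∀ x, π (φ x) = ψ (algebraMap F K x)) :
    ∃ L : K →+* B, (∀ x, L (algebraMap F K x) = φ x) ∧ ∀ y, π (L y) = ψ y := by
  let _ : Algebra F B := φ.toAlgebra
  let _ : Algebra F C := (π.comp φ).toAlgebra
  have : Algebra.FormallyEtale F K := Algebra.FormallyEtale.of_isSeparable F K
  let g : B →ₐ[F] C := { π with commutes' := fun _ => rfl }
  let f : K →ₐ[F] C := { ψ with commutes' := fun x => (h x).symm }
  let L := Algebra.FormallySmooth.liftOfSurjective f g hπ hn
  exact ⟨L.toRingHom, fun x => L.commutes x,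
    fun y => Algebra.FormallySmooth.liftOfSurjective_apply f g hπ hn y⟩

theorem isUnit_of_ne {B : Type} [CommRing B] (π : B →+* ℂ) (hπ : Function.Surjective π)
    (hn : IsNilpotent (RingHom.ker π)) (b : B) (hb : π b ≠ 0) : IsUnit b := by
  rw [← IsNilpotent.isUnit_quotient_mk_iff hn]
  have h1 : IsUnit (RingHom.quotientKerEquivOfSurjective hπ (Ideal.Quotient.mk _ b)) :=
    isUnit_iff_ne_zero.2 hb
  simpa using h1.map (RingHom.quotientKerEquivOfSurjective hπ).symm

/-- deformation of a point with prescribed values on a transcendence basis -/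
theorem lift_point {k κ B : Type} [Field k] [CharZero k] [Algebra k ℂ] [CommRing B] [Algebra k B]
    {T : ℕ} (θ : κ → ℂ) (e : Fin T → κ)
    (hind : AlgebraicIndependent k (θ ∘ e))
    (halg : ∀ i, IsAlgebraic (Algebra.adjoin k (Set.range (θ ∘ e))) (θ i)) (π : B →+* ℂ)
    (hπ : Function.Surjective π) (hn : IsNilpotent (RingHom.ker π)) (w : Fin T → B)
    (hw : ∀ t, π (w t) = θ (e t)) (hk : ∀ c, π (algebraMap k B c) = algebraMap k ℂ c) :
    ∃ x : κ → B, (∀ t, x (e t) = w t) ∧ (∀ i, π (x i) = θ i) ∧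
      ∀ P : MvPolynomial (Option κ) ℤ, eval₂Hom (Int.castRingHom ℂ) (pt θ) P = 0 →
        eval₂Hom (Int.castRingHom B) (fun o => o.elim 1 x) P = 0 := by
  classical
  set ω := θ ∘ e with hω
  let F := IntermediateField.adjoin k (Set.range ω)
  let g : MvPolynomial (Fin T) k →+* B := (aeval w : MvPolynomial (Fin T) k →ₐ[k] B).toRingHom
  have hg : ∀ p, π (g p) = aeval ω p := by
    intro p
    have h1 : π.comp g = (aeval ω : MvPolynomial (Fin T) k →ₐ[k] ℂ).toRingHom := by
      refine MvPolynomial.ringHom_ext (fun c => ?_) fun t => ?_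
      · simp [g, hk]
      · simp [g, hw, hω]
    exact RingHom.congr_fun h1 p
  have hu : ∀ y : nonZeroDivisors (MvPolynomial (Fin T) k), IsUnit (g y) := by
    intro y
    refine isUnit_of_ne π hπ hn _ ?_
    rw [hg]
    intro h0
    exact nonZeroDivisors.ne_zero y.2 (hind.eq_zero_of_aeval_eq_zero _ h0)
  let φ₀ : FractionRing (MvPolynomial (Fin T) k) →+* B := IsLocalization.lift hu
  let φ : F →+* B := φ₀.comp hind.reprField.toRingHom
  have hφ₀ : ∀ a, π (φ₀ a) = (hind.aevalEquivField a : ℂ) := by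
    intro a
    have h1 : π.comp φ₀ = (F.val : F →+* ℂ).comp hind.aevalEquivField.toAlgHom.toRingHom := by
      refine IsLocalization.ringHom_ext (nonZeroDivisors (MvPolynomial (Fin T) k)) ?_
      refine RingHom.ext fun p => ?_
      show π (φ₀ (algebraMap _ _ p)) = (hind.aevalEquivField (algebraMap _ _ p) : ℂ)
      rw [hind.aevalEquivField_algebraMap_apply_coe, IsLocalization.lift_eq, hg]
    exact RingHom.congr_fun h1 a
  let K := algebraicClosure F ℂ
  obtain ⟨L, hL1, hL2⟩ := lift_field (F := F) (K := K) φ π hπ hn (K.val : K →+* ℂ) (fun x => by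
    show π (φ₀ (hind.aevalEquivField.symm x)) = (x : ℂ)
    rw [hφ₀, AlgEquiv.apply_symm_apply])
  have hθ : ∀ i, θ i ∈ K := by
    intro i
    open IntermediateField.algebraAdjoinAdjoin in
    exact mem_algebraicClosure_iff.2 ((halg i).extendScalars
      (FaithfulSMul.algebraMap_injective (Algebra.adjoin k (Set.range ω)) F))
  refine ⟨fun i => L ⟨θ i, hθ i⟩, fun t => ?_, fun i => hL2 _, fun P hP => ?_⟩
  · have h1 : (⟨θ (e t), hθ _⟩ : K) =
        algebraMap F K (hind.aevalEquivField (algebraMap (MvPolynomial (Fin T) k) _ (X t))) := by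
      apply Subtype.ext
      show θ (e t) = (hind.aevalEquivField (algebraMap (MvPolynomial (Fin T) k) _ (X t)) : ℂ)
      rw [hind.aevalEquivField_algebraMap_apply_coe]
      simp [hω]
    show L ⟨θ (e t), hθ _⟩ = w t
    rw [h1, hL1]
    show φ₀ (hind.aevalEquivField.symm _) = w t
    rw [AlgEquiv.symm_apply_apply, IsLocalization.lift_eq]
    simp [g]
  · let ev : MvPolynomial (Option κ) ℤ →+* K :=
      eval₂Hom (Int.castRingHom K) fun o => o.elim 1 fun i => ⟨θ i, hθ i⟩
    have h1 : (K.val : K →+* ℂ).comp ev = eval₂Hom (Int.castRingHom ℂ) (pt θ) := by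
      refine MvPolynomial.ringHom_ext' (RingHom.ext_int _ _) fun o => ?_
      cases o <;> simp [ev, pt]
    have h2 : L.comp ev = eval₂Hom (Int.castRingHom B) fun o => o.elim 1 fun i => L ⟨θ i, hθ i⟩ := by
      refine MvPolynomial.ringHom_ext' (RingHom.ext_int _ _) fun o => ?_
      cases o <;> simp [ev]
    have h3 : ev P = 0 := by
      apply Subtype.ext
      exact (RingHom.congr_fun h1 P).trans hP
    rw [← h2, RingHom.comp_apply, h3, map_zero]

/-- truncated polynomials -/
abbrev Tr (T N : ℕ) : Type := MvPolynomial (Fin T) ℂ ⧸ idealOfVars (Fin T) ℂ ^ (N + 1)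

theorem ker_cc (T : ℕ) :
    RingHom.ker (constantCoeff : MvPolynomial (Fin T) ℂ →+* ℂ) = idealOfVars (Fin T) ℂ := by
  ext p
  rw [RingHom.mem_ker, ← pow_one (idealOfVars (Fin T) ℂ), mem_pow_idealOfVars_iff']
  constructor
  · intro h x hx
    have : x = 0 := (Finsupp.degree_eq_zero_iff x).1 (by omega)
    subst this
    exact h
  · intro h
    exact h 0 (by simp)

/-- the residue map -/
noncomputable def res (T N : ℕ) : Tr T N →+* ℂ :=
  Ideal.Quotient.lift _ constantCoeff fun a ha => by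
    have h := Ideal.pow_le_self (I := idealOfVars (Fin T) ℂ) (n := N + 1) (by omega) ha
    rwa [← ker_cc] at h

theorem res_mk (T N : ℕ) (p : MvPolynomial (Fin T) ℂ) :
    res T N (Ideal.Quotient.mk _ p) = constantCoeff p := rfl

theorem res_alg (T N : ℕ) (c : ℂ) : res T N (algebraMap ℂ (Tr T N) c) = c := by
  show res T N (Ideal.Quotient.mk _ (C c)) = c
  simp [res_mk]

theorem res_surj (T N : ℕ) : Function.Surjective (res T N) := fun c => ⟨_, res_alg T N c⟩

theorem ker_res_pow (T N : ℕ) : RingHom.ker (res T N) ^ (N + 1) = ⊥ := by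
  have h : RingHom.ker (res T N) ≤ (idealOfVars (Fin T) ℂ).map (Ideal.Quotient.mk _) := by
    intro b hb
    obtain ⟨p, rfl⟩ := Ideal.Quotient.mk_surjective b
    apply Ideal.mem_map_of_mem
    rw [← ker_cc]
    exact hb
  refine le_bot_iff.1 ((Ideal.pow_right_mono h _).trans ?_)
  rw [← Ideal.map_pow, Ideal.map_quotient_self]

theorem ev_one {κ : Type} (θ : κ → ℂ) (P : MvPolynomial (Option κ) ℤ) (hP : P ∈ vI θ) :
    eval₂Hom (Int.castRingHom ℂ) (pt θ) P = 0 := by
  have h1 : (Polynomial.evalRingHom (1 : ℂ)).comp (eval₂Hom (Int.castRingHom (Polynomial ℂ))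
      fun o => Polynomial.C (pt θ o) * Polynomial.X) = eval₂Hom (Int.castRingHom ℂ) (pt θ) := by
    refine MvPolynomial.ringHom_ext' (RingHom.ext_int _ _) fun o => ?_
    simp
  rw [← h1, RingHom.comp_apply, RingHom.mem_ker.1 hP, map_zero]

end JD3

open JD3 in
theorem stD3 : StD3 := by
  classical
  intro κ _ θ T ⟨e, hind, halg⟩ ε j R hε hR
  let B := Tr T (T * j)
  let y : Fin T → B := fun t => Ideal.Quotient.mk _ (X t)
  let _ : Algebra ℚ B := ((algebraMap ℂ B).comp (algebraMap ℚ ℂ)).toAlgebra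
  obtain ⟨x, hx1, hx2, hx3⟩ := lift_point θ e hind halg (res T (T * j)) (res_surj _ _)
    ⟨_, ker_res_pow T (T * j)⟩ (fun t => algebraMap ℂ B (θ (e t)) + y t) (fun t => by
      rw [map_add, res_alg, res_mk]; simp) (fun c => res_alg _ _ _)
  let Ψ : MvPolynomial (Option κ) ℂ →ₐ[ℂ] B := aeval fun o => o.elim 1 x
  let Ψ' : MvPolynomial κ ℂ →ₐ[ℂ] B :=
    aeval fun i => algebraMap ℂ B ε⁻¹ * (x i - algebraMap ℂ B (θ i))
  have hΨ : Ψ = Ψ'.comp (tay θ ε) := by
    refine MvPolynomial.algHom_ext fun o => ?_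
    cases o with
    | none => simp [Ψ, tay]
    | some i =>
      simp only [Ψ, Ψ', tay, aeval_X, Option.elim, AlgHom.comp_apply, map_add, map_mul, aeval_C]
      rw [← mul_assoc, ← map_mul, mul_inv_cancel₀ hε, map_one, one_mul]
      ring
  have hmap : (idealOfVars κ ℂ).map (Ψ' : MvPolynomial κ ℂ →+* B) ≤
      RingHom.ker (res T (T * j)) := by
    rw [Ideal.map_span, Ideal.span_le]
    rintro _ ⟨_, ⟨i, rfl⟩, rfl⟩
    simp only [SetLike.mem_coe, RingHom.mem_ker, RingHom.coe_coe, Ψ', aeval_X]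
    rw [map_mul, map_sub, hx2, res_alg, res_alg, sub_self, mul_zero]
  have hY : Yv θ ε (T * j) R ≤ LinearMap.ker Ψ.toLinearMap := by
    intro P hP
    have h1 : tay θ ε P ∈ idealOfVars κ ℂ ^ (T * j + 1) := hP.2
    have h2 := Ideal.mem_map_of_mem (Ψ' : MvPolynomial κ ℂ →+* B) h1
    rw [Ideal.map_pow] at h2
    have h3 := Ideal.pow_right_mono hmap _ h2
    rw [ker_res_pow, Ideal.mem_bot] at h3
    rw [LinearMap.mem_ker, hΨ]
    exact h3
  have hJ : Submodule.span ℂ (Jl (vI θ) R : Set (MvPolynomial (Option κ) ℂ)) ≤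
      LinearMap.ker Ψ.toLinearMap := by
    rw [Submodule.span_le]
    rintro _ ⟨P, hP, rfl⟩
    have h1 : (Ψ : MvPolynomial (Option κ) ℂ →+* B).comp toC =
        eval₂Hom (Int.castRingHom B) fun o => o.elim 1 x := by
      refine MvPolynomial.ringHom_ext' (RingHom.ext_int _ _) fun o => ?_
      simp [Ψ, toC]
    exact (RingHom.congr_fun h1 P).trans (hx3 P (ev_one θ P hP.1))
  let ex : (Fin T → Fin j) → Fin T →₀ ℕ := fun b => Finsupp.equivFunOnFinite.symm fun t => (b t : ℕ)
  have hex : Function.Injective ex := by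
    intro b b' h
    funext t
    exact Fin.ext (congrFun (Finsupp.equivFunOnFinite.symm.injective h) t)
  have hs : ∀ b : Fin T → Fin j, ∑ t, (b t : ℕ) ≤ T * j := by
    intro b
    calc ∑ t, (b t : ℕ) ≤ ∑ _t : Fin T, j := Finset.sum_le_sum fun t _ => (b t).2.le
      _ = T * j := by simp
  refine ⟨fun b => (∏ t, (X (some (e t)) - C (θ (e t)) * X none) ^ (b t : ℕ)) *
    X none ^ (R - ∑ t, (b t : ℕ)), fun b => ?_, fun c hc => ?_⟩
  · have h1 : ∀ t, (X (some (e t)) - C (θ (e t)) * X none :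
        MvPolynomial (Option κ) ℂ).IsHomogeneous 1 := fun t =>
      (isHomogeneous_X ℂ _).sub ((isHomogeneous_X ℂ _).C_mul _)
    have h2 := (IsHomogeneous.prod Finset.univ _ (fun t => 1 * (b t : ℕ))
      fun t _ => (h1 t).pow (b t)).mul ((isHomogeneous_X ℂ (none : Option κ)).pow
        (R - ∑ t, (b t : ℕ)))
    have h3 : ∑ t, 1 * (b t : ℕ) + 1 * (R - ∑ t, (b t : ℕ)) = R := by
      have := hs b
      simp only [one_mul]
      omega
    rwa [h3] at h2
  · have h1 := sup_le hY hJ hc
    rw [LinearMap.mem_ker, map_sum] at h1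
    have h2 : ∀ b : Fin T → Fin j, Ψ ((∏ t, (X (some (e t)) - C (θ (e t)) * X none) ^ (b t : ℕ)) *
        X none ^ (R - ∑ t, (b t : ℕ))) = Ideal.Quotient.mk _ (monomial (ex b) 1) := by
      intro b
      rw [monomial_eq, Finsupp.prod_fintype _ _ (by simp)]
      simp [Ψ, hx1, y, ex]
    have h3 : Ideal.Quotient.mk (idealOfVars (Fin T) ℂ ^ (T * j + 1))
        (∑ b, monomial (ex b) (c b)) = 0 := by
      rw [← h1, map_sum]
      refine Finset.sum_congr rfl fun b _ => ?_
      rw [map_smul, AlgHom.toLinearMap_apply, h2, ← Ideal.Quotient.mkₐ_eq_mk ℂ, ← map_smul,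
        smul_monomial, smul_eq_mul, mul_one]
    rw [Ideal.Quotient.eq_zero_iff_mem, mem_pow_idealOfVars_iff'] at h3
    funext b
    have h4 := h3 (ex b) (by
      have := hs b
      rw [Finsupp.degree_eq_sum]
      simp only [ex, Finsupp.equivFunOnFinite_symm_apply_apply]
      omega)
    rw [coeff_sum, Finset.sum_eq_single b] at h4
    · simpa using h4
    · intro b' _ hb'
      rw [coeff_monomial, if_neg fun h => hb' (hex h)]
    · simp

end Pool.Agent.Lib.MP_12eca1_ag.P
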