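import Pool.Agent.Lib.MP_12eca1_ag.P.Basic

/-!
Splitting a lattice along a short dual vector.
-/

namespace Pool.Agent.Lib.MP_12eca1_ag.P

open Filter Module

namespace JDr

section lattice

variable {E : Type} [NormedAddCommGroup E] [InnerProductSpace ℝ E]

/-- dual vectors -/
def Du (M : Submodule ℤ E) (ξ : E) : Prop := ∀ a ∈ M, ∃ n : ℤ, inner ℝ ξ a = n

/-- the integral form of a dual vector -/
noncomputable def fz {M : Submodule ℤ E} {ξ : E} (h : Du M ξ) : M →ₗ[ℤ] ℤ :=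
  (AddMonoidHom.mk' (fun a : M => (h a a.2).choose) fun a b => by
    apply Int.cast_injective (α := ℝ)
    rw [Int.cast_add, ← (h _ (a + b).2).choose_spec, ← (h a a.2).choose_spec,
      ← (h b b.2).choose_spec, Submodule.coe_add, inner_add_right]).toIntLinearMap

theorem fz_eq {M : Submodule ℤ E} {ξ : E} (h : Du M ξ) (a : M) : (fz h a : ℝ) = inner ℝ ξ (a : E) :=
  (h a a.2).choose_spec.symm

/-- the sublattice orthogonal to a vector -/
def ort (M : Submodule ℤ E) (ξ : E) : Submodule ℤ E where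
  carrier := {a | a ∈ M ∧ inner ℝ ξ a = 0}
  add_mem' := fun ha hb => ⟨M.add_mem ha.1 hb.1, by rw [inner_add_right, ha.2, hb.2, add_zero]⟩
  zero_mem' := ⟨M.zero_mem, inner_zero_right _⟩
  smul_mem' := fun c a ha => ⟨M.smul_mem c ha.1, by
    rw [← Int.cast_smul_eq_zsmul ℝ, inner_smul_right, ha.2, mul_zero]⟩

theorem ort_le (M : Submodule ℤ E) (ξ : E) : ort M ξ ≤ M := fun _ h => h.1

theorem inner_zsmul (ξ a : E) (n : ℤ) : inner ℝ ξ (n • a) = n * inner ℝ ξ a := by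
  rw [← Int.cast_smul_eq_zsmul ℝ, inner_smul_right]

theorem prim {M : Submodule ℤ E} {ξ : E} (h : Du M ξ) (hne : ∃ a ∈ M, inner ℝ ξ a ≠ 0) :
    ∃ ξ' : E, Du M ξ' ∧ ‖ξ'‖ ≤ ‖ξ‖ ∧ ∃ b ∈ M, inner ℝ ξ' b = 1 := by
  obtain ⟨n, hn⟩ := Int.subgroup_cyclic (LinearMap.range (fz h)).toAddSubgroup
  have h1 : ∀ a : M, ∃ k : ℤ, k * n = fz h a := fun a => by
    have : fz h a ∈ AddSubgroup.closure {n} := hn ▸ ⟨a, rfl⟩
    simpa [AddSubgroup.mem_closure_singleton] using this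
  obtain ⟨b, hb⟩ : n ∈ (LinearMap.range (fz h)).toAddSubgroup :=
    hn ▸ AddSubgroup.subset_closure rfl
  have hn0 : n ≠ 0 := by
    rintro rfl
    obtain ⟨a, ha, ha'⟩ := hne
    obtain ⟨k, hk⟩ := h1 ⟨a, ha⟩
    apply ha'
    rw [← fz_eq h ⟨a, ha⟩, ← hk]
    simp
  have hn1 : (n : ℝ) ≠ 0 := Int.cast_ne_zero.2 hn0
  refine ⟨(n : ℝ)⁻¹ • ξ, fun a ha => ?_, ?_, b, b.2, ?_⟩
  · obtain ⟨k, hk⟩ := h1 ⟨a, ha⟩
    refine ⟨k, ?_⟩
    rw [real_inner_smul_left, ← fz_eq h ⟨a, ha⟩, ← hk]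
    push_cast
    field_simp
  · rw [norm_smul, norm_inv, Real.norm_eq_abs]
    refine mul_le_of_le_one_left (norm_nonneg _) (inv_le_one_of_one_le₀ ?_)
    exact_mod_cast Int.one_le_abs hn0
  · rw [real_inner_smul_left, ← fz_eq h b, hb, inv_mul_cancel₀ hn1]

/-- a nearly shortest primitive dual vector -/
structure Sp (M : Submodule ℤ E) (ξ b : E) : Prop where
  du : Du M ξ
  mem : b ∈ M
  one : inner ℝ ξ b = 1
  min : ∀ η, Du M η → (∃ a ∈ M, inner ℝ η a ≠ 0) → 2 * ‖ξ‖ ≤ 3 * ‖η‖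

theorem exists_sp {M : Submodule ℤ E} {t : ℝ} [Module.Free ℤ M] [Nontrivial M] (hd : Disc M)
    (ht : Thin M t) : ∃ ξ b, Sp M ξ b := by
  let D : Set ℝ := {r | ∃ η, Du M η ∧ (∃ a ∈ M, inner ℝ η a ≠ 0) ∧ ‖η‖ = r}
  have hne : D.Nonempty := by
    let B := Module.Free.chooseBasis ℤ M
    obtain ⟨i⟩ := B.index_nonempty
    obtain ⟨η, hη⟩ := hd (B.coord i)
    refine ⟨‖η‖, η, fun a ha => ⟨_, hη ⟨a, ha⟩⟩, ⟨B i, (B i).2, ?_⟩, rfl⟩
    rw [hη]
    simp
  have hlb : ∀ r ∈ D, Real.exp (-t) ≤ r := by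
    rintro r ⟨η, h1, h2, rfl⟩
    exact ht η h1 h2
  have hpos : 0 < sInf D := (Real.exp_pos _).trans_le (le_csInf hne hlb)
  obtain ⟨r, ⟨η, h1, h2, rfl⟩, h3⟩ := exists_lt_of_csInf_lt hne
    (show sInf D < 3 / 2 * sInf D by linarith)
  obtain ⟨ξ, g1, g2, b, g3, g4⟩ := prim h1 h2
  refine ⟨ξ, b, g1, g3, g4, fun η' k1 k2 => ?_⟩
  have := csInf_le ⟨_, hlb⟩ (show ‖η'‖ ∈ D from ⟨η', k1, k2, rfl⟩)
  linarith

variable {M : Submodule ℤ E} {ξ b : E}

theorem Sp.pos (h : Sp M ξ b) : 0 < ‖ξ‖ := by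
  refine norm_pos_iff.2 fun h0 => ?_
  have := h.one
  rw [h0, inner_zero_left] at this
  exact zero_ne_one this

theorem Sp.dec (h : Sp M ξ b) (a : M) : (a : E) - fz h.du a • b ∈ ort M ξ :=
  ⟨M.sub_mem a.2 (M.smul_mem _ h.mem), by
    rw [inner_sub_right, inner_zsmul, h.one, fz_eq, mul_one, sub_self]⟩

theorem Sp.dec' (h : Sp M ξ b) {a : E} (ha : a ∈ M) : ∃ a' ∈ ort M ξ, ∃ n : ℤ, a = a' + n • b :=
  ⟨_, h.dec ⟨a, ha⟩, fz h.du ⟨a, ha⟩, by simp⟩

theorem Sp.rank (h : Sp M ξ b) [Module.Finite ℤ M] : finrank ℤ (ort M ξ) + 1 = finrank ℤ M := by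
  have h1 : Function.Surjective (fz h.du) := fun n => ⟨n • ⟨b, h.mem⟩, by
    have : fz h.du ⟨b, h.mem⟩ = 1 := by
      apply Int.cast_injective (α := ℝ)
      rw [fz_eq, h.one, Int.cast_one]
    rw [map_smul, this, smul_eq_mul, mul_one]⟩
  have h2 : LinearMap.ker (fz h.du) = (ort M ξ).comap M.subtype := by
    ext a
    rw [LinearMap.mem_ker, ← Int.cast_eq_zero (α := ℝ), fz_eq]
    exact ⟨fun h => ⟨a.2, h⟩, fun h => h.2⟩
  have h3 := (LinearMap.ker (fz h.du)).finrank_quotient_add_finrank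
  rw [(LinearMap.quotKerEquivOfSurjective _ h1).finrank_eq, h2,
    (Submodule.comapSubtypeEquivOfLe (ort_le M ξ)).finrank_eq, Module.finrank_self] at h3
  omega

theorem Sp.disc (h : Sp M ξ b) (hd : Disc M) : Disc (ort M ξ) := by
  intro ψ
  let π : M →ₗ[ℤ] ort M ξ :=
    (M.subtype - (fz h.du).smulRight b).codRestrict (ort M ξ) fun a => h.dec a
  obtain ⟨η, hη⟩ := hd (ψ ∘ₗ π)
  refine ⟨η, fun a => ?_⟩
  rw [hη ⟨a, a.2.1⟩, LinearMap.comp_apply]
  have : fz h.du ⟨a, a.2.1⟩ = 0 := by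
    rw [← Int.cast_eq_zero (α := ℝ), fz_eq]
    exact a.2.2
  have h1 : π ⟨a, a.2.1⟩ = a := by
    apply Subtype.ext
    change (a : E) - fz h.du ⟨a, a.2.1⟩ • b = a
    rw [this, zero_smul, sub_zero]
  rw [h1]

theorem exp_two : (6 : ℝ) ≤ Real.exp 2 := by
  have h := Real.exp_one_gt_d9
  have : Real.exp 2 = Real.exp 1 * Real.exp 1 := by rw [← Real.exp_add]; norm_num
  nlinarith

theorem Sp.thin (h : Sp M ξ b) : Thin (ort M ξ) (-Real.log ‖ξ‖ + 2) := by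
  rintro η h1 ⟨a, ha, h2⟩
  set c := inner ℝ η b with hc
  have h3 := h.min (η - (c - round c) • ξ) (fun a ha => ?_) ⟨a, ha.1, ?_⟩
  · have h4 : ‖η - (c - round c) • ξ‖ ≤ ‖η‖ + 1 / 2 * ‖ξ‖ := by
      refine (norm_sub_le _ _).trans (add_le_add le_rfl ?_)
      rw [norm_smul, Real.norm_eq_abs]
      exact mul_le_mul_of_nonneg_right (abs_sub_round c) (norm_nonneg _)
    have h5 : Real.exp (-(-Real.log ‖ξ‖ + 2)) * Real.exp 2 = ‖ξ‖ := by
      rw [← Real.exp_add, show -(-Real.log ‖ξ‖ + 2) + 2 = Real.log ‖ξ‖ by ring, Real.exp_log h.pos]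
    have h6 := exp_two
    have h7 := Real.exp_pos (-(-Real.log ‖ξ‖ + 2))
    nlinarith
  · obtain ⟨a', ha', n, rfl⟩ := h.dec' ha
    obtain ⟨k, hk⟩ := h1 a' ha'
    refine ⟨k + n * round c, ?_⟩
    rw [inner_sub_left, real_inner_smul_left, inner_add_right, inner_add_right, inner_zsmul,
      inner_zsmul, hk, ha'.2, h.one, ← hc]
    push_cast
    ring
  · rwa [inner_sub_left, real_inner_smul_left, ha.2, mul_zero, sub_zero]

theorem Sp.vol (h : Sp M ξ b) {ρ : ℕ} {β : ℝ} (hv : Vol M (ρ + 1) β) :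
    Vol (ort M ξ) ρ (β - -Real.log ‖ξ‖ + 2 + ρ) := by
  classical
  have hp := h.pos
  have ht : Tendsto (fun R : ℝ => R / 2) atTop atTop := tendsto_id.atTop_div_const two_pos
  filter_upwards [ht.eventually hv, eventually_ge_atTop ‖ξ‖⁻¹, eventually_gt_atTop 0]
    with R ⟨s, hs, hc⟩ hR hR0
  have hR1 : 1 ≤ R * ‖ξ‖ := by
    rw [← inv_mul_cancel₀ hp.ne']
    exact mul_le_mul_of_nonneg_right hR hp.le
  set K : ℕ := ⌊R / 2 * ‖ξ‖⌋₊ with hK
  have hK1 : (K : ℝ) ≤ R / 2 * ‖ξ‖ := Nat.floor_le (by positivity)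
  set B : ℝ := Real.exp (-(β - -Real.log ‖ξ‖ + 2 + ρ)) * R ^ ρ with hB
  have hB0 : 0 < B := by positivity
  have hmap : ∀ a ∈ s, ⌊inner ℝ ξ a⌋ ∈ Finset.Icc (-(K : ℤ)) K := by
    intro a ha
    obtain ⟨n, hn⟩ := h.du a (hs a ha).1
    have h1 : |(n : ℝ)| ≤ R / 2 * ‖ξ‖ := by
      rw [← hn, mul_comm]
      exact (abs_real_inner_le_norm ξ a).trans (mul_le_mul_of_nonneg_left (hs a ha).2 hp.le)
    have h2 : n.natAbs ≤ K := by
      refine Nat.le_floor ?_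
      rwa [Nat.cast_natAbs, Int.cast_abs]
    rw [hn, Int.floor_intCast, Finset.mem_Icc]
    omega
  have hcard : (Finset.Icc (-(K : ℤ)) K).card • B ≤ (s.card : ℝ) := by
    have h1 : (Finset.Icc (-(K : ℤ)) K).card = 2 * K + 1 := by
      rw [Int.card_Icc]; omega
    refine le_trans ?_ hc
    have h2 : Real.exp (-(β - -Real.log ‖ξ‖ + 2 + ρ)) * ‖ξ‖ * Real.exp 1 ^ (ρ + 2) =
        Real.exp (-β) := by
      rw [← Real.exp_nat_mul]
      nth_rewrite 2 [← Real.exp_log hp]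
      rw [← Real.exp_add, ← Real.exp_add]
      congr 1
      push_cast
      ring
    have h3 : (2 : ℝ) ^ (ρ + 2) ≤ Real.exp 1 ^ (ρ + 2) :=
      pow_le_pow_left₀ two_pos.le (by linarith [Real.add_one_le_exp 1]) _
    rw [h1, nsmul_eq_mul, hB, ← h2]
    push_cast
    have h4 : 0 < Real.exp (-(β - -Real.log ‖ξ‖ + 2 + ρ)) := Real.exp_pos _
    generalize Real.exp (-(β - -Real.log ‖ξ‖ + 2 + ρ)) = e at h4
    calc (2 * (K : ℝ) + 1) * (e * R ^ ρ) ≤ (2 * (R * ‖ξ‖)) * (e * R ^ ρ) := by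
          gcongr; linarith
      _ = e * ‖ξ‖ * 2 ^ (ρ + 2) * (R / 2) ^ (ρ + 1) := by
          rw [div_pow]; field_simp; ring
      _ ≤ _ := by gcongr
  obtain ⟨j, -, hj⟩ := Finset.exists_le_card_fiber_of_nsmul_le_card_of_maps_to hmap
    ⟨0, by simp⟩ hcard
  obtain ⟨a₀, ha₀⟩ : (s.filter fun a => ⌊inner ℝ ξ a⌋ = j).Nonempty :=
    Finset.card_pos.1 (by exact_mod_cast hB0.trans_le hj)
  refine ⟨(s.filter fun a => ⌊inner ℝ ξ a⌋ = j).image (· - a₀), fun x hx => ?_, ?_⟩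
  · obtain ⟨a, ha, rfl⟩ := Finset.mem_image.1 hx
    rw [Finset.mem_filter] at ha ha₀
    obtain ⟨n, hn⟩ := h.du a (hs a ha.1).1
    obtain ⟨m, hm⟩ := h.du a₀ (hs a₀ ha₀.1).1
    have h1 := ha.2
    have h2 := ha₀.2
    rw [hn, Int.floor_intCast] at h1
    rw [hm, Int.floor_intCast] at h2
    refine ⟨⟨M.sub_mem (hs a ha.1).1 (hs a₀ ha₀.1).1, ?_⟩, ?_⟩
    · rw [inner_sub_right, hn, hm, h1, h2, sub_self]
    · have := norm_sub_le a a₀
      linarith [(hs a ha.1).2, (hs a₀ ha₀.1).2]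
  · rwa [Finset.card_image_of_injective _ (sub_left_injective (b := a₀))]

theorem round_span {N : Submodule ℤ E} (hN : N.FG) :
    ∃ C : ℝ, ∀ y ∈ Submodule.span ℝ (N : Set E), ∃ a ∈ N, ‖y - a‖ ≤ C := by
  obtain ⟨n, v, rfl⟩ := Submodule.fg_iff_exists_fin_generating_family.1 hN
  refine ⟨∑ i, ‖v i‖, fun y hy => ?_⟩
  rw [Submodule.span_span_of_tower, Submodule.mem_span_range_iff_exists_fun] at hy
  obtain ⟨c, rfl⟩ := hy
  refine ⟨∑ i, ⌊c i⌋ • v i, Submodule.sum_mem _ fun i _ =>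
    Submodule.smul_mem _ _ (Submodule.subset_span ⟨i, rfl⟩), ?_⟩
  rw [← Finset.sum_sub_distrib]
  refine (norm_sum_le _ _).trans (Finset.sum_le_sum fun i _ => ?_)
  rw [← Int.cast_smul_eq_zsmul ℝ, ← sub_smul, norm_smul, Real.norm_eq_abs, Int.self_sub_floor,
    abs_of_nonneg (Int.fract_nonneg _)]
  exact mul_le_of_le_one_left (norm_nonneg _) (Int.fract_lt_one _).le

theorem Sp.near (h : Sp M ξ b) (hM : M.FG) :
    ∃ C : ℝ, ∀ j : ℕ, ∃ a ∈ ort M ξ, ‖j • b - a‖ ≤ 3 / 2 * (j / ‖ξ‖) + C := by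
  have hN : (ort M ξ).FG := hM.of_le (ort_le M ξ)
  obtain ⟨C, hC⟩ := round_span hN
  set U := Submodule.span ℝ (ort M ξ : Set E) with hU
  have : FiniteDimensional ℝ U := by
    obtain ⟨n, v, hv⟩ := Submodule.fg_iff_exists_fin_generating_family.1 hN
    rw [hU, ← hv, Submodule.span_span_of_tower]
    exact FiniteDimensional.span_of_finite ℝ (Set.finite_range v)
  obtain ⟨y, hy, z, hz, hb⟩ := U.exists_add_mem_mem_orthogonal b
  have hξ : ∀ u ∈ U, inner ℝ ξ u = 0 := by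
    intro u hu
    induction hu using Submodule.span_induction with
    | mem x hx => exact hx.2
    | zero => simp
    | add x y _ _ hx hy => rw [inner_add_right, hx, hy, add_zero]
    | smul c x _ hx => rw [inner_smul_right, hx, mul_zero]
  have hz0 : z ≠ 0 := by
    rintro rfl
    have := h.one
    rw [hb, add_zero, hξ y hy] at this
    exact zero_ne_one this
  have hz1 : 0 < ‖z‖ := norm_pos_iff.2 hz0
  have hzb : inner ℝ ((‖z‖ ^ 2)⁻¹ • z) b = 1 := by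
    rw [real_inner_smul_left, hb, inner_add_right, Submodule.inner_left_of_mem_orthogonal hy hz,
      real_inner_self_eq_norm_sq, zero_add, inv_mul_cancel₀ (by positivity)]
  have h1 := h.min ((‖z‖ ^ 2)⁻¹ • z) (fun a ha => ?_) ⟨b, h.mem, by rw [hzb]; exact one_ne_zero⟩
  · have h2 : ‖(‖z‖ ^ 2)⁻¹ • z‖ = ‖z‖⁻¹ := by
      rw [norm_smul, norm_inv, norm_pow, norm_norm]
      field_simp
    rw [h2] at h1
    have hp := h.pos
    have h3 : ‖z‖ ≤ 3 / 2 / ‖ξ‖ := by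
      rw [le_div_iff₀ hp]
      have := mul_le_mul_of_nonneg_left h1 hz1.le
      rw [mul_left_comm ‖z‖ 3, mul_inv_cancel₀ hz1.ne'] at this
      linarith
    refine ⟨C, fun j => ?_⟩
    obtain ⟨a, ha, ha'⟩ := hC (j • y) (nsmul_mem hy j)
    refine ⟨a, ha, ?_⟩
    rw [hb, nsmul_add, add_sub_right_comm]
    refine (norm_add_le _ _).trans ?_
    have h4 : ‖j • z‖ ≤ j * (3 / 2 / ‖ξ‖) :=
      (norm_nsmul_le).trans (mul_le_mul_of_nonneg_left h3 j.cast_nonneg)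
    have h5 : (j : ℝ) * (3 / 2 / ‖ξ‖) = 3 / 2 * (j / ‖ξ‖) := by ring
    linarith
  · obtain ⟨a', ha', n, rfl⟩ := h.dec' ha
    refine ⟨n, ?_⟩
    rw [inner_add_right, inner_zsmul, hzb, real_inner_smul_left,
      Submodule.inner_left_of_mem_orthogonal (Submodule.subset_span ha') hz]
    ring

end lattice

section degree

variable {A : Type} [CommRing A] [IsDomain A] [Algebra ℚ A]

theorem tower (T : Subalgebra ℚ A) (C : Subalgebra T A) :
    Algebra.trdeg ℚ T + Algebra.trdeg T C = Algebra.trdeg ℚ C := by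
  have : FaithfulSMul ℚ T :=
    (faithfulSMul_iff_algebraMap_injective ℚ T).2 (algebraMap ℚ T).injective
  have : FaithfulSMul T C := (faithfulSMul_iff_algebraMap_injective T C).2 fun x y h =>
    Subtype.ext (congrArg Subtype.val h :)
  exact trdeg_add_eq ℚ T (A := C)

theorem trdeg_le_of_alg (S T : Subalgebra ℚ A) (h : ∀ x ∈ S, IsAlgebraic T x) :
    Algebra.trdeg ℚ S ≤ Algebra.trdeg ℚ T := by
  let C : Subalgebra T A := Subalgebra.algebraicClosure T A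
  have : Algebra.IsAlgebraic T C :=
    ⟨fun x => (isAlgebraic_algHom_iff C.val Subtype.val_injective).1 x.2⟩
  have h1 := tower T C
  rw [trdeg_eq_zero (R := T) (A := C), add_zero] at h1
  rw [h1]
  exact trdeg_le_of_injective (A' := C)
    (Subalgebra.inclusion (T := C.restrictScalars ℚ) h) (Subalgebra.inclusion_injective _)

theorem exists_adj (T : Subalgebra ℚ A) (u : A) :
    ∃ T' : Subalgebra ℚ A, T ≤ T' ∧ u ∈ T' ∧ Algebra.trdeg ℚ T' ≤ Algebra.trdeg ℚ T + 1 := by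
  let f : Polynomial T →ₐ[T] A := Polynomial.aeval u
  refine ⟨f.range.restrictScalars ℚ, fun x hx => f.range.algebraMap_mem ⟨x, hx⟩,
    ⟨Polynomial.X, by simp [f]⟩, ?_⟩
  have h1 := tower T f.range
  have h2 := trdeg_le_of_surjective f.rangeRestrict f.rangeRestrict_surjective
  rw [Polynomial.trdeg_of_isDomain] at h2
  exact h1.symm.le.trans (add_le_add le_rfl h2)

omit [IsDomain A] in
theorem coeff_eq (T : Subalgebra ℚ A) {u : A} (hu : Transcendental T u) {k : ℕ} (c : Fin k → A)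
    (hc : ∀ j, c j ∈ T) (h : ∑ j, c j * u ^ (j : ℕ) = 0) (j : Fin k) : c j = 0 := by
  have h1 := transcendental_iff.1 hu (∑ j : Fin k, Polynomial.monomial (j : ℕ) (⟨c j, hc j⟩ : T))
    (by
      rw [map_sum, ← h]
      exact Finset.sum_congr rfl fun j _ => by rw [Polynomial.aeval_monomial]; rfl)
  have h2 := congrArg (fun p : Polynomial T => p.coeff j) h1
  simp only [Polynomial.finsetSum_coeff, Polynomial.coeff_monomial, Fin.val_inj,
    Finset.sum_ite_eq', Finset.mem_univ, if_true, Polynomial.coeff_zero] at h2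
  exact congrArg Subtype.val h2

end degree

section state

variable {E A : Type} [NormedAddCommGroup E] [InnerProductSpace ℝ E] [CommRing A] [IsDomain A]
  [Algebra ℚ A] {ζ : E →ₗ[ℝ] ℂ} {W : Submodule ℤ ℂ} {M : Submodule ℤ E} {g : E → A}
  {ev : A →ₐ[ℚ] ℂ} {ρ τ : ℕ} {α β : ℝ} {ξ b : E}

theorem alg_all (hs : St ζ W M g ev ρ τ α β) (h : Sp M ξ b) (T : Subalgebra ℚ A)
    (hT : Algebra.adjoin ℚ (g '' ort M ξ) ≤ T) (hb : IsAlgebraic T (g b)) :
    Algebra.trdeg ℚ (Algebra.adjoin ℚ (g '' M)) ≤ Algebra.trdeg ℚ T := by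
  refine trdeg_le_of_alg _ _ ?_
  change Algebra.adjoin ℚ (g '' M) ≤ (Subalgebra.algebraicClosure T A).restrictScalars ℚ
  refine Algebra.adjoin_le ?_
  rintro _ ⟨a, ha, rfl⟩
  obtain ⟨a', ha', n, rfl⟩ := h.dec' ha
  change IsAlgebraic T _
  rw [hs.mul _ ha'.1 _ (M.smul_mem n h.mem)]
  have h1 : IsAlgebraic T (g a') :=
    isAlgebraic_algebraMap (⟨g a', hT (Algebra.subset_adjoin ⟨a', ha', rfl⟩)⟩ : T)
  have h2 : ∀ k : ℕ, IsAlgebraic T (g (k • b)) := fun k => by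
    rw [hs.nsmul h.mem]
    exact hb.pow k
  refine h1.mul ?_
  obtain ⟨k, rfl | rfl⟩ := n.eq_nat_or_neg
  · rw [natCast_zsmul]
    exact h2 k
  · rw [neg_smul, natCast_zsmul]
    have h3 := hs.mul_neg (nsmul_mem h.mem k)
    refine IsAlgebraic.of_mul (mem_nonZeroDivisors_of_ne_zero (left_ne_zero_of_mul_eq_one h3))
      (h2 k) ?_
    rw [h3]
    exact isAlgebraic_one

theorem cnt (hs : St ζ W M g ev ρ τ α β) (h : Sp M ξ b)
    (hb : Transcendental (Algebra.adjoin ℚ (g '' ort M ξ)) (g b)) :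
    Cnt (ort M ξ) g τ (α + -Real.log ‖ξ‖ + 2 * (τ + 1)) := by
  classical
  have hp := h.pos
  obtain ⟨C, hC⟩ := h.near hs.fg
  choose a ha ha' using hC
  have ht : Tendsto (fun R : ℝ => 3 * R) atTop atTop := tendsto_id.const_mul_atTop three_pos
  filter_upwards [ht.eventually hs.cnt, eventually_ge_atTop ‖ξ‖, eventually_ge_atTop (2 * C)]
    with R hc hR hRC s hv
  have hR0 : 0 < R := hp.trans_le hR
  set k : ℕ := ⌈R * ‖ξ‖⌉₊ with hk
  have hk1 : R * ‖ξ‖ ≤ k := Nat.le_ceil _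
  have hk2 : (k : ℝ) < R * ‖ξ‖ + 1 := Nat.ceil_lt_add_one (by positivity)
  have hk0 : k ≠ 0 := by
    have : (0 : ℝ) < k := lt_of_lt_of_le (by positivity) hk1
    exact_mod_cast this.ne'
  have hmem : ∀ j : ℕ, j • b - a j ∈ M := fun j => M.sub_mem (nsmul_mem h.mem j) (ha j).1
  let F : (Fin k → A) → A := fun v => ∑ j, v j * g ((j : ℕ) • b - a j)
  have hF : ∀ j : ℕ, g (j • b - a j) = g (-a j) * g b ^ j := fun j => by
    rw [sub_eq_neg_add, hs.mul _ (M.neg_mem (ha j).1) _ (nsmul_mem h.mem j), hs.nsmul h.mem]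
  have hinj : Set.InjOn F (Fintype.piFinset fun _ : Fin k => s) := by
    intro v h1 w h2 h3
    rw [Finset.mem_coe, Fintype.mem_piFinset] at h1 h2
    funext j
    have h4 := coeff_eq _ hb (fun j : Fin k => (v j - w j) * g (-a j))
      (fun j => Subalgebra.mul_mem _
        (Subalgebra.sub_mem _ (Val.mem_adjoin (hv _ (h1 j))) (Val.mem_adjoin (hv _ (h2 j))))
        (Algebra.subset_adjoin ⟨_, (ort M ξ).neg_mem (ha j), rfl⟩)) (by
      rw [← sub_eq_zero.2 h3, ← Finset.sum_sub_distrib]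
      exact Finset.sum_congr rfl fun j _ => by rw [hF]; ring) j
    exact sub_eq_zero.1 ((mul_eq_zero.1 h4).resolve_right
      (right_ne_zero_of_mul_eq_one (hs.mul_neg (ha j).1)))
  have h5 := hc ((Fintype.piFinset fun _ : Fin k => s).image F) fun x hx => by
    obtain ⟨v, h1, rfl⟩ := Finset.mem_image.1 hx
    rw [Fintype.mem_piFinset] at h1
    have h2 := Val.sum (M := M) (g := g) (R := 3 * R) Finset.univ
      (fun j : Fin k => v j * g ((j : ℕ) • b - a j)) (fun _ => Real.exp R) fun j _ => by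
        refine Val.mono (Val.mul hs.mul (Val.mono (hv _ (h1 j)) (ort_le M ξ) le_rfl le_rfl)
          (hmem j)) le_rfl ?_ le_rfl
        have h3 : ((j : ℕ) : ℝ) + 1 ≤ k := by exact_mod_cast j.2
        have h4 : ((j : ℕ) : ℝ) / ‖ξ‖ ≤ R := by
          rw [div_le_iff₀ hp]; linarith
        linarith [ha' j]
    refine Val.mono h2 le_rfl le_rfl ?_
    rw [Finset.sum_const, Finset.card_univ, Fintype.card_fin, nsmul_eq_mul,
      show 3 * R = R + R + R by ring, Real.exp_add, Real.exp_add]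
    refine mul_le_mul_of_nonneg_right ?_ (Real.exp_pos _).le
    have h3 := Real.add_one_le_exp R
    have h4 : (R + 1) * (R + 1) ≤ Real.exp R * Real.exp R := by gcongr
    nlinarith
  rw [Finset.card_image_of_injOn hinj, Fintype.card_piFinset, Finset.prod_const, Finset.card_univ,
    Fintype.card_fin, Nat.cast_pow] at h5
  refine le_of_pow_le_pow_left₀ hk0 (Real.exp_pos _).le (h5.trans ?_)
  rw [← Real.exp_nat_mul, Real.exp_le_exp]
  have h6 : Real.exp (α + -Real.log ‖ξ‖ + 2 * (τ + 1)) * ‖ξ‖ =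
      Real.exp α * Real.exp 2 ^ (τ + 1) := by
    rw [← Real.exp_nat_mul]
    nth_rewrite 2 [← Real.exp_log hp]
    rw [← Real.exp_add, ← Real.exp_add]
    congr 1
    push_cast
    ring
  have h7 : (3 : ℝ) ^ (τ + 1) ≤ Real.exp 2 ^ (τ + 1) :=
    pow_le_pow_left₀ three_pos.le (by linarith [exp_two]) _
  calc Real.exp α * (3 * R) ^ (τ + 1) = Real.exp α * 3 ^ (τ + 1) * (R * R ^ τ) := by ring
    _ ≤ Real.exp α * Real.exp 2 ^ (τ + 1) * (R * R ^ τ) := by gcongr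
    _ = R * ‖ξ‖ * (Real.exp (α + -Real.log ‖ξ‖ + 2 * (τ + 1)) * R ^ τ) := by rw [← h6]; ring
    _ ≤ _ := by gcongr

omit [IsDomain A] in
theorem mk_st (hs : St ζ W M g ev (ρ + 1) τ α β) (h : Sp M ξ b) {τ' : ℕ} {α' : ℝ}
    (h1 : (τ' : Cardinal) ≤ Algebra.trdeg ℚ (Algebra.adjoin ℚ (g '' ort M ξ)))
    (h2 : Cnt (ort M ξ) g (τ' + 1) α') :
    St ζ W (ort M ξ) g ev ρ τ' α' (β - -Real.log ‖ξ‖ + 2 + ρ) where
  fg := hs.fg.of_le (ort_le M ξ)
  rk := by
    have := hs.finite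
    have h3 := h.rank
    rw [hs.rk] at h3
    omega
  disc := h.disc hs.disc
  inW a ha := hs.inW a ha.1
  one := hs.one
  mul a ha b hb := hs.mul a ha.1 b hb.1
  spec a ha := hs.spec a ha.1
  ind := h1
  cnt := h2
  vol := h.vol hs.vol

end state

end JDr

open JDr in
theorem stDr : StDr := by
  intro E A _ _ _ _ _ ζ W M g ev ρ τ α β t hs ht
  have := hs.finite
  have := hs.free
  have : Nontrivial M := Module.nontrivial_of_finrank_pos (R := ℤ) (by rw [hs.rk]; omega)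
  obtain ⟨ξ, b, h⟩ := exists_sp hs.disc ht
  refine ⟨ort M ξ, -Real.log ‖ξ‖, ort_le M ξ, ?_, h.thin, ?_⟩
  · have h1 := ht ξ h.du ⟨b, h.mem, by rw [h.one]; exact one_ne_zero⟩
    have h2 := (Real.le_log_iff_exp_le h.pos).2 h1
    linarith
  by_cases hb : IsAlgebraic (Algebra.adjoin ℚ (g '' ort M ξ)) (g b)
  · exact Or.inl (mk_st hs h (hs.ind.trans (alg_all hs h _ le_rfl hb))
      (hs.cnt.mono (ort_le M ξ) le_rfl))
  cases τ with
  | zero => exact Or.inl (mk_st hs h (by simp) (hs.cnt.mono (ort_le M ξ) le_rfl))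
  | succ τ =>
    refine Or.inr ⟨τ, rfl, mk_st hs h ?_ (cnt hs h hb)⟩
    obtain ⟨T, h1, h2, h3⟩ := exists_adj (Algebra.adjoin ℚ (g '' ort M ξ)) (g b)
    have h4 := (hs.ind.trans (alg_all hs h T h1
      (isAlgebraic_algebraMap (⟨g b, h2⟩ : T)))).trans h3
    rw [Nat.cast_add_one] at h4
    exact (Cardinal.add_nat_le_add_nat_iff 1).1 (by simpa using h4)

end Pool.Agent.Lib.MP_12eca1_ag.P
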