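import Pool.Agent.Lib.MP_12eca1_ag.P.Defs

/-!
A hypersurface section lowers the transcendence degree by at most one.
-/

namespace Pool.Agent.Lib.MP_12eca1_ag.P

open MvPolynomial Cardinal

namespace JE

variable {k D : Type} [Field k] [CommRing D] [Algebra k D]

/-- If the kernel of a map from a polynomial ring is generated by a prime element, then all
variables but one stay independent. -/
lemma principal {s : ℕ} (φ : MvPolynomial (Fin s) k →ₐ[k] D) {π : MvPolynomial (Fin s) k}
    (hπ : Prime π) (h : ∀ p, φ p = 0 → π ∣ p) : (s : Cardinal) ≤ Algebra.trdeg k D + 1 := by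
  obtain ⟨i, hi⟩ : π.vars.Nonempty := by
    rw [Finset.nonempty_iff_ne_empty]
    intro e
    have e1 := vars_eq_empty_iff_eq_C.1 e
    have e2 : π.coeff 0 ≠ 0 := fun z => hπ.ne_zero (by rw [e1, z, map_zero])
    exact hπ.not_isUnit (e1 ▸ (isUnit_iff_ne_zero.2 e2).map C)
  obtain ⟨t, rfl⟩ : ∃ t, s = t + 1 := Nat.exists_eq_succ_of_ne_zero i.pos.ne'
  have ind : AlgebraicIndependent k fun j : Fin t => φ (X (i.succAbove j)) := by
    rw [algebraicIndependent_iff]
    intro p hp
    by_contra p0
    have e : φ (rename i.succAbove p) = 0 := by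
      rw [← hp]
      have : φ.comp (rename i.succAbove) = aeval fun j : Fin t => φ (X (i.succAbove j)) :=
        algHom_ext fun j => by simp
      exact DFunLike.congr_fun this p
    obtain ⟨c, hc⟩ := h _ e
    have r0 : rename i.succAbove p ≠ 0 := fun z =>
      p0 (rename_injective _ Fin.succAbove_right_injective (by rw [z, map_zero]))
    have c0 : c ≠ 0 := fun z => r0 (by rw [hc, z, mul_zero])
    have d0 : degreeOf i (rename i.succAbove p) = 0 := by
      by_contra hn
      obtain ⟨j, -, hj⟩ := mem_vars_rename _ _ (mem_vars_iff_degreeOf_ne_zero.2 hn)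
      exact Fin.succAbove_ne i j hj
    rw [hc, degreeOf_mul_eq hπ.ne_zero c0] at d0
    exact mem_vars_iff_degreeOf_ne_zero.1 hi (by omega)
  have := ind.cardinalMk_le_trdeg
  rw [Cardinal.mk_fin] at this
  rw [Nat.cast_succ]
  exact add_le_add_left this 1

end JE

theorem stE : StE := by
  intro k A _ _ _ _ _ f q hq
  have qp : q.IsPrime := hq.isPrime
  have : IsNoetherianRing A := Algebra.FiniteType.isNoetherianRing k A
  have ht := Ideal.height_le_one_of_isPrincipal_of_mem_minimalPrimes _ q hq
  obtain ⟨s, g, ginj, gfin⟩ := exists_finite_inj_algHom_of_fg k A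
  algebraize [g.toRingHom]
  have : IsScalarTower k (MvPolynomial (Fin s) k) A := IsScalarTower.of_algHom g
  have : FaithfulSMul (MvPolynomial (Fin s) k) A :=
    (faithfulSMul_iff_algebraMap_injective _ _).2 ginj
  have : Module.Finite (MvPolynomial (Fin s) k) A := gfin
  have tA : Algebra.trdeg k A = s := by
    rw [← trdeg_add_eq k (MvPolynomial (Fin s) k) (A := A), trdeg_eq_zero (A := A), add_zero,
      trdeg_of_isDomain]
    simp
  rw [tA]
  let φ : MvPolynomial (Fin s) k →ₐ[k] A ⧸ q := (Ideal.Quotient.mkₐ k q).comp g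
  have hφ : ∀ p, φ p = 0 → p ∈ q.under (MvPolynomial (Fin s) k) := fun p hp =>
    (Ideal.Quotient.eq_zero_iff_mem (I := q) (a := g p)).1 hp
  by_cases h0 : q.under (MvPolynomial (Fin s) k) = ⊥
  · have inj : Function.Injective φ := (injective_iff_map_eq_zero φ).2 fun p hp => by
      have := hφ p hp
      rwa [h0] at this
    have := trdeg_le_of_injective φ inj
    rw [trdeg_of_isDomain] at this
    exact le_trans (by simpa using this) le_self_add
  obtain ⟨π, π1, π2⟩ :=
    (Ideal.IsPrime.under (MvPolynomial (Fin s) k) q).exists_mem_prime_of_ne_bot h0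
  have πp : (Ideal.span {π}).IsPrime := (Ideal.span_singleton_prime π2.ne_zero).2 π2
  have e : Ideal.span {π} = q.under (MvPolynomial (Fin s) k) := by
    by_contra hne
    obtain ⟨q1, h1, h2, h3⟩ := Ideal.exists_ideal_lt_liesOver_of_lt q
      (lt_of_le_of_ne ((Ideal.span_singleton_le_iff_mem _).2 π1) hne)
    have b1 : (⊥ : Ideal A) < q1 := bot_lt_iff_ne_bot.2 fun z => by
      have m : π ∈ q1.under (MvPolynomial (Fin s) k) := h3.over ▸ Ideal.mem_span_singleton_self π
      rw [z] at m
      exact π2.ne_zero (ginj ((Ideal.mem_bot.1 m).trans (map_zero g).symm))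
    have l1 := Ideal.height_strict_mono_of_isPrime b1
    have l2 := (Ideal.height_strict_mono_of_isPrime h1).trans_le ht
    rw [Order.lt_one_iff] at l2
    rw [l2] at l1
    exact not_lt_zero l1
  exact JE.principal φ π2 fun p hp => Ideal.mem_span_singleton.1 (e ▸ hφ p hp)

end Pool.Agent.Lib.MP_12eca1_ag.P
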