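import Pool.Agent.Lib.MP_12eca1_ag.P.Defs

/-! The zero estimate on a torus. -/

namespace Pool.Agent.Lib.MP_12eca1_ag.P

open MvPolynomial

namespace JF

variable {m : ℕ}

/-- translation by a point of the torus -/
noncomputable def tr (u : Fin m → ℂˣ) : MvPolynomial (Fin m) ℂ →ₐ[ℂ] MvPolynomial (Fin m) ℂ :=
  aeval fun i => C (u i : ℂ) * X i

theorem tr_X (u : Fin m → ℂˣ) (i : Fin m) : tr u (X i) = C (u i : ℂ) * X i := aeval_X _ _

theorem tr_C (u : Fin m → ℂˣ) (c : ℂ) : tr u (C c) = C c := by simp [tr]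

theorem tr_tr (u v : Fin m → ℂˣ) (P : MvPolynomial (Fin m) ℂ) : tr u (tr v P) = tr (u * v) P := by
  have : (tr u).comp (tr v) = tr (u * v) := algHom_ext fun i => by
    rw [AlgHom.comp_apply, tr_X, map_mul, tr_C, tr_X, tr_X, Pi.mul_apply, Units.val_mul, C_mul]
    ring
  exact DFunLike.congr_fun this P

theorem tr_one (P : MvPolynomial (Fin m) ℂ) : tr 1 P = P := by
  have : tr (1 : Fin m → ℂˣ) = AlgHom.id ℂ _ := algHom_ext fun i => by simp [tr_X]
  rw [this]; rfl

/-- translation as an automorphism -/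
noncomputable def te (u : Fin m → ℂˣ) : MvPolynomial (Fin m) ℂ ≃+* MvPolynomial (Fin m) ℂ where
  toFun := tr u
  invFun := tr u⁻¹
  left_inv P := by rw [tr_tr, inv_mul_cancel, tr_one]
  right_inv P := by rw [tr_tr, mul_inv_cancel, tr_one]
  map_mul' := map_mul _
  map_add' := map_add _

theorem mem_te {u : Fin m → ℂˣ} {Q : Ideal (MvPolynomial (Fin m) ℂ)} {P : MvPolynomial (Fin m) ℂ} :
    P ∈ Q.comap (te u) ↔ tr u P ∈ Q := Iff.rfl

theorem tr_monomial (u : Fin m → ℂˣ) (a : Fin m →₀ ℕ) (c : ℂ) :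
    tr u (monomial a c) = C (∏ i, (u i : ℂ) ^ a i) * monomial a c := by
  rw [tr, aeval_monomial, Finsupp.prod_fintype _ _ (by simp), monomial_eq,
    Finsupp.prod_fintype _ _ (by simp)]
  simp only [mul_pow, Finset.prod_mul_distrib, map_prod, map_pow, algebraMap_eq]
  ring

theorem tr_eq (u : Fin m → ℂˣ) (P : MvPolynomial (Fin m) ℂ) :
    tr u P = ∑ a ∈ P.support, C (∏ i, (u i : ℂ) ^ a i) * monomial a (coeff a P) := by
  conv_lhs => rw [P.as_sum, map_sum]
  exact Finset.sum_congr rfl fun a _ => tr_monomial u a _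

theorem deg_tr (u : Fin m → ℂˣ) (P : MvPolynomial (Fin m) ℂ) :
    (tr u P).totalDegree ≤ P.totalDegree := by
  rw [tr_eq]
  refine totalDegree_finsetSum_le fun a ha => ?_
  rw [C_mul_monomial]
  exact (totalDegree_monomial_le _ _).trans (le_totalDegree ha)

theorem eval_tr (u : Fin m → ℂˣ) (P : MvPolynomial (Fin m) ℂ) :
    eval (fun _ => (1 : ℂ)) (tr u P) = eval (fun i => (u i : ℂ)) P := by
  induction P using MvPolynomial.induction_on with
  | C c => rw [tr_C, eval_C, eval_C]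
  | add p q hp hq => rw [map_add, map_add, map_add, hp, hq]
  | mul_X p i hp => rw [map_mul, map_mul, map_mul, hp, tr_X]; simp

/-- primes that meet the torus -/
def Tor (Q : Ideal (MvPolynomial (Fin m) ℂ)) : Prop := Q.IsPrime ∧ ∀ i, X i ∉ Q

theorem Tor.C_mul {Q : Ideal (MvPolynomial (Fin m) ℂ)} (h : Tor Q) {c : ℂ} (hc : c ≠ 0)
    {P : MvPolynomial (Fin m) ℂ} (hP : C c * P ∈ Q) : P ∈ Q := by
  have := Q.mul_mem_left (C c⁻¹) hP
  rwa [← mul_assoc, ← MvPolynomial.C_mul, inv_mul_cancel₀ hc, C_1, one_mul] at this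

theorem Tor.comap {Q : Ideal (MvPolynomial (Fin m) ℂ)} (h : Tor Q) (u : Fin m → ℂˣ) :
    Tor (Q.comap (te u)) := by
  have := h.1
  refine ⟨Ideal.comap_isPrime _ _, fun i hi => h.2 i (h.C_mul (u i).ne_zero ?_)⟩
  rwa [mem_te, tr_X] at hi

theorem Tor.monomial {Q : Ideal (MvPolynomial (Fin m) ℂ)} (h : Tor Q) (a : Fin m →₀ ℕ) {c : ℂ}
    (hc : c ≠ 0) : monomial a c ∉ Q := by
  have := h.1
  intro hm
  rw [monomial_eq, Finsupp.prod_fintype _ _ (by simp)] at hm
  obtain ⟨i, -, hi⟩ := Ideal.IsPrime.prod_mem_iff.1 (h.C_mul hc hm)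
  exact h.2 i (h.1.mem_of_pow_mem _ hi)

theorem height_le (Q : Ideal (MvPolynomial (Fin m) ℂ)) [Q.IsPrime] : Q.height ≤ m := by
  have h := Q.height_le_ringKrullDim_of_isPrime
  rw [MvPolynomial.ringKrullDim_of_isNoetherianRing, ringKrullDim_eq_zero_of_field, zero_add,
    Nat.card_eq_fintype_card, Fintype.card_fin] at h
  exact_mod_cast h

/-- a character that is trivial on the stabiliser -/
theorem exists_lam {Q : Ideal (MvPolynomial (Fin m) ℂ)} (h : Tor Q) {P : MvPolynomial (Fin m) ℂ}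
    (hP : P ≠ 0) (hQ : P ∈ Q) : ∃ a ∈ P.support, ∃ b ∈ P.support, a ≠ b ∧
      ∀ u : Fin m → ℂˣ, (∀ R ∈ Q, tr u R ∈ Q) → ∏ i, (u i : ℂ) ^ a i = ∏ i, (u i : ℂ) ^ b i := by
  have := h.1
  let H : Submonoid (Fin m → ℂˣ) :=
    { carrier := {u | ∀ R ∈ Q, tr u R ∈ Q}
      mul_mem' := fun {u v} hu hv R hR => by rw [← tr_tr]; exact hu _ (hv R hR)
      one_mem' := fun R hR => by rwa [tr_one] }
  let χ : (Fin m →₀ ℕ) → H →* (MvPolynomial (Fin m) ℂ ⧸ Q) := fun a =>
    { toFun := fun u => Ideal.Quotient.mk Q (C (∏ i, (u.1 i : ℂ) ^ a i))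
      map_one' := by simp
      map_mul' := fun u v => by
        rw [← map_mul, ← C_mul, ← Finset.prod_mul_distrib]
        simp [mul_pow] }
  by_contra hc
  have inj : Function.Injective fun a : P.support => χ a := by
    intro a b e
    by_contra hne
    refine hc ⟨a, a.2, b, b.2, fun e' => hne (Subtype.ext e'), fun u hu => ?_⟩
    have e1 : Ideal.Quotient.mk Q (C (∏ i, (u i : ℂ) ^ a.1 i)) =
        Ideal.Quotient.mk Q (C (∏ i, (u i : ℂ) ^ b.1 i)) := DFunLike.congr_fun e ⟨u, hu⟩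
    rw [Ideal.Quotient.eq, ← C_sub, ← mul_one (C _)] at e1
    by_contra hd
    exact h.1.ne_top ((Ideal.eq_top_iff_one _).2 (h.C_mul (sub_ne_zero.2 hd) e1))
  have li := (linearIndependent_monoidHom H (MvPolynomial (Fin m) ℂ ⧸ Q)).comp _ inj
  obtain ⟨a, ha⟩ := support_nonempty.2 hP
  have := Fintype.linearIndependent_iff.1 li
    (fun a : P.support => Ideal.Quotient.mk Q (monomial a.1 (coeff a.1 P))) (by
      funext u
      have h1 := Ideal.Quotient.eq_zero_iff_mem.2 (u.2 P hQ)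
      rw [tr_eq, map_sum, ← Finset.sum_coe_sort] at h1
      rw [Finset.sum_apply, Pi.zero_apply, ← h1]
      refine Finset.sum_congr rfl fun a _ => ?_
      rw [map_mul, mul_comm]; rfl) ⟨a, ha⟩
  exact h.monomial a (mem_support_iff.1 ha) (Ideal.Quotient.eq_zero_iff_mem.1 this)

theorem exists_stable {h : ℕ → ℕ∞} (h0 : 1 ≤ h 0) (hm : h m ≤ m) :
    ∃ k < m, h (k + 1) ≤ h k := by
  by_contra hc
  simp only [not_exists, not_and, not_le] at hc
  have : ∀ k ≤ m, ((k + 1 : ℕ) : ℕ∞) ≤ h k := by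
    intro k hk
    induction k with
    | zero => simpa using h0
    | succ k ih =>
      have := (ih (by omega)).trans_lt (hc k (by omega))
      exact_mod_cast Order.add_one_le_of_lt this
  have h1 := (this m le_rfl).trans hm
  have h2 : m + 1 ≤ m := by exact_mod_cast h1
  omega

end JF

open JF in
theorem stF (h1 : StF1) : StF := by
  classical
  intro m
  obtain ⟨c, hc⟩ := h1 m
  refine ⟨c, fun n D S γ P hD hγ hP hd hz => ?_⟩
  let g : (Fin n → ℕ) → Fin m → ℂˣ := fun s i => ∏ j, Units.mk0 (γ i j) (hγ i j) ^ s j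
  have gv : ∀ s i, (g s i : ℂ) = ∏ j, γ i j ^ s j := fun s i => by simp [g]
  have g0 : g 0 = 1 := funext fun i => by simp [g]
  have ga : ∀ s t, g s * g t = g (s + t) := fun s t => funext fun i => by
    simp [g, pow_add, Finset.prod_mul_distrib]
  let F : ℕ → Set (MvPolynomial (Fin m) ℂ) := fun k =>
    {f | ∃ s : Fin n → ℕ, (∀ j, s j ≤ k * S) ∧ f = tr (g s) P}
  let T : ℕ → Set (Ideal (MvPolynomial (Fin m) ℂ)) := fun k => {Q | Tor Q ∧ F k ⊆ Q}
  have PF : ∀ k, P ∈ F k := fun k => ⟨0, fun _ => Nat.zero_le _, by rw [g0, tr_one]⟩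
  have hT : ∀ k ≤ m, (T k).Nonempty := by
    intro k hk
    refine ⟨RingHom.ker (eval fun _ => (1 : ℂ)), ⟨RingHom.ker_isPrime _, fun i hi => ?_⟩, ?_⟩
    · simp [RingHom.mem_ker] at hi
    · rintro _ ⟨s, hs, rfl⟩
      show eval _ _ = 0
      rw [eval_tr]
      simp only [gv]
      exact hz s fun j => (hs j).trans (Nat.mul_le_mul_right _ hk)
  let h : ℕ → ℕ∞ := fun k => sInf (Ideal.height '' T k)
  have hmem : ∀ k ≤ m, ∃ Q ∈ T k, Q.height = h k := fun k hk => csInf_mem ((hT k hk).image _)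
  have hle : ∀ k, ∀ Q ∈ T k, h k ≤ Q.height := fun k Q hQ => sInf_le ⟨Q, hQ, rfl⟩
  obtain ⟨k, hk, hs⟩ := exists_stable (h := h) (m := m) (by
      obtain ⟨Q, hQ, e⟩ := hmem 0 (Nat.zero_le _)
      have := hQ.1.1
      have hb : (⊥ : Ideal (MvPolynomial (Fin m) ℂ)) < Q :=
        bot_lt_iff_ne_bot.2 fun e => hP (by have := hQ.2 (PF 0); rwa [e] at this)
      rw [← e]
      exact Order.one_le_iff_pos.2
        (lt_of_le_of_lt zero_le (Ideal.height_strict_mono_of_isPrime_of_isPrime hb))) (by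
      obtain ⟨Q, hQ, e⟩ := hmem m le_rfl
      have := hQ.1.1
      rw [← e]; exact height_le Q)
  obtain ⟨Q, hQ, e⟩ := hmem (k + 1) hk
  obtain ⟨a, ha, b, hb, hab, hχ⟩ := exists_lam hQ.1 hP (hQ.2 (PF _))
  have bd : ∀ a ∈ P.support, ∀ i, a i ≤ D := fun a ha i =>
    ((Finsupp.le_degree i a).trans (le_totalDegree ha)).trans hd
  refine ⟨fun i => (a i : ℤ) - b i, fun e => hab (Finsupp.ext fun i => ?_), fun i => ?_, ?_⟩
  · have := congrFun e i
    simp only [Pi.zero_apply] at this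
    omega
  · have h1 := bd a ha i
    have h2 := bd b hb i
    show |(a i : ℤ) - b i| ≤ D
    rw [abs_le]; constructor <;> omega
  let G : (Fin n → Fin (S + 1)) → Ideal (MvPolynomial (Fin m) ℂ) := fun s =>
    Q.comap (te (g fun j => s j))
  have hG : ∀ s, G s ∈ (Ideal.span (F k)).minimalPrimes := by
    intro s
    have t1 : Tor (G s) := hQ.1.comap _
    have t2 : F k ⊆ G s := by
      rintro _ ⟨t, ht, rfl⟩
      refine mem_te.2 (hQ.2 ⟨(fun j => (s j : ℕ)) + t, fun j => ?_, by rw [tr_tr, ga]⟩)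
      have h1 := ht j
      have h2 := (s j).2
      rw [Pi.add_apply, add_mul]
      omega
    have t3 : (G s).height ≤ h k := by
      rw [RingEquiv.height_comap, e]; exact hs
    refine ⟨⟨t1.1, Ideal.span_le.2 t2⟩, fun q hq hle' => ?_⟩
    by_contra hn
    have := hq.1
    have := t1.1
    have h4 := Ideal.height_strict_mono_of_isPrime_of_isPrime (lt_of_le_not_ge hle' hn)
    have h5 := hle k q ⟨⟨hq.1, fun i hi => t1.2 i (hle' hi)⟩, Ideal.span_le.1 hq.2⟩
    exact absurd (h4.trans_le t3) (not_lt.2 h5)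
  have hcard := hc D (F k) hD (by rintro _ ⟨s, -, rfl⟩; exact (deg_tr _ _).trans hd)
    (Finset.univ.image G) fun q hq => by
      obtain ⟨s, -, rfl⟩ := Finset.mem_image.1 hq
      exact hG s
  have key : ∀ s t, G s = G t → ∏ i, (∏ j, γ i j ^ (s j : ℕ)) ^ ((a i : ℤ) - b i) =
      ∏ i, (∏ j, γ i j ^ (t j : ℕ)) ^ ((a i : ℤ) - b i) := by
    intro s t hst
    have h1 := hχ (g (fun j => s j) * (g fun j => t j)⁻¹) fun R hR => by
      rw [← tr_tr, ← mem_te]
      show _ ∈ G s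
      rw [hst]
      exact mem_te.2 (by rwa [tr_tr, mul_inv_cancel, tr_one])
    simp only [← gv]
    simp only [Pi.mul_apply, Pi.inv_apply, Units.val_mul, Units.val_inv_eq_inv_val, mul_pow,
      inv_pow, Finset.prod_mul_distrib, Finset.prod_inv_distrib] at h1
    simp only [zpow_sub₀ (Units.ne_zero _), zpow_natCast, Finset.prod_div_distrib]
    have n1 : ∀ (s : Fin n → ℕ) (a : Fin m →₀ ℕ), ∏ i, (g s i : ℂ) ^ a i ≠ 0 := fun s a =>
      Finset.prod_ne_zero_iff.2 fun i _ => pow_ne_zero _ (Units.ne_zero _)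
    have n2 := n1 (fun j => t j) a
    have n3 := n1 (fun j => t j) b
    have n4 := n1 (fun j => s j) b
    field_simp at h1 ⊢
    exact h1
  refine le_trans ?_ hcard
  rw [← Set.ncard_coe_finset]
  refine Set.ncard_le_ncard_of_injOn
    (fun y => if hy : y ∈ Set.range (fun s : Fin n → Fin (S + 1) =>
      ∏ i, (∏ j, γ i j ^ (s j : ℕ)) ^ ((a i : ℤ) - b i)) then G hy.choose else ⊥)
    (fun y hy => ?_) (fun y hy z hz e => ?_) (Finset.finite_toSet _)
  · simp only [dif_pos hy]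
    exact Finset.mem_coe.2 (Finset.mem_image_of_mem _ (Finset.mem_univ _))
  · simp only [dif_pos hy, dif_pos hz] at e
    rw [← hy.choose_spec, ← hz.choose_spec]
    exact key _ _ e

end Pool.Agent.Lib.MP_12eca1_ag.P
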