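import Pool.Agent.Lib.MP_12eca1_ag.P.Defs

/-! A Bezout type bound for the number of minimal primes, through affine Hilbert functions. -/

namespace Pool.Agent.Lib.MP_12eca1_ag.P

open MvPolynomial Filter Module

namespace JF1

/-- the polynomial ring -/
abbrev Sm (m : ℕ) : Type := MvPolynomial (Fin m) ℂ

variable {m : ℕ}

/-- polynomials of degree at most `R` -/
noncomputable abbrev T (m R : ℕ) : Submodule ℂ (Sm m) := restrictTotalDegree (Fin m) ℂ R

/-- the affine Hilbert function -/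
noncomputable def H (I : Ideal (Sm m)) (R : ℕ) : ℕ :=
  finrank ℂ ((T m R).map (Ideal.Quotient.mkₐ ℂ I).toLinearMap)

/-- the dimension of the part of degree at most `R` of an ideal -/
noncomputable def K (I : Ideal (Sm m)) (R : ℕ) : ℕ := finrank ℂ ↥(T m R ⊓ I.restrictScalars ℂ)

theorem T_mono {R R' : ℕ} (h : R ≤ R') : T m R ≤ T m R' := fun _ hp =>
  (mem_restrictTotalDegree _ _ _).2 (((mem_restrictTotalDegree _ _ _).1 hp).trans h)

theorem H_add_K (I : Ideal (Sm m)) (R : ℕ) : H I R + K I R = finrank ℂ (T m R) := by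
  have h := LinearMap.finrank_range_add_finrank_ker
    ((Ideal.Quotient.mkₐ ℂ I).toLinearMap.domRestrict (T m R))
  rw [LinearMap.range_domRestrict, LinearMap.ker_domRestrict] at h
  have e : LinearMap.ker (Ideal.Quotient.mkₐ ℂ I).toLinearMap = I.restrictScalars ℂ := by
    ext p
    simp [Ideal.Quotient.eq_zero_iff_mem]
  rw [← h, H, K, ← Submodule.finrank_map_subtype_eq (T m R), Submodule.map_comap_subtype, e]

theorem H_mono (I : Ideal (Sm m)) {R R' : ℕ} (h : R ≤ R') : H I R ≤ H I R' :=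
  Submodule.finrank_mono (Submodule.map_mono (T_mono h))

theorem H_anti {I J : Ideal (Sm m)} (h : I ≤ J) (R : ℕ) : H J R ≤ H I R := by
  have h1 : K I R ≤ K J R := Submodule.finrank_mono (inf_le_inf_left _ fun p hp => h hp)
  have h2 := H_add_K I R
  have h3 := H_add_K J R
  omega

theorem finrank_T (R : ℕ) : finrank ℂ (T m R) ≤ (R + 1) ^ m := by
  let u : (Fin m → Fin (R + 1)) → Sm m := fun a =>
    monomial (Finsupp.equivFunOnFinite.symm fun i => (a i : ℕ)) 1
  have h : T m R ≤ Submodule.span ℂ (Set.range u) := by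
    refine (restrictTotalDegree_le_restrictDegree (Fin m) ℂ R).trans ?_
    rw [restrictDegree, restrictSupport_eq_span]
    refine Submodule.span_mono ?_
    rintro _ ⟨n, hn, rfl⟩
    refine ⟨fun i => ⟨n i, Nat.lt_succ_of_le (hn i)⟩, ?_⟩
    simp only [u]
    congr 1
    ext i
    simp
  have : Module.Finite ℂ (Submodule.span ℂ (Set.range u)) :=
    Module.Finite.span_of_finite ℂ (Set.finite_range u)
  refine (Submodule.finrank_mono h).trans ((finrank_range_le_card u).trans ?_)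
  simp

/-- the basic inequality for multiplication by `f` -/
theorem H_step {I J q : Ideal (Sm m)} {f : Sm m} {D : ℕ} (hJ : J ≤ I) (hf : f ∈ I) (hf0 : f ≠ 0)
    (hq : ∀ u, f * u ∈ J → u ∈ q) (hD : f.totalDegree ≤ D) (R : ℕ) :
    H I (R + D) + H q R ≤ H J (R + D) := by
  let φ : Sm m →ₗ[ℂ] Sm m := LinearMap.mulLeft ℂ f
  have hφ : Function.Injective φ := fun a b h => mul_left_cancel₀ hf0 h
  let A : Submodule ℂ (Sm m) := T m (R + D) ⊓ J.restrictScalars ℂ
  let W : Submodule ℂ (Sm m) := (T m R).map φ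
  have hW : finrank ℂ W = finrank ℂ (T m R) :=
    (Submodule.equivMapOfInjective φ hφ (T m R)).finrank_eq.symm
  have : Module.Finite ℂ A := Submodule.finiteDimensional_inf_left _ _
  have h1 := Submodule.finrank_sup_add_finrank_inf_eq A W
  have h2 : finrank ℂ ↥(A ⊔ W) ≤ K I (R + D) := by
    refine Submodule.finrank_mono (sup_le (inf_le_inf_left _ fun p hp => hJ hp) ?_)
    rintro _ ⟨u, hu, rfl⟩
    refine ⟨(mem_restrictTotalDegree _ _ _).2 ((totalDegree_mul f u).trans ?_),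
      I.mul_mem_right u hf⟩
    have := (mem_restrictTotalDegree _ _ _).1 hu
    omega
  have h3 : finrank ℂ ↥(A ⊓ W) ≤ K q R := by
    have : Module.Finite ℂ ↥(T m R ⊓ q.restrictScalars ℂ) :=
      Submodule.finiteDimensional_inf_left _ _
    refine le_trans (Submodule.finrank_mono ?_) (Submodule.finrank_map_le φ _)
    rintro _ ⟨hA, u, hu, rfl⟩
    exact ⟨u, ⟨hu, hq u hA.2⟩, rfl⟩
  have h4 := H_add_K I (R + D)
  have h5 := H_add_K J (R + D)
  have h6 := H_add_K q R
  have h7 : finrank ℂ A = K J (R + D) := rfl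
  omega

/-- pairwise incomparable primes -/
theorem sum_H_le (P : Finset (Ideal (Sm m))) (hP : ∀ q ∈ P, q.IsPrime)
    (hI : ∀ q ∈ P, ∀ q' ∈ P, q ≤ q' → q = q') :
    ∃ c, ∀ R, ∑ q ∈ P, H q R ≤ H (P.inf id) (R + c) := by
  classical
  induction P using Finset.induction_on with
  | empty => exact ⟨0, fun R => by simp⟩
  | insert q P hq ih =>
    obtain ⟨c, hc⟩ := ih (fun q' h => hP q' (Finset.mem_insert_of_mem h)) fun a ha b hb =>
      hI a (Finset.mem_insert_of_mem ha) b (Finset.mem_insert_of_mem hb)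
    have hqp := hP q (Finset.mem_insert_self _ _)
    have hn : ¬P.inf id ≤ q := by
      rw [hqp.inf_le']
      rintro ⟨q', hq', hle⟩
      exact hq (hI q' (Finset.mem_insert_of_mem hq') q (Finset.mem_insert_self _ _) hle ▸ hq')
    obtain ⟨h, hh, hhq⟩ := SetLike.not_le_iff_exists.1 hn
    refine ⟨c + h.totalDegree, fun R => ?_⟩
    have h1 := H_step (I := P.inf id) (J := q ⊓ P.inf id) (q := q) inf_le_right hh
      (fun e => hhq (e ▸ q.zero_mem)) (fun u hu => (hqp.mem_or_mem hu.1).resolve_left hhq) le_rfl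
      (R + c)
    have h2 := H_mono (P.inf id) (Nat.le_add_right (R + c) h.totalDegree)
    have h3 := H_mono q (Nat.le_add_right R c)
    have h4 := hc R
    rw [Finset.sum_insert hq, Finset.inf_insert, ← add_assoc, id]
    omega

/-- the lower bound for a prime -/
theorem le_H {q : Ideal (Sm m)} (hq : q.IsPrime) {j : ℕ}
    (ht : (m : Cardinal) ≤ Algebra.trdeg ℂ (Sm m ⧸ q) + j) (r : ℕ) :
    (r + 1) ^ (m - j) ≤ H q (m * r) := by
  classical
  let x : Fin m → Sm m ⧸ q := fun i => Ideal.Quotient.mkₐ ℂ q (X i)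
  have htop : Algebra.adjoin ℂ (Set.range x) = ⊤ := by
    have h := AlgHom.map_adjoin (Ideal.Quotient.mkₐ ℂ q) (Set.range (X : Fin m → Sm m))
    rw [adjoin_range_X, Algebra.map_top, ← Set.range_comp,
      (AlgHom.range_eq_top _).2 (Ideal.Quotient.mkₐ_surjective ℂ q)] at h
    exact h.symm
  have : Algebra.IsAlgebraic (Algebra.adjoin ℂ (Set.range x)) (Sm m ⧸ q) :=
    ⟨fun a => isAlgebraic_algebraMap (⟨a, htop ▸ Algebra.mem_top⟩ : Algebra.adjoin ℂ (Set.range x))⟩
  obtain ⟨t, hts, htb⟩ := exists_isTranscendenceBasis_subset (R := ℂ) (Set.range x)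
  have : Fintype t := ((Set.finite_range x).subset hts).fintype
  choose e he using fun a : t => hts a.2
  have hinj : Function.Injective e := fun a b h => Subtype.ext (by rw [← he a, ← he b, h])
  have hcm : Fintype.card t ≤ m := by simpa using Fintype.card_le_of_injective e hinj
  have hcj : m ≤ Fintype.card t + j := by
    rw [← htb.cardinalMk_eq_trdeg, Cardinal.mk_fintype] at ht
    exact_mod_cast ht
  let n : (t → Fin (r + 1)) → (t →₀ ℕ) := fun a =>
    Finsupp.equivFunOnFinite.symm fun i => (a i : ℕ)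
  have hn : Function.Injective n := fun a b h => funext fun i => Fin.ext (by
    simpa [n] using DFunLike.congr_fun h i)
  have hli : LinearIndependent ℂ fun a => aeval (R := ℂ) ((↑) : t → Sm m ⧸ q) (monomial (n a) 1) :=
    (((basisMonomials t ℂ).linearIndependent.comp n hn).map' (aeval ((↑) : t → Sm m ⧸ q)).toLinearMap
      (LinearMap.ker_eq_bot.2 htb.1))
  have hmem : ∀ a, aeval (R := ℂ) ((↑) : t → Sm m ⧸ q) (monomial (n a) 1) ∈
      (T m (m * r)).map (Ideal.Quotient.mkₐ ℂ q).toLinearMap := by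
    intro a
    refine ⟨rename e (monomial (n a) 1), (mem_restrictTotalDegree _ _ _).2
      ((totalDegree_rename_le _ _).trans ((totalDegree_monomial_le _ _).trans ?_)), ?_⟩
    · rw [Finsupp.sum_fintype _ _ (by simp)]
      refine (Finset.sum_le_card_nsmul _ _ r fun i _ => ?_).trans ?_
      · simpa [n] using Nat.le_of_lt_succ (a i).2
      · simpa using Nat.mul_le_mul_right r hcm
    · have e1 : (Ideal.Quotient.mkₐ ℂ q).comp (rename e) = aeval ((↑) : t → Sm m ⧸ q) :=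
        algHom_ext fun i => by simpa [x] using he i
      exact DFunLike.congr_fun e1 _
  have hli' : LinearIndependent ℂ fun a => (⟨_, hmem a⟩ :
      (T m (m * r)).map (Ideal.Quotient.mkₐ ℂ q).toLinearMap) :=
    LinearIndependent.of_comp (Submodule.subtype _) hli
  have h := hli'.fintype_card_le_finrank
  rw [Fintype.card_fun, Fintype.card_fin] at h
  exact (Nat.pow_le_pow_right (Nat.succ_pos r) (by omega)).trans h

theorem sum_biUnion_le {α β : Type*} [DecidableEq β] (P : Finset α) (M : α → Finset β)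
    (g : β → ℕ) : ∑ b ∈ P.biUnion M, g b ≤ ∑ a ∈ P, ∑ b ∈ M a, g b := by
  classical
  induction P using Finset.induction_on with
  | empty => simp
  | insert a P ha ih =>
    rw [Finset.biUnion_insert, Finset.sum_insert ha]
    have := Finset.sum_union_inter (s₁ := M a) (s₂ := P.biUnion M) (f := g)
    omega

/-- summation of the differences -/
theorem tele (G G' : ℕ → ℕ) (c D : ℕ) (hG : Monotone G) (hD : 1 ≤ D)
    (h : ∀ R R', R + c ≤ R' → G' R + G R' ≤ G (R' + D)) {R : ℕ} (hR : c + D ≤ R) :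
    R * G' R ≤ D * G (3 * R) := by
  have h1 : ∀ n, n * G' R ≤ G (R + c + n * D) := by
    intro n
    induction n with
    | zero => simp
    | succ n ih =>
      have := h R (R + c + n * D) (Nat.le_add_right _ _)
      rw [Nat.succ_mul, Nat.succ_mul, ← add_assoc]
      omega
  have h2 := Nat.div_add_mod R D
  have h3 := Nat.mod_lt R hD
  have h4 : R ≤ D * (R / D + 1) := by rw [mul_add]; omega
  have h5 : R + c + (R / D + 1) * D ≤ 3 * R := by rw [add_mul, mul_comm (R / D)]; omega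
  calc R * G' R ≤ D * (R / D + 1) * G' R := Nat.mul_le_mul_right _ h4
    _ = D * ((R / D + 1) * G' R) := mul_assoc _ _ _
    _ ≤ D * G (3 * R) := Nat.mul_le_mul_left _ ((h1 _).trans (hG h5))

/-- the invariant of a family of primes at step `j` -/
def Inv (j a : ℕ) (P : Finset (Ideal (Sm m))) : Prop :=
  (∀ q ∈ P, q.IsPrime ∧ (m : Cardinal) ≤ Algebra.trdeg ℂ (Sm m ⧸ q) + j) ∧
    ∀ᶠ R : ℕ in atTop, (∑ q ∈ P, H q R) * R ^ j ≤ a * R ^ m

theorem Inv.card_mul {j a : ℕ} {P : Finset (Ideal (Sm m))} (h : Inv j a P) (r R : ℕ)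
    (hR : m * r ≤ R) : P.card * (r + 1) ^ (m - j) ≤ ∑ q ∈ P, H q R := by
  rw [← smul_eq_mul]
  exact Finset.card_nsmul_le_sum _ _ _ fun q hq =>
    (le_H (h.1 q hq).1 (h.1 q hq).2 r).trans (H_mono q hR)

theorem Inv.card_le {j a : ℕ} {P : Finset (Ideal (Sm m))} (h : Inv j a P) (hj : j ≤ m) :
    P.card ≤ a * (m + 1) ^ m := by
  obtain ⟨R₀, hR₀⟩ := eventually_atTop.1 h.2
  have hr : 0 < R₀ + 1 := Nat.succ_pos _
  have hle : R₀ + 1 ≤ (m + 1) * (R₀ + 1) := Nat.le_mul_of_pos_left _ (Nat.succ_pos m)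
  have h1 := hR₀ ((m + 1) * (R₀ + 1)) (by omega)
  have h2 := h.card_mul R₀ ((m + 1) * (R₀ + 1)) (by gcongr <;> omega)
  refine Nat.le_of_mul_le_mul_right ?_ (pow_pos hr m)
  calc P.card * (R₀ + 1) ^ m = P.card * (R₀ + 1) ^ (m - j) * (R₀ + 1) ^ j := by
        rw [mul_assoc, ← pow_add, Nat.sub_add_cancel hj]
    _ ≤ (∑ q ∈ P, H q ((m + 1) * (R₀ + 1))) * ((m + 1) * (R₀ + 1)) ^ j := by gcongr
    _ ≤ _ := h1
    _ = _ := by rw [mul_pow, mul_assoc]

theorem Inv.eq_empty {a : ℕ} {P : Finset (Ideal (Sm m))} (h : Inv (m + 1) a P) : P = ∅ := by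
  obtain ⟨R₀, hR₀⟩ := eventually_atTop.1 h.2
  have h1 := hR₀ (R₀ + a + 1) (by omega)
  have h2 := h.card_mul 0 (R₀ + a + 1) (by simp)
  rw [zero_add, one_pow, mul_one] at h2
  rw [← Finset.card_eq_zero]
  by_contra hne
  have h3 : (R₀ + a + 1) * (R₀ + a + 1) ^ m ≤ a * (R₀ + a + 1) ^ m := by
    refine le_trans ?_ h1
    rw [← pow_succ']
    exact Nat.le_mul_of_pos_left _ (by omega)
  have := Nat.le_of_mul_le_mul_right h3 (pow_pos (Nat.succ_pos _) m)
  omega

theorem inv_zero : Inv 0 (2 ^ m) ({⊥} : Finset (Ideal (Sm m))) := by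
  refine ⟨fun q hq => ?_, eventually_atTop.2 ⟨1, fun R hR => ?_⟩⟩
  · rw [Finset.mem_singleton.1 hq]
    refine ⟨Ideal.isPrime_bot, ?_⟩
    rw [(AlgEquiv.quotientBot ℂ (Sm m)).trdeg_eq]
    simp
  · have h1 := H_add_K (⊥ : Ideal (Sm m)) R
    have h2 := finrank_T (m := m) R
    have h3 : (R + 1) ^ m ≤ (2 * R) ^ m := Nat.pow_le_pow_left (by omega) m
    rw [Finset.sum_singleton, pow_zero, mul_one, ← mul_pow]
    omega

theorem trdeg_step (hE : StE) {q q' : Ideal (Sm m)} (hq : q.IsPrime) {f : Sm m}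
    (h : q' ∈ (q ⊔ Ideal.span {f}).minimalPrimes) :
    Algebra.trdeg ℂ (Sm m ⧸ q) ≤ Algebra.trdeg ℂ (Sm m ⧸ q') + 1 := by
  have hle : q ≤ q' := le_sup_left.trans h.1.2
  have h1 : q'.map (Ideal.Quotient.mk q) ∈
      (Ideal.span {Ideal.Quotient.mk q f}).minimalPrimes := by
    rw [← Set.image_singleton, ← Ideal.map_span,
      Ideal.minimalPrimes_map_of_surjective Ideal.Quotient.mk_surjective, Ideal.mk_ker, sup_comm]
    exact ⟨q', h, rfl⟩
  have h2 := hE ℂ (Sm m ⧸ q) (Ideal.Quotient.mk q f) _ h1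
  exact h2.trans_eq (congrArg (· + 1) (DoubleQuot.quotQuotEquivQuotOfLEₐ ℂ hle).trdeg_eq)

theorem Inv.step (hE : StE) {j a D : ℕ} {P : Finset (Ideal (Sm m))} (h : Inv j a P) (hD : 1 ≤ D)
    (F : Set (Sm m)) (hF : ∀ f ∈ F, f.totalDegree ≤ D) :
    ∃ P' : Finset (Ideal (Sm m)), Inv (j + 1) (3 ^ m * D * a) P' ∧
      ∀ q ∈ P, ∀ Q : Ideal (Sm m), Q.IsPrime → Ideal.span F ≤ Q → q ≤ Q →
        Ideal.span F ≤ q ∨ ∃ q' ∈ P', q' ≤ Q := by
  classical
  have hM : ∀ q ∈ P, ∃ (M : Finset (Ideal (Sm m))) (c : ℕ),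
      (∀ q' ∈ M, q'.IsPrime ∧ (m : Cardinal) ≤ Algebra.trdeg ℂ (Sm m ⧸ q') + (j + 1 : ℕ)) ∧
      (∀ R R', R + c ≤ R' → ∑ q' ∈ M, H q' R + H q R' ≤ H q (R' + D)) ∧
      ∀ Q : Ideal (Sm m), Q.IsPrime → Ideal.span F ≤ Q → q ≤ Q →
        Ideal.span F ≤ q ∨ ∃ q' ∈ M, q' ≤ Q := by
    intro q hq
    obtain ⟨hqp, hqt⟩ := h.1 q hq
    by_cases hFq : Ideal.span F ≤ q
    · exact ⟨∅, 0, by simp, fun R R' _ => by simpa using H_mono q (Nat.le_add_right R' D),
        fun Q _ _ _ => Or.inl hFq⟩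
    obtain ⟨f, hfF, hfq⟩ : ∃ f ∈ F, f ∉ q := by
      rw [Ideal.span_le] at hFq
      exact Set.not_subset.1 hFq
    have hfin := (q ⊔ Ideal.span {f}).finite_minimalPrimes_of_isNoetherianRing
    obtain ⟨c, hc⟩ := sum_H_le hfin.toFinset (fun q' hq' => (hfin.mem_toFinset.1 hq').1.1)
      fun a ha b hb hab => le_antisymm hab
        ((hfin.mem_toFinset.1 hb).2 (hfin.mem_toFinset.1 ha).1 hab)
    refine ⟨hfin.toFinset, c, fun q' hq' => ⟨(hfin.mem_toFinset.1 hq').1.1, ?_⟩,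
      fun R R' hR => ?_, fun Q hQ hFQ hqQ => Or.inr ?_⟩
    · refine hqt.trans ((add_le_add_left (trdeg_step hE hqp (hfin.mem_toFinset.1 hq')) _).trans_eq ?_)
      push_cast
      rw [add_assoc, add_comm 1]
    · have h1 := H_step (I := q ⊔ Ideal.span {f}) (J := q) (q := q) le_sup_left
        (Ideal.mem_sup_right (Ideal.mem_span_singleton_self f)) (fun e => hfq (e ▸ q.zero_mem))
        (fun u hu => (hqp.mem_or_mem hu).resolve_left hfq) (hF f hfF) R'
      have h2 : H (hfin.toFinset.inf id) (R + c) ≤ H (q ⊔ Ideal.span {f}) (R + c) :=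
        H_anti (Finset.le_inf fun q' hq' => (hfin.mem_toFinset.1 hq').1.2) _
      have h3 := H_mono (q ⊔ Ideal.span {f}) (hR.trans (Nat.le_add_right R' D))
      have h4 := hc R
      omega
    · obtain ⟨q', hq', hle⟩ := Ideal.exists_minimalPrimes_le (I := q ⊔ Ideal.span {f}) (J := Q)
        (sup_le hqQ ((Ideal.span_singleton_le_iff_mem _).2 (hFQ (Ideal.subset_span hfF))))
      exact ⟨q', hfin.mem_toFinset.2 hq', hle⟩
  choose! M c hM1 hM2 hM3 using hM
  refine ⟨P.biUnion M, ⟨fun q' hq' => ?_, ?_⟩, fun q hq Q hQ hFQ hqQ => ?_⟩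
  · obtain ⟨q, hq, hq'⟩ := Finset.mem_biUnion.1 hq'
    exact hM1 q hq q' hq'
  · obtain ⟨R₀, hR₀⟩ := eventually_atTop.1 h.2
    refine eventually_atTop.2 ⟨R₀ + (P.sup c + D), fun R hR => ?_⟩
    have h1 := tele (fun R => ∑ q ∈ P, H q R) (fun R => ∑ q' ∈ P.biUnion M, H q' R) (P.sup c) D
      (fun R R' hRR => Finset.sum_le_sum fun q _ => H_mono q hRR) hD (fun R R' hRR => by
        refine (Nat.add_le_add_right (sum_biUnion_le _ _ _) _).trans ?_
        rw [← Finset.sum_add_distrib]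
        exact Finset.sum_le_sum fun q hq =>
          hM2 q hq R R' ((Nat.add_le_add_left (Finset.le_sup hq) R).trans hRR))
      (R := R) (by omega)
    have h2 := hR₀ (3 * R) (by omega)
    calc (∑ q' ∈ P.biUnion M, H q' R) * R ^ (j + 1)
        = R * (∑ q' ∈ P.biUnion M, H q' R) * R ^ j := by ring
      _ ≤ D * (∑ q ∈ P, H q (3 * R)) * (3 * R) ^ j := by gcongr; omega
      _ = D * ((∑ q ∈ P, H q (3 * R)) * (3 * R) ^ j) := by ring
      _ ≤ D * (a * (3 * R) ^ m) := by gcongr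
      _ = _ := by ring
  · exact (hM3 q hq Q hQ hFQ hqQ).imp id fun ⟨q', hq', hle⟩ =>
      ⟨q', Finset.mem_biUnion.2 ⟨q, hq, hq'⟩, hle⟩

theorem families (hE : StE) (m j : ℕ) (hj : j ≤ m + 1) : ∃ a b : ℕ, ∀ (D : ℕ) (F : Set (Sm m)),
    1 ≤ D → (∀ f ∈ F, f.totalDegree ≤ D) → ∃ P Z : Finset (Ideal (Sm m)), Inv j (a * D ^ j) P ∧
      Z.card ≤ b * D ^ m ∧ ∀ Q ∈ (Ideal.span F).minimalPrimes, Q ∈ Z ∨ ∃ q ∈ P, q ≤ Q := by
  classical
  induction j with
  | zero =>
    exact ⟨2 ^ m, 0, fun D F _ _ => ⟨{⊥}, ∅, by simpa using inv_zero, by simp,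
      fun Q _ => Or.inr ⟨⊥, Finset.mem_singleton_self _, bot_le⟩⟩⟩
  | succ j ih =>
    obtain ⟨a, b, hab⟩ := ih (by omega)
    refine ⟨3 ^ m * a, b + a * (m + 1) ^ m, fun D F hD hF => ?_⟩
    obtain ⟨P, Z, hP, hZ, hQ⟩ := hab D F hD hF
    obtain ⟨P', hP', hQ'⟩ := hP.step hE hD F hF
    refine ⟨P', Z ∪ P, ?_, ?_, fun Q hQm => ?_⟩
    · rwa [show 3 ^ m * a * D ^ (j + 1) = 3 ^ m * D * (a * D ^ j) by ring]
    · have h1 := hP.card_le (by omega)
      have h2 : D ^ j ≤ D ^ m := Nat.pow_le_pow_right hD (by omega)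
      calc (Z ∪ P).card ≤ Z.card + P.card := Finset.card_union_le _ _
        _ ≤ b * D ^ m + a * D ^ m * (m + 1) ^ m := by
          gcongr
          exact h1.trans (by gcongr)
        _ = _ := by ring
    · rcases hQ Q hQm with h | ⟨q, hq, hle⟩
      · exact Or.inl (Finset.mem_union_left _ h)
      · rcases hQ' q hq Q hQm.1.1 hQm.1.2 hle with h | h
        · exact Or.inl (Finset.mem_union_right _
            (le_antisymm hle (hQm.2 ⟨(hP.1 q hq).1, h⟩ hle) ▸ hq))
        · exact Or.inr h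

end JF1

theorem stF1 (hE : StE) : StF1 := by
  intro m
  obtain ⟨a, b, hab⟩ := JF1.families hE m (m + 1) le_rfl
  refine ⟨b, fun D F hD hF s hs => ?_⟩
  obtain ⟨P, Z, hP, hZ, hQ⟩ := hab D F hD hF
  refine (Finset.card_le_card fun Q hQs => ?_).trans hZ
  rcases hQ Q (hs Q hQs) with h | ⟨q, hq, -⟩
  · exact h
  · simp [hP.eq_empty] at hq

end Pool.Agent.Lib.MP_12eca1_ag.P
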