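import Pool.Agent.Lib.MP_12eca1_ag.P.Defs

/-!
The spectral radius formula in a quotient of the Wiener algebra of a polydisc.
-/

namespace Pool.Agent.Lib.MP_12eca1_ag.P

open MvPolynomial Filter
open scoped ENNReal NNReal

namespace JG

variable {σ : Type}

theorem l1_eq (P : MvPolynomial σ ℂ) {S : Finset (σ →₀ ℕ)} (h : P.support ⊆ S) :
    l1 P = ∑ m ∈ S, ‖coeff m P‖ :=
  Finset.sum_subset h fun m _ hm => by rw [notMem_support_iff.1 hm, norm_zero]

theorem l1_add (P Q : MvPolynomial σ ℂ) : l1 (P + Q) ≤ l1 P + l1 Q := by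
  classical
  rw [l1_eq (P + Q) support_add, l1_eq P (S := P.support ∪ Q.support) Finset.subset_union_left,
    l1_eq Q (S := P.support ∪ Q.support) Finset.subset_union_right, ← Finset.sum_add_distrib]
  exact Finset.sum_le_sum fun m _ => by rw [coeff_add]; exact norm_add_le _ _

theorem l1_zero : l1 (0 : MvPolynomial σ ℂ) = 0 := by simp [l1]

theorem l1_neg (P : MvPolynomial σ ℂ) : l1 (-P) = l1 P := by simp [l1]

theorem l1_sum {ι : Type*} (s : Finset ι) (f : ι → MvPolynomial σ ℂ) :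
    l1 (∑ i ∈ s, f i) ≤ ∑ i ∈ s, l1 (f i) :=
  Finset.le_sum_of_subadditive l1 l1_zero.le l1_add s f

theorem l1_monomial (m : σ →₀ ℕ) (c : ℂ) : l1 (monomial m c) = ‖c‖ := by
  classical
  rw [l1_eq _ support_monomial_subset]
  simp

theorem l1_mul (P Q : MvPolynomial σ ℂ) : l1 (P * Q) ≤ l1 P * l1 Q := by
  conv_lhs => rw [P.as_sum, Q.as_sum, Finset.sum_mul_sum]
  refine (l1_sum _ _).trans ?_
  rw [l1, l1, Finset.sum_mul_sum]
  refine Finset.sum_le_sum fun m _ => (l1_sum _ _).trans (Finset.sum_le_sum fun n _ => ?_)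
  rw [monomial_mul, l1_monomial, norm_mul]

theorem l1_smul (c : ℂ) (P : MvPolynomial σ ℂ) : l1 (c • P) ≤ ‖c‖ * l1 P := by
  rw [l1_eq _ support_smul, l1, Finset.mul_sum]
  exact Finset.sum_le_sum fun m _ => by rw [coeff_smul, norm_smul]

/-- polynomials with the sum norm -/
def W (σ : Type) : Type := MvPolynomial σ ℂ

noncomputable instance : CommRing (W σ) := inferInstanceAs (CommRing (MvPolynomial σ ℂ))

noncomputable instance : Algebra ℂ (W σ) := inferInstanceAs (Algebra ℂ (MvPolynomial σ ℂ))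

/-- the sum norm as a ring seminorm -/
noncomputable def sn (σ : Type) : RingSeminorm (W σ) where
  toFun P := l1 (σ := σ) (K := ℂ) P
  map_zero' := l1_zero
  add_le' := l1_add
  neg' := l1_neg
  mul_le' := l1_mul

noncomputable instance : SeminormedCommRing (W σ) :=
  { (sn σ).toSeminormedRing with mul_comm := mul_comm }

noncomputable instance : NormedAlgebra ℂ (W σ) where
  norm_smul_le := l1_smul

/-- the identity map -/
noncomputable def toW : MvPolynomial σ ℂ ≃ₐ[ℂ] W σ := AlgEquiv.refl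

theorem norm_toW (P : MvPolynomial σ ℂ) : ‖toW P‖ = l1 P := rfl

/-- the map to the completion -/
noncomputable def cmp (B : Type) [SeminormedCommRing B] [NormedAlgebra ℂ B] :
    B →ₐ[ℂ] UniformSpace.Completion B :=
  { UniformSpace.Completion.coeRingHom with
    commutes' := fun c => (UniformSpace.Completion.algebraMap_def B ℂ c).symm }

theorem norm_cmp (B : Type) [SeminormedCommRing B] [NormedAlgebra ℂ B] (b : B) :
    ‖cmp B b‖ = ‖b‖ := UniformSpace.Completion.norm_coe b

theorem ev_lt {A : Type} [NormedCommRing A] [NormedAlgebra ℂ A] [CompleteSpace A] (a : A)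
    (s : ℝ) (hs : 0 < s) (h : ∀ z ∈ spectrum ℂ a, ‖z‖ ≤ s) :
    ∀ᶠ k : ℕ in atTop, ‖a ^ k‖ < (2 * s) ^ k := by
  have h1 : spectralRadius ℂ a ≤ ENNReal.ofReal s := by
    refine iSup₂_le fun z hz => ?_
    rw [← ENNReal.ofReal_coe_nnreal, coe_nnnorm]
    exact ENNReal.ofReal_le_ofReal (h z hz)
  have h2 : spectralRadius ℂ a < ENNReal.ofReal (2 * s) :=
    h1.trans_lt ((ENNReal.ofReal_lt_ofReal_iff (by positivity)).2 (by linarith))
  filter_upwards [(spectrum.pow_norm_pow_one_div_tendsto_nhds_spectralRadius a).eventually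
    (gt_mem_nhds h2), eventually_gt_atTop 0] with k hk hk0
  rw [ENNReal.ofReal_lt_ofReal_iff (by positivity), one_div] at hk
  have := pow_lt_pow_left₀ hk (by positivity) hk0.ne'
  rwa [Real.rpow_inv_natCast_pow (norm_nonneg _) hk0.ne'] at this

end JG

open JG in
theorem stG : StG := by
  intro σ I a s hs h
  let I' : Ideal (W σ) := I
  let f : MvPolynomial σ ℂ →ₐ[ℂ] UniformSpace.Completion (W σ ⧸ I') :=
    (cmp (W σ ⧸ I')).comp ((Ideal.Quotient.mkₐ ℂ I').comp (toW (σ := σ)).toAlgHom)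
  have hf : ∀ P, ‖f P‖ = ‖Ideal.Quotient.mk I' (toW P)‖ := fun P => norm_cmp _ _
  have hle : ∀ P, ‖f P‖ ≤ l1 P := fun P => (hf P).trans_le (Ideal.Quotient.norm_mk_le I' _)
  have hsp : ∀ z ∈ spectrum ℂ (f a), ‖z‖ ≤ s := by
    intro z hz
    obtain ⟨χ, rfl⟩ := WeakDual.CharacterSpace.mem_spectrum_iff_exists.1 hz
    have hev : ∀ P, χ (f P) = eval (fun i => χ (f (X i))) P := by
      intro P
      have : (AlgHomClass.toAlgHom χ).comp f = aeval fun i => χ (f (X i)) :=
        MvPolynomial.algHom_ext fun i => by simp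
      exact DFunLike.congr_fun this P
    rw [hev]
    refine h _ (fun i => ?_) fun P hP => ?_
    · refine (AlgHom.norm_apply_le_self_mul_norm_one χ _).trans ?_
      have h1 : ‖f (X i)‖ ≤ 1 := (hle _).trans_eq (by rw [X, l1_monomial, norm_one])
      have h2 : ‖(1 : UniformSpace.Completion (W σ ⧸ I'))‖ ≤ 1 := by
        rw [← map_one f]
        exact (hle _).trans_eq (by rw [← C_1, C_apply, l1_monomial, norm_one])
      exact mul_le_one₀ h1 (norm_nonneg _) h2
    · rw [← hev]
      have : f P = 0 := by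
        rw [← norm_eq_zero, hf, (Ideal.Quotient.eq_zero_iff_mem (I := I') (a := toW P)).2 hP,
          norm_zero]
      rw [this, map_zero]
  filter_upwards [ev_lt (f a) s hs hsp] with k hk
  rw [← map_pow, hf] at hk
  obtain ⟨Q, hQ, hQ'⟩ := Ideal.Quotient.norm_mk_lt (Ideal.Quotient.mk I' (toW (a ^ k)))
    (sub_pos.2 hk)
  exact ⟨Q, Ideal.Quotient.eq.1 hQ.symm, by
    rw [add_sub_cancel] at hQ'
    exact hQ'.le⟩

end Pool.Agent.Lib.MP_12eca1_ag.P
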