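import Pool.Agent.Lib.MP_12eca1_ag.P.Basic

/-!
The descent on subtori: a potential function argument.
-/

namespace Pool.Agent.Lib.MP_12eca1_ag.P

open Filter Module

namespace JH

variable {E A : Type} [NormedAddCommGroup E] [InnerProductSpace ℝ E] [CommRing A] [Algebra ℚ A]
  {ζ : E →ₗ[ℝ] ℂ} {W : Submodule ℤ ℂ} {M : Submodule ℤ E} {g : E → A} {ev : A →ₐ[ℚ] ℂ}
  {ρ τ : ℕ} {α β : ℝ}

lemma rank_le (h : St ζ W M g ev ρ τ α β) (hW : W.FG) (h0 : ∀ a ∈ M, ζ a = 0 → a = 0) :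
    ρ ≤ finrank ℤ W := by
  have : Module.Finite ℤ W := Module.Finite.iff_fg.mpr hW
  rw [← h.rk]
  refine LinearMap.finrank_le_finrank_of_injective
    (f := ((ζ.restrictScalars ℤ).domRestrict M).codRestrict W fun a => h.inW a a.2) ?_
  refine (injective_iff_map_eq_zero _).mpr fun a ha => Subtype.ext (h0 a a.2 ?_)
  exact congrArg Subtype.val ha

lemma exists_short {s : ℝ} (h : Sep M ζ s) (h0 : ¬ ∀ a ∈ M, ζ a = 0 → a = 0) :
    ∃ a₀ ∈ M, a₀ ≠ 0 ∧ ζ a₀ = 0 ∧ ∀ a ∈ M, ζ a = 0 → a ≠ 0 → 2 * ‖a₀‖ ≤ 3 * ‖a‖ := by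
  push Not at h0
  obtain ⟨a, ha1, ha2, ha3⟩ := h0
  set S : Set ℝ := {x | ∃ a ∈ M, ζ a = 0 ∧ a ≠ 0 ∧ ‖a‖ = x}
  have hne : S.Nonempty := ⟨_, a, ha1, ha2, ha3, rfl⟩
  have hlb : Real.exp s ∈ lowerBounds S := by
    rintro _ ⟨b, h1, h2, h3, rfl⟩; exact h b h1 h2 h3
  have h1 : 0 < sInf S := (Real.exp_pos s).trans_le (le_csInf hne hlb)
  obtain ⟨_, ⟨b, b1, b2, b3, rfl⟩, b4⟩ := exists_lt_of_csInf_lt hne
    (show sInf S < 3 / 2 * sInf S by linarith)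
  refine ⟨b, b1, b3, b2, fun a h1 h2 h3 => ?_⟩
  have := csInf_le ⟨_, hlb⟩ (show ‖a‖ ∈ S from ⟨a, h1, h2, h3, rfl⟩)
  linarith

lemma cutq (hQ : StQ) (hK : StK) [IsDomain A] {T : ℕ} {t c : ℝ} {a₀ : E}
    (h : St ζ W M g ev ρ τ α β) (hT : τ ≤ T) (ht : Thin M t) (h1 : a₀ ∈ M) (h2 : a₀ ≠ 0)
    (h3 : ζ a₀ = 0) (h4 : g a₀ ≠ 1) (h5 : ∀ a ∈ M, ζ a = 0 → a ≠ 0 → 2 * ‖a₀‖ ≤ 3 * ‖a‖)
    (hc : 0 ≤ c) (h6 : -c ≤ Real.log ‖a₀‖) :
    ∃ (ρ' τ' : ℕ) (A' : Type) (_ : CommRing A') (_ : IsDomain A') (_ : Algebra ℚ A')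
      (M' : Submodule ℤ E) (g' : E → A') (ev' : A' →ₐ[ℚ] ℂ), ρ = ρ' + 1 ∧ τ = τ' + 1 ∧
      St ζ W M' g' ev' ρ' τ' (α + Real.log ‖a₀‖ + (c + 1 + 3 * (T + 1)))
        (β - Real.log ‖a₀‖ + 2) ∧ Thin M' t ∧ Sep M' ζ (Real.log ‖a₀‖ - 2) := by
  obtain ⟨τ', A', i1, i2, i3, g', ev', e1, e2, s1⟩ := hK E A ζ W M g ev ρ τ α β a₀ h h1 h3 h4
  obtain ⟨ρ', M', g'', e3, s2, s3, s4⟩ := hQ E A' ζ W M g' ev' ρ τ' _ β t a₀ s1 ht h1 h2 h3 e2 h5
  refine ⟨ρ', τ', A', i1, i2, i3, M', g'', ev', e3, e1, s2.mono ?_ le_rfl, s3, s4⟩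
  have hp : 0 < ‖a₀‖ := norm_pos_iff.mpr h2
  have h7 : Real.log (‖a₀‖ + 1) ≤ Real.log ‖a₀‖ + (c + 1) := by
    rw [Real.log_le_iff_le_exp (by positivity), Real.exp_add, Real.exp_log hp, Real.exp_add]
    have h8 : 1 ≤ ‖a₀‖ * Real.exp c := by
      rw [← Real.exp_log hp, ← Real.exp_add]; exact Real.one_le_exp (by linarith)
    have h9 := Real.one_le_exp hc
    have h10 := Real.add_one_le_exp 1
    nlinarith [mul_le_mul_of_nonneg_left h9 hp.le]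
  have h8 : (τ : ℝ) ≤ T := by exact_mod_cast hT
  have h9 : (τ : ℝ) = τ' + 1 := by exact_mod_cast e1
  linarith

lemma alpha_lb (hD : StDr) (hT : StT) (T : ℕ) {Z : ℝ} (hZ : 1 ≤ Z) (ρ : ℕ) : ∀ t : ℝ, ∃ C : ℝ,
    0 ≤ C ∧ ∀ (E A : Type) [NormedAddCommGroup E] [InnerProductSpace ℝ E] [CommRing A] [IsDomain A]
      [Algebra ℚ A] (ζ : E →ₗ[ℝ] ℂ) (W : Submodule ℤ ℂ) (M : Submodule ℤ E) (g : E → A)
      (ev : A →ₐ[ℚ] ℂ) (τ : ℕ) (α β : ℝ), τ ≤ T → (∀ v, ‖ζ v‖ ≤ Z * ‖v‖) →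
      St ζ W M g ev ρ τ α β → Thin M t → -C ≤ α := by
  induction ρ with
  | zero =>
    refine fun t => ⟨0, le_rfl, fun E A _ _ _ _ _ ζ W M g ev τ α β _ h2 h3 _ => ?_⟩
    obtain rfl := h3.tau_eq_zero
    simpa using (hT E A ζ W M g ev 0 α β Z h3 hZ h2).1
  | succ ρ ih =>
    intro t
    obtain ⟨C, hC0, hC⟩ := ih (t + 2)
    refine ⟨C + (|t| + 2 * (T + 1)), by positivity,
      fun E A _ _ _ _ _ ζ W M g ev τ α β h1 h2 h3 h4 => ?_⟩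
    obtain ⟨M', x, -, a2, a3, a4 | ⟨τ', a4, a5⟩⟩ := hD E A ζ W M g ev ρ τ α β t h3 h4
    · have := hC E A ζ W M' g ev τ α _ h1 h2 a4 (a3.mono (by linarith))
      have h5 : (0 : ℝ) ≤ |t| + 2 * (T + 1) := by positivity
      linarith
    · have := hC E A ζ W M' g ev τ' _ _ (by omega) h2 a5 (a3.mono (by linarith))
      have h5 : (τ : ℝ) ≤ T := by exact_mod_cast h1
      linarith [le_abs_self t]

lemma terminal (hT : StT) {r : ℕ} {Z c x : ℝ} (hZ : 1 ≤ Z) (hW : W.FG) (hr : finrank ℤ W ≤ r)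
    (h2 : ∀ v, ‖ζ v‖ ≤ Z * ‖v‖) (h : St ζ W M g ev ρ τ α β) (h0 : ∀ a ∈ M, ζ a = 0 → a = 0)
    (hs : 4 * r * τ ≤ ρ) (hx : x ≤ α + c) :
    ρ * x - β - 4 * r * (α + τ * x) ≤ ρ * (c + 6 + Real.log Z) := by
  have h1 := (rank_le h hW h0).trans hr
  obtain rfl : τ = 0 := by
    rcases Nat.eq_zero_or_pos r with rfl | h3
    · obtain rfl : ρ = 0 := by omega
      exact h.tau_eq_zero
    · by_contra h4
      have : 4 * r * 1 ≤ 4 * r * τ := Nat.mul_le_mul_left _ (Nat.pos_of_ne_zero h4)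
      omega
  obtain ⟨h3, h4⟩ := hT E A ζ W M g ev ρ α β Z h hZ h2
  have h5 := h4 h0
  have h6 : (ρ : ℝ) ≤ r := by exact_mod_cast h1
  have h7 := mul_le_mul_of_nonneg_left hx (Nat.cast_nonneg (α := ℝ) ρ)
  have h8 := mul_le_mul_of_nonneg_right h6 h3
  push_cast
  nlinarith

lemma main_ind (hQ : StQ) (hK : StK) (hD : StDr) (hT : StT) (r T : ℕ) {Z : ℝ} (hZ : 1 ≤ Z)
    (ρ : ℕ) : ∀ c : ℝ, 0 ≤ c → ∃ C : ℝ,
    ∀ (E A : Type) [NormedAddCommGroup E] [InnerProductSpace ℝ E] [CommRing A] [IsDomain A]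
      [Algebra ℚ A] (ζ : E →ₗ[ℝ] ℂ) (W : Submodule ℤ ℂ) (M : Submodule ℤ E) (g : E → A)
      (ev : A →ₐ[ℚ] ℂ) (τ : ℕ) (α β x : ℝ), τ ≤ T → W.FG → finrank ℤ W ≤ r →
      (∀ v, ‖ζ v‖ ≤ Z * ‖v‖) → St ζ W M g ev ρ τ α β → Sep M ζ (max x 0 - c) →
      Thin M (min x 0 + c) → x ≤ α + c → ρ * x - β - 4 * r * (α + τ * x) ≤ C := by
  induction ρ with
  | zero =>
    refine fun c _ => ⟨_, fun E A _ _ _ _ _ ζ W M g ev τ α β x _ h2 h3 h4 h5 _ _ h8 =>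
      terminal hT hZ h2 h3 h4 h5 (fun a ha _ => ?_) (by rw [h5.tau_eq_zero]; rfl) h8⟩
    have := h5.finite
    have : IsAddTorsionFree E := .of_isTorsionFree ℝ E
    rwa [Submodule.finrank_eq_zero.mp h5.rk] at ha
  | succ ρ ih =>
    intro c hc
    obtain ⟨C1, hC1, k1⟩ := alpha_lb hD hT T hZ ρ (c + 2)
    obtain ⟨C2, hC2, k2⟩ := alpha_lb hD hT T hZ (ρ + 1) c
    obtain ⟨C, hC⟩ := ih (2 * c + 2 + C1 + C2) (by positivity)
    have hL := Real.log_nonneg hZ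
    refine ⟨|C| + (2 + ρ + c) + (ρ + 1) * (c + 6 + Real.log Z) +
      4 * r * (c + 1 + 3 * (T + 1) + T * c),
      fun E A _ _ _ _ _ ζ W M g ev τ α β x h1 h2 h3 h4 h5 h6 h7 h8 => ?_⟩
    have hτ : (τ : ℝ) ≤ T := by exact_mod_cast h1
    have hr : (0 : ℝ) ≤ 4 * r := by positivity
    have hρ : (0 : ℝ) ≤ ρ := by positivity
    have hT0 : (0 : ℝ) ≤ T := by positivity
    have hC' := le_abs_self C
    have hC'' := abs_nonneg C
    have p1 : (0 : ℝ) ≤ (ρ + 1) * (c + 6 + Real.log Z) := by positivity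
    have p2 : (0 : ℝ) ≤ 4 * r * (c + 1) := by positivity
    have p3 : (0 : ℝ) ≤ 4 * r * (T + 1) := by positivity
    have p4 : (0 : ℝ) ≤ 4 * r * (T * c) := by positivity
    have p5 := mul_le_mul_of_nonneg_left hτ hr
    have m1 := min_le_left x 0
    have m2 := min_le_right x 0
    have m3 := le_max_left x 0
    have m4 := le_max_right x 0
    push_cast
    by_cases hs : 4 * r * τ ≤ ρ + 1
    · have hs' : (4 * r * τ : ℝ) ≤ ρ + 1 := by exact_mod_cast hs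
      by_cases h0 : ∀ a ∈ M, ζ a = 0 → a = 0
      · have := terminal hT hZ h2 h3 h4 h5 h0 hs h8
        push_cast at this
        linarith
      obtain ⟨a₀, a1, a2, a3, a4⟩ := exists_short h6 h0
      have hy : max x 0 - c ≤ Real.log ‖a₀‖ :=
        (Real.le_log_iff_exp_le (norm_pos_iff.mpr a2)).mpr (h6 a₀ a1 a3 a2)
      by_cases hg : g a₀ = 1
      · obtain ⟨ρ', M', g', e1, s1, s2, s3⟩ :=
          hQ E A ζ W M g ev _ τ α β _ a₀ h5 h7 a1 a2 a3 hg a4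
        obtain rfl : ρ = ρ' := by omega
        have := hC E A ζ W M' g' ev τ _ _ x h1 h2 h3 h4 s1 (s3.mono le_rfl (by linarith))
          (s2.mono (by linarith)) (by linarith [Nat.cast_nonneg (α := ℝ) τ])
        nlinarith
      · obtain ⟨ρ', τ', A', i1, i2, i3, M', g', ev', e1, e2, s1, s2, s3⟩ :=
          cutq hQ hK h5 h1 h7 a1 a2 a3 hg a4 hc (by linarith)
        obtain rfl : ρ = ρ' := by omega
        have b1 := k2 E A ζ W M g ev τ α β h1 h4 h5 (h7.mono (by linarith))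
        have := hC E A' ζ W M' g' ev' τ' _ _ (Real.log ‖a₀‖) (by omega) h2 h3 h4 s1
          (s3.mono le_rfl (by
            rcases max_cases (Real.log ‖a₀‖) 0 with ⟨h, -⟩ | ⟨h, -⟩ <;> rw [h] <;> linarith))
          (s2.mono (by
            rcases min_cases (Real.log ‖a₀‖) 0 with ⟨h, -⟩ | ⟨h, -⟩ <;> rw [h] <;> linarith))
          (by linarith)
        have e3 : (τ : ℝ) = τ' + 1 := by exact_mod_cast e2
        have b2 : (ρ + 1 - 4 * r * τ) * (x - Real.log ‖a₀‖) ≤ (ρ + 1 - 4 * r * τ) * c :=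
          mul_le_mul_of_nonneg_left (by linarith) (by linarith)
        have b3 : (0 : ℝ) ≤ 4 * r * τ * c := by positivity
        have b4 : (0 : ℝ) ≤ (ρ + 1) * (6 + Real.log Z) := by positivity
        rw [e3] at b2 b3 ⊢
        nlinarith
    · have hs' : (ρ + 1 : ℝ) ≤ 4 * r * τ := by exact_mod_cast (not_le.mp hs).le
      obtain ⟨M', x', a1, a2, a3, a4⟩ := hD E A ζ W M g ev ρ τ α β _ h5 h7
      have b1 : Sep M' ζ (max x' 0 - (2 * c + 2 + C1 + C2)) := h6.mono a1 (by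
        rcases max_cases x' 0 with ⟨h, -⟩ | ⟨h, -⟩ <;> rw [h] <;> linarith)
      have b2 : Thin M' (min x' 0 + (2 * c + 2 + C1 + C2)) := a3.mono (by
        rcases min_cases x' 0 with ⟨h, -⟩ | ⟨h, -⟩ <;> rw [h] <;> linarith)
      have b3 : Thin M' (c + 2) := a3.mono (by linarith)
      have b4 : (4 * r * τ - (ρ + 1)) * (x' - x) ≤ (4 * r * τ - (ρ + 1)) * c :=
        mul_le_mul_of_nonneg_left (by linarith) (by linarith)
      have b5 : (0 : ℝ) ≤ (ρ + 1) * c := by positivity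
      have b6 := mul_le_mul_of_nonneg_right p5 hc
      rcases a4 with a4 | ⟨τ', e2, a4⟩
      · have b7 := k1 E A ζ W M' g ev τ _ _ h1 h4 a4 b3
        have := hC E A ζ W M' g ev τ _ _ x' h1 h2 h3 h4 a4 b1 b2 (by linarith)
        nlinarith
      · have b7 := k1 E A ζ W M' g ev τ' _ _ (by omega) h4 a4 b3
        have := hC E A ζ W M' g ev τ' _ _ x' (by omega) h2 h3 h4 a4 b1 b2 (by linarith)
        have e3 : (τ : ℝ) = τ' + 1 := by exact_mod_cast e2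
        rw [e3] at b4 b6 p5 this ⊢
        nlinarith

end JH

theorem stH (hQ : StQ) (hK : StK) (hD : StDr) (hT : StT) : StH := by
  intro n r T Z α β hr hn hZ
  obtain ⟨C, hC⟩ := JH.main_ind hQ hK hD hT r T hZ (n - 1) (2 + |α|) (by positivity)
  refine ⟨Real.exp (C + β + 2 + 4 * r * (α + (0 + 1 + 3 * (T + 1)))),
    fun E A _ _ _ _ _ ζ W M g ev τ h1 h2 h3 h4 h5 h6 h7 => ?_⟩
  obtain ⟨a₀, a1, a2, a3, a4⟩ := JH.exists_short h7 fun h0 => by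
    have := JH.rank_le h5 h2 h0
    omega
  refine ⟨a₀, a1, a2, a3, or_iff_not_imp_right.mpr fun hg => ?_⟩
  have hp := norm_pos_iff.mpr a2
  have hy : 0 ≤ Real.log ‖a₀‖ := (Real.le_log_iff_exp_le hp).mpr (h7 a₀ a1 a3 a2)
  obtain ⟨ρ', τ', A', i1, i2, i3, M', g', ev', e1, e2, s1, s2, s3⟩ :=
    JH.cutq hQ hK h5 h1 h6 a1 a2 a3 hg a4 le_rfl (by linarith)
  obtain rfl : n - 1 = ρ' := by omega
  have h8 := abs_nonneg α
  have h9 := neg_abs_le α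
  have := hC E A' ζ W M' g' ev' τ' _ _ (Real.log ‖a₀‖) (by omega) h2 h3 h4 s1
    (s3.mono le_rfl (by rw [max_eq_left hy]; linarith))
    (s2.mono (by rw [min_eq_right hy]; linarith))
    (by have : (0 : ℝ) ≤ T := by positivity
        linarith)
  rw [← Real.log_le_iff_le_exp hp]
  have e3 : 4 * r * (τ' + 1) + 1 ≤ (n - 1) + 1 := by
    have : 4 * r * τ ≤ 4 * r * T := Nat.mul_le_mul_left _ h1
    rw [← e2]; omega
  have e4 : (4 * r * (τ' + 1) + 1 : ℝ) ≤ ((n - 1 : ℕ) : ℝ) + 1 := by exact_mod_cast e3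
  nlinarith [mul_le_mul_of_nonneg_right e4 hy]

end Pool.Agent.Lib.MP_12eca1_ag.P
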