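import Pool.Agent.Lib.MP_12eca1_ag.P.Basic

/-!
Cutting the generic point of a state of the descent by a character.
-/

namespace Pool.Agent.Lib.MP_12eca1_ag.P

open Filter

namespace JK

variable {E A : Type} [NormedAddCommGroup E] [InnerProductSpace ℝ E] [CommRing A] [Algebra ℚ A]
  {ζ : E →ₗ[ℝ] ℂ} {W : Submodule ℤ ℂ} {M : Submodule ℤ E} {g : E → A} {ev : A →ₐ[ℚ] ℂ}
  {ρ τ : ℕ} {α β : ℝ}

/-- the algebra generated by the values of the characters is of finite type -/
theorem finiteType (h : St ζ W M g ev ρ τ α β) :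
    Algebra.FiniteType ℚ (Algebra.adjoin ℚ (g '' M)) := by
  classical
  obtain ⟨S, hS⟩ := h.fg
  let T : Finset A := S.image g ∪ S.image fun a => g (-a)
  let B := Algebra.adjoin ℚ (T : Set A)
  let K : AddSubgroup E :=
    { carrier := {a | a ∈ M ∧ g a ∈ B ∧ g (-a) ∈ B}
      add_mem' := fun {a b} ha hb => ⟨M.add_mem ha.1 hb.1, by
          rw [h.mul a ha.1 b hb.1]; exact B.mul_mem ha.2.1 hb.2.1, by
          rw [neg_add, h.mul _ (M.neg_mem ha.1) _ (M.neg_mem hb.1)]
          exact B.mul_mem ha.2.2 hb.2.2⟩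
      zero_mem' := ⟨M.zero_mem, by rw [h.one]; exact B.one_mem, by
          rw [neg_zero, h.one]; exact B.one_mem⟩
      neg_mem' := fun {a} ha => ⟨M.neg_mem ha.1, ha.2.2, by rw [neg_neg]; exact ha.2.1⟩ }
  have hSM : ∀ a ∈ S, a ∈ M := fun a ha => hS ▸ Submodule.subset_span ha
  have hK : M ≤ AddSubgroup.toIntSubmodule K := by
    rw [← hS, Submodule.span_le]
    intro a ha
    refine ⟨hSM a ha, Algebra.subset_adjoin ?_, Algebra.subset_adjoin ?_⟩
    · exact Finset.mem_coe.2 (Finset.mem_union_left _ (Finset.mem_image_of_mem _ ha))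
    · exact Finset.mem_coe.2 (Finset.mem_union_right _
        (Finset.mem_image_of_mem (fun a => g (-a)) ha))
  have hB : B = Algebra.adjoin ℚ (g '' M) := by
    refine le_antisymm (Algebra.adjoin_mono ?_) (Algebra.adjoin_le ?_)
    · intro x hx
      rcases Finset.mem_union.1 (Finset.mem_coe.1 hx) with hx | hx
      · obtain ⟨a, ha, rfl⟩ := Finset.mem_image.1 hx
        exact ⟨a, hSM a ha, rfl⟩
      · obtain ⟨a, ha, rfl⟩ := Finset.mem_image.1 hx
        exact ⟨-a, M.neg_mem (hSM a ha), rfl⟩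
    · rintro _ ⟨a, ha, rfl⟩
      exact (hK ha).2.1
  exact (Subalgebra.fg_iff_finiteType _).1 ⟨T, hB⟩

/-- Horner forms in `g a₀ - 1` -/
theorem horner [IsDomain A] (hg : ∀ a ∈ M, ∀ b ∈ M, g (a + b) = g a * g b) {a₀ : E}
    (ha : a₀ ∈ M) (hne : g a₀ ≠ 1) (B : Subalgebra ℚ A) (hB : g a₀ ∈ B) (S : Finset A)
    (hSB : ∀ x ∈ S, x ∈ B) {R L : ℝ} (hS : ∀ x ∈ S, x ∈ Val M g R L)
    (hinj : ∀ x ∈ S, ∀ y ∈ S, ∀ w ∈ B, x - y = (g a₀ - 1) * w → x = y) (k : ℕ) :
    ∃ t : Finset A, t.card = S.card ^ k ∧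
      ∀ w ∈ t, w ∈ B ∧ w ∈ Val M g (R + k * ‖a₀‖) ((2 ^ k - 1) * L) := by
  classical
  induction k with
  | zero =>
    refine ⟨{0}, by simp, fun w hw => ?_⟩
    rw [Finset.mem_singleton.1 hw]
    exact ⟨B.zero_mem, Val.zero (by simp)⟩
  | succ k ih =>
    obtain ⟨t, ht, hw⟩ := ih
    refine ⟨(t ×ˢ S).image fun p => p.2 + (g a₀ - 1) * p.1, ?_, ?_⟩
    · rw [Finset.card_image_of_injOn, Finset.card_product, ht, pow_succ]
      intro p hp p' hp' e
      have hp := Finset.mem_product.1 (Finset.mem_coe.1 hp)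
      have hp' := Finset.mem_product.1 (Finset.mem_coe.1 hp')
      have e' : p.2 + (g a₀ - 1) * p.1 = p'.2 + (g a₀ - 1) * p'.1 := e
      have h2 : p.2 = p'.2 := hinj _ hp.2 _ hp'.2 (p'.1 - p.1)
        (B.sub_mem (hw _ hp'.1).1 (hw _ hp.1).1) (by linear_combination e')
      rw [h2, add_right_inj] at e'
      exact Prod.ext (mul_left_cancel₀ (sub_ne_zero.2 hne) e') h2
    · intro x hx
      obtain ⟨p, hp, rfl⟩ := Finset.mem_image.1 hx
      have hp := Finset.mem_product.1 hp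
      obtain ⟨h1, h2⟩ := hw _ hp.1
      refine ⟨B.add_mem (hSB _ hp.2) (B.mul_mem (B.sub_mem hB B.one_mem) h1), ?_⟩
      have hn := norm_nonneg a₀
      have hk : (0 : ℝ) ≤ k * ‖a₀‖ := by positivity
      have e1 : R + k * ‖a₀‖ + ‖a₀‖ = R + (k + 1 : ℕ) * ‖a₀‖ := by push_cast; ring
      have v1 : p.2 ∈ Val M g (R + (k + 1 : ℕ) * ‖a₀‖) L :=
        Val.mono (hS _ hp.2) le_rfl (by linarith) le_rfl
      have v2 := Val.mono (Val.mul hg h2 ha) le_rfl e1.le le_rfl
      have v3 : -p.1 ∈ Val M g (R + (k + 1 : ℕ) * ‖a₀‖) ((2 ^ k - 1) * L) :=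
        Val.mono (Val.neg h2) le_rfl (by linarith) le_rfl
      have v4 := Val.add v1 (Val.add v2 v3)
      have e2 : p.2 + (p.1 * g a₀ + -p.1) = p.2 + (g a₀ - 1) * p.1 := by ring
      rw [e2] at v4
      exact Val.mono v4 le_rfl le_rfl (le_of_eq (by ring))

/-- the telescoping count -/
theorem count [IsDomain A] (h : St ζ W M g ev ρ τ α β) {a₀ : E} (ha : a₀ ∈ M) (hne : g a₀ ≠ 1) :
    ∀ᶠ R : ℝ in atTop, ∀ S : Finset A, (∀ x ∈ S, x ∈ Val M g R (Real.exp R)) →
      (∀ x ∈ S, ∀ y ∈ S, ∀ w ∈ Algebra.adjoin ℚ (g '' M), x - y = (g a₀ - 1) * w → x = y) →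
      (S.card : ℝ) ≤
        Real.exp (Real.exp (α + Real.log (‖a₀‖ + 1) + 2 * (τ + 1)) * R ^ τ) := by
  have ht : Tendsto (fun R : ℝ => 3 * R) atTop atTop := tendsto_id.const_mul_atTop (by norm_num)
  filter_upwards [ht.eventually h.cnt, eventually_ge_atTop 1, eventually_ge_atTop ‖a₀‖]
    with R hc h1 h2 S hS hinj
  have hn := norm_nonneg a₀
  set k := ⌈R / (‖a₀‖ + 1)⌉₊ with hk
  have hq : 0 < R / (‖a₀‖ + 1) := by positivity
  have hk0 : k ≠ 0 := (Nat.ceil_pos.2 hq).ne'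
  have hk1 : R / (‖a₀‖ + 1) ≤ k := Nat.le_ceil _
  have hk2 : (k : ℝ) ≤ R / (‖a₀‖ + 1) + 1 := (Nat.ceil_lt_add_one hq.le).le
  have hk3 : R ≤ k * (‖a₀‖ + 1) := by rwa [div_le_iff₀ (by positivity)] at hk1
  have hq1 : R / (‖a₀‖ + 1) * (‖a₀‖ + 1) = R := by field_simp
  have hk4 : (k : ℝ) ≤ R + 1 := by nlinarith
  have hk5 : k * ‖a₀‖ ≤ 2 * R := by nlinarith
  obtain ⟨t, htc, hw⟩ := horner h.mul ha hne (Algebra.adjoin ℚ (g '' M))
    (Algebra.subset_adjoin ⟨a₀, ha, rfl⟩) S (fun x hx => Val.mem_adjoin (hS x hx))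
    hS hinj k
  have hL : (2 ^ k - 1) * Real.exp R ≤ Real.exp (3 * R) := by
    have a1 : (2 : ℝ) ^ k ≤ Real.exp 1 ^ k :=
      pow_le_pow_left₀ (by norm_num) (by linarith [Real.add_one_le_exp (1 : ℝ)]) k
    rw [← Real.exp_nat_mul, mul_one] at a1
    have a2 : Real.exp k ≤ Real.exp (2 * R) := Real.exp_le_exp.2 (by linarith)
    rw [show 3 * R = 2 * R + R by ring, Real.exp_add]
    exact mul_le_mul_of_nonneg_right (by linarith) (Real.exp_pos R).le
  have h3 := hc t fun w hwt => Val.mono (hw w hwt).2 le_rfl (by linarith) hL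
  rw [htc] at h3
  push_cast at h3
  refine le_of_pow_le_pow_left₀ hk0 (Real.exp_pos _).le (h3.trans ?_)
  rw [← Real.exp_nat_mul, Real.exp_le_exp, Real.exp_add, Real.exp_add,
    Real.exp_log (by positivity)]
  have a3 : (3 : ℝ) ^ (τ + 1) ≤ Real.exp (2 * (τ + 1)) := by
    have : (3 : ℝ) ^ (τ + 1) ≤ Real.exp 2 ^ (τ + 1) :=
      pow_le_pow_left₀ (by norm_num) (by linarith [Real.add_one_le_exp (2 : ℝ)]) _
    rw [← Real.exp_nat_mul] at this
    push_cast at this
    rwa [mul_comm]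
  have hR : 0 ≤ R ^ τ := by positivity
  have hα := Real.exp_pos α
  calc Real.exp α * (3 * R) ^ (τ + 1) = Real.exp α * R ^ τ * (3 ^ (τ + 1) * R) := by ring
    _ ≤ Real.exp α * R ^ τ * (Real.exp (2 * (τ + 1)) * (k * (‖a₀‖ + 1))) := by
        refine mul_le_mul_of_nonneg_left ?_ (by positivity)
        exact mul_le_mul a3 hk3 (by linarith) (Real.exp_pos _).le
    _ = _ := by ring

/-- the values are not bounded in number -/
theorem not_cnt_zero [Nontrivial A] (h1 : g 0 = 1) : ¬ Cnt M g 0 α := by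
  classical
  intro h
  have : CharZero A := algebraRat.charZero A
  obtain ⟨R, hR, h0, h2⟩ := (h.and ((eventually_ge_atTop 0).and
    (eventually_ge_atTop (Real.exp α)))).exists
  have h3 := hR ((Finset.range (⌊Real.exp R⌋₊ + 1)).image fun n : ℕ => (n : A)) (by
    intro v hv
    obtain ⟨n, hn, rfl⟩ := Finset.mem_image.1 hv
    have hn' : (n : ℝ) ≤ Real.exp R :=
      (Nat.cast_le.2 (Nat.lt_succ_iff.1 (Finset.mem_range.1 hn))).trans
        (Nat.floor_le (Real.exp_pos R).le)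
    have := Val.single (M := M) (g := g) (R := R) (L := Real.exp R) M.zero_mem (by simpa using h0)
      (n := n) (by simpa using hn')
    simpa [h1] using this)
  rw [Finset.card_image_of_injective _ Nat.cast_injective, Finset.card_range, pow_zero,
    mul_one] at h3
  push_cast at h3
  have h4 := Nat.lt_floor_add_one (Real.exp R)
  have h5 := Real.exp_le_exp.2 h2
  linarith

end JK

open JK in
theorem stK (hE : StE) : StK := by
  classical
  intro E A _ _ _ _ _ ζ W M g ev ρ τ α β a₀ h ha hζ hne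
  set B := Algebra.adjoin ℚ (g '' M) with hB
  have hmem : ∀ a ∈ M, g a ∈ B := fun a ha => Algebra.subset_adjoin ⟨a, ha, rfl⟩
  have : Algebra.FiniteType ℚ B := finiteType h
  let f : B := ⟨g a₀, hmem a₀ ha⟩ - 1
  let ev0 : B →ₐ[ℚ] ℂ := ev.comp B.val
  have hf : ev0 f = 0 := by
    simp only [f, ev0, map_sub, map_one]
    simp [h.spec a₀ ha, hζ]
  have : (RingHom.ker ev0).IsPrime := RingHom.ker_isPrime _
  obtain ⟨q, hq, hqle⟩ := Ideal.exists_minimalPrimes_le (I := Ideal.span {f})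
    (J := RingHom.ker ev0) (by rw [Ideal.span_le, Set.singleton_subset_iff]; exact hf)
  have hqp : q.IsPrime := hq.1.1
  have hfq : f ∈ q := hq.1.2 (Ideal.subset_span rfl)
  let g' : E → B ⧸ q := fun a => if ha : a ∈ M then Ideal.Quotient.mk q ⟨g a, hmem a ha⟩ else 0
  have hg' : ∀ a (ha : a ∈ M), g' a = Ideal.Quotient.mk q ⟨g a, hmem a ha⟩ := fun a ha =>
    dif_pos ha
  let ev' : (B ⧸ q) →ₐ[ℚ] ℂ := Ideal.Quotient.liftₐ q ev0 fun a ha => hqle ha
  have hone : g' 0 = 1 := by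
    rw [hg' 0 M.zero_mem, ← map_one (Ideal.Quotient.mk q)]
    congr 1
    exact Subtype.ext h.one
  have hlift : ∀ (R L : ℝ) (v : B ⧸ q), v ∈ Val M g' R L →
      ∃ u : B, (u : A) ∈ Val M g R L ∧ Ideal.Quotient.mk q u = v := by
    rintro R L v ⟨l, h1, h2, rfl⟩
    have hv : (l.map fun p => (p.1 : A) * g p.2).sum ∈ Val M g R L := ⟨l, h1, h2, rfl⟩
    refine ⟨⟨_, Val.mem_adjoin hv⟩, hv, ?_⟩
    have key : ∀ (l : List (ℤ × E)), (∀ p ∈ l, p.2 ∈ M) → ∀ u : B,
        (u : A) = (l.map fun p => (p.1 : A) * g p.2).sum →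
        Ideal.Quotient.mk q u = (l.map fun p => (p.1 : B ⧸ q) * g' p.2).sum := by
      intro l
      induction l with
      | nil =>
        intro _ u hu
        have : u = 0 := Subtype.ext (by simpa using hu)
        simp [this]
      | cons p l ih =>
        intro hl u hu
        have hp : p.2 ∈ M := hl p List.mem_cons_self
        have := ih (fun p' hp' => hl p' (List.mem_cons_of_mem _ hp'))
          (u - (p.1 : B) * ⟨g p.2, hmem _ hp⟩) (by simp [hu])
        rw [List.map_cons, List.sum_cons, ← this, hg' _ hp, map_sub, map_mul, map_intCast]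
        ring
    exact key l (fun p hp => (h1 p hp).1) _ rfl
  have hcnt : Cnt M g' τ (α + Real.log (‖a₀‖ + 1) + 2 * (τ + 1)) := by
    filter_upwards [count h ha hne] with R hR s hs
    choose! u hu1 hu2 using fun v (hv : v ∈ s) => hlift R _ v (hs v hv)
    have hi : Set.InjOn (fun v => (u v : A)) s := by
      intro v hv w hw e
      rw [← hu2 v hv, ← hu2 w hw, Subtype.ext e]
    have := hR (s.image fun v => (u v : A)) (by
      intro x hx
      obtain ⟨v, hv, rfl⟩ := Finset.mem_image.1 hx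
      exact hu1 v hv) (by
      intro x hx y hy w hw e
      obtain ⟨v, hv, rfl⟩ := Finset.mem_image.1 hx
      obtain ⟨v', hv', rfl⟩ := Finset.mem_image.1 hy
      have e' : u v - u v' = f * ⟨w, hw⟩ := Subtype.ext (by simpa [f] using e)
      have : v = v' := by
        rw [← hu2 v hv, ← hu2 v' hv', Ideal.Quotient.eq, e']
        exact q.mul_mem_right _ hfq
      rw [this])
    rwa [Finset.card_image_of_injOn hi] at this
  obtain _ | τ' := τ
  · exact absurd hcnt (not_cnt_zero hone)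
  have htop : Algebra.adjoin ℚ (g' '' M) = ⊤ := by
    rw [eq_top_iff]
    rintro x -
    obtain ⟨⟨y, hy⟩, rfl⟩ := Ideal.Quotient.mk_surjective x
    induction hy using Algebra.adjoin_induction with
    | mem y hy =>
      obtain ⟨a, ha, rfl⟩ := hy
      exact Algebra.subset_adjoin ⟨a, ha, hg' a ha⟩
    | algebraMap r => exact Subalgebra.algebraMap_mem _ r
    | add x y hx hy h1 h2 => exact Subalgebra.add_mem _ h1 h2
    | mul x y hx hy h1 h2 => exact Subalgebra.mul_mem _ h1 h2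
  refine ⟨τ', B ⧸ q, inferInstance, inferInstance, inferInstance, g', ev', rfl, ?_,
    h.fg, h.rk, h.disc, h.inW, hone, fun a ha b hb => ?_, fun a ha => ?_, ?_, hcnt, h.vol⟩
  · rw [hg' a₀ ha, ← map_one (Ideal.Quotient.mk q), Ideal.Quotient.eq]
    exact hfq
  · rw [hg' a ha, hg' b hb, hg' _ (M.add_mem ha hb), ← map_mul]
    congr 1
    exact Subtype.ext (h.mul a ha b hb)
  · rw [hg' a ha, ← h.spec a ha]
    rfl
  · rw [htop, Subalgebra.topEquiv.trdeg_eq, ← Cardinal.add_one_le_add_one_iff]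
    have := h.ind.trans (hE ℚ B f q hq)
    push_cast at this
    exact this

end Pool.Agent.Lib.MP_12eca1_ag.P
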