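import Pool.Agent.Lib.MP_12eca1_ag.P.Defs

/-!
Covolumes of sublattices.
-/

namespace Pool.Agent.Lib.MP_12eca1_ag.P

open Module Submodule

namespace JL

section Alg

variable {V : Type} [AddCommGroup V] [Module ℂ V]

theorem isLat_mono {Λ N : Submodule ℤ V} (h : IsLat Λ) (hN : N ≤ Λ) : IsLat N :=
  ⟨h.1.of_le hN, fun n v hv => h.2 n v fun i => hN (hv i)⟩

theorem indepC {Λ : Submodule ℤ V} (h : IsLat Λ) {n : Type} [Fintype n] {v : n → V}
    (hv : ∀ i, v i ∈ Λ) (hi : LinearIndependent ℤ v) : LinearIndependent ℂ v := by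
  let e := (Fintype.equivFin n).symm
  exact (linearIndependent_equiv e).1
    (h.2 _ (v ∘ e) (fun i => hv _) ((linearIndependent_equiv e).2 hi))

theorem exists_bas {N : Submodule ℤ V} (h : N.FG) : ∃ v : Fin (finrank ℤ N) → V, IsBas N v := by
  have : IsAddTorsionFree V := IsAddTorsionFree.of_isTorsionFree ℂ V
  have : Module.Finite ℤ N := Module.Finite.iff_fg.2 h
  let b := Module.finBasis ℤ N
  refine ⟨fun i => b i, b.linearIndependent.map' N.subtype N.ker_subtype, ?_⟩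
  have : Set.range (fun i => (b i : V)) = N.subtype '' Set.range b := by
    rw [← Set.range_comp]; rfl
  rw [this, Submodule.span_image, b.span_eq, Submodule.map_subtype_top]

theorem bas_mem {N : Submodule ℤ V} {n : Type} {v : n → V} (h : IsBas N v) (i : n) : v i ∈ N :=
  h.2 ▸ subset_span (Set.mem_range_self i)

/-- every element of `Λ` has a nonzero multiple in `M` -/
def Tor (Λ M : Submodule ℤ V) : Prop := ∀ x ∈ Λ, ∃ a : ℤ, a ≠ 0 ∧ a • x ∈ M

theorem Tor.rank {Λ M : Submodule ℤ V} (h : Tor Λ M) (hΛ : Λ.FG) (hM : M ≤ Λ) :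
    finrank ℤ M = finrank ℤ Λ := by
  have : Module.Finite ℤ Λ := Module.Finite.iff_fg.2 hΛ
  have : Module.Finite ℤ M := Module.Finite.iff_fg.2 (hΛ.of_le hM)
  refine le_antisymm (Submodule.finrank_mono hM) ?_
  obtain ⟨b, hb⟩ := exists_bas hΛ
  choose a ha ha' using fun i => h (b i) (bas_mem hb i)
  have : LinearIndependent ℤ fun i => (⟨a i • b i, ha' i⟩ : M) := by
    rw [Fintype.linearIndependent_iff]
    intro c hc i
    have h1 : ∑ i, (c i * a i) • b i = 0 := by
      simpa [mul_smul] using congrArg Subtype.val hc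
    exact (mul_eq_zero.1 (Fintype.linearIndependent_iff.1 hb.1 _ h1 i)).resolve_right (ha i)
  simpa using this.fintype_card_le_finrank

theorem tor_sup {N M : Submodule ℤ V} {G : Set V} (hN : N ≤ M)
    (hG : ∀ g ∈ G, ∃ a : ℤ, a ≠ 0 ∧ a • g ∈ M) : Tor (N ⊔ span ℤ G) M := by
  intro x hx
  obtain ⟨y, hy, z, hz, rfl⟩ := Submodule.mem_sup.1 hx
  have : ∃ a : ℤ, a ≠ 0 ∧ a • z ∈ M := by
    induction hz using Submodule.span_induction with
    | mem g hg => exact hG g hg
    | zero => exact ⟨1, one_ne_zero, by simp⟩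
    | add p q hp hq ih1 ih2 =>
      obtain ⟨a, ha, h1⟩ := ih1 (Submodule.mem_sup.2 ⟨y, hy, p, hp, rfl⟩)
      obtain ⟨b, hb, h2⟩ := ih2 (Submodule.mem_sup.2 ⟨y, hy, q, hq, rfl⟩)
      refine ⟨a * b, mul_ne_zero ha hb, ?_⟩
      rw [smul_add]
      exact M.add_mem (by rw [mul_comm, mul_smul]; exact M.smul_mem _ h1)
        (by rw [mul_smul]; exact M.smul_mem _ h2)
    | smul c p hp ih =>
      obtain ⟨a, ha, h1⟩ := ih (Submodule.mem_sup.2 ⟨y, hy, p, hp, rfl⟩)
      exact ⟨a, ha, by rw [smul_comm]; exact M.smul_mem _ h1⟩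
  obtain ⟨a, ha, h1⟩ := this
  exact ⟨a, ha, by rw [smul_add]; exact M.add_mem (M.smul_mem _ (hN hy)) h1⟩

theorem elim_indep {N : Submodule ℤ V} {a b : Type} {n : a → V} (hn : IsBas N n) {u : b → V}
    (hu : LinearIndependent ℤ (N.mkQ ∘ u)) : LinearIndependent ℤ (Sum.elim n u) :=
  LinearIndependent.sumElim_of_quotient (M' := N) (f := fun i => ⟨n i, bas_mem hn i⟩)
    (LinearIndependent.of_comp N.subtype hn.1) u hu

theorem elim_span {N : Submodule ℤ V} {a b : Type} {n : a → V} (hn : IsBas N n) (u : b → V) :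
    span ℤ (Set.range (Sum.elim n u)) = N ⊔ span ℤ (Set.range u) := by
  rw [Set.Sum.elim_range, span_union, hn.2]

/-- a maximal family of generators that is independent modulo `N` -/
theorem exists_ext {Λ N : Submodule ℤ V} {G : Set V} (hΛ : Λ.FG) (h : N ⊔ span ℤ G = Λ) :
    ∃ (s : ℕ) (u : Fin s → V), (∀ i, u i ∈ G) ∧ LinearIndependent ℤ (N.mkQ ∘ u) ∧
      Tor Λ (N ⊔ span ℤ (Set.range u)) := by
  obtain ⟨S, hS, hS'⟩ := exists_maximal_linearIndepOn ℤ (fun g : G => N.mkQ g)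
  have hG : ∀ g ∈ G, g ∈ Λ := fun g hg => h ▸ mem_sup_right (subset_span hg)
  have : Module.Finite ℤ (Λ.map N.mkQ) := Module.Finite.iff_fg.2 (hΛ.map _)
  have hfin : Finite S := by
    have : LinearIndependent ℤ fun g : S =>
        (⟨N.mkQ g.1.1, mem_map_of_mem (hG _ g.1.2)⟩ : Λ.map N.mkQ) :=
      LinearIndependent.of_comp (Λ.map N.mkQ).subtype hS
    exact this.finite
  obtain ⟨s, ⟨e⟩⟩ := Finite.exists_equiv_fin S
  refine ⟨s, fun i => (e.symm i).1.1, fun i => (e.symm i).1.2,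
    (linearIndependent_equiv e.symm).2 hS, ?_⟩
  rw [← h]
  refine tor_sup le_sup_left fun g hg => ?_
  by_cases hg' : (⟨g, hg⟩ : G) ∈ S
  · refine ⟨1, one_ne_zero, mem_sup_right (subset_span ⟨e ⟨_, hg'⟩, by simp⟩)⟩
  · obtain ⟨a, ha, h1⟩ := hS' _ hg'
    refine ⟨a, ha, ?_⟩
    have h2 : span ℤ ((fun g : G => N.mkQ g) '' S) ≤
        (span ℤ (Set.range fun i => (e.symm i).1.1)).map N.mkQ := by
      rw [span_le]
      rintro _ ⟨x, hx, rfl⟩
      exact mem_map_of_mem (subset_span ⟨e ⟨x, hx⟩, by simp⟩)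
    have h3 : a • g ∈ ((span ℤ (Set.range fun i => (e.symm i).1.1)).map N.mkQ).comap N.mkQ := by
      rw [mem_comap, map_smul]
      exact h2 h1
    rwa [comap_map_mkQ] at h3

theorem spanC_bas {N : Submodule ℤ V} {a : Type} {n : a → V} (hn : IsBas N n) :
    span ℂ (N : Set V) ≤ span ℂ (Set.range n) := by
  rw [span_le, ← hn.2]
  exact span_subset_span ℤ ℂ _

end Alg

section Vol

variable {V E : Type} [AddCommGroup V] [Module ℂ V] [NormedAddCommGroup E]
  [InnerProductSpace ℂ E] {ι : V →ₗ[ℂ] E}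

theorem lvol_bas (hI : StIdx) (hι : Function.Injective ι) {N : Submodule ℤ V} (hN : IsLat N)
    {n : Fin (finrank ℤ N) → V} (hn : IsBas N n) : lvol (fun i => ι (n i)) = lcov ι N := by
  have := (hI V E _ ι N n hι hN (bas_mem hn) hn.1 (by simp)).2
  rwa [hn.2, AddSubgroup.relIndex_self, Nat.cast_one, Real.log_one, add_zero] at this

theorem core (hI : StIdx) (hι : Function.Injective ι) {Λ N : Submodule ℤ V} (hΛ : IsLat Λ)
    (hN : N ≤ Λ) {n : Fin (finrank ℤ N) → V} (hn : IsBas N n) {s : ℕ} {u : Fin s → V}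
    (hu : ∀ i, u i ∈ Λ) (hi : LinearIndependent ℤ (N.mkQ ∘ u))
    (ht : Tor Λ (N ⊔ span ℤ (Set.range u))) :
    finrank ℤ N + s = finrank ℤ Λ ∧
    LinearIndependent ℂ (Sum.elim (fun i => ι (n i)) fun i => ι (u i)) ∧
    (N ⊔ span ℤ (Set.range u)).toAddSubgroup.relIndex Λ.toAddSubgroup ≠ 0 ∧
    lvol (Sum.elim (fun i => ι (n i)) fun i => ι (u i)) - lvol (fun i => ι (n i)) =
      lcov ι Λ - lcov ι N +
        Real.log ((N ⊔ span ℤ (Set.range u)).toAddSubgroup.relIndex Λ.toAddSubgroup) := by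
  have h1 := elim_indep hn hi
  have h2 := elim_span hn u
  have h3 : ∀ i, Sum.elim n u i ∈ Λ := by
    rintro (i | i)
    · exact hN (bas_mem hn i)
    · exact hu i
  have h4 : Fintype.card (Fin (finrank ℤ N) ⊕ Fin s) = finrank ℤ Λ := by
    rw [← finrank_span_eq_card h1, h2]
    exact ht.rank hΛ.1 (sup_le hN (span_le.2 (Set.range_subset_iff.2 hu)))
  have e : (Sum.elim (fun i => ι (n i)) fun i => ι (u i)) = fun i => ι (Sum.elim n u i) := by
    ext (i | i) <;> rfl
  obtain ⟨h5, h6⟩ := hI V E _ ι Λ (Sum.elim n u) hι hΛ h3 h1 h4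
  rw [h2] at h5 h6
  refine ⟨by simpa using h4, ?_, h5, ?_⟩
  · rw [e]
    exact (indepC hΛ h3 h1).map' ι (LinearMap.ker_eq_bot.2 hι)
  · rw [e, h6, lvol_bas hI hι (isLat_mono hΛ hN) hn]
    ring

theorem span_map {S : Set V} {T : Set E} (h : ι '' S ⊆ span ℂ T) {x : V} (hx : x ∈ span ℂ S) :
    ι x ∈ span ℂ T := by
  have : span ℂ (ι '' S) ≤ span ℂ T := span_le.2 h
  rw [span_image] at this
  exact this (mem_map_of_mem hx)

end Vol

end JL

open JL

theorem stI (hI : StIdx) : StI := by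
  intro V E _ _ _ _ ι Λ N hι hΛ hN hr
  obtain ⟨n, hn⟩ := exists_bas (isLat_mono hΛ hN).1
  obtain ⟨-, h2⟩ := hI V E _ ι Λ n hι hΛ (fun i => hN (bas_mem hn i)) hn.1 (by simpa using hr)
  rw [lvol_bas hI hι (isLat_mono hΛ hN) hn] at h2
  rw [h2]
  exact le_add_of_nonneg_right (Real.log_natCast_nonneg _)

theorem stHad (hV : StV) (hI : StIdx) : StHad := by
  intro V E _ _ _ _ ι Λ N G γ hι hΛ hG hγ h
  have hN : N ≤ Λ := hG ▸ le_sup_left
  obtain ⟨n, hn⟩ := exists_bas (isLat_mono hΛ hN).1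
  obtain ⟨s, u, hu, hi, ht⟩ := exists_ext hΛ.1 hG
  obtain ⟨h1, h2, -, h4⟩ := core hI hι hΛ hN hn
    (fun i => hG ▸ mem_sup_right (subset_span (hu i))) hi ht
  let u' : Fin s → EuclideanSpace ℂ (Fin s) := fun i => EuclideanSpace.single i 1
  have ho : Orthonormal ℂ (Sum.elim (Fin.elim0 : Fin 0 → EuclideanSpace ℂ (Fin s)) u') := by
    have : Sum.elim (Fin.elim0 : Fin 0 → EuclideanSpace ℂ (Fin s)) u' =
        u' ∘ Equiv.emptySum (Fin 0) (Fin s) := by
      ext1 (i | i)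
      · exact i.elim0
      · rfl
    rw [this]
    exact EuclideanSpace.orthonormal_single.comp _ (Equiv.injective _)
  have h5 := hV E (EuclideanSpace ℂ (Fin s)) _ 0 s (fun i => ι (n i)) (fun i => ι (u i)) Fin.elim0
    u' (fun _ => γ) h2 ho.linearIndependent (fun _ => hγ) fun i s' hs' => by
      obtain ⟨x, hx, hx'⟩ := h (u i) (hu i)
      refine ⟨ι x, span_map (S := Set.range n) ?_ (spanC_bas hn hx), ?_⟩
      · rintro _ ⟨_, ⟨j, rfl⟩, rfl⟩
        exact subset_span (Or.inl ⟨j, rfl⟩)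
      · have h6 : s' i = 0 := by
          have : span ℂ (Set.range (Fin.elim0 : Fin 0 → EuclideanSpace ℂ (Fin s)) ∪
              u' '' Set.Iio i) ≤ LinearMap.ker (EuclideanSpace.proj i).toLinearMap := by
            rw [span_le]
            rintro _ (⟨j, -⟩ | ⟨j, hj, rfl⟩)
            · exact j.elim0
            · have : j < i := hj
              simp [u', this.ne']
          exact this hs'
        have h7 : 1 ≤ ‖u' i - s'‖ := by
          have := PiLp.norm_apply_le (u' i - s') i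
          simpa [u', h6] using this
        rw [← map_sub]
        exact hx'.trans (le_mul_of_one_le_right hγ.le h7)
  have h8 : lvol (Sum.elim (Fin.elim0 : Fin 0 → EuclideanSpace ℂ (Fin s)) u') = 0 := by
    simp [lvol, Matrix.gram_eq_one_iff_orthonormal.2 ho]
  have h9 : lvol (Fin.elim0 : Fin 0 → EuclideanSpace ℂ (Fin s)) = 0 := by simp [lvol]
  rw [h4, h8, h9] at h5
  have h10 := Real.log_natCast_nonneg
    ((N ⊔ span ℤ (Set.range u)).toAddSubgroup.relIndex Λ.toAddSubgroup)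
  rw [← h1]
  simp only [Finset.sum_const, Finset.card_univ, Fintype.card_fin, nsmul_eq_mul] at h5
  push_cast
  linarith

theorem stL (hV : StV) (hI : StIdx) : StL := by
  intro V' V E' E _ _ _ _ _ _ _ _ ι' ι φ Λ' Λ N γ hι' hι hΛ' hΛ hN hφ hγ h
  set ψ := φ.restrictScalars ℤ with hψ
  set P := Λ' ⊓ N.comap ψ with hP
  set N' := N ⊔ Λ'.map ψ with hN'
  have hL : IsLat N' := isLat_mono hΛ (sup_le hN hφ)
  have hPl : P ≤ Λ' := inf_le_left
  obtain ⟨n, hn⟩ := exists_bas (isLat_mono hΛ hN).1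
  obtain ⟨p, hp⟩ := exists_bas (isLat_mono hΛ' hPl).1
  obtain ⟨s, u, hu, hi, ht⟩ := exists_ext (N := P) (G := Λ') hΛ'.1
    (by rw [span_eq]; exact sup_eq_right.2 hPl)
  have hm : (span ℤ (Set.range u)).map ψ = span ℤ (Set.range fun i => φ (u i)) := by
    rw [← span_image, ← Set.range_comp]; rfl
  have hs : span ℤ (Set.range u) ≤ Λ' := span_le.2 (Set.range_subset_iff.2 hu)
  have hi2 : LinearIndependent ℤ (N.mkQ ∘ fun i => φ (u i)) := by
    rw [Fintype.linearIndependent_iff] at hi ⊢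
    intro c hc
    refine hi c ?_
    have h1 : N.mkQ (ψ (∑ i, c i • u i)) = 0 := by
      rw [map_sum, map_sum]
      simp only [map_smul]
      exact hc
    have h2 : P.mkQ (∑ i, c i • u i) = 0 := by
      rw [mkQ_apply, Quotient.mk_eq_zero] at h1 ⊢
      exact ⟨sum_mem fun i _ => smul_mem _ _ (hu i), h1⟩
    rw [map_sum] at h2
    simp only [map_smul] at h2
    exact h2
  have hc : (N ⊔ span ℤ (Set.range fun i => φ (u i))).comap ψ ⊓ Λ' = P ⊔ span ℤ (Set.range u) := by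
    rw [← hm]
    refine le_antisymm ?_ (le_inf (sup_le (inf_le_right.trans (comap_mono le_sup_left))
      (map_le_iff_le_comap.1 le_sup_right)) (sup_le hPl hs))
    rintro x ⟨hx, hx'⟩
    obtain ⟨y, hy, _, ⟨z, hz, rfl⟩, e⟩ := mem_sup.1 hx
    refine mem_sup.2 ⟨x - z, ⟨sub_mem hx' (hs hz), ?_⟩, z, hz, by simp⟩
    change ψ (x - z) ∈ N
    rw [map_sub, ← e, add_sub_cancel_right]
    exact hy
  have ht2 : Tor N' (N ⊔ span ℤ (Set.range fun i => φ (u i))) := by
    have := tor_sup (N := N) (M := N ⊔ span ℤ (Set.range fun i => φ (u i)))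
      (G := (Λ'.map ψ : Set V)) le_sup_left (by
        rintro _ ⟨x, hx, rfl⟩
        obtain ⟨a, ha, h1⟩ := ht x hx
        rw [← hc] at h1
        exact ⟨a, ha, by rw [← map_smul]; exact h1.1⟩)
    rwa [span_eq] at this
  obtain ⟨a1, a2, a3, a4⟩ := core hI hι hL le_sup_left hn (u := fun i => φ (u i))
    (fun i => mem_sup_right (mem_map_of_mem (hu i))) hi2 ht2
  obtain ⟨b1, b2, b3, b4⟩ := core hI hι' hΛ' hPl hp hu hi ht
  refine ⟨by omega, ?_⟩
  have h5 := hV E E' _ _ s (fun i => ι (n i)) (fun i => ι (φ (u i))) (fun i => ι' (p i))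
    (fun i => ι' (u i)) (fun _ => γ) a2 b2 (fun _ => hγ) fun i s' hs' => by
      have e : (Set.range fun i => ι' (p i)) ∪ (fun i => ι' (u i)) '' Set.Iio i =
          ι' '' (Set.range p ∪ u '' Set.Iio i) := by
        rw [Set.image_union, ← Set.range_comp, Set.image_image]; rfl
      rw [e, span_image] at hs'
      obtain ⟨x, hx, rfl⟩ := hs'
      refine ⟨ι (φ x), span_map (ι := ι ∘ₗ φ) ?_ hx, ?_⟩
      · rintro _ ⟨_, ⟨j, rfl⟩ | ⟨j, hj, rfl⟩, rfl⟩
        · refine span_map (ι := ι) (S := Set.range n) ?_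
            (spanC_bas hn (subset_span (bas_mem hp j).2))
          rintro _ ⟨_, ⟨j, rfl⟩, rfl⟩
          exact subset_span (Or.inl ⟨j, rfl⟩)
        · exact subset_span (Or.inr ⟨j, hj, rfl⟩)
      · rw [← map_sub, ← map_sub, ← map_sub]
        refine h _ (sub_mem (subset_span (hu i)) (span_mono ?_ hx))
        rintro _ (⟨j, rfl⟩ | ⟨j, -, rfl⟩)
        · exact hPl (bas_mem hp j)
        · exact hu j
  have h6 : (P ⊔ span ℤ (Set.range u)).toAddSubgroup.relIndex Λ'.toAddSubgroup ≤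
      (N ⊔ span ℤ (Set.range fun i => φ (u i))).toAddSubgroup.relIndex N'.toAddSubgroup := by
    have e : (P ⊔ span ℤ (Set.range u)).toAddSubgroup =
        (N ⊔ span ℤ (Set.range fun i => φ (u i))).toAddSubgroup.comap ψ.toAddMonoidHom ⊓
          Λ'.toAddSubgroup := by
      rw [← hc]; rfl
    rw [e, AddSubgroup.inf_relIndex_right, AddSubgroup.relIndex_comap]
    refine AddSubgroup.relIndex_le_of_le_right ?_ a3
    rintro _ ⟨x, hx, rfl⟩
    exact (mem_sup_right (mem_map_of_mem hx) : ψ x ∈ N')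
  have h7 := Real.log_le_log (Nat.cast_pos.2 (Nat.pos_of_ne_zero b3)) (Nat.cast_le.2 h6)
  rw [a4, b4] at h5
  simp only [Finset.sum_const, Finset.card_univ, Fintype.card_fin, nsmul_eq_mul] at h5
  rw [← b1]
  push_cast
  linarith

end Pool.Agent.Lib.MP_12eca1_ag.P
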