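import Pool.Agent.Lib.MP_12eca1_ag.P.Defs

/-!
The gain in the covolume of a quotient lattice when the norm is enlarged, and covolumes of
lattices of integral polynomials.
-/

namespace Pool.Agent.Lib.MP_12eca1_ag.P

open MvPolynomial Filter Module

namespace JM

section

variable {V E : Type} [AddCommGroup V] [Module ℂ V] [NormedAddCommGroup E]
  [InnerProductSpace ℂ E]

theorem lvol_equiv {m n : Type} [Fintype m] [DecidableEq m] [Fintype n] [DecidableEq n]
    (e : m ≃ n) (v : n → E) : lvol (fun i => v (e i)) = lvol v := by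
  have : Matrix.gram ℂ (fun i => v (e i)) = (Matrix.gram ℂ v).submatrix e e := rfl
  rw [lvol, lvol, this, Matrix.det_submatrix_equiv_self]

theorem exists_isBas (N : Submodule ℤ V) (hN : N.FG) :
    ∃ v : Fin (finrank ℤ N) → V, IsBas N v := by
  have : IsAddTorsionFree V := IsAddTorsionFree.of_isTorsionFree ℂ V
  have : Module.Finite ℤ N := Module.Finite.iff_fg.2 hN
  let b := Module.finBasis ℤ N
  refine ⟨fun i => (b i : V), b.linearIndependent.map' N.subtype N.ker_subtype, ?_⟩
  have h := congrArg (Submodule.map N.subtype) b.span_eq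
  rw [Submodule.map_span, Submodule.map_top, Submodule.range_subtype, ← Set.range_comp] at h
  exact h

theorem isLat_le {Λ N : Submodule ℤ V} (h : IsLat Λ) (hN : N ≤ Λ) : IsLat N := by
  have : Module.Finite ℤ Λ := Module.Finite.iff_fg.2 h.1
  refine ⟨?_, fun n v hv => h.2 n v fun i => hN (hv i)⟩
  have h1 : (N.comap Λ.subtype).FG := IsNoetherian.noetherian _
  have h2 := h1.map Λ.subtype
  rwa [Submodule.map_comap_subtype, inf_eq_right.2 hN] at h2

omit [Module ℂ V] in
theorem IsBas.mem {N : Submodule ℤ V} {n : Type} {v : n → V} (h : IsBas N v) (i : n) : v i ∈ N :=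
  h.2 ▸ Submodule.subset_span ⟨i, rfl⟩

theorem IsBas.span {N : Submodule ℤ V} {n : Type} {v : n → V} (h : IsBas N v) :
    Submodule.span ℂ (Set.range v) = Submodule.span ℂ (N : Set V) := by
  rw [← h.2, Submodule.span_span_of_tower]

theorem lvol_bas (hI : StIdx) (ι : V →ₗ[ℂ] E) (hι : Function.Injective ι) {N : Submodule ℤ V}
    (hN : IsLat N) {v : Fin (finrank ℤ N) → V} (h : IsBas N v) :
    lvol (fun i => ι (v i)) = lcov ι N := by
  have := (hI V E _ ι N v hι hN (IsBas.mem h) h.1 (Fintype.card_fin _)).2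
  rwa [h.2, AddSubgroup.relIndex_self, Nat.cast_one, Real.log_one, add_zero] at this

/-- extension of an independent family to a basis of a finite dimensional subspace -/
theorem exists_ext {a : ℕ} {v : Fin a → V} (hv : LinearIndependent ℂ v) (W : Submodule ℂ V)
    [FiniteDimensional ℂ W] (hW : Submodule.span ℂ (Set.range v) ≤ W) :
    ∃ (k : ℕ) (w : Fin k → V), LinearIndependent ℂ (Sum.elim v w) ∧
      Submodule.span ℂ (Set.range (Sum.elim v w)) = W := by
  obtain ⟨C, hC⟩ := Submodule.exists_isCompl (Submodule.span ℂ (Set.range v))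
  have : FiniteDimensional ℂ ↥(C ⊓ W) := Submodule.finiteDimensional_inf_right C W
  let b := Module.finBasis ℂ ↥(C ⊓ W)
  have h : Submodule.span ℂ (Set.range fun i => (b i : V)) = C ⊓ W := by
    have h := congrArg (Submodule.map (C ⊓ W).subtype) b.span_eq
    rw [Submodule.map_span, Submodule.map_top, Submodule.range_subtype, ← Set.range_comp] at h
    exact h
  refine ⟨_, fun i => (b i : V), hv.sum_type
    (b.linearIndependent.map' (C ⊓ W).subtype (C ⊓ W).ker_subtype) ?_, ?_⟩
  · rw [h]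
    exact hC.disjoint.mono_right inf_le_left
  · rw [Set.Sum.elim_range, Submodule.span_union, h, ← sup_inf_assoc_of_le _ hW, hC.sup_eq_top,
      top_inf_eq]

theorem elim_comp {a b : Type} (ι : V →ₗ[ℂ] E) (v : a → V) (w : b → V) :
    (Sum.elim (fun i => ι (v i)) fun i => ι (w i)) = fun i => ι (Sum.elim v w i) := by
  funext i
  cases i <;> rfl

/-- one step of the flag -/
theorem step (hV : StV) {E₁ : Type} [NormedAddCommGroup E₁] [InnerProductSpace ℂ E₁]
    (ι₀ : V →ₗ[ℂ] E) (ι₁ : V →ₗ[ℂ] E₁) (h₀ : Function.Injective ι₀) (h₁ : Function.Injective ι₁)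
    (S : Submodule ℂ V) {a b : ℕ} {v : Fin a → V} {w : Fin b → V}
    (hl : LinearIndependent ℂ (Sum.elim v w)) (hS : Submodule.span ℂ (Set.range (Sum.elim v w)) ≤ S)
    {γ : ℝ} (hγ : 0 < γ)
    (H : ∀ x ∈ S, ∃ y ∈ Submodule.span ℂ (Set.range v), ‖ι₀ (x - y)‖ ≤ γ * ‖ι₁ x‖) :
    lvol (fun i => ι₀ (Sum.elim v w i)) - lvol (fun i => ι₀ (v i)) ≤
      b * Real.log γ + (lvol (fun i => ι₁ (Sum.elim v w i)) - lvol fun i => ι₁ (v i)) := by
  have key := hV E E₁ a a b (fun i => ι₀ (v i)) (fun i => ι₀ (w i)) (fun i => ι₁ (v i))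
    (fun i => ι₁ (w i)) (fun _ => γ)
    (by rw [elim_comp]; exact hl.map' ι₀ (LinearMap.ker_eq_bot.2 h₀))
    (by rw [elim_comp]; exact hl.map' ι₁ (LinearMap.ker_eq_bot.2 h₁)) (fun _ => hγ) ?_
  · rw [elim_comp, elim_comp] at key
    simpa using key
  intro i s' hs'
  have hm : ∀ {E' : Type} [NormedAddCommGroup E'] [InnerProductSpace ℂ E'] (ι : V →ₗ[ℂ] E'),
      Submodule.span ℂ ((Set.range fun i => ι (v i)) ∪ (fun i => ι (w i)) '' Set.Iio i) =
        (Submodule.span ℂ (Set.range v ∪ w '' Set.Iio i)).map ι := fun ι => by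
    rw [Submodule.map_span, Set.image_union, ← Set.range_comp, Set.image_image]
    rfl
  rw [hm] at hs' ⊢
  obtain ⟨x, hx, rfl⟩ := hs'
  have hsub : Submodule.span ℂ (Set.range v ∪ w '' Set.Iio i) ≤ S := by
    refine le_trans (Submodule.span_mono ?_) hS
    rw [Set.Sum.elim_range]
    exact Set.union_subset_union_right _ (Set.image_subset_range _ _)
  obtain ⟨y, hy, h⟩ := H (w i - x)
    (S.sub_mem (hS (Submodule.subset_span ⟨Sum.inr i, rfl⟩)) (hsub hx))
  refine ⟨ι₀ (x + y), ⟨x + y, Submodule.add_mem _ hx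
    (Submodule.span_mono Set.subset_union_left hy), rfl⟩, ?_⟩
  rw [← map_sub, ← map_sub, ← sub_sub]
  exact h

/-- two bases of the same space differ by an invertible matrix -/
theorem exists_mat {n : Type} [Fintype n] [DecidableEq n] {f b : n → V}
    (hf : LinearIndependent ℂ f) (h : ∀ i, f i ∈ Submodule.span ℂ (Set.range b)) :
    ∃ A : Matrix n n ℂ, A.det ≠ 0 ∧ ∀ i, f i = ∑ j, A i j • b j := by
  choose A hA using fun i => (Submodule.mem_span_range_iff_exists_fun ℂ).1 (h i)
  refine ⟨Matrix.of A, fun h0 => ?_, fun i => (hA i).symm⟩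
  obtain ⟨c, hc, e⟩ := Matrix.exists_vecMul_eq_zero_iff.2 h0
  refine hc (funext (Fintype.linearIndependent_iff.1 hf c ?_))
  simp only [← hA, Finset.smul_sum, smul_smul]
  rw [Finset.sum_comm]
  refine Finset.sum_eq_zero fun j _ => ?_
  have := congrFun e j
  simp only [Matrix.vecMul, dotProduct, Matrix.of_apply, Pi.zero_apply] at this
  rw [← Finset.sum_smul, this, zero_smul]

end

theorem inner_l2 {σ : Type} (P Q : MvPolynomial σ ℤ) :
    inner ℂ (l2 σ (toC P)) (l2 σ (toC Q)) = ((∑ m ∈ P.support, coeff m P * coeff m Q : ℤ) : ℂ) := by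
  have h : ∀ (R : MvPolynomial σ ℤ) m, (l2 σ (toC R)) m = ((coeff m R : ℤ) : ℂ) := fun R m =>
    coeff_map _ _ _
  rw [lp.inner_eq_tsum, tsum_eq_sum (s := P.support)]
  · simp [h, mul_comm]
  · intro m hm
    rw [h, notMem_support_iff.1 hm]
    simp

end JM

open JM in
theorem stM (hV : StV) (hC : StChg) (hI : StIdx) : StM := by
  intro V E₀ E₁ n _ _ _ _ _ _ _ ι₀ ι₁ Λ N Y u lam h₀ h₁ hΛ hN hY hlam hn hy hu hind
  classical
  have hN' := isLat_le hΛ hN
  obtain ⟨b, hb⟩ := exists_isBas Λ hΛ.1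
  obtain ⟨v, hv⟩ := exists_isBas N hN'.1
  have lb := hΛ.2 _ b (IsBas.mem hb) hb.1
  have lv := hN'.2 _ v (IsBas.mem hv) hv.1
  set S := Submodule.span ℂ (Λ : Set V) with hS
  have eS : Submodule.span ℂ (Set.range b) = S := IsBas.span hb
  have : FiniteDimensional ℂ S := eS ▸ FiniteDimensional.span_of_finite ℂ (Set.finite_range b)
  have hW : Y ⊔ Submodule.span ℂ (N : Set V) ≤ S := sup_le hY (Submodule.span_mono hN)
  have : FiniteDimensional ℂ ↥(Y ⊔ Submodule.span ℂ (N : Set V)) :=
    Submodule.finiteDimensional_of_le hW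
  obtain ⟨p, y, l1, s1⟩ := exists_ext lv (Y ⊔ Submodule.span ℂ (N : Set V))
    (IsBas.span hv ▸ le_sup_right)
  let v1 : Fin (finrank ℤ N + p) → V := fun i => Sum.elim v y (finSumFinEquiv.symm i)
  have l1' : LinearIndependent ℂ v1 := l1.comp _ finSumFinEquiv.symm.injective
  have s1' : Submodule.span ℂ (Set.range v1) = Y ⊔ Submodule.span ℂ (N : Set V) := by
    rw [← s1]
    exact congrArg _ (finSumFinEquiv.symm.surjective.range_comp (Sum.elim v y))
  obtain ⟨q, w, l2, s2⟩ := exists_ext l1' S (s1' ▸ hW)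
  have hl0 : 0 < lam := by linarith
  have k1 := step hV ι₀ ι₁ h₀ h₁ S l1 (s1 ▸ hW) one_pos fun x hx =>
    ⟨0, Submodule.zero_mem _, by rw [sub_zero, one_mul]; exact hn x hx⟩
  have k2 := step hV ι₀ ι₁ h₀ h₁ S l2 s2.le (inv_pos.2 hl0) fun x hx => by
    obtain ⟨z, hz, h⟩ := hy x hx
    exact ⟨z, s1' ▸ Submodule.mem_sup_left hz, (le_inv_mul_iff₀ hl0).2 h⟩
  have e0 := lvol_equiv finSumFinEquiv.symm fun i => ι₀ (Sum.elim v y i)
  have e1 := lvol_equiv finSumFinEquiv.symm fun i => ι₁ (Sum.elim v y i)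
  have hcard : Fintype.card (Fin (finrank ℤ N + p) ⊕ Fin q) = Fintype.card (Fin (finrank ℤ Λ)) := by
    rw [← finrank_span_eq_card l2, ← finrank_span_eq_card lb, s2, eS]
  let e := Fintype.equivOfCardEq hcard
  obtain ⟨A, hA, hf⟩ := exists_mat (b := fun i => b (e i)) l2 fun i => by
    rw [show (Set.range fun i => b (e i)) = Set.range b from e.surjective.range_comp b, eS, ← s2]
    exact Submodule.subset_span ⟨i, rfl⟩
  have chg : ∀ {E : Type} [NormedAddCommGroup E] [InnerProductSpace ℂ E] (ι : V →ₗ[ℂ] E),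
      Function.Injective ι →
      lvol (fun i => ι (Sum.elim v1 w i)) = Real.log ‖A.det‖ + lcov ι Λ := fun ι hι => by
    have h1 := hC _ _ (fun i => ι (b (e i))) A
      ((lb.comp _ e.injective).map' ι (LinearMap.ker_eq_bot.2 hι)) hA
    rw [lvol_equiv e fun i => ι (b i), lvol_bas hI ι hι hΛ hb] at h1
    rw [← h1]
    congr 1
    funext i
    rw [hf i, map_sum]
    simp only [map_smul]
  have hq : Fintype.card n ≤ q := by
    let π := (Y ⊔ Submodule.span ℂ (N : Set V)).mkQ
    have li : LinearIndependent ℂ fun i => π (u i) := by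
      rw [Fintype.linearIndependent_iff]
      intro c hc
      refine congrFun (hind c ?_)
      rw [← Submodule.Quotient.mk_eq_zero, ← Submodule.mkQ_apply, map_sum]
      simpa only [map_smul] using hc
    have h1 := linearIndependent_le_span_aux' _ li (Set.range fun i => π (w i)) (by
      rintro _ ⟨i, rfl⟩
      have h2 : π (u i) ∈ S.map π := ⟨_, hu i, rfl⟩
      rw [← s2, Submodule.map_span] at h2
      refine Submodule.span_le.2 ?_ h2
      rintro _ ⟨_, ⟨j | j, rfl⟩, rfl⟩
      · have : π (v1 j) = 0 :=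
          (Submodule.Quotient.mk_eq_zero _).2 (s1' ▸ Submodule.subset_span ⟨j, rfl⟩)
        rw [Sum.elim_inl, this]
        exact Submodule.zero_mem _
      · exact Submodule.subset_span ⟨j, rfl⟩)
    exact h1.trans ((Fintype.card_range_le _).trans_eq (Fintype.card_fin q))
  have hq' : (Fintype.card n : ℝ) * Real.log lam ≤ q * Real.log lam :=
    mul_le_mul_of_nonneg_right (by exact_mod_cast hq) (Real.log_nonneg hlam)
  rw [chg ι₀ h₀, chg ι₁ h₁, Real.log_inv] at k2
  rw [lvol_bas hI ι₀ h₀ hN' hv, lvol_bas hI ι₁ h₁ hN' hv, Real.log_one, ← e0, ← e1] at k1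
  change lvol (fun i => ι₀ (v1 i)) - _ ≤ _ + (lvol (fun i => ι₁ (v1 i)) - _) at k1
  linarith

open JM in
theorem stZ : StZ := by
  intro σ N _ hN
  rw [lcov]
  split_ifs with h
  · choose Q hQ using fun i => hN _ (IsBas.mem h.choose_spec i)
    have e : Matrix.gram ℂ (fun i => l2 σ (h.choose i)) = (Int.castRingHom ℂ).mapMatrix
        (Matrix.of fun i j => ∑ m ∈ (Q i).support, coeff m (Q i) * coeff m (Q j)) := by
      ext i j
      rw [Matrix.gram_apply, hQ i, hQ j, inner_l2]
      rfl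
    rw [lvol, e, ← RingHom.map_det, eq_intCast, Complex.norm_intCast, Real.log_abs]
    exact div_nonneg (Real.log_intCast_nonneg _) two_pos.le
  · exact le_rfl

end Pool.Agent.Lib.MP_12eca1_ag.P
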