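import Pool.Agent.Lib.MP_12eca1_ag.P.Basic

/-!
Few small linear forms at every large scale.
-/

namespace Pool.Agent.Lib.MP_12eca1_ag.P

open MvPolynomial Filter Module Topology

namespace JM1

variable {n : ℕ}

/-- the integral linear form with coefficients `z` -/
noncomputable def L (z : Fin n → ℂ) : (Fin n → ℤ) →ₗ[ℤ] ℂ := Fintype.linearCombination ℤ z

lemma L_apply (z : Fin n → ℂ) (k : Fin n → ℤ) : L z k = ∑ i, (k i : ℂ) * z i := by
  simp [L, Fintype.linearCombination_apply]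

lemma int_pt {a : EuclideanSpace ℝ (Fin n)} (ha : a ∈ ZL n) :
    ∃ k : Fin n → ℤ, (a ≠ 0 → k ≠ 0) ∧ (∀ i, |(k i : ℝ)| ≤ ‖a‖) ∧ ∀ z, zt z a = L z k := by
  choose k hk using ha
  refine ⟨k, fun h e => h (by ext i; simp [hk, e]), fun i => ?_, fun z => ?_⟩
  · rw [← hk]; exact PiLp.norm_apply_le a i
  · rw [L_apply]
    change ∑ i, (a i : ℂ) * z i = _
    exact Finset.sum_congr rfl fun i _ => by rw [hk]; simp

lemma eq_zero_of_exp {w : ℂ} (h : Complex.exp w = 1) (h2 : ‖w‖ ≤ 2) : w = 0 := by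
  obtain ⟨m, rfl⟩ := Complex.exp_eq_one_iff.1 h
  have h3 : |(m : ℝ)| * (2 * Real.pi) ≤ 2 := by simpa [abs_of_pos Real.pi_pos] using h2
  have h4 : |(m : ℝ)| < 1 := by nlinarith [Real.pi_gt_three, abs_nonneg (m : ℝ)]
  have h5 : |m| < 1 := by exact_mod_cast h4
  rw [Int.abs_lt_one_iff.1 h5]; simp

lemma sep {z : Fin n → ℂ} (hz : LinearIndependent ℚ z) (μ : ℝ) :
    ∃ ε > 0, ∀ z' : Fin n → ℂ, (∀ i, ‖z' i - z i‖ ≤ ε) → ∀ k : Fin n → ℤ, k ≠ 0 →
      ((∀ i, |(k i : ℝ)| ≤ μ) ∨ Complex.exp (L z k) = 1) → L z' k ≠ 0 := by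
  have inj : ∀ k, L z k = 0 → k = 0 := fun k h =>
    funext (Fintype.linearIndependent_iff.1 (hz.restrict_scalars' ℤ) k (by simpa [L_apply] using h))
  have ev : ∀ k, ∀ᶠ z' in 𝓝 z, k ≠ 0 → L z' k ≠ 0 := fun k => by
    by_cases hk : k = 0
    · exact Eventually.of_forall fun _ h => absurd hk h
    have c : Continuous fun z' : Fin n → ℂ => L z' k := by
      simp only [L_apply]; fun_prop
    exact (c.continuousAt.eventually_ne fun h => hk (inj k h)).mono fun _ h _ => h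
  have h1 := (Filter.eventually_all_finite (Set.finite_Icc (fun _ : Fin n => -⌈μ⌉)
    fun _ => ⌈μ⌉)).2 fun k _ => ev k
  have h2 : ∀ᶠ z' in 𝓝 z, ∀ k, k ≠ 0 → Complex.exp (L z k) = 1 → L z' k ≠ 0 := by
    by_cases h : ∃ k, k ≠ 0 ∧ Complex.exp (L z k) = 1
    · obtain ⟨k1, a1, a2⟩ := h
      obtain ⟨m1, b1⟩ := Complex.exp_eq_one_iff.1 a2
      filter_upwards [ev k1] with z' h3 k hk h4 h5
      obtain ⟨m, b⟩ := Complex.exp_eq_one_iff.1 h4
      have m0 : m ≠ 0 := by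
        rintro rfl
        exact hk (inj k (by simpa using b))
      have e := inj (m1 • k - m • k1) (by rw [map_sub, map_zsmul, map_zsmul, b, b1]; simp; ring)
      have e2 := congrArg (L z') e
      rw [map_sub, map_zsmul, map_zsmul, h5, map_zero] at e2
      exact h3 a1 (by simpa [m0] using e2)
    · exact Eventually.of_forall fun _ k a1 a2 => absurd ⟨k, a1, a2⟩ h
  obtain ⟨ε, hε, h3⟩ := Metric.eventually_nhds_iff.1 (h1.and h2)
  refine ⟨ε / 2, half_pos hε, fun z' hz' k hk h => ?_⟩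
  have h4 := h3 (y := z') (((dist_pi_le_iff (half_pos hε).le).2 fun i => by
    rw [dist_eq_norm]; exact hz' i).trans_lt (half_lt_self hε))
  rcases h with h | h
  · have h5 : ∀ i, |k i| ≤ ⌈μ⌉ := fun i => by exact_mod_cast (h i).trans (Int.le_ceil μ)
    exact h4.1 k ⟨fun i => (abs_le.1 (h5 i)).1, fun i => (abs_le.1 (h5 i)).2⟩ hk
  · exact h4.2 k hk h

lemma logs (z : Fin n → ℂ) : ∃ c > 0, ∀ ε : ℝ, c * ε ≤ 1 → ∀ θ : Fin n ⊕ Fin n → ℂ,
    (∀ i, ‖θ i - ex2 z i‖ ≤ ε) → (∀ i, θ (.inl i) * θ (.inr i) = 1) →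
    ∃ z' : Fin n → ℂ, ex2 z' = θ ∧ ∀ i, ‖z' i - z i‖ ≤ c * ε := by
  set B := 1 + ∑ i, ‖Complex.exp (-z i)‖ with hB
  have b0 : 0 ≤ ∑ i, ‖Complex.exp (-z i)‖ := Finset.sum_nonneg fun _ _ => norm_nonneg _
  refine ⟨2 * B, by linarith, fun ε h1 θ h2 h3 => ?_⟩
  set w : Fin n → ℂ := fun i => (θ (.inl i) - Complex.exp (z i)) * Complex.exp (-z i) with hw
  have w1 : ∀ i, ‖w i‖ ≤ B * ε := fun i => by
    have := Finset.single_le_sum (f := fun i => ‖Complex.exp (-z i)‖) (fun _ _ => norm_nonneg _)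
      (Finset.mem_univ i)
    rw [hw, norm_mul, mul_comm]
    exact mul_le_mul (by linarith) (h2 (.inl i)) (norm_nonneg _) (by linarith)
  have w2 : ∀ i, ‖w i‖ ≤ 1 / 2 := fun i => by linarith [w1 i]
  have w3 : ∀ i, Complex.exp (z i + Complex.log (1 + w i)) = θ (.inl i) := fun i => by
    rw [Complex.exp_add, Complex.exp_log fun h => by
      have := w2 i
      rw [eq_neg_of_add_eq_zero_right h] at this
      norm_num at this]
    simp only [hw, Complex.exp_neg]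
    field_simp
    ring
  refine ⟨fun i => z i + Complex.log (1 + w i), funext fun i => ?_, fun i => ?_⟩
  · rcases i with i | i
    · exact w3 i
    · simp only [ex2, Sum.elim_inr]
      rw [Complex.exp_neg, w3, eq_inv_of_mul_eq_one_right (h3 i)]
  · rw [add_sub_cancel_left]
    linarith [Complex.norm_log_one_add_half_le_self (w2 i), w1 i, norm_nonneg (w i)]

/-- the monomial attached to a character -/
noncomputable def mon (k : Fin n → ℤ) : MvPolynomial (Fin n ⊕ Fin n) ℤ :=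
  ∏ i, X (.inl i) ^ (k i).toNat * X (.inr i) ^ (-k i).toNat

lemma aeval_mon (z : Fin n → ℂ) (k : Fin n → ℤ) :
    aeval (ex2 z) (mon k) = Complex.exp (L z k) := by
  rw [L_apply, Complex.exp_sum, mon, map_prod]
  refine Finset.prod_congr rfl fun i _ => ?_
  have h : (k i : ℂ) = ((k i).toNat : ℂ) - ((-k i).toNat : ℂ) := by
    exact_mod_cast (Int.toNat_sub_toNat_neg (k i)).symm
  rw [h]
  simp only [map_mul, map_pow, aeval_X, ex2, Sum.elim_inl, Sum.elim_inr]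
  rw [← Complex.exp_nat_mul, ← Complex.exp_nat_mul, ← Complex.exp_add]
  congr 1
  ring

lemma deg_mon {k : Fin n → ℤ} {q : ℕ} (h : ∀ i, |k i| ≤ q) : (mon k - 1).totalDegree ≤ n * q := by
  refine (totalDegree_sub_C_le _ 1).trans ((totalDegree_finsetProd _ _).trans ?_)
  refine (Finset.sum_le_card_nsmul _ _ q fun i _ => ?_).trans (by simp)
  refine (totalDegree_mul _ _).trans ?_
  rw [totalDegree_X_pow, totalDegree_X_pow]
  have := abs_le.1 (h i)
  omega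

lemma l1_mon (k : Fin n → ℤ) : l1 (mon k - 1) ≤ Real.exp 1 := by
  have h : l1 (mon k) ≤ ∏ _i : Fin n, (1 : ℝ) := l1_prod_le _ _ _ fun i _ => by
    simpa using l1_mul_le_of_le (l1_pow_le (l1_X (K := ℤ) (Sum.inl i : Fin n ⊕ Fin n)).le (k i).toNat)
      (l1_pow_le (l1_X (Sum.inr i)).le (-k i).toNat)
  have h2 := l1_sub_le (mon k) 1
  rw [Finset.prod_const_one] at h
  rw [l1_one] at h2
  linarith [Real.add_one_le_exp 1]

lemma rank_le {r : ℕ} (hr : r < n) {z : Fin n → ℂ} {M : Fin (n - r) → Fin n → ℤ}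
    (h1 : LinearIndependent ℤ M) (h2 : ∀ k, L z (M k) = 0) :
    finrank ℤ (LinearMap.range (L z)) ≤ r := by
  have h3 := Submodule.finrank_quotient_add_finrank (LinearMap.ker (L z))
  rw [(L z).quotKerEquivRange.finrank_eq, finrank_fin_fun] at h3
  have h4 := (LinearIndependent.of_comp (LinearMap.ker (L z)).subtype
    (v := fun k => (⟨M k, h2 k⟩ : LinearMap.ker (L z))) h1).fintype_card_le_finrank
  rw [Fintype.card_fin] at h4
  omega

lemma norm_zt (z : Fin n → ℂ) {z' : Fin n → ℂ} (h : ∀ i, ‖z' i - z i‖ ≤ 1)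
    (v : EuclideanSpace ℝ (Fin n)) : ‖zt z' v‖ ≤ (1 + ∑ i, (‖z i‖ + 1)) * ‖v‖ := by
  change ‖∑ i, (v i : ℂ) * z' i‖ ≤ _
  refine (norm_sum_le _ _).trans ?_
  rw [add_mul, Finset.sum_mul, one_mul]
  refine le_add_of_nonneg_of_le (norm_nonneg _) (Finset.sum_le_sum fun i _ => ?_)
  rw [norm_mul, Complex.norm_real, mul_comm]
  exact mul_le_mul (by linarith [norm_sub_norm_le (z' i) (z i), h i]) (PiLp.norm_apply_le v i)
    (norm_nonneg _) (by positivity)

lemma norm_L_sub {z z' : Fin n → ℂ} {k : Fin n → ℤ} {q : ℕ} {ε : ℝ} (h : ∀ i, |k i| ≤ q)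
    (h2 : ∀ i, ‖z' i - z i‖ ≤ ε) : ‖L z' k‖ ≤ ‖L z k‖ + n * (q * ε) := by
  have e : L z' k = L z k + ∑ i, (k i : ℂ) * (z' i - z i) := by
    simp only [L_apply, mul_sub, Finset.sum_sub_distrib]; ring
  rw [e]
  refine (norm_add_le _ _).trans (add_le_add_right ((norm_sum_le _ _).trans ?_) _)
  refine (Finset.sum_le_card_nsmul _ _ (q * ε) fun i _ => ?_).trans (by simp)
  rw [norm_mul, Complex.norm_intCast]
  exact mul_le_mul (by exact_mod_cast h i) (h2 i) (norm_nonneg _) (by positivity)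

lemma adjoin_ex2 (z : Fin n → ℂ) : IntermediateField.adjoin ℚ (Set.range (ex2 z)) =
    IntermediateField.adjoin ℚ (Set.range fun i => Complex.exp (z i)) := by
  refine le_antisymm (IntermediateField.adjoin_le_iff.2 ?_) (IntermediateField.adjoin.mono _ _ _ ?_)
  · rintro _ ⟨i | i, rfl⟩
    · exact IntermediateField.subset_adjoin _ _ ⟨i, rfl⟩
    · simp only [ex2, Sum.elim_inr, Complex.exp_neg]
      exact inv_mem (IntermediateField.subset_adjoin _ _ ⟨i, rfl⟩)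
  · rintro _ ⟨i, rfl⟩
    exact ⟨.inl i, rfl⟩

lemma num {C : ℝ} (hC : 0 < C) {T' T q : ℕ} (hT : T' ≤ T) (hn : 1 ≤ n) (hq : 1 ≤ q)
    (h : C * n ^ T * (n + 2) + 1 ≤ q) :
    C * ((n * q : ℕ) : ℝ) ^ T' * (1 + q + (n * q : ℕ)) ≤ (q : ℝ) ^ (T + 2) - 1 := by
  have n1 : (1 : ℝ) ≤ n := by exact_mod_cast hn
  have q1 : (1 : ℝ) ≤ q := by exact_mod_cast hq
  have h1 : ((n : ℝ) * q) ^ T' ≤ (n * q) ^ T := pow_le_pow_right₀ (by nlinarith) hT
  have h2 : (1 : ℝ) ≤ q ^ (T + 1) := one_le_pow₀ q1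
  push_cast
  calc C * ((n : ℝ) * q) ^ T' * (1 + q + n * q) ≤ C * (n * q) ^ T * ((n + 2) * q) := by
        gcongr; linarith
    _ = (C * n ^ T * (n + 2) + 1) * q ^ (T + 1) - q ^ (T + 1) := by ring
    _ ≤ q * q ^ (T + 1) - 1 := by gcongr
    _ = _ := by ring

end JM1

open JM1 in
theorem stM1 (hTB : StTB) (hB : StB) (hH : StH) (hIn : StIn) : StM1 := by
  intro T r n z hr hT hz htr
  obtain ⟨T', hT', tb⟩ := hTB _ (ex2 z) T (by
    have : ∀ K : IntermediateField ℚ ℂ, K = _ → Algebra.trdeg ℚ K ≤ T := fun K h => h ▸ htr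
    exact this _ (adjoin_ex2 z))
  obtain ⟨thin, nrm, A, _, _, _, g, α, β, g1, g2⟩ := hIn n T' z tb
  have Z1 : (1 : ℝ) ≤ 1 + ∑ i, (‖z i‖ + 1) :=
    le_add_of_nonneg_right (Finset.sum_nonneg fun _ _ => by positivity)
  obtain ⟨μ, hμ⟩ := hH n r T _ α β hr hT Z1
  obtain ⟨C, hC, hb⟩ := hB _ (ex2 z) T' tb
  obtain ⟨ε, hε, hs⟩ := sep hz μ
  obtain ⟨c, hc, hl⟩ := logs z
  have hn : 1 ≤ n := by omega
  have n1 : (1 : ℝ) ≤ n := by exact_mod_cast hn
  have lim : Tendsto (fun q : ℕ => n * c * ((q : ℝ) ^ 1 * Real.exp (-q))) atTop (𝓝 (n * c * 0)) :=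
    ((Real.tendsto_pow_mul_exp_neg_atTop_nhds_zero 1).comp tendsto_natCast_atTop_atTop).const_mul _
  rw [mul_zero] at lim
  filter_upwards [eventually_ge_atTop 1, lim.eventually (ge_mem_nhds (lt_min one_pos hε)),
    tendsto_natCast_atTop_atTop.eventually_ge_atTop (C * n ^ T * (n + 2) + 1)] with q hq h1 h2
  rintro ⟨M, m1, m2⟩
  have q1 : (1 : ℝ) ≤ q := by exact_mod_cast hq
  have e0 := Real.exp_pos (-q)
  have h3 : n * (q * (c * Real.exp (-q))) ≤ min 1 ε := le_trans (le_of_eq (by ring)) h1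
  have h4 : c * Real.exp (-q) ≤ min 1 ε :=
    ((le_mul_of_one_le_left (by positivity) q1).trans
      (le_mul_of_one_le_left (by positivity) n1)).trans h3
  have p1 : (1 : ℝ) ≤ q ^ (T + 2) := one_le_pow₀ q1
  have s1 : ∀ k, ‖L z (M k)‖ ≤ Real.exp (-(q : ℝ) ^ (T + 2)) := fun k => L_apply z _ ▸ (m2 k).2
  have s2 : ∀ k, ‖L z (M k)‖ ≤ 1 := fun k => (s1 k).trans (Real.exp_le_one_iff.2 (by linarith))
  obtain ⟨θ, t1, t2, t3⟩ := hb (n * q) 1 q _ (Set.range fun k => mon (M k) - 1)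
    (Nat.mul_pos hn hq) zero_le_one (by linarith) (num hC hT' hn hq h2) (by
      rintro _ ⟨k, rfl⟩
      refine ⟨deg_mon (m2 k).1, l1_mon _, ?_⟩
      rw [map_sub, map_one, aeval_mon, neg_sub, sub_eq_add_neg (1 : ℝ), Real.exp_add]
      exact (Complex.norm_exp_sub_one_le (s2 k)).trans (mul_le_mul
        (by linarith [Real.add_one_le_exp 1]) (s1 k) (norm_nonneg _) (Real.exp_pos _).le))
  obtain ⟨z', rfl, hz'⟩ := hl _ (h4.trans (min_le_left _ _)) θ t1 fun i => by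
    have := t3 (X (.inl i) * X (.inr i) - 1) (by simp [ex2, ← Complex.exp_add])
    simpa [sub_eq_zero] using this
  have k0 : ∀ k, L z' (M k) = 0 := fun k => eq_zero_of_exp (by
    have := t2 _ ⟨k, rfl⟩
    rwa [map_sub, map_one, aeval_mon, sub_eq_zero] at this)
    (by linarith [norm_L_sub (m2 k).1 hz', s2 k, min_le_left 1 ε])
  obtain ⟨ev, st⟩ := g2 z' (LinearMap.range (L z')) (fun a ha => by
    obtain ⟨k, -, -, h⟩ := int_pt ha
    exact ⟨k, (h z').symm⟩) t3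
  obtain ⟨a, ha, a0, a1, a2⟩ := hμ _ A _ _ _ g ev T' hT' (Submodule.fg_range _) (rank_le hr m1 k0)
    (norm_zt z fun i => (hz' i).trans (h4.trans (min_le_left _ _))) st thin
    fun a ha _ h => Real.exp_zero ▸ nrm a ha h
  obtain ⟨k, k1, k2, k3⟩ := int_pt ha
  exact hs z' (fun i => (hz' i).trans (h4.trans (min_le_right _ _))) k (k1 a0)
    (a2.imp (fun h i => (k2 i).trans h) fun h => k3 z ▸ g1 a ha h) (k3 z' ▸ a1)

end Pool.Agent.Lib.MP_12eca1_ag.P
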