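import Pool.Agent.Lib.MP_12eca1_ag.P.Defs

/-!
Estimates for forms near a point: without a zero near the point the twisted arithmetic Hilbert
function is not very negative.
-/

namespace Pool.Agent.Lib.MP_12eca1_ag.P

open MvPolynomial Filter Module

namespace JN

/-! ### The sum of the absolute values of the coefficients -/

section L1

variable {σ τ : Type*}

lemma l1_nonneg (P : MvPolynomial σ ℂ) : 0 ≤ l1 P := Finset.sum_nonneg fun _ _ => norm_nonneg _

lemma l1_eq (P : MvPolynomial σ ℂ) {S : Finset (σ →₀ ℕ)} (h : P.support ⊆ S) :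
    l1 P = ∑ m ∈ S, ‖coeff m P‖ :=
  Finset.sum_subset h fun m _ hm => by rw [notMem_support_iff.1 hm, norm_zero]

lemma l1_zero : l1 (0 : MvPolynomial σ ℂ) = 0 := by simp [l1]

lemma l1_add_le (P Q : MvPolynomial σ ℂ) : l1 (P + Q) ≤ l1 P + l1 Q := by
  classical
  rw [l1_eq (P + Q) support_add, l1_eq P Finset.subset_union_left,
    l1_eq Q Finset.subset_union_right, ← Finset.sum_add_distrib]
  exact Finset.sum_le_sum fun m _ => by rw [coeff_add]; exact norm_add_le _ _

lemma l1_smul (c : ℂ) (P : MvPolynomial σ ℂ) : l1 (c • P) = ‖c‖ * l1 P := by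
  rw [l1_eq (c • P) support_smul, l1, Finset.mul_sum]
  exact Finset.sum_congr rfl fun m _ => by rw [coeff_smul, norm_smul]

lemma l1_C_mul (c : ℂ) (P : MvPolynomial σ ℂ) : l1 (C c * P) = ‖c‖ * l1 P := by
  rw [C_mul', l1_smul]

lemma l1_sub_le (P Q : MvPolynomial σ ℂ) : l1 (P - Q) ≤ l1 P + l1 Q := by
  have := l1_add_le P ((-1 : ℂ) • Q)
  rwa [l1_smul, norm_neg, norm_one, one_mul, neg_one_smul, ← sub_eq_add_neg] at this

lemma l1_sum_le {ι : Type*} (s : Finset ι) (P : ι → MvPolynomial σ ℂ) :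
    l1 (∑ i ∈ s, P i) ≤ ∑ i ∈ s, l1 (P i) :=
  Finset.le_sum_of_subadditive l1 l1_zero.le l1_add_le s P

lemma l1_monomial (m : σ →₀ ℕ) (c : ℂ) : l1 (monomial m c) = ‖c‖ := by
  classical
  rw [l1_eq _ support_monomial_subset, Finset.sum_singleton, coeff_monomial, if_pos rfl]

lemma l1_one : l1 (1 : MvPolynomial σ ℂ) = 1 := by
  rw [one_def, l1_monomial, norm_one]

lemma l1_X (i : σ) : l1 (X i : MvPolynomial σ ℂ) = 1 := by
  rw [X, l1_monomial, norm_one]

lemma l1_C (c : ℂ) : l1 (C c : MvPolynomial σ ℂ) = ‖c‖ := by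
  rw [C_apply, l1_monomial]

lemma l1_mul_le (P Q : MvPolynomial σ ℂ) : l1 (P * Q) ≤ l1 P * l1 Q := by
  conv_lhs => rw [P.as_sum, Q.as_sum, Finset.sum_mul_sum]
  refine (l1_sum_le _ _).trans ?_
  rw [l1, l1, Finset.sum_mul_sum]
  refine Finset.sum_le_sum fun m _ => (l1_sum_le _ _).trans (Finset.sum_le_sum fun n _ => ?_)
  rw [monomial_mul, l1_monomial, norm_mul]

lemma l1_pow_le {P : MvPolynomial σ ℂ} {b : ℝ} (h : l1 P ≤ b) (n : ℕ) : l1 (P ^ n) ≤ b ^ n := by
  induction n with
  | zero => rw [pow_zero, pow_zero, l1_one]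
  | succ n ih =>
    rw [pow_succ, pow_succ]
    exact (l1_mul_le _ _).trans (mul_le_mul ih h (l1_nonneg _) ((l1_nonneg _).trans ih))

lemma l1_prod_le {ι : Type*} (s : Finset ι) {P : ι → MvPolynomial σ ℂ} {b : ι → ℝ}
    (h : ∀ i, l1 (P i) ≤ b i) : l1 (∏ i ∈ s, P i) ≤ ∏ i ∈ s, b i := by
  classical
  induction s using Finset.induction_on with
  | empty => rw [Finset.prod_empty, Finset.prod_empty, l1_one]
  | insert a s ha ih =>
    rw [Finset.prod_insert ha, Finset.prod_insert ha]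
    exact (l1_mul_le _ _).trans (mul_le_mul (h a) ih (l1_nonneg _) ((l1_nonneg _).trans (h a)))

lemma l1_aeval_monomial [Fintype σ] {f : σ → MvPolynomial τ ℂ} {b : σ → ℝ}
    (h : ∀ i, l1 (f i) ≤ b i) (m : σ →₀ ℕ) : l1 (aeval f (monomial m (1 : ℂ))) ≤ ∏ i, b i ^ m i := by
  rw [aeval_monomial, map_one, one_mul, Finsupp.prod_fintype _ _ fun i => pow_zero _]
  exact l1_prod_le _ fun i => l1_pow_le (h i) _

lemma eq_sum (P : MvPolynomial σ ℂ) : P = ∑ m ∈ P.support, coeff m P • monomial m (1 : ℂ) := by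
  conv_lhs => rw [P.as_sum]
  exact Finset.sum_congr rfl fun m _ => by rw [smul_monomial, smul_eq_mul, mul_one]

lemma degree_eq {R : Type*} [CommSemiring R] {P : MvPolynomial σ R} {n : ℕ} (hP : P.IsHomogeneous n)
    {m : σ →₀ ℕ} (hm : m ∈ P.support) : m.degree = n := by
  by_contra h
  exact mem_support_iff.1 hm (hP.coeff_eq_zero h)

lemma l1_aeval_le [Fintype σ] {f : σ → MvPolynomial τ ℂ} {b : ℝ} (h : ∀ i, l1 (f i) ≤ b)
    {P : MvPolynomial σ ℂ} {n : ℕ} (hP : P.IsHomogeneous n) : l1 (aeval f P) ≤ l1 P * b ^ n := by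
  conv_lhs => rw [eq_sum P, map_sum]
  refine (l1_sum_le _ _).trans ?_
  rw [l1, Finset.sum_mul]
  refine Finset.sum_le_sum fun m hm => ?_
  rw [map_smul, l1_smul]
  refine mul_le_mul_of_nonneg_left ((l1_aeval_monomial h m).trans_eq ?_) (norm_nonneg _)
  rw [Finset.prod_pow_eq_pow_sum, ← Finsupp.degree_eq_sum, degree_eq hP hm]

lemma l1_comp_le (n : ℕ) (P : MvPolynomial σ ℂ) : l1 (homogeneousComponent n P) ≤ l1 P := by
  rw [l1_eq _ (S := P.support) (by rw [support_homogeneousComponent]; exact Finset.filter_subset _ _),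
    l1]
  refine Finset.sum_le_sum fun m _ => ?_
  rw [coeff_homogeneousComponent]
  split_ifs <;> simp

lemma comp_aeval {f : σ → MvPolynomial τ ℂ} (h : ∀ i, (f i).IsHomogeneous 1) (n : ℕ)
    (P : MvPolynomial σ ℂ) :
    homogeneousComponent n (aeval f P) = aeval f (homogeneousComponent n P) := by
  induction P using MvPolynomial.induction_on' with
  | monomial m c =>
    have h1 : (monomial m c).IsHomogeneous m.degree := isHomogeneous_monomial c rfl
    have h2 := h1.aeval f h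
    rw [one_mul] at h2
    rw [homogeneousComponent_of_mem h1, homogeneousComponent_of_mem h2]
    split_ifs <;> simp
  | add p q hp hq => simp only [map_add, hp, hq]

lemma aeval_smul {P : MvPolynomial σ ℤ} {n : ℕ} (hP : P.IsHomogeneous n) (t : ℂ) (z : σ → ℂ) :
    aeval (fun i => t * z i) P = t ^ n * aeval z P := by
  rw [aeval_def, aeval_def, eval₂_eq, eval₂_eq, Finset.mul_sum]
  refine Finset.sum_congr rfl fun m hm => ?_
  simp only [mul_pow, Finset.prod_mul_distrib, Finset.prod_pow_eq_pow_sum]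
  rw [← hP.degree_eq_sum_deg_support hm]
  ring

end L1

lemma norm_l2_le {σ : Type} (P : MvPolynomial σ ℂ) : ‖l2 σ P‖ ≤ l1 P := by
  classical
  conv_lhs => rw [P.as_sum, map_sum]
  refine (norm_sum_le _ _).trans (Finset.sum_le_sum fun m _ => le_of_eq ?_)
  have : l2 σ (monomial m (coeff m P)) = lp.single 2 m (coeff m P) := by
    ext n
    change coeff n (monomial m (coeff m P)) = _
    rw [coeff_monomial, lp.single_apply, Pi.single_apply]
    simp only [eq_comm]
  rw [this, lp.norm_single (by norm_num)]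

lemma l2_injective (σ : Type) : Function.Injective (l2 σ) := fun P Q h => by
  ext m
  exact congrArg (fun f : L2 σ => f m) h

lemma tw_injective {κ : Type} (θ : κ → ℂ) (U : ℝ) (δ R : ℕ) : Function.Injective (tw θ U δ R) :=
  fun _ _ h => l2_injective _ (congrArg (fun x => (WithLp.ofLp x).1) h)

lemma norm_tw_le {κ : Type} (θ : κ → ℂ) (U : ℝ) (δ R : ℕ) (P : MvPolynomial (Option κ) ℂ) :
    ‖tw θ U δ R P‖ ≤ l1 P + Real.exp U ^ (R / δ) * l1 (tay θ ((Real.exp (-U) : ℝ) : ℂ) P) := by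
  have : tw θ U δ R P = WithLp.toLp 2 (l2 (Option κ) P, 0) +
      WithLp.toLp 2 (0, ((Real.exp (U * (R / δ : ℕ)) : ℝ) : ℂ) •
        l2 κ (tay θ ((Real.exp (-U) : ℝ) : ℂ) P)) := by
    rw [← WithLp.toLp_add, Prod.mk_add_mk, add_zero, zero_add]
    rfl
  rw [this]
  refine (norm_add_le _ _).trans (add_le_add ?_ ?_)
  · rw [WithLp.norm_toLp_fst]; exact norm_l2_le P
  · rw [WithLp.norm_toLp_snd, norm_smul, Complex.norm_real, Real.norm_eq_abs,
      abs_of_pos (Real.exp_pos _), mul_comm U, Real.exp_nat_mul]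
    exact mul_le_mul_of_nonneg_left (norm_l2_le _) (by positivity)

/-! ### Lattices of forms -/

section Lat

variable {σ : Type*}

lemma coeff_toC (m : σ →₀ ℕ) (Q : MvPolynomial σ ℤ) : coeff m (toC Q) = ((coeff m Q : ℤ) : ℂ) :=
  coeff_map _ _ _

lemma toC_monomial (m : σ →₀ ℕ) : toC (monomial m (1 : ℤ)) = monomial m (1 : ℂ) := by
  rw [toC, map_monomial, map_one]

lemma comp_toC (n : ℕ) (Q : MvPolynomial σ ℤ) :
    homogeneousComponent n (toC Q) = toC (homogeneousComponent n Q) := by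
  ext m
  rw [coeff_homogeneousComponent, coeff_toC, coeff_toC, coeff_homogeneousComponent]
  split_ifs <;> simp

lemma mem_Jl {J : Ideal (MvPolynomial σ ℤ)} {R : ℕ} {P : MvPolynomial σ ℂ} :
    P ∈ Jl J R ↔ ∃ Q, (Q ∈ J ∧ Q.IsHomogeneous R) ∧ toC Q = P := Iff.rfl

lemma Jl_le (J : Ideal (MvPolynomial σ ℤ)) (R : ℕ) : Jl J R ≤ Jl ⊤ R := fun _ ⟨Q, hQ, e⟩ =>
  ⟨Q, ⟨trivial, hQ.2⟩, e⟩

/-- the monomials of degree `R` -/
def mons (σ : Type*) (R : ℕ) : Set (MvPolynomial σ ℂ) :=
  (fun m => monomial m (1 : ℂ)) '' {m : σ →₀ ℕ | m.degree = R}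

lemma span_mons (R : ℕ) : Submodule.span ℤ (mons σ R) = Jl ⊤ R := by
  refine le_antisymm (Submodule.span_le.2 ?_) ?_
  · rintro _ ⟨m, hm, rfl⟩
    exact mem_Jl.2 ⟨monomial m 1, ⟨trivial, isHomogeneous_monomial _ hm⟩, toC_monomial m⟩
  · intro P hP
    obtain ⟨Q, hQ, rfl⟩ := mem_Jl.1 hP
    rw [Q.as_sum, map_sum]
    refine Submodule.sum_mem _ fun m hm => ?_
    have : toC (monomial m (coeff m Q)) = coeff m Q • monomial m (1 : ℂ) := by
      rw [← toC_monomial, ← map_zsmul, smul_monomial, smul_eq_mul, mul_one]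
    rw [this]
    exact Submodule.smul_mem _ _ (Submodule.subset_span ⟨m, degree_eq hQ.2 hm, rfl⟩)

lemma fg_top [Finite σ] (R : ℕ) : (Jl (⊤ : Ideal (MvPolynomial σ ℤ)) R).FG := by
  rw [← span_mons]
  exact Submodule.fg_span ((Finsupp.finite_of_degree_eq R).image _)

lemma isLat_top [Finite σ] (R : ℕ) : IsLat (Jl (⊤ : Ideal (MvPolynomial σ ℤ)) R) := by
  refine ⟨fg_top R, fun n v hv h => ?_⟩
  choose w hw e using fun i => mem_Jl.1 (hv i)
  have : Finite {m : σ →₀ ℕ | m.degree = R} := Finsupp.finite_of_degree_eq R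
  have h1 : LinearIndependent ℤ fun i (m : {m : σ →₀ ℕ | m.degree = R}) => coeff m.1 (w i) := by
    rw [Fintype.linearIndependent_iff] at h ⊢
    refine fun g hg => h g ?_
    ext m
    simp only [coeff_sum, coeff_smul, ← e, coeff_toC, coeff_zero]
    simp only [zsmul_eq_mul]
    by_cases hm : m.degree = R
    · have := congrFun hg ⟨m, hm⟩
      simp only [Finset.sum_apply, Pi.smul_apply, smul_eq_mul, Pi.zero_apply] at this
      exact_mod_cast this
    · simp [fun i => (hw i).2.coeff_eq_zero hm]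
  have h2 := (linearIndependent_algebraMap_comp_iff (S := ℂ)).2 h1
  refine LinearIndependent.of_comp
    (LinearMap.pi fun m : {m : σ →₀ ℕ | m.degree = R} => lcoeff ℂ m.1) ?_
  have h3 : (LinearMap.pi fun m : {m : σ →₀ ℕ | m.degree = R} => lcoeff ℂ m.1) ∘ v =
      fun i => algebraMap ℤ ℂ ∘ fun m : {m : σ →₀ ℕ | m.degree = R} => coeff m.1 (w i) := by
    ext i m
    simp [← e, coeff_toC]
  rw [h3]
  exact h2

lemma Hf_nonneg [Finite σ] (J : Ideal (MvPolynomial σ ℤ)) (R : ℕ) : 0 ≤ Hf J R := by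
  have := Module.Finite.of_fg (fg_top (σ := σ) R)
  rw [Hf, sub_nonneg]
  exact_mod_cast Submodule.finrank_mono (Jl_le J R)

lemma comp_mem {J : Ideal (MvPolynomial σ ℤ)} (hJ : IsHom J) {P : MvPolynomial σ ℂ}
    (hP : P ∈ J.map toC) (R : ℕ) :
    homogeneousComponent R P ∈ Submodule.span ℂ (Jl J R : Set (MvPolynomial σ ℂ)) := by
  have : ∀ a, homogeneousComponent R (a * P) ∈
      Submodule.span ℂ (Jl J R : Set (MvPolynomial σ ℂ)) := by
    induction hP using Submodule.span_induction with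
    | mem x hx =>
      obtain ⟨j, hj, rfl⟩ := hx
      intro a
      rw [eq_sum a, Finset.sum_mul, map_sum]
      refine Submodule.sum_mem _ fun m _ => ?_
      rw [smul_mul_assoc, map_smul, ← toC_monomial, ← map_mul, comp_toC]
      exact Submodule.smul_mem _ _ (Submodule.subset_span (mem_Jl.2
        ⟨_, ⟨hJ _ (J.mul_mem_left _ hj) R, homogeneousComponent_isHomogeneous _ _⟩, rfl⟩))
    | zero => intro a; simp
    | add x y _ _ hx hy => intro a; rw [mul_add, map_add]; exact Submodule.add_mem _ (hx a) (hy a)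
    | smul b x _ hx => intro a; rw [smul_eq_mul, ← mul_assoc]; exact hx _
  simpa using this 1

lemma comp_mem' {J : Ideal (MvPolynomial σ ℤ)} (hJ : IsHom J) {P : MvPolynomial σ ℂ}
    (hP : P ∈ J.map toC) (R : ℕ) : homogeneousComponent R P ∈ J.map toC := by
  have : Submodule.span ℂ (Jl J R : Set (MvPolynomial σ ℂ)) ≤ (J.map toC).restrictScalars ℂ := by
    refine Submodule.span_le.2 fun x hx => ?_
    obtain ⟨Q, hQ, rfl⟩ := mem_Jl.1 hx
    exact Ideal.mem_map_of_mem _ hQ.1
  exact this (comp_mem hJ hP R)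

end Lat

/-! ### Changes of coordinates -/

section Coord

variable {κ : Type}

/-- images of the variables under the change of coordinates centred at the point -/
noncomputable def fv (θ : κ → ℂ) (ε : ℂ) (o : Option κ) : MvPolynomial (Option κ) ℂ :=
  o.elim (C ε * X none) fun i => X (some i) - C (θ i) * X none

lemma fv_hom (θ : κ → ℂ) (ε : ℂ) (o : Option κ) : (fv θ ε o).IsHomogeneous 1 := by
  cases o with
  | none => exact isHomogeneous_C_mul_X _ _
  | some i => exact (isHomogeneous_X _ _).sub (isHomogeneous_C_mul_X _ _)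

lemma l1_fv {θ : κ → ℂ} {ε : ℂ} {B : ℝ} (hB : 1 ≤ B) (hθ : ∀ i, ‖θ i‖ + 1 ≤ B) (hε : ‖ε‖ ≤ 1)
    (o : Option κ) : l1 (fv θ ε o) ≤ B := by
  cases o with
  | none =>
    change l1 (C ε * X none) ≤ B
    rw [l1_C_mul, l1_X]; linarith
  | some i =>
    refine (l1_sub_le _ _).trans ?_
    rw [l1_C_mul, l1_X, l1_X]; linarith [hθ i]

lemma fv_inv (θ : κ → ℂ) {ε : ℂ} (hε : ε ≠ 0) (P : MvPolynomial (Option κ) ℂ) :
    aeval (fv θ ε) (aeval (fv (fun i => -(θ i * ε⁻¹)) ε⁻¹) P) = P := by
  have h : (C ε⁻¹ * C ε : MvPolynomial (Option κ) ℂ) = 1 := by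
    rw [← C_mul, inv_mul_cancel₀ hε, C_1]
  have : (aeval (fv θ ε)).comp (aeval (fv (fun i => -(θ i * ε⁻¹)) ε⁻¹)) = AlgHom.id ℂ _ := by
    refine MvPolynomial.algHom_ext fun o => ?_
    cases o with
    | none =>
      simp only [AlgHom.comp_apply, aeval_X, fv, Option.elim, map_mul, aeval_C, algebraMap_eq,
        AlgHom.id_apply]
      linear_combination (X none : MvPolynomial (Option κ) ℂ) * h
    | some i =>
      simp only [AlgHom.comp_apply, aeval_X, fv, Option.elim, map_mul, map_sub, map_neg, aeval_C,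
        algebraMap_eq, AlgHom.id_apply]
      linear_combination (C (θ i) * X none : MvPolynomial (Option κ) ℂ) * h
  exact AlgHom.congr_fun this P

/-- images of the variables under the Taylor expansion in the new coordinates -/
noncomputable def gv (κ : Type) (ε ε' : ℂ) (o : Option κ) : MvPolynomial κ ℂ :=
  o.elim (C ε') fun i => C ε * X i

lemma tay_fv (θ : κ → ℂ) (ε ε' : ℂ) (P : MvPolynomial (Option κ) ℂ) :
    tay θ ε (aeval (fv θ ε') P) = aeval (gv κ ε ε') P := by
  have : (tay θ ε).comp (aeval (fv θ ε')) = aeval (gv κ ε ε') := by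
    refine MvPolynomial.algHom_ext fun o => ?_
    cases o <;> simp [tay, fv, gv]
  exact AlgHom.congr_fun this P

lemma l1_gv (ε ε' : ℂ) (o : Option κ) : l1 (gv κ ε ε' o) ≤ o.elim ‖ε'‖ fun _ => ‖ε‖ := by
  cases o with
  | none => exact (l1_C _).le
  | some i =>
    change l1 (C ε * X i) ≤ ‖ε‖
    rw [l1_C_mul, l1_X, mul_one]

/-- the spectral estimate -/
lemma exists_approx (hG : StG) (θ : κ → ℂ) {e r : ℝ} (he : 0 < e) (hr : 0 < r)
    {J : Ideal (MvPolynomial (Option κ) ℤ)} (hJ : IsHom J)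
    (h : ¬ ∃ θ' : κ → ℂ, (∀ i, ‖θ' i - θ i‖ ≤ r⁻¹) ∧ ∀ P ∈ J, aeval (pt θ') P = 0) :
    ∀ᶠ k : ℕ in atTop, ∃ Q : MvPolynomial (Option κ) ℂ, Q.IsHomogeneous k ∧
      aeval (fv θ e) (X none ^ k - Q) ∈ J.map toC ∧ l1 Q ≤ (2 * (e * r)) ^ k := by
  have he' : (e : ℂ) ≠ 0 := Complex.ofReal_ne_zero.2 he.ne'
  have h1 := hG (Option κ) ((J.map toC).comap (aeval (R := ℂ) (fv θ e))) (X none) (e * r)
    (mul_pos he hr) fun x hx hI => ?_
  · filter_upwards [h1] with k ⟨Q, h2, h3⟩
    refine ⟨_, homogeneousComponent_isHomogeneous k Q, ?_, (l1_comp_le k Q).trans h3⟩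
    have := comp_mem' hJ (Ideal.mem_comap.1 h2) k
    rwa [comp_aeval (fv_hom θ e), map_sub,
      homogeneousComponent_eq_self (isHomogeneous_X_pow _ _)] at this
  · rw [eval_X]
    by_contra hc
    push Not at hc
    have h0 : 0 < ‖x none‖ := (mul_pos he hr).trans hc
    have h0' : x none ≠ 0 := norm_pos_iff.1 h0
    refine h ⟨fun i => θ i + e * x (some i) / x none, fun i => ?_, fun P hP => ?_⟩
    · rw [add_sub_cancel_left, norm_div, norm_mul, Complex.norm_real, Real.norm_eq_abs,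
        abs_of_pos he, div_le_iff₀ h0, le_inv_mul_iff₀ hr]
      nlinarith [hx (some i), mul_pos he hr]
    · rw [← sum_homogeneousComponent P, map_sum]
      refine Finset.sum_eq_zero fun n _ => ?_
      have h2 := hI (aeval (fv (fun i => -(θ i * (e : ℂ)⁻¹)) (e : ℂ)⁻¹)
        (toC (homogeneousComponent n P))) (by
          rw [Ideal.mem_comap, fv_inv θ he']
          exact Ideal.mem_map_of_mem _ (hJ P hP n))
      have h3 : ∀ Q : MvPolynomial (Option κ) ℤ,
          eval x (aeval (fv (fun i => -(θ i * (e : ℂ)⁻¹)) (e : ℂ)⁻¹) (toC Q)) =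
            aeval (fun o => (e : ℂ)⁻¹ * x none * pt (fun i => θ i + e * x (some i) / x none) o)
              Q := by
        intro Q
        induction Q using MvPolynomial.induction_on with
        | C a => simp [toC]
        | add p q hp hq => simp only [map_add, hp, hq]
        | mul_X p o hp =>
          simp only [map_mul, hp, aeval_X]
          congr 1
          cases o with
          | none => simp [toC, fv, pt]
          | some i =>
            simp only [toC, fv, pt, map_X, aeval_X, Option.elim, map_sub, map_mul, eval_X, eval_C]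
            field_simp
            ring
      rw [h3, aeval_smul (homogeneousComponent_isHomogeneous n P)] at h2
      exact (mul_eq_zero.1 h2).resolve_left (pow_ne_zero _ (mul_ne_zero (inv_ne_zero he') h0'))

/-- approximation of a monomial in the new coordinates modulo the ideal -/
lemma exists_near [Fintype κ] {θ : κ → ℂ} {B U r : ℝ} {δ R : ℕ} (hB : 1 ≤ B)
    (hθ : ∀ i, ‖θ i‖ + 1 ≤ B) (hU : 0 ≤ U) (hr : 1 ≤ r) (hδ : 2 ≤ δ)
    {J : Ideal (MvPolynomial (Option κ) ℤ)} (hJ : IsHom J) {Q : MvPolynomial (Option κ) ℂ}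
    (hQ : Q.IsHomogeneous (R / δ))
    (h1 : aeval (fv θ (Real.exp (-U) : ℝ)) (X none ^ (R / δ) - Q) ∈ J.map toC)
    (h2 : l1 Q ≤ (2 * (Real.exp (-U) * r)) ^ (R / δ)) {n : Option κ →₀ ℕ} (hn : n.degree = R) :
    ∃ s ∈ Submodule.span ℂ (Jl J R : Set (MvPolynomial (Option κ) ℂ)),
      ‖tw θ U δ R (aeval (fv θ 1) (monomial n (1 : ℂ)) - s)‖ ≤ 2 * B ^ R * (2 * r) ^ (R / δ) := by
  have hk : 2 * (R / δ) ≤ R := (Nat.mul_le_mul_right _ hδ).trans (Nat.mul_div_le R δ)
  have hn' := norm_tw_le θ U δ R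
  generalize R / δ = k at *
  set e : ℝ := Real.exp (-U) with he
  have e0 : 0 < e := Real.exp_pos _
  have e1 : e ≤ 1 := Real.exp_le_one_iff.2 (by linarith)
  have e2 : Real.exp U ^ k * e ^ k = 1 := by
    rw [← mul_pow, he, ← Real.exp_add, add_neg_cancel, Real.exp_zero, one_pow]
  have e3 : ‖(e : ℂ)‖ = e := by rw [Complex.norm_real, Real.norm_eq_abs, abs_of_pos e0]
  have e4 : (e : ℂ) ≠ 0 := Complex.ofReal_ne_zero.2 e0.ne'
  have b1 : 1 ≤ B ^ R := one_le_pow₀ hB
  have r1 : 1 ≤ (2 * r) ^ k := one_le_pow₀ (by linarith)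
  have f1 : ∀ o, l1 (fv θ 1 o) ≤ B := l1_fv hB hθ norm_one.le
  by_cases hc : k ≤ n none
  · obtain ⟨n', rfl⟩ : ∃ n', n = Finsupp.single none k + n' :=
      ⟨n - Finsupp.single none k, (add_tsub_cancel_of_le (Finsupp.single_le_iff.2 hc)).symm⟩
    rw [map_add, Finsupp.degree_single] at hn
    have m1 : (monomial n' (1 : ℂ)).IsHomogeneous n'.degree := isHomogeneous_monomial _ rfl
    set A := aeval (fv θ 1) (monomial n' (1 : ℂ)) with hA
    refine ⟨((e : ℂ) ^ k)⁻¹ • (aeval (fv θ e) (X none ^ k - Q) * A), Submodule.smul_mem _ _ ?_, ?_⟩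
    · have h3 := comp_mem hJ ((J.map toC).mul_mem_right A h1) R
      have h4 := (((isHomogeneous_X_pow none k).sub hQ).aeval _ (fv_hom θ e)).mul
        (m1.aeval _ (fv_hom θ 1))
      rw [one_mul, one_mul, hn] at h4
      rwa [homogeneousComponent_eq_self h4] at h3
    · have h3 : aeval (fv θ 1) (monomial (Finsupp.single none k + n') (1 : ℂ)) -
          ((e : ℂ) ^ k)⁻¹ • (aeval (fv θ e) (X none ^ k - Q) * A) =
            ((e : ℂ) ^ k)⁻¹ • (aeval (fv θ e) Q * A) := by
        rw [monomial_single_add, map_mul, ← hA, map_sub, map_pow, map_pow, aeval_X, aeval_X,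
          sub_mul, smul_sub]
        simp only [fv, Option.elim, C_mul', smul_pow, smul_mul_assoc, smul_smul,
          inv_mul_cancel₀ (pow_ne_zero k e4), one_smul, sub_sub_cancel]
      have h4 : l1 (aeval (fv θ e) Q * A) ≤ (2 * (e * r)) ^ k * B ^ R := by
        refine (l1_mul_le _ _).trans ?_
        have a1 := l1_aeval_le (l1_fv hB hθ (e3.trans_le e1)) hQ
        have a2 := l1_aeval_le f1 m1
        rw [l1_monomial, norm_one, one_mul] at a2
        rw [← hn, pow_add, ← mul_assoc]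
        exact mul_le_mul (a1.trans (mul_le_mul_of_nonneg_right h2 (by positivity))) a2
          (l1_nonneg _) (by positivity)
      have h5 : l1 (tay θ e (aeval (fv θ e) Q * A)) ≤ (2 * (e * r)) ^ k * e ^ k := by
        rw [map_mul, hA, tay_fv, tay_fv]
        refine (l1_mul_le _ _).trans ?_
        have a1 := l1_aeval_le (b := e) (fun o => (l1_gv (κ := κ) e e o).trans (by
          cases o <;> exact e3.le)) hQ
        have a2 := l1_aeval_le (b := 1) (fun o => (l1_gv (κ := κ) e 1 o).trans (by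
          cases o
          exacts [norm_one.le, e3.trans_le e1])) m1
        rw [l1_monomial, norm_one, one_mul, one_pow] at a2
        rw [← mul_one (_ * e ^ k)]
        exact mul_le_mul (a1.trans (mul_le_mul_of_nonneg_right h2 (by positivity))) a2
          (l1_nonneg _) (by positivity)
      rw [h3, map_smul, norm_smul, norm_inv, norm_pow, e3, inv_mul_le_iff₀ (by positivity)]
      refine (hn' _).trans ?_
      have h6 : Real.exp U ^ k * l1 (tay θ e (aeval (fv θ e) Q * A)) ≤ (2 * (e * r)) ^ k := by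
        refine (mul_le_mul_of_nonneg_left h5 (by positivity)).trans_eq ?_
        rw [mul_left_comm, e2, mul_one]
      have h7 : (2 * (e * r)) ^ k = e ^ k * (2 * r) ^ k := by rw [← mul_pow]; ring
      have h8 : 0 ≤ e ^ k * (2 * r) ^ k := by positivity
      rw [h7] at h4 h6
      nlinarith
  · refine ⟨0, Submodule.zero_mem _, ?_⟩
    rw [sub_zero]
    refine (hn' _).trans ?_
    have a1 := l1_aeval_le f1 (isHomogeneous_monomial (1 : ℂ) hn)
    rw [l1_monomial, norm_one, one_mul] at a1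
    have a2 := l1_aeval_monomial (l1_gv (κ := κ) e 1) n
    rw [Fintype.prod_option] at a2
    simp only [Option.elim, norm_one, one_pow, one_mul, e3, Finset.prod_pow_eq_pow_sum] at a2
    rw [Finsupp.degree_eq_sum, Fintype.sum_option] at hn
    have a3 : Real.exp U ^ k * l1 (tay θ e (aeval (fv θ 1) (monomial n (1 : ℂ)))) ≤ 1 := by
      rw [tay_fv, ← e2]
      exact mul_le_mul_of_nonneg_left (a2.trans (pow_le_pow_of_le_one e0.le e1 (by omega)))
        (by positivity)
    nlinarith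

end Coord

end JN

open JN in
theorem stN (hG : StG) (hH : StHad) : StN := by
  intro κ _ θ B U ρ δ J hB hθ hU hρ hδ hJ h
  rw [Real.exp_neg] at h
  have r1 : 1 ≤ Real.exp ρ := Real.one_le_exp hρ
  have h1 := exists_approx hG θ (Real.exp_pos (-U)) (Real.exp_pos ρ) hJ h
  filter_upwards [(Nat.tendsto_div_const_atTop (show δ ≠ 0 by omega)).eventually h1]
    with R ⟨Q, hQ, h2, h3⟩
  have hB0 : 0 < B := by linarith
  have h4 := hH _ _ (tw θ U δ R) (Jl ⊤ R) (Jl J R) (mons (Option κ) R)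
    (B ^ R * (2 * B ^ R * (2 * Real.exp ρ) ^ (R / δ))) (tw_injective θ U δ R) (isLat_top R)
    (by rw [span_mons]; exact sup_eq_right.2 (Jl_le J R)) (by positivity) ?_
  · have h5 : Real.log (B ^ R * (2 * B ^ R * (2 * Real.exp ρ) ^ (R / δ))) ≤
        1 + R * (2 * Real.log B + (1 + ρ) / δ) := by
      rw [Real.log_mul (by positivity) (by positivity), Real.log_mul (by positivity) (by positivity),
        Real.log_mul (by positivity) (by positivity), Real.log_pow, Real.log_pow,
        Real.log_mul (by positivity) (by positivity), Real.log_exp]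
      have a1 : Real.log 2 ≤ 1 := by linarith [Real.log_two_lt_d9]
      have a2 : ((R / δ : ℕ) : ℝ) * (Real.log 2 + ρ) ≤ R / δ * (1 + ρ) :=
        mul_le_mul Nat.cast_div_le (by linarith) (by positivity) (by positivity)
      have a3 : (R : ℝ) * (2 * Real.log B + (1 + ρ) / δ) =
          2 * (R * Real.log B) + R / δ * (1 + ρ) := by ring
      rw [a3]
      linarith
    have h6 := mul_le_mul_of_nonneg_left h5 (Hf_nonneg J R)
    rw [chi]
    rw [Hf] at h6 ⊢
    linarith
  · rintro _ ⟨m, hm, rfl⟩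
    have m1 : (monomial m (1 : ℂ)).IsHomogeneous R := isHomogeneous_monomial _ hm
    set f := fv (fun i => -(θ i * (1 : ℂ)⁻¹)) (1 : ℂ)⁻¹ with hf
    have m2 := m1.aeval f (fv_hom _ _)
    rw [one_mul] at m2
    have m3 : l1 (aeval f (monomial m (1 : ℂ))) ≤ B ^ R := by
      have := l1_aeval_le (l1_fv (θ := fun i => -(θ i * (1 : ℂ)⁻¹)) (ε := (1 : ℂ)⁻¹) hB
        (by simpa using hθ) (by simp)) m1
      rwa [l1_monomial, norm_one, one_mul] at this
    have m4 := fv_inv θ one_ne_zero (monomial m (1 : ℂ))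
    rw [← hf] at m4
    generalize aeval f (monomial m (1 : ℂ)) = P at m2 m3 m4
    choose! s hs1 hs2 using fun (n : Option κ →₀ ℕ) (hn : n.degree = R) =>
      exists_near hB hθ hU r1 hδ hJ hQ h2 h3 hn
    refine ⟨∑ n ∈ P.support, coeff n P • s n, Submodule.sum_mem _ fun n hn =>
      Submodule.smul_mem _ _ (hs1 n (degree_eq m2 hn)), ?_⟩
    have m5 : monomial m (1 : ℂ) - ∑ n ∈ P.support, coeff n P • s n =
        ∑ n ∈ P.support, coeff n P • (aeval (fv θ 1) (monomial n (1 : ℂ)) - s n) := by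
      simp only [smul_sub, Finset.sum_sub_distrib]
      congr 1
      rw [← m4]
      conv_lhs => rw [eq_sum P, map_sum]
      simp only [map_smul]
    change ‖tw θ U δ R (monomial m (1 : ℂ) - _)‖ ≤ _
    rw [m5, map_sum]
    refine (norm_sum_le _ _).trans (le_trans ?_ (mul_le_mul_of_nonneg_right m3 (by positivity)))
    rw [l1, Finset.sum_mul]
    refine Finset.sum_le_sum fun n hn => ?_
    rw [map_smul, norm_smul]
    exact mul_le_mul_of_nonneg_left (hs2 n (degree_eq m2 hn)) (norm_nonneg _)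

end Pool.Agent.Lib.MP_12eca1_ag.P
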