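import Pool.Agent.Lib.MP_12eca1_ag.P.Basic

/-! The transcendence argument at one scale. -/

namespace Pool.Agent.Lib.MP_12eca1_ag.P

open MvPolynomial Filter

namespace JOne

theorem near_log {w z : ℂ} {A ε : ℝ} (hw : ‖w‖ ≤ A) (hz : ‖z - Complex.exp w‖ ≤ ε)
    (hε : Real.exp A * ε ≤ 1 / 2) : ∃ η, z = Complex.exp (w + η) ∧ ‖η‖ ≤ 2 * (Real.exp A * ε) := by
  have h0 : ‖(z - Complex.exp w) * Complex.exp (-w)‖ ≤ Real.exp A * ε := by
    rw [norm_mul, mul_comm]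
    refine mul_le_mul ((Complex.norm_exp_le_exp_norm _).trans ?_) hz (norm_nonneg _)
      (Real.exp_pos _).le
    rw [norm_neg]
    exact Real.exp_le_exp.2 hw
  set u := (z - Complex.exp w) * Complex.exp (-w) with hu
  have h1 : 1 + u ≠ 0 := by
    intro h
    have h2 : u = -1 := by linear_combination h
    rw [h2, norm_neg, norm_one] at h0
    linarith
  refine ⟨Complex.log (1 + u), ?_, ?_⟩
  · have h3 : Complex.exp w * Complex.exp (-w) = 1 := by
      rw [← Complex.exp_add, add_neg_cancel, Complex.exp_zero]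
    rw [Complex.exp_add, Complex.exp_log h1, hu]
    linear_combination (Complex.exp w - z) * h3
  · have h4 := Complex.norm_log_one_add_half_le_self (h0.trans hε)
    have h5 := norm_nonneg u
    linarith

theorem pigeon {ι : Type} [Fintype ι] (ω : ι → ℂ) (N L : ℕ) (hω : ∀ s, ‖ω s‖ ≤ N)
    (hr : (Set.range fun s => Complex.exp (ω s)).ncard ≤ L)
    (hc : L * (2 * N + 1) < Fintype.card ι) : ∃ s s', s ≠ s' ∧ ω s = ω s' := by
  classical
  have h1 : (Finset.univ.image fun s => Complex.exp (ω s)).card ≤ L := by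
    rwa [← Set.ncard_coe_finset, Finset.coe_image, Finset.coe_univ, Set.image_univ]
  have h2 : ((Finset.univ.image fun s => Complex.exp (ω s)) ×ˢ
      Finset.Icc (-(N : ℤ)) N).card < (Finset.univ : Finset ι).card := by
    rw [Finset.card_product, Int.card_Icc, Finset.card_univ]
    have e : ((N : ℤ) + 1 - -(N : ℤ)).toNat = 2 * N + 1 := by omega
    rw [e]
    exact (Nat.mul_le_mul_right _ h1).trans_lt hc
  obtain ⟨s, -, s', -, hne, he⟩ := Finset.exists_ne_map_eq_of_card_lt_of_maps_to h2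
    (f := fun s => (Complex.exp (ω s), ⌊(ω s).im⌋)) fun s _ => by
      have h3 := abs_le.1 ((Complex.abs_im_le_norm (ω s)).trans (hω s))
      simp only [Finset.coe_product, Set.mem_prod, Finset.mem_coe, Finset.mem_Icc]
      refine ⟨Finset.mem_image_of_mem _ (Finset.mem_univ s), Int.le_floor.2 ?_,
        Int.floor_le_iff.2 ?_⟩
      · push_cast; exact h3.1
      · push_cast; linarith [h3.2]
  obtain ⟨h4, h5⟩ := Prod.mk.inj he
  obtain ⟨n, hn⟩ := Complex.exp_eq_exp_iff_exists_int.1 h4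
  have h6 := Int.abs_sub_lt_one_of_floor_eq_floor h5
  have h7 : (ω s).im - (ω s').im = n * (2 * Real.pi) := by rw [hn]; simp
  have h8 : n = 0 := by
    by_contra h
    have h9 : (1 : ℝ) ≤ |(n : ℝ)| := by exact_mod_cast Int.one_le_abs h
    rw [h7, abs_mul, abs_of_pos Real.two_pi_pos] at h6
    nlinarith [Real.pi_gt_three]
  exact ⟨s, s', hne, by simpa [h8] using hn⟩

theorem poly_exists {m t : ℕ} (p : (Fin m → Fin t) → ℤ) (hp : p ≠ 0) :
    ∃ P : MvPolynomial (Fin m) ℂ, P ≠ 0 ∧ P.totalDegree ≤ m * t ∧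
      ∀ z, eval z P = ∑ a, (p a : ℂ) * ∏ i, z i ^ (a i : ℕ) := by
  classical
  let φ : (Fin m → Fin t) → (Fin m →₀ ℕ) := fun a =>
    Finsupp.equivFunOnFinite.symm fun i => (a i : ℕ)
  have hφ : Function.Injective φ := fun a b h => funext fun i => Fin.ext (by
    simpa [φ] using DFunLike.congr_fun h i)
  refine ⟨∑ a, monomial (φ a) (p a : ℂ), fun h => hp (funext fun a => ?_), ?_, fun z => ?_⟩
  · have h1 := congrArg (coeff (φ a)) h
    simpa [coeff_sum, coeff_monomial, hφ.eq_iff] using h1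
  · refine totalDegree_finsetSum_le fun a _ => (totalDegree_monomial_le _ _).trans ?_
    rw [Finsupp.sum_fintype _ _ fun _ => rfl]
    refine (Finset.sum_le_card_nsmul _ _ t fun i _ => ?_).trans (by simp)
    simp [φ]
  · rw [map_sum]
    refine Finset.sum_congr rfl fun a _ => ?_
    rw [eval_monomial, Finsupp.prod_fintype _ _ fun _ => pow_zero _]
    simp [φ]

theorem f_exists {κ : Type} {m n t M : ℕ} (g : Fin m → Fin n → κ) (p : (Fin m → Fin t) → ℤ)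
    (hp : ∀ a, |p a| ≤ 1) (s : Fin n → ℕ) (hs : ∀ j, s j ≤ M) :
    ∃ f : MvPolynomial κ ℤ, f.totalDegree ≤ m * (t * (n * M)) ∧ l1 f ≤ (t : ℝ) ^ m ∧
      ∀ θ : κ → ℂ, aeval θ f = ∑ a, (p a : ℂ) * ∏ i, (∏ j, θ (g i j) ^ s j) ^ (a i : ℕ) := by
  refine ⟨∑ a, C (p a) * ∏ i, (∏ j, X (g i j) ^ s j) ^ (a i : ℕ), ?_, ?_, fun θ => by simp⟩
  · refine totalDegree_finsetSum_le fun a _ => (totalDegree_mul _ _).trans ?_
    rw [totalDegree_C, zero_add]
    refine (totalDegree_finsetProd _ _).trans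
      ((Finset.sum_le_card_nsmul _ _ (t * (n * M)) fun i _ => ?_).trans (by simp))
    refine (totalDegree_pow _ _).trans (Nat.mul_le_mul (a i).2.le ?_)
    refine (totalDegree_finsetProd _ _).trans
      ((Finset.sum_le_card_nsmul _ _ M fun j _ => ?_).trans (by simp))
    rw [totalDegree_X_pow]
    exact hs j
  · refine (l1_sum_le _ _).trans ((Finset.sum_le_card_nsmul _ _ 1 fun a _ => ?_).trans (by simp))
    refine (l1_C_mul_le _ _).trans (mul_le_one₀ ?_ (l1_nonneg _) ?_)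
    · rw [Int.norm_eq_abs]
      exact_mod_cast hp a
    · refine (l1_prod_le _ _ (fun _ => 1) fun i _ => ?_).trans (by simp)
      refine (l1_pow_le (a := 1) ?_ _).trans (by simp)
      refine (l1_prod_le _ _ (fun _ => 1) fun j _ => ?_).trans (by simp)
      exact (l1_pow_le (a := 1) (by simp) _).trans (by simp)

theorem prod_exp {m n : ℕ} (w : Fin m → Fin n → ℂ) (s : Fin n → ℕ) (lam : Fin m → ℤ) :
    ∏ i, (∏ j, Complex.exp (w i j) ^ s j) ^ lam i =
      Complex.exp (∑ i, ∑ j, (lam i : ℂ) * (s j : ℂ) * w i j) := by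
  rw [Complex.exp_sum]
  refine Finset.prod_congr rfl fun i _ => ?_
  simp only [← Complex.exp_nat_mul, ← Complex.exp_sum, ← Complex.exp_int_mul, Finset.mul_sum,
    mul_assoc]

theorem norm_sum2 {m n : ℕ} (u : Fin m → Fin n → ℂ) {a : ℝ} (h : ∀ i j, ‖u i j‖ ≤ a) :
    ‖∑ i, ∑ j, u i j‖ ≤ m * (n * a) := by
  refine (norm_sum_le _ _).trans ((Finset.sum_le_card_nsmul _ _ (n * a) fun i _ => ?_).trans
    (by simp))
  exact (norm_sum_le _ _).trans ((Finset.sum_le_card_nsmul _ _ a fun j _ => h i j).trans (by simp))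

theorem norm_three {a b c : ℂ} {x y z : ℝ} (ha : ‖a‖ ≤ x) (hb : ‖b‖ ≤ y) (hc : ‖c‖ ≤ z) :
    ‖a * b * c‖ ≤ x * y * z := by
  have h1 := (norm_nonneg a).trans ha
  have h2 := (norm_nonneg b).trans hb
  rw [norm_mul, norm_mul]
  gcongr

/-- the end of the argument: few values of a character give a small product of linear forms -/
theorem small {m n D S L A : ℕ} (x : Fin m → ℂ) (y : Fin n → ℂ) (η : Fin m → Fin n → ℂ) {ε : ℝ}
    (hxy : ∀ i j, ‖x i * y j‖ ≤ A) (hη : ∀ i j, ‖η i j‖ ≤ ε) (hε : ε ≤ 1) (lam : Fin m → ℤ)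
    (hlam : ∀ i, |lam i| ≤ D)
    (hr : (Set.range fun s : Fin n → Fin (S + 1) =>
      ∏ i, (∏ j, Complex.exp (x i * y j + η i j) ^ (s j : ℕ)) ^ lam i).ncard ≤ L)
    (hc : L * (2 * (m * (n * (D * S * (A + 1)))) + 1) < (S + 1) ^ n) :
    ∃ u : Fin n → ℤ, u ≠ 0 ∧ (∀ j, |u j| ≤ S) ∧
      ‖∑ i, (lam i : ℂ) * x i‖ * ‖∑ j, (u j : ℂ) * y j‖ ≤ m * (n * (D * S * ε)) := by
  simp only [prod_exp] at hr
  have hl : ∀ i, ‖(lam i : ℂ)‖ ≤ D := fun i => by
    rw [Complex.norm_intCast]; exact_mod_cast hlam i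
  obtain ⟨s, s', hne, he⟩ := pigeon (fun s : Fin n → Fin (S + 1) =>
    ∑ i, ∑ j, (lam i : ℂ) * ((s j : ℕ) : ℂ) * (x i * y j + η i j))
    (m * (n * (D * S * (A + 1)))) L (fun s => by
      push_cast
      refine norm_sum2 _ fun i j => norm_three (hl i) ?_ ?_
      · rw [Complex.norm_natCast]; exact_mod_cast Nat.lt_succ_iff.1 (s j).2
      · exact (norm_add_le _ _).trans (add_le_add (hxy i j) ((hη i j).trans hε))) hr
    (by simpa using hc)
  have hu : ∀ j, |((s j : ℕ) : ℤ) - (s' j : ℕ)| ≤ S := fun j => by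
    have h1 := (s j).2
    have h2 := (s' j).2
    rw [abs_le]; omega
  refine ⟨fun j => ((s j : ℕ) : ℤ) - (s' j : ℕ), fun h => hne (funext fun j => Fin.ext ?_), hu, ?_⟩
  · have h1 : ((s j : ℕ) : ℤ) - (s' j : ℕ) = 0 := congrFun h j
    omega
  · have e : (∑ i, (lam i : ℂ) * x i) * ∑ j, ((((s j : ℕ) : ℤ) - (s' j : ℕ) : ℤ) : ℂ) * y j =
        ∑ i, ∑ j, (lam i : ℂ) * ((((s j : ℕ) : ℤ) - (s' j : ℕ) : ℤ) : ℂ) * -η i j := by
      rw [← sub_eq_zero] at he ⊢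
      rw [← he, Finset.sum_mul_sum, ← Finset.sum_sub_distrib, ← Finset.sum_sub_distrib]
      refine Finset.sum_congr rfl fun i _ => ?_
      rw [← Finset.sum_sub_distrib, ← Finset.sum_sub_distrib]
      refine Finset.sum_congr rfl fun j _ => ?_
      push_cast; ring
    rw [← norm_mul, e]
    refine norm_sum2 _ fun i j => norm_three (hl i) ?_ (by rw [norm_neg]; exact hη i j)
    rw [Complex.norm_intCast]; exact_mod_cast hu j

/-- the argument for fixed parameters -/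
theorem core {κ : Type} {m n t A cF : ℕ} (θ : κ → ℂ) (x : Fin m → ℂ) (y : Fin n → ℂ)
    (g : Fin m → Fin n → κ) (hθ : ∀ i j, θ (g i j) = Complex.exp (x i * y j)) {U ε Y : ℝ}
    (hxy : ∀ i j, ‖x i * y j‖ ≤ A) (hy : ∀ j, ‖y j‖ ≤ Y) (hε : Real.exp A * ε ≤ 1 / 2)
    (hB : ∀ F : Set (MvPolynomial κ ℤ), (∀ f ∈ F, f.totalDegree ≤ m * (t * (n * (m * t))) ∧
      l1 f ≤ Real.exp (m * t) ∧ ‖aeval θ f‖ ≤ Real.exp (-U)) →
      ∃ θ' : κ → ℂ, (∀ i, ‖θ' i - θ i‖ ≤ ε) ∧ ∀ f ∈ F, aeval θ' f = 0)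
    (hF : ∀ (γ : Fin m → Fin n → ℂ) (P : MvPolynomial (Fin m) ℂ), (∀ i j, γ i j ≠ 0) → P ≠ 0 →
      P.totalDegree ≤ m * t →
      (∀ s : Fin n → ℕ, (∀ j, s j ≤ m * t) → eval (fun i => ∏ j, γ i j ^ s j) P = 0) →
      ∃ lam : Fin m → ℤ, lam ≠ 0 ∧ (∀ i, |lam i| ≤ (m * t : ℕ)) ∧
        (Set.range fun s : Fin n → Fin (t + 1) =>
          ∏ i, (∏ j, γ i j ^ (s j : ℕ)) ^ lam i).ncard ≤ cF * (m * t) ^ m)
    (p : (Fin m → Fin t) → ℤ) (hp0 : p ≠ 0) (hp1 : ∀ a, |p a| ≤ 1)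
    (hp : ∀ w : ℂ, ‖w‖ ≤ n * (m * t * Y) →
      ‖∑ a, (p a : ℂ) * Complex.exp ((∑ i, ((a i : ℕ) : ℂ) * x i) * w)‖ ≤ Real.exp (-U))
    (hc : cF * (m * t) ^ m * (2 * (m * (n * (m * t * t * (A + 1)))) + 1) < (t + 1) ^ n) :
    ∃ (lam : Fin m → ℤ) (u : Fin n → ℤ), lam ≠ 0 ∧ (∀ i, |lam i| ≤ (m * t : ℕ)) ∧ u ≠ 0 ∧
      (∀ j, |u j| ≤ t) ∧ ‖∑ i, (lam i : ℂ) * x i‖ * ‖∑ j, (u j : ℂ) * y j‖ ≤
        m * (n * ((m * t : ℕ) * t * (2 * (Real.exp A * ε)))) := by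
  choose f hf1 hf2 hf3 using fun s : {s : Fin n → ℕ // ∀ j, s j ≤ m * t} =>
    f_exists g p hp1 s.1 s.2
  obtain ⟨θ', h1, h2⟩ := hB (Set.range f) (by
    rintro _ ⟨s, rfl⟩
    refine ⟨hf1 s, (hf2 s).trans ?_, ?_⟩
    · rw [Real.exp_nat_mul]
      exact pow_le_pow_left₀ (Nat.cast_nonneg t) (by linarith [Real.add_one_le_exp (t : ℝ)]) m
    · have h3 := hp (∑ j, (s.1 j : ℂ) * y j) ((norm_sum_le _ _).trans
        ((Finset.sum_le_card_nsmul _ _ (m * t * Y) fun j _ => by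
          rw [norm_mul, Complex.norm_natCast]
          exact mul_le_mul (by exact_mod_cast s.2 j) (hy j) (norm_nonneg _) (by positivity)).trans
          (by simp)))
      rw [hf3]
      convert h3 using 4 with a
      have h4 := prod_exp (fun i j => x i * y j) s.1 fun i => ((a i : ℕ) : ℤ)
      simp only [zpow_natCast, Int.cast_natCast] at h4
      simp only [hθ]
      rw [h4, Finset.sum_mul_sum]
      congr 1
      exact Finset.sum_congr rfl fun i _ => Finset.sum_congr rfl fun j _ => by ring)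
  choose η hη1 hη2 using fun i j => near_log (z := θ' (g i j)) (hxy i j)
    (by rw [← hθ]; exact h1 _) hε
  obtain ⟨P, hP0, hP1, hP2⟩ := poly_exists p hp0
  obtain ⟨lam, hl0, hl1, hl2⟩ := hF (fun i j => Complex.exp (x i * y j + η i j)) P
    (fun _ _ => Complex.exp_ne_zero _) hP0 hP1 fun s hs => by
      rw [hP2, ← h2 _ ⟨⟨s, hs⟩, rfl⟩, hf3]
      simp only [hη1]
  obtain ⟨u, hu0, hu1, hu2⟩ := small x y η hxy hη2 (by linarith) lam hl1 hl2 hc
  exact ⟨lam, u, hl0, hl1, hu0, hu1, hu2⟩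

theorem num_count {m t cF K : ℕ} (ht : cF * m ^ m * (2 * K + 1) < t) :
    cF * (m * t) ^ m * (2 * (K * (t * t)) + 1) < (t + 1) ^ (m + 3) := by
  have h0 : 0 < t := by omega
  have h1 : 2 * (K * (t * t)) + 1 ≤ (2 * K + 1) * (t * t) := by nlinarith [Nat.mul_pos h0 h0]
  calc cF * (m * t) ^ m * (2 * (K * (t * t)) + 1)
      ≤ cF * (m * t) ^ m * ((2 * K + 1) * (t * t)) := Nat.mul_le_mul_left _ h1
    _ = cF * m ^ m * (2 * K + 1) * t ^ (m + 2) := by rw [mul_pow]; ring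
    _ < t * t ^ (m + 2) := Nat.mul_lt_mul_of_pos_right ht (pow_pos h0 _)
    _ = t ^ (m + 3) := by ring
    _ ≤ (t + 1) ^ (m + 3) := Nat.pow_le_pow_left (Nat.le_succ t) _

theorem num_U {T T' : ℕ} {C K m q t δ : ℝ} (hT : T' ≤ T) (hC : 0 < C) (hK : 1 ≤ K) (hm : 0 ≤ m)
    (ht : 1 ≤ t) (hq0 : 0 ≤ q) (hq : q ≤ 2 * m * t) (hδ : δ = K * t ^ 2) :
    C * δ ^ T' * (m * t + 3 * q ^ (T + 2) + δ) ≤
      C * K ^ T * (m + 3 * (2 * m) ^ (T + 2) + K) * t ^ (3 * T + 2) := by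
  have h1 : 1 ≤ δ := hδ ▸ one_le_mul_of_one_le_of_one_le hK (one_le_pow₀ ht)
  have h2 : δ ^ T' ≤ K ^ T * t ^ (2 * T) := by
    refine (pow_le_pow_right₀ h1 hT).trans_eq ?_
    rw [hδ, mul_pow, ← pow_mul]
  have h3 : t ≤ t ^ (T + 2) := le_self_pow₀ ht (by omega)
  have h4 : t ^ 2 ≤ t ^ (T + 2) := pow_le_pow_right₀ ht (by omega)
  have h5 : q ^ (T + 2) ≤ (2 * m) ^ (T + 2) * t ^ (T + 2) := by
    rw [← mul_pow]; exact pow_le_pow_left₀ hq0 hq _
  have h6 : m * t + 3 * q ^ (T + 2) + δ ≤ (m + 3 * (2 * m) ^ (T + 2) + K) * t ^ (T + 2) := by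
    have h7 := mul_le_mul_of_nonneg_left h3 hm
    have h8 := mul_le_mul_of_nonneg_left h4 (zero_le_one.trans hK)
    rw [hδ]; linarith
  have h9 : 0 ≤ m * t + 3 * q ^ (T + 2) + δ := by positivity
  calc C * δ ^ T' * (m * t + 3 * q ^ (T + 2) + δ)
      ≤ C * (K ^ T * t ^ (2 * T)) * ((m + 3 * (2 * m) ^ (T + 2) + K) * t ^ (T + 2)) := by gcongr
    _ = _ := by ring

theorem num_exp (T : ℕ) (K : ℝ) :
    ∀ᶠ q : ℕ in atTop, K * (q : ℝ) ^ 2 < Real.exp ((q : ℝ) ^ (T + 2)) := by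
  filter_upwards [tendsto_natCast_atTop_atTop.eventually (eventually_gt_atTop (max 1 (6 * K)))]
    with q hq
  obtain ⟨h1, h2⟩ := max_lt_iff.1 hq
  have h3 : (q : ℝ) ≤ (q : ℝ) ^ (T + 2) := le_self_pow₀ h1.le (by omega)
  have h4 := Real.pow_div_factorial_le_exp (q : ℝ) (by linarith) 3
  have h5 : (0 : ℝ) < (q : ℝ) ^ 2 := by positivity
  have h6 : ((Nat.factorial 3 : ℕ) : ℝ) = 6 := by norm_num [Nat.factorial]
  rw [h6] at h4
  calc K * (q : ℝ) ^ 2 < (q : ℝ) ^ 3 / 6 := by nlinarith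
    _ ≤ _ := h4.trans (Real.exp_le_exp.2 h3)

end JOne

theorem stOne (hTB : StTB) (hB : StB) (hF : StF) (hA : StA) : StOne := by
  intro T m n x y c hc htr
  obtain ⟨T', hT, hθ⟩ := hTB _ _ T htr
  obtain ⟨C, hC, hB⟩ := hB _ _ T' hθ
  obtain ⟨cF, hF⟩ := hF (6 * T + 5)
  obtain ⟨X, hX⟩ := (Set.finite_range fun i => ‖x i‖).bddAbove
  obtain ⟨Y, hY⟩ := (Set.finite_range fun j => ‖y j‖).bddAbove
  replace hX : ∀ i, ‖x i‖ ≤ max X 0 := fun i => (hX ⟨i, rfl⟩).trans (le_max_left _ _)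
  replace hY : ∀ j, ‖y j‖ ≤ max Y 0 := fun j => (hY ⟨j, rfl⟩).trans (le_max_left _ _)
  have hX0 := le_max_right X 0
  have hY0 := le_max_right Y 0
  generalize max X 0 = X at hX hX0
  generalize max Y 0 = Y at hY hY0
  obtain ⟨A, hA'⟩ := exists_nat_ge (X * Y)
  have hxy : ∀ i j, ‖x i * y j‖ ≤ A := fun i j => by
    rw [norm_mul]
    exact (mul_le_mul (hX i) (hY j) (norm_nonneg _) hX0).trans hA'
  have hk1 : 2 * (3 * T + 2) < 6 * T + 5 := by omega
  have hn : 6 * T + 8 = 6 * T + 5 + 3 := rfl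
  have hm : 0 < 6 * T + 5 := by omega
  rw [hn]
  generalize 6 * T + 5 = M at hF hk1 hm ⊢
  have hM : (1 : ℝ) ≤ M := by exact_mod_cast hm
  have ht : Tendsto (fun q : ℕ => q / M) atTop atTop := Nat.tendsto_div_const_atTop hm.ne'
  set K : ℕ := M * ((M + 3) * M) with hK
  have hK1 : 1 ≤ K := Nat.mul_pos hm (Nat.mul_pos (by omega) hm)
  filter_upwards [ht.eventually (hA M (3 * T + 2) (X + (M + 3 : ℕ) * (M * Y))
      (C * (K : ℝ) ^ T * (M + 3 * (2 * M) ^ (T + 2) + K)) hk1 (by omega)),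
    ht.eventually_gt_atTop (cF * M ^ M * (2 * (K * (A + 1)) + 1)),
    JOne.num_exp T (2 * Real.exp A), JOne.num_exp T (M * ((M + 3 : ℕ) * (2 * Real.exp A)) / c ^ 2)]
    with q h1 h2 h3 h4 e e' hx hy
  have q1 : M * (q / M) ≤ q := Nat.mul_div_le q M
  have q2 : q < M * (q / M + 1) := Nat.lt_mul_div_succ q hm
  generalize q / M = t at h1 h2 q1 q2
  have t0 : 1 ≤ t := by omega
  have t1 : (1 : ℝ) ≤ t := by exact_mod_cast t0
  have q3 : t ≤ q := (Nat.le_mul_of_pos_left t hm).trans q1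
  have q4 : q ≤ 2 * M * t := by nlinarith
  have q5 : (1 : ℝ) ≤ q := by exact_mod_cast t0.trans q3
  have hZ : (0 : ℝ) ≤ (M + 3 : ℕ) * (M * Y) := by positivity
  obtain ⟨p, hp0, hp1, hp⟩ := h1 (fun i => x (e i)) fun i => (hX _).trans (by linarith)
  set Q : ℝ := (q : ℝ) ^ (T + 2) with hQ
  have hQ0 : 0 ≤ Q := by positivity
  have hE : Real.exp (-(3 * Q)) = Real.exp (-Q) ^ 2 * (Real.exp Q)⁻¹ := by
    rw [← Real.exp_neg, ← Real.exp_nat_mul, ← Real.exp_add]; congr 1; push_cast; ring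
  have hE1 : Real.exp (-Q) ≤ 1 := Real.exp_le_one_iff.2 (by linarith)
  have hε : Real.exp A * Real.exp (-(3 * Q)) ≤ 1 / 2 := by
    have h5 : Real.exp (-(3 * Q)) ≤ (Real.exp Q)⁻¹ := by
      rw [← Real.exp_neg]; exact Real.exp_le_exp.2 (by linarith)
    have h6 : 2 * Real.exp A ≤ Real.exp Q := by
      refine le_trans (le_mul_of_one_le_right (by positivity) (one_le_pow₀ q5)) h3.le
    refine (mul_le_mul_of_nonneg_left h5 (Real.exp_pos _).le).trans ?_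
    rw [← div_eq_mul_inv, div_le_iff₀ (Real.exp_pos _)]
    linarith
  obtain ⟨lam, u, hl0, hl1, hu0, hu1, hle⟩ := JOne.core (cF := cF)
    (fun ij : Fin m × Fin n => Complex.exp (x ij.1 * y ij.2)) (fun i => x (e i))
    (fun j => y (e' j)) (fun i j => (e i, e' j)) (fun _ _ => rfl) (fun _ _ => hxy _ _)
    (fun _ => hY _) hε
    (fun F hF' => by
      obtain ⟨θ', a1, a2, -⟩ := hB (M * (t * ((M + 3) * (M * t)))) (M * t) (3 * Q) _ F
        (Nat.mul_pos hm (Nat.mul_pos t0 (Nat.mul_pos (by omega) (Nat.mul_pos hm t0))))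
        (by positivity) (by positivity)
        (JOne.num_U (K := K) hT hC (by exact_mod_cast hK1) (by positivity) t1 (by positivity)
          (by exact_mod_cast q4) (by rw [hK]; push_cast; ring)) hF'
      exact ⟨θ', a1, a2⟩)
    (fun γ P a1 a2 a3 a4 => hF (M + 3) (M * t) t γ P (Nat.mul_pos hm t0) a1 a2 a3 a4)
    p hp0 hp1
    (fun w hw => hp w (hw.trans (by nlinarith [mul_nonneg hX0 (zero_le_one.trans t1)])))
    (by
      have h5 := JOne.num_count h2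
      rwa [show K * (A + 1) * (t * t) = M * ((M + 3) * (M * t * t * (A + 1))) by
        rw [hK]; ring] at h5)
  have a1 := hx lam hl0 fun i => (hl1 i).trans (by exact_mod_cast q1)
  have a2 := hy u hu0 fun j => (hu1 j).trans (by exact_mod_cast q3)
  have a3 := (mul_le_mul a1 a2 (by positivity) (norm_nonneg _)).trans hle
  have a4 : ((M * t : ℕ) : ℝ) * t ≤ (q : ℝ) ^ 2 := by
    rw [sq]
    exact mul_le_mul (by exact_mod_cast q1) (by exact_mod_cast q3) (by positivity) (by positivity)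
  have a5 : c * Real.exp (-Q) * (c * Real.exp (-Q)) ≤
      M * ((M + 3 : ℕ) * ((q : ℝ) ^ 2 * (2 * (Real.exp A * Real.exp (-(3 * Q)))))) :=
    a3.trans (by gcongr)
  rw [div_mul_eq_mul_div, div_lt_iff₀ (by positivity)] at h4
  have a6 : 0 < Real.exp (-Q) ^ 2 * (Real.exp Q)⁻¹ := by positivity
  have a7 := mul_lt_mul_of_pos_right h4 a6
  have a8 : Real.exp Q * c ^ 2 * (Real.exp (-Q) ^ 2 * (Real.exp Q)⁻¹) =
      c * Real.exp (-Q) * (c * Real.exp (-Q)) := by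
    field_simp
  rw [hE] at a5
  rw [a8] at a7
  linarith

end Pool.Agent.Lib.MP_12eca1_ag.P
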