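import Pool.Agent.Lib.MP_12eca1_ag.P.Basic

/-!
Projection of a lattice of characters along a short trivial character.
-/

namespace Pool.Agent.Lib.MP_12eca1_ag.P

open Filter Module

namespace JQ

variable {E : Type} [NormedAddCommGroup E] [InnerProductSpace ℝ E] {a₀ : E}

/-- the coordinate along `a₀` -/
noncomputable def tt (a₀ a : E) : ℝ := inner ℝ a₀ a / ‖a₀‖ ^ 2

/-- the orthogonal projection along `a₀` -/
noncomputable def pr (a₀ : E) : E →ₗ[ℤ] E where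
  toFun a := a - tt a₀ a • a₀
  map_add' a b := by
    simp only [tt, inner_add_right, add_div, add_smul]
    abel
  map_smul' n a := by
    simp only [tt, ← Int.cast_smul_eq_zsmul ℝ, inner_smul_right, mul_div_assoc, mul_smul,
      smul_sub, RingHom.id_apply]

lemma pr_apply (a : E) : pr a₀ a = a - tt a₀ a • a₀ := rfl

lemma tt_add_zsmul (h : a₀ ≠ 0) (a : E) (n : ℤ) : tt a₀ (a + n • a₀) = tt a₀ a + n := by
  have : ‖a₀‖ ≠ 0 := norm_ne_zero_iff.2 h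
  simp only [tt, ← Int.cast_smul_eq_zsmul ℝ, inner_add_right, inner_smul_right,
    real_inner_self_eq_norm_sq]
  field_simp

lemma pr_self (h : a₀ ≠ 0) : pr a₀ a₀ = 0 := by
  have : ‖a₀‖ ≠ 0 := norm_ne_zero_iff.2 h
  rw [pr_apply, tt, real_inner_self_eq_norm_sq, div_self (pow_ne_zero 2 this), one_smul, sub_self]

lemma inner_pr (ξ a : E) : inner ℝ (pr a₀ ξ) a = inner ℝ ξ (pr a₀ a) := by
  simp only [pr_apply, tt, inner_sub_left, inner_sub_right, real_inner_smul_left,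
    real_inner_smul_right, real_inner_comm ξ a₀]
  ring

lemma norm_pr_le (h : a₀ ≠ 0) (a : E) : ‖pr a₀ a‖ ≤ ‖a‖ := by
  have h0 : 0 < ‖a₀‖ := norm_pos_iff.2 h
  refine abs_le_of_sq_le_sq' ?_ (norm_nonneg a) |>.2
  rw [pr_apply, norm_sub_sq_real, norm_smul, real_inner_smul_right, mul_pow, Real.norm_eq_abs,
    sq_abs, real_inner_comm]
  have h1 : inner ℝ a₀ a = tt a₀ a * ‖a₀‖ ^ 2 := by
    rw [tt]; field_simp
  rw [h1]
  nlinarith [mul_nonneg (sq_nonneg (tt a₀ a)) (sq_nonneg ‖a₀‖)]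

lemma abs_tt_le (h : a₀ ≠ 0) (a : E) : |tt a₀ a| ≤ ‖a‖ / ‖a₀‖ := by
  have h0 : 0 < ‖a₀‖ := norm_pos_iff.2 h
  rw [tt, abs_div, abs_of_pos (pow_pos h0 2), div_le_div_iff₀ (pow_pos h0 2) h0]
  nlinarith [abs_real_inner_le_norm a₀ a]

/-- the short lift -/
noncomputable def lf (a₀ a : E) : E := a - round (tt a₀ a) • a₀

lemma pr_lf (h : a₀ ≠ 0) (a : E) : pr a₀ (lf a₀ a) = pr a₀ a := by
  rw [lf, map_sub, map_zsmul, pr_self h, smul_zero, sub_zero]

lemma norm_lf_le (a : E) : ‖lf a₀ a‖ ≤ ‖pr a₀ a‖ + ‖a₀‖ / 2 := by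
  have h1 : lf a₀ a = pr a₀ a + (tt a₀ a - round (tt a₀ a)) • a₀ := by
    rw [lf, pr_apply, sub_smul, Int.cast_smul_eq_zsmul]
    abel
  rw [h1]
  refine (norm_add_le _ _).trans (add_le_add_right ?_ _)
  rw [norm_smul, Real.norm_eq_abs]
  nlinarith [abs_sub_round (tt a₀ a), norm_nonneg a₀]

lemma lf_mem {M : Submodule ℤ E} (h : a₀ ∈ M) {a : E} (ha : a ∈ M) : lf a₀ a ∈ M :=
  M.sub_mem ha (M.smul_mem _ h)

lemma zeta_pr {ζ : E →ₗ[ℝ] ℂ} (h : ζ a₀ = 0) (a : E) : ζ (pr a₀ a) = ζ a := by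
  rw [pr_apply, map_sub, map_smul, h, smul_zero, sub_zero]

lemma zeta_lf {ζ : E →ₗ[ℝ] ℂ} (h : ζ a₀ = 0) (a : E) : ζ (lf a₀ a) = ζ a := by
  rw [lf, map_sub, map_zsmul, h, smul_zero, sub_zero]

lemma six_le : 6 ≤ Real.exp 2 := by
  have h : Real.exp 2 = Real.exp 1 * Real.exp 1 := by rw [← Real.exp_add]; norm_num
  nlinarith [Real.exp_one_gt_d9]

/-- the kernel of the projection on the lattice is generated by `a₀` -/
def Ker (M : Submodule ℤ E) (a₀ : E) : Prop := ∀ a ∈ M, pr a₀ a = 0 → ∃ n : ℤ, a = n • a₀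

lemma Ker.eq {M : Submodule ℤ E} (h : Ker M a₀) {a b : E} (ha : a ∈ M) (hb : b ∈ M)
    (e : pr a₀ a = pr a₀ b) : ∃ n : ℤ, a = b + n • a₀ := by
  obtain ⟨n, hn⟩ := h (a - b) (M.sub_mem ha hb) (by rw [map_sub, e, sub_self])
  exact ⟨n, by rw [← hn, add_sub_cancel]⟩

lemma rank_eq {M : Submodule ℤ E} [Module.Finite ℤ M] (h0 : a₀ ≠ 0) (hM : a₀ ∈ M)
    (h : Ker M a₀) : finrank ℤ M = finrank ℤ (M.map (pr a₀)) + 1 := by
  have : IsAddTorsionFree E := .of_isTorsionFree ℝ E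
  have h1 := (LinearMap.ker ((pr a₀).domRestrict M)).finrank_quotient_add_finrank
  rw [LinearEquiv.finrank_eq ((pr a₀).domRestrict M).quotKerEquivRange,
    LinearMap.range_domRestrict] at h1
  have h2 : LinearMap.ker ((pr a₀).domRestrict M) = Submodule.span ℤ {(⟨a₀, hM⟩ : M)} := by
    ext a
    rw [LinearMap.mem_ker, Submodule.mem_span_singleton, LinearMap.domRestrict_apply]
    constructor
    · intro ha
      obtain ⟨n, hn⟩ := h a a.2 ha
      exact ⟨n, Subtype.ext hn.symm⟩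
    · rintro ⟨n, rfl⟩
      rw [Submodule.coe_smul, map_zsmul, pr_self h0, smul_zero]
  have h3 : (⟨a₀, hM⟩ : M) ≠ 0 := fun e => h0 (congrArg Subtype.val e)
  rw [h2, ← (LinearEquiv.toSpanNonzeroSingleton ℤ M _ h3).finrank_eq, finrank_self] at h1
  exact h1.symm

lemma disc {M : Submodule ℤ E} (h0 : a₀ ≠ 0) (hM : a₀ ∈ M) (h : Disc M) :
    Disc (M.map (pr a₀)) := by
  intro ψ
  obtain ⟨ξ, hξ⟩ := h (ψ ∘ₗ (pr a₀).restrict fun a ha => Submodule.mem_map_of_mem ha)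
  have h1 : inner ℝ ξ a₀ = 0 := by
    have h2 : (pr a₀).restrict (fun a ha => Submodule.mem_map_of_mem ha) (⟨a₀, hM⟩ : M) = 0 :=
      Subtype.ext (pr_self h0)
    have h3 := hξ ⟨a₀, hM⟩
    rwa [LinearMap.comp_apply, h2, map_zero, Int.cast_zero] at h3
  refine ⟨ξ, ?_⟩
  rintro ⟨_, a, ha, rfl⟩
  have h3 : inner ℝ ξ (pr a₀ a) = inner ℝ ξ a := by
    rw [pr_apply, inner_sub_right, real_inner_smul_right, h1, mul_zero, sub_zero]
  exact h3.trans (hξ ⟨a, ha⟩)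

lemma thin {M : Submodule ℤ E} (h0 : a₀ ≠ 0) {t : ℝ} (h : Thin M t) : Thin (M.map (pr a₀)) t := by
  rintro ξ h1 ⟨_, ⟨a, ha, rfl⟩, h2⟩
  refine (h (pr a₀ ξ) (fun b hb => ?_) ⟨a, ha, ?_⟩).trans (norm_pr_le h0 ξ)
  · rw [inner_pr]
    exact h1 _ (Submodule.mem_map_of_mem hb)
  · rwa [inner_pr]

lemma vol {M : Submodule ℤ E} (h0 : a₀ ≠ 0) (hK : Ker M a₀) {ρ : ℕ} {β : ℝ}
    (h : Vol M (ρ + 1) β) : Vol (M.map (pr a₀)) ρ (β - Real.log ‖a₀‖ + 2) := by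
  classical
  have hN : 0 < ‖a₀‖ := norm_pos_iff.2 h0
  filter_upwards [h, eventually_ge_atTop ‖a₀‖] with R ⟨s, h1, h2⟩ hR
  have hR0 : 0 < R := hN.trans_le hR
  refine ⟨s.image (pr a₀), fun x hx => ?_, ?_⟩
  · obtain ⟨a, ha, rfl⟩ := Finset.mem_image.1 hx
    exact ⟨Submodule.mem_map_of_mem (h1 a ha).1, (norm_pr_le h0 a).trans (h1 a ha).2⟩
  set k := ⌈R / ‖a₀‖⌉₊ with hk
  have h3 : s.card ≤ (2 * k + 1) * (s.image (pr a₀)).card := by
    refine Finset.card_le_mul_card_image s _ fun b _ => ?_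
    refine (Finset.card_le_card_of_injOn (t := Finset.Icc (-(k : ℤ)) k)
      (fun a => ⌊tt a₀ a⌋) (fun a ha => ?_) fun a ha a' ha' e => ?_).trans ?_
    · have ha' := (Finset.mem_filter.1 ha).1
      have h4 : |tt a₀ a| ≤ k := (abs_tt_le h0 a).trans
        ((div_le_div_of_nonneg_right (h1 a ha').2 hN.le).trans (Nat.le_ceil _))
      rw [abs_le] at h4
      refine Finset.mem_coe.2 (Finset.mem_Icc.2 ⟨Int.le_floor.2 ?_, ?_⟩)
      · exact_mod_cast h4.1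
      · exact_mod_cast (Int.floor_le _).trans h4.2
    · obtain ⟨b1, b2⟩ := Finset.mem_filter.1 ha
      obtain ⟨b3, b4⟩ := Finset.mem_filter.1 ha'
      obtain ⟨n, rfl⟩ := hK.eq (h1 a b1).1 (h1 a' b3).1 (b2.trans b4.symm)
      dsimp only at e
      rw [tt_add_zsmul h0, Int.floor_add_intCast] at e
      have : n = 0 := by omega
      rw [this, zero_smul, add_zero]
    · rw [Int.card_Icc]
      omega
  have h4 : (k : ℝ) ≤ R / ‖a₀‖ + 1 := (Nat.ceil_lt_add_one (by positivity)).le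
  have h5 : 1 ≤ R / ‖a₀‖ := (one_le_div hN).2 hR
  have h6 : (s.card : ℝ) ≤ Real.exp 2 * (R / ‖a₀‖) * (s.image (pr a₀)).card := by
    have h7 : (s.card : ℝ) ≤ (2 * k + 1) * (s.image (pr a₀)).card := by exact_mod_cast h3
    refine h7.trans (mul_le_mul_of_nonneg_right ?_ (Nat.cast_nonneg _))
    nlinarith [six_le]
  have h8 : Real.exp (-(β - Real.log ‖a₀‖ + 2)) * R ^ ρ * (Real.exp 2 * (R / ‖a₀‖)) =
      Real.exp (-β) * R ^ (ρ + 1) := by
    have : Real.exp (-(β - Real.log ‖a₀‖ + 2)) * Real.exp 2 = Real.exp (-β) * ‖a₀‖ := by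
      rw [← Real.exp_add, ← Real.exp_log hN, ← Real.exp_add, Real.log_exp]
      congr 1
      ring
    rw [mul_mul_mul_comm, this, pow_succ]
    field_simp
  refine le_of_mul_le_mul_right ?_ (show 0 < Real.exp 2 * (R / ‖a₀‖) by positivity)
  rw [h8]
  linarith

variable {A : Type} [CommRing A]

lemma cnt {M : Submodule ℤ E} (h0 : a₀ ≠ 0) (hM : a₀ ∈ M) {g g' : E → A}
    (hg : ∀ a ∈ M, g' (pr a₀ a) = g a) {t : ℕ} {α : ℝ} (h : Cnt M g t α) :
    Cnt (M.map (pr a₀)) g' t (α + t) := by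
  classical
  have lim : Tendsto (fun R : ℝ => 2 * R) atTop atTop := tendsto_id.const_mul_atTop two_pos
  filter_upwards [lim.eventually h, eventually_ge_atTop ‖a₀‖] with R h1 hR s hs
  have hR0 : 0 ≤ R := (norm_nonneg _).trans hR
  refine (h1 s fun v hv => ?_).trans (Real.exp_le_exp.2 ?_)
  · obtain ⟨l, a1, a2, rfl⟩ := hs v hv
    have a3 : ∀ x : E, ∃ y : E, x ∈ M.map (pr a₀) →
        y ∈ M ∧ ‖y‖ ≤ ‖x‖ + ‖a₀‖ / 2 ∧ g y = g' x := fun x => by
      by_cases hx : x ∈ M.map (pr a₀)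
      · obtain ⟨a, ha, rfl⟩ := hx
        exact ⟨lf a₀ a, fun _ => ⟨lf_mem hM ha, norm_lf_le a, by
          rw [← hg _ (lf_mem hM ha), pr_lf h0]⟩⟩
      · exact ⟨0, fun h => absurd h hx⟩
    choose u hu using a3
    refine ⟨l.map fun p => (p.1, u p.2), fun p hp => ?_, ?_, ?_⟩
    · obtain ⟨p', hp', rfl⟩ := List.mem_map.mp hp
      have a4 := hu _ (a1 p' hp').1
      have a5 := (a1 p' hp').2
      exact ⟨a4.1, by linarith [a4.2.1]⟩
    · rw [List.map_map]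
      exact a2.trans (Real.exp_le_exp.2 (by linarith))
    · rw [List.map_map]
      exact congrArg List.sum (List.map_congr_left fun p hp => by
        simp [(hu _ (a1 p hp).1).2.2])
  · have h2 : (2 : ℝ) ^ t ≤ Real.exp t := by
      rw [← Real.exp_one_pow]
      exact pow_le_pow_left₀ (by norm_num) (by linarith [Real.exp_one_gt_d9]) t
    rw [mul_pow, Real.exp_add, mul_assoc]
    gcongr

end JQ

open JQ

theorem stQ : StQ := by
  intro E A _ _ _ _ ζ W M g ev ρ τ α β t a₀ h hT hM h0 hζ hg hS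
  classical
  have hN : 0 < ‖a₀‖ := norm_pos_iff.2 h0
  have hK : Ker M a₀ := fun a ha e => by
    refine ⟨round (tt a₀ a), sub_eq_zero.1 ?_⟩
    by_contra hne
    have h1 := hS (lf a₀ a) (lf_mem hM ha) (by
      rw [zeta_lf hζ, ← zeta_pr hζ, e, map_zero]) hne
    have h2 := norm_lf_le (a₀ := a₀) a
    rw [e, norm_zero] at h2
    linarith
  have g1 : ∀ n : ℤ, g (n • a₀) = 1 := fun n => by
    have h1 := h.mul_neg hM
    rw [hg, one_mul] at h1
    obtain ⟨k, rfl | rfl⟩ := n.eq_nat_or_neg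
    · rw [natCast_zsmul, h.nsmul hM, hg, one_pow]
    · rw [neg_smul, ← smul_neg, natCast_zsmul, h.nsmul (M.neg_mem hM), h1, one_pow]
  obtain ⟨g', hg'⟩ : ∃ g' : E → A, ∀ a ∈ M, g' (pr a₀ a) = g a := by
    refine ⟨fun x => if hx : x ∈ M.map (pr a₀) then g hx.choose else 1, fun a ha => ?_⟩
    have hx : pr a₀ a ∈ M.map (pr a₀) := Submodule.mem_map_of_mem ha
    obtain ⟨n, hn⟩ := hK.eq hx.choose_spec.1 ha hx.choose_spec.2
    dsimp only
    rw [dif_pos hx, hn, h.mul a ha _ (M.smul_mem n hM), g1, mul_one]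
  have := h.finite
  have hr := rank_eq h0 hM hK
  rw [h.rk] at hr
  have him : g' '' (M.map (pr a₀) : Set E) = g '' M := by
    rw [Submodule.map_coe, Set.image_image]
    exact Set.image_congr hg'
  refine ⟨_, M.map (pr a₀), g', hr, ⟨h.fg.map _, rfl, disc h0 hM h.disc, ?_, ?_, ?_, ?_, ?_, ?_,
    vol h0 hK (hr ▸ h.vol)⟩, thin h0 hT, ?_⟩
  · rintro _ ⟨a, ha, rfl⟩
    rw [zeta_pr hζ]
    exact h.inW a ha
  · rw [← h.one, ← hg' 0 M.zero_mem, map_zero]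
  · rintro _ ⟨a, ha, rfl⟩ _ ⟨b, hb, rfl⟩
    rw [← map_add, hg' _ (M.add_mem ha hb), hg' a ha, hg' b hb, h.mul a ha b hb]
  · rintro _ ⟨a, ha, rfl⟩
    rw [hg' a ha, zeta_pr hζ, h.spec a ha]
  · rw [him]
    exact h.ind
  · have := cnt h0 hM hg' h.cnt
    rwa [Nat.cast_succ] at this
  · rintro _ ⟨a, ha, rfl⟩ h1 h2
    have h3 := hS (lf a₀ a) (lf_mem hM ha) (by rw [zeta_lf hζ, ← zeta_pr hζ, h1]) fun e => h2 (by
      rw [← pr_lf h0, e, map_zero])
    have h4 := norm_lf_le (a₀ := a₀) a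
    rw [Real.exp_sub, Real.exp_log hN, div_le_iff₀ (Real.exp_pos 2)]
    nlinarith [six_le, norm_nonneg (pr a₀ a)]

end Pool.Agent.Lib.MP_12eca1_ag.P
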