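import Pool.Agent.Lib.MP_12eca1_ag.P.Defs

/-! Transcendence bases among the coordinates and sizes of monomials over them. -/

namespace Pool.Agent.Lib.MP_12eca1_ag.P

open MvPolynomial

namespace JS

variable {σ : Type*}

lemma l1_eq (P : MvPolynomial σ ℤ) {s : Finset (σ →₀ ℕ)} (h : P.support ⊆ s) :
    l1 P = ∑ m ∈ s, ‖coeff m P‖ :=
  Finset.sum_subset h fun m _ hm => by rw [notMem_support_iff.1 hm, norm_zero]

lemma l1_nonneg (P : MvPolynomial σ ℤ) : 0 ≤ l1 P := Finset.sum_nonneg fun _ _ => norm_nonneg _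

lemma l1_add (P Q : MvPolynomial σ ℤ) : l1 (P + Q) ≤ l1 P + l1 Q := by
  classical
  rw [l1_eq (P + Q) support_add, l1_eq P (s := P.support ∪ Q.support) Finset.subset_union_left,
    l1_eq Q (s := P.support ∪ Q.support) Finset.subset_union_right, ← Finset.sum_add_distrib]
  exact Finset.sum_le_sum fun m _ => by rw [coeff_add]; exact norm_add_le _ _

lemma l1_sum {ι : Type*} (s : Finset ι) (f : ι → MvPolynomial σ ℤ) :
    l1 (∑ i ∈ s, f i) ≤ ∑ i ∈ s, l1 (f i) := by
  classical
  induction s using Finset.induction_on with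
  | empty => simp [l1]
  | insert a s ha ih =>
    rw [Finset.sum_insert ha, Finset.sum_insert ha]
    exact (l1_add _ _).trans (by linarith)

lemma l1_monomial (m : σ →₀ ℕ) (a : ℤ) : l1 (monomial m a : MvPolynomial σ ℤ) = ‖a‖ := by
  classical
  rw [l1_eq _ support_monomial_subset]
  simp

lemma l1_mul (P Q : MvPolynomial σ ℤ) : l1 (P * Q) ≤ l1 P * l1 Q := by
  have e : P * Q = ∑ m ∈ P.support, ∑ n ∈ Q.support,
      monomial (m + n) (coeff m P * coeff n Q) := by
    conv_lhs => rw [P.as_sum, Q.as_sum]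
    rw [Finset.sum_mul_sum]
    simp only [monomial_mul]
  rw [e]
  refine (l1_sum _ _).trans ?_
  unfold l1
  rw [Finset.sum_mul_sum]
  refine Finset.sum_le_sum fun m _ => (l1_sum _ _).trans (Finset.sum_le_sum fun n _ => ?_)
  rw [l1_monomial]
  exact norm_mul_le _ _

/-- the combinatorial part: multiplication tables with a common denominator -/
lemma tables {κ : Type} [Fintype κ] (θ : κ → ℂ) {T d : ℕ} (φ : MvPolynomial (Fin T) ℤ →+* ℂ)
    (b : Fin d → ℂ) (D : MvPolynomial (Fin T) ℤ) (hD : φ D ≠ 0)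
    (A : κ → Fin d → Fin d → MvPolynomial (Fin T) ℤ) (c : Fin d → MvPolynomial (Fin T) ℤ)
    (hA : ∀ i k, φ D * (θ i * b k) = ∑ l, φ (A i k l) * b l) (hc : φ D = ∑ l, φ (c l) * b l)
    (hb : ∀ r : Fin d → MvPolynomial (Fin T) ℤ, ∑ l, φ (r l) * b l = 0 → ∀ l, r l = 0) :
    ∃ C : ℕ, ∀ R : ℕ, ∃ Φ : (κ →₀ ℕ) → Fin d → MvPolynomial (Fin T) ℤ,
      (∀ m, m.degree ≤ R → ∀ l,
        (Φ m l).totalDegree ≤ C * (R + 1) ∧ l1 (Φ m l) ≤ (C : ℝ) ^ (R + 1)) ∧
      ∀ P : MvPolynomial κ ℤ, P.totalDegree ≤ R →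
        (aeval θ P = 0 ↔ ∀ l, ∑ m ∈ P.support, coeff m P • Φ m l = 0) := by
  classical
  obtain ⟨C1, h1⟩ := exists_nat_ge (l1 D)
  obtain ⟨C2, h2⟩ := (Set.finite_range fun l => ⌈l1 (c l)⌉₊).bddAbove
  obtain ⟨C3, h3⟩ := (Set.finite_range fun l => (c l).totalDegree).bddAbove
  obtain ⟨C4, h4⟩ := (Set.finite_range fun p : κ × Fin d => ⌈∑ k, l1 (A p.1 k p.2)⌉₊).bddAbove
  obtain ⟨C5, h5⟩ :=
    (Set.finite_range fun p : κ × Fin d × Fin d => (A p.1 p.2.1 p.2.2).totalDegree).bddAbove
  obtain ⟨C, hC⟩ : ∃ C : ℕ, C = C1 + C2 + C3 + C4 + C5 + D.totalDegree := ⟨_, rfl⟩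
  have g1 : l1 D ≤ C := h1.trans (by exact_mod_cast by omega)
  have g2 : ∀ l, l1 (c l) ≤ C := fun l =>
    (Nat.le_ceil _).trans (by exact_mod_cast (h2 ⟨l, rfl⟩).trans (by omega))
  have g3 : ∀ l, (c l).totalDegree ≤ C := fun l => (h3 ⟨l, rfl⟩).trans (by omega)
  have g4 : ∀ i l, ∑ k, l1 (A i k l) ≤ C := fun i l =>
    (Nat.le_ceil _).trans (by exact_mod_cast (h4 ⟨(i, l), rfl⟩).trans (by omega))
  have g5 : ∀ i k l, (A i k l).totalDegree ≤ C := fun i k l =>
    (h5 ⟨(i, k, l), rfl⟩).trans (by omega)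
  have g6 : D.totalDegree ≤ C := by omega
  have key : ∀ n : ℕ, ∀ m : κ →₀ ℕ, m.degree ≤ n → ∃ r : Fin d → MvPolynomial (Fin T) ℤ,
      (∀ l, (r l).totalDegree ≤ C * (n + 1) ∧ l1 (r l) ≤ (C : ℝ) ^ (n + 1)) ∧
      φ D ^ (n + 1) * aeval θ (monomial m (1 : ℤ)) = ∑ l, φ (r l) * b l := by
    intro n
    induction n with
    | zero =>
      intro m hm
      obtain rfl : m = 0 := (Finsupp.degree_eq_zero_iff m).1 (Nat.le_zero.1 hm)
      refine ⟨c, fun l => ⟨by simpa using g3 l, by simpa using g2 l⟩, ?_⟩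
      rw [← hc]
      simp
    | succ n ih =>
      intro m hm
      by_cases h : m.degree ≤ n
      · obtain ⟨r, hr, e⟩ := ih m h
        refine ⟨fun l => D * r l, fun l => ⟨?_, ?_⟩, ?_⟩
        · refine (totalDegree_mul _ _).trans ?_
          have := (hr l).1
          nlinarith
        · refine (l1_mul _ _).trans ?_
          rw [pow_succ' (C : ℝ) (n + 1)]
          exact mul_le_mul g1 (hr l).2 (l1_nonneg _) (Nat.cast_nonneg _)
        · rw [pow_succ' (φ D) (n + 1), mul_assoc, e, Finset.mul_sum]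
          simp only [map_mul, mul_assoc]
      · have hm0 : m ≠ 0 := by
          rintro rfl
          simp at h
        obtain ⟨i, hi⟩ := Finsupp.support_nonempty_iff.2 hm0
        obtain ⟨m', rfl⟩ : ∃ m', m = m' + Finsupp.single i 1 :=
          ⟨m - Finsupp.single i 1, (Finsupp.sub_add_single_one_cancel
            (Finsupp.mem_support_iff.1 hi)).symm⟩
        have hm' : m'.degree ≤ n := by
          rw [map_add, Finsupp.degree_single] at hm
          omega
        obtain ⟨r, hr, e⟩ := ih m' hm'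
        refine ⟨fun l => ∑ k, r k * A i k l, fun l => ⟨?_, ?_⟩, ?_⟩
        · refine totalDegree_finsetSum_le fun k _ => (totalDegree_mul _ _).trans ?_
          have := (hr k).1
          have := g5 i k l
          nlinarith
        · refine (l1_sum _ _).trans ?_
          calc ∑ k, l1 (r k * A i k l) ≤ ∑ k, (C : ℝ) ^ (n + 1) * l1 (A i k l) :=
                Finset.sum_le_sum fun k _ => (l1_mul _ _).trans
                  (mul_le_mul_of_nonneg_right (hr k).2 (l1_nonneg _))
            _ ≤ (C : ℝ) ^ (n + 1 + 1) := by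
                rw [← Finset.mul_sum, pow_succ (C : ℝ) (n + 1)]
                exact mul_le_mul_of_nonneg_left (g4 i l) (by positivity)
        · rw [monomial_add_single, pow_one, map_mul, aeval_X]
          calc φ D ^ (n + 1 + 1) * (aeval θ (monomial m' (1 : ℤ)) * θ i)
              = φ D * θ i * (φ D ^ (n + 1) * aeval θ (monomial m' (1 : ℤ))) := by ring
            _ = ∑ k, φ (r k) * (φ D * (θ i * b k)) := by
                rw [e, Finset.mul_sum]
                exact Finset.sum_congr rfl fun k _ => by ring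
            _ = ∑ l, φ (∑ k, r k * A i k l) * b l := by
                simp only [hA, map_sum, map_mul, Finset.mul_sum, Finset.sum_mul, mul_assoc]
                exact Finset.sum_comm
  refine ⟨C, fun R => ?_⟩
  have key' : ∀ m : κ →₀ ℕ, ∃ r : Fin d → MvPolynomial (Fin T) ℤ, m.degree ≤ R →
      (∀ l, (r l).totalDegree ≤ C * (R + 1) ∧ l1 (r l) ≤ (C : ℝ) ^ (R + 1)) ∧
      φ D ^ (R + 1) * aeval θ (monomial m (1 : ℤ)) = ∑ l, φ (r l) * b l := fun m => by
    by_cases h : m.degree ≤ R
    · obtain ⟨r, hr⟩ := key R m h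
      exact ⟨r, fun _ => hr⟩
    · exact ⟨0, fun h' => absurd h' h⟩
  choose Φ hΦ using key'
  refine ⟨Φ, fun m hm => (hΦ m hm).1, fun P hP => ?_⟩
  have e : φ D ^ (R + 1) * aeval θ P =
      ∑ l, φ (∑ m ∈ P.support, coeff m P • Φ m l) * b l := by
    have e1 : P = ∑ m ∈ P.support, coeff m P • monomial m (1 : ℤ) := by
      conv_lhs => rw [P.as_sum]
      simp only [smul_monomial, smul_eq_mul, mul_one]
    calc φ D ^ (R + 1) * aeval θ P
        = ∑ m ∈ P.support, coeff m P • (φ D ^ (R + 1) * aeval θ (monomial m (1 : ℤ))) := by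
          conv_lhs => rw [e1]
          rw [map_sum, Finset.mul_sum]
          exact Finset.sum_congr rfl fun m _ => by rw [map_zsmul, mul_smul_comm]
      _ = ∑ m ∈ P.support, ∑ l, coeff m P • (φ (Φ m l) * b l) :=
          Finset.sum_congr rfl fun m hm => by
            rw [(hΦ m ((le_totalDegree hm).trans hP)).2, Finset.smul_sum]
      _ = _ := by
          rw [Finset.sum_comm]
          refine Finset.sum_congr rfl fun l _ => ?_
          rw [map_sum, Finset.sum_mul]
          exact Finset.sum_congr rfl fun m _ => by rw [map_zsmul, smul_mul_assoc]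
  constructor
  · intro h
    rw [h, mul_zero] at e
    exact hb _ e.symm
  · intro h
    simp only [h, map_zero, zero_mul, Finset.sum_const_zero] at e
    exact (mul_eq_zero.1 e).resolve_left (pow_ne_zero _ hD)

/-- denominators in the field generated by `ω` -/
lemma den {T : ℕ} (ω : Fin T → ℂ) {x : ℂ}
    (hx : x ∈ IntermediateField.adjoin ℚ (Set.range ω)) :
    ∃ p q : MvPolynomial (Fin T) ℤ, aeval ω q ≠ 0 ∧ aeval ω q * x = aeval ω p := by
  induction hx using IntermediateField.adjoin_induction with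
  | mem x hx =>
    obtain ⟨t, rfl⟩ := hx
    exact ⟨X t, 1, by simp, by simp⟩
  | algebraMap r =>
    refine ⟨C r.num, C (r.den : ℤ), by simp, ?_⟩
    rw [aeval_C, aeval_C]
    simp only [eq_intCast, Int.cast_natCast, eq_ratCast]
    exact_mod_cast Rat.den_mul_eq_num r
  | add x y _ _ hx hy =>
    obtain ⟨p, q, h, e⟩ := hx
    obtain ⟨p', q', h', e'⟩ := hy
    refine ⟨p * q' + p' * q, q * q', by rw [map_mul]; exact mul_ne_zero h h', ?_⟩
    simp only [map_add, map_mul, ← e, ← e']
    ring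
  | inv x _ hx =>
    obtain ⟨p, q, h, e⟩ := hx
    by_cases h0 : x = 0
    · exact ⟨0, 1, by simp, by simp [h0]⟩
    · refine ⟨q, p, by rw [← e]; exact mul_ne_zero h h0, ?_⟩
      rw [← e, mul_assoc, mul_inv_cancel₀ h0, mul_one]
  | mul x y _ _ hx hy =>
    obtain ⟨p, q, h, e⟩ := hx
    obtain ⟨p', q', h', e'⟩ := hy
    refine ⟨p * p', q * q', by rw [map_mul]; exact mul_ne_zero h h', ?_⟩
    simp only [map_mul, ← e, ← e']
    ring

lemma den_common {T : ℕ} (ω : Fin T → ℂ) {ι : Type} [Fintype ι] (x : ι → ℂ)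
    (hx : ∀ i, x i ∈ IntermediateField.adjoin ℚ (Set.range ω)) :
    ∃ (D : MvPolynomial (Fin T) ℤ) (p : ι → MvPolynomial (Fin T) ℤ), aeval ω D ≠ 0 ∧
      ∀ i, aeval ω D * x i = aeval ω (p i) := by
  classical
  choose p q hq e using fun i => den ω (hx i)
  refine ⟨∏ i, q i, fun i => (∏ j ∈ Finset.univ.erase i, q j) * p i, ?_, fun i => ?_⟩
  · rw [map_prod]
    exact Finset.prod_ne_zero_iff.2 fun i _ => hq i
  · rw [← Finset.prod_erase_mul _ _ (Finset.mem_univ i), map_mul, map_mul, mul_assoc, e]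

end JS

theorem stTB : StTB := by
  intro κ _ θ T hT
  classical
  obtain ⟨s, hs⟩ := (AlgebraicIndependent.matroid ℚ ℂ).exists_isBasis (Set.range θ)
  obtain ⟨h1, h2, h3⟩ := AlgebraicIndependent.matroid_isBasis_iff.1 hs
  have hfin : s.Finite := (Set.finite_range θ).subset h2
  have := hfin.fintype
  choose g hg using fun a : s => h2 a.2
  have he : θ ∘ (g ∘ (Fintype.equivFin s).symm) = (↑) ∘ (Fintype.equivFin s).symm := by
    funext t
    exact hg _
  have hi : AlgebraicIndependent ℚ (θ ∘ (g ∘ (Fintype.equivFin s).symm)) := by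
    rw [he]
    exact AlgebraicIndependent.comp h1 _ (Fintype.equivFin s).symm.injective
  refine ⟨Fintype.card s, ?_, g ∘ (Fintype.equivFin s).symm, hi, fun i => ?_⟩
  · have hi' : AlgebraicIndependent ℚ fun t : Fin (Fintype.card s) =>
        (⟨θ (g ((Fintype.equivFin s).symm t)), IntermediateField.subset_adjoin _ _ ⟨_, rfl⟩⟩ :
          IntermediateField.adjoin ℚ (Set.range θ)) :=
      AlgebraicIndependent.of_comp (IntermediateField.adjoin ℚ (Set.range θ)).val hi
    have := hi'.cardinalMk_le_trdeg.trans hT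
    rw [Cardinal.mk_fin] at this
    exact_mod_cast this
  · rw [he, Set.range_comp, (Fintype.equivFin s).symm.surjective.range_eq, Set.image_univ,
      Subtype.range_coe]
    exact h3 _ ⟨i, rfl⟩

theorem stS : StS := by
  intro κ _ θ T hTB
  classical
  obtain ⟨e, hi, ha⟩ := hTB
  set ω := θ ∘ e with hω
  set F := IntermediateField.adjoin ℚ (Set.range ω) with hF
  have hinj : Function.Injective (aeval ω : MvPolynomial (Fin T) ℤ →ₐ[ℤ] ℂ) :=
    hi.restrictScalars (R := ℤ) (algebraMap ℤ ℚ).injective_int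
  have hal : ∀ x ∈ Set.range θ, IsIntegral F x := by
    rintro _ ⟨i, rfl⟩
    have h : IsAlgebraic F.toSubalgebra (θ i) :=
      (ha i).tower_top_of_subalgebra_le (IntermediateField.algebra_adjoin_le_adjoin ℚ _)
    exact IsAlgebraic.isIntegral (K := F) h
  set K := IntermediateField.adjoin F (Set.range θ) with hK
  have : FiniteDimensional F K := IntermediateField.finiteDimensional_adjoin hal
  let b := Module.finBasis F K
  let θ' : κ → K := fun i => ⟨θ i, IntermediateField.subset_adjoin _ _ ⟨i, rfl⟩⟩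
  have hrep : ∀ y : K, (y : ℂ) = ∑ l, (b.repr y l : ℂ) * (b l : ℂ) := fun y => by
    conv_lhs => rw [← b.sum_repr y]
    rw [IntermediateField.coe_sum]
    rfl
  obtain ⟨D, p, hD, hp⟩ := JS.den_common ω
    (ι := (κ × Fin (Module.finrank F K) × Fin (Module.finrank F K)) ⊕ Fin (Module.finrank F K))
    (Sum.elim (fun a => (b.repr (θ' a.1 * b a.2.1) a.2.2 : ℂ)) fun l => (b.repr 1 l : ℂ))
    (by rintro (a | l) <;> exact Subtype.property _)
  have hmem : ∀ q : MvPolynomial (Fin T) ℤ, aeval ω q ∈ F := fun q => by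
    induction q using MvPolynomial.induction_on with
    | C a => simp
    | add p q hp hq => rw [map_add]; exact add_mem hp hq
    | mul_X p t hp =>
      rw [map_mul, aeval_X]
      exact mul_mem hp (IntermediateField.subset_adjoin _ _ ⟨t, rfl⟩)
  obtain ⟨C, hC⟩ := JS.tables θ (aeval ω : MvPolynomial (Fin T) ℤ →ₐ[ℤ] ℂ).toRingHom
    (fun l => (b l : ℂ)) D hD (fun i k l => p (.inl (i, k, l))) (fun l => p (.inr l))
    (fun i k => by
      have h := hrep (θ' i * b k)
      have h' : θ i * (b k : ℂ) = ((θ' i * b k : K) : ℂ) := rfl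
      rw [h', h, Finset.mul_sum]
      refine Finset.sum_congr rfl fun l _ => ?_
      rw [← mul_assoc]
      exact congrArg (· * (b l : ℂ)) (hp (.inl (i, k, l))))
    (by
      have h := hrep 1
      have h' : ((1 : K) : ℂ) = 1 := rfl
      rw [h'] at h
      rw [← mul_one ((aeval ω : MvPolynomial (Fin T) ℤ →ₐ[ℤ] ℂ).toRingHom D), h, Finset.mul_sum]
      refine Finset.sum_congr rfl fun l _ => ?_
      rw [← mul_assoc]
      exact congrArg (· * (b l : ℂ)) (hp (.inr l)))
    (fun r hr l => by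
      have h := Fintype.linearIndependent_iff.1 b.linearIndependent
        (fun l => (⟨aeval ω (r l), hmem _⟩ : F)) (by
          apply Subtype.ext
          rw [IntermediateField.coe_sum]
          exact hr) l
      apply hinj
      rw [map_zero]
      exact congrArg Subtype.val h)
  exact ⟨_, C, hC⟩

end Pool.Agent.Lib.MP_12eca1_ag.P
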