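import Pool.Agent.Lib.MP_12eca1_ag.P.Basic

/-!
A weak form of the theorem of Dobrowolski and lower bounds for states of dimension zero.
-/

namespace Pool.Agent.Lib.MP_12eca1_ag.P

namespace JT

open Polynomial NumberField Filter Module

lemma le_totient_sq (n : ℕ) : n ≤ 2 * n.totient ^ 2 ∧ (Odd n → n ≤ n.totient ^ 2) := by
  induction n using Nat.recOnPosPrimePosCoprime with
  | zero => simp
  | one => simp
  | prime_pow p k hp hk =>
    obtain ⟨k, rfl⟩ := Nat.exists_eq_succ_of_ne_zero hk.ne'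
    obtain ⟨r, rfl⟩ := Nat.exists_eq_add_of_le' hp.two_le
    have h1 : 1 ≤ (r + 2) ^ k := Nat.one_le_pow _ _ (by omega)
    rw [Nat.totient_prime_pow_succ hp, pow_succ, mul_pow, show r + 2 - 1 = r + 1 from rfl]
    have h2 : (r + 2) ^ k ≤ ((r + 2) ^ k) ^ 2 := Nat.le_self_pow (by norm_num) _
    refine ⟨?_, fun h => Nat.mul_le_mul h2 ?_⟩
    · rw [mul_left_comm]; exact Nat.mul_le_mul h2 (by nlinarith)
    · have := (Nat.odd_mul.mp h).2
      have h3 : r ≠ 0 := by rintro rfl; exact absurd this (by decide)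
      nlinarith [Nat.pos_of_ne_zero h3]
  | coprime a b _ _ hab ha hb =>
    rw [Nat.totient_mul hab, mul_pow]
    refine ⟨?_, fun h => Nat.mul_le_mul (ha.2 (Nat.odd_mul.mp h).1) (hb.2 (Nat.odd_mul.mp h).2)⟩
    rcases Nat.even_or_odd a with h | h
    · have h2 : Odd b := (Nat.even_or_odd b).resolve_left fun h' => by
        have := Nat.dvd_gcd h.two_dvd h'.two_dvd
        rw [hab] at this; omega
      rw [← mul_assoc]; exact Nat.mul_le_mul ha.1 (hb.2 h2)
    · rw [mul_left_comm]; exact Nat.mul_le_mul (ha.2 h) hb.1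

lemma dvd_sum_pow_prime {R κ : Type*} [CommRing R] {p : ℕ} (hp : p.Prime) (t : Finset κ)
    (f : κ → R) : (p : R) ∣ (∑ i ∈ t, f i) ^ p - ∑ i ∈ t, f i ^ p := by
  classical
  induction t using Finset.induction_on with
  | empty => simp [hp.ne_zero]
  | insert a t ha ih =>
    obtain ⟨r, hr⟩ := exists_add_pow_prime_eq hp (f a) (∑ i ∈ t, f i)
    obtain ⟨u, hu⟩ := ih
    rw [Finset.sum_insert ha, Finset.sum_insert ha, hr]
    exact ⟨u + f a * (∑ i ∈ t, f i) * r, by linear_combination hu⟩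

lemma int_of_integral {q : ℚ} (h : IsIntegral ℤ (q : ℂ)) : ∃ n : ℤ, (q : ℂ) = n := by
  have h1 : IsIntegral ℤ q := (isIntegral_algebraMap_iff (algebraMap ℚ ℂ).injective).mp h
  obtain ⟨n, hn⟩ := IsIntegrallyClosed.isIntegral_iff.mp h1
  exact ⟨n, by rw [← hn]; simp⟩

variable {K : Type*} [Field K] [NumberField K]

lemma sum_pow_prime_eq {α : K} (hα : IsIntegral ℤ α) {p : ℕ} (hp : p.Prime)
    (h : ‖∑ σ : K →ₐ[ℚ] ℂ, σ α ^ p - ∑ σ : K →ₐ[ℚ] ℂ, σ α‖ < p) :
    ∑ σ : K →ₐ[ℚ] ℂ, σ α ^ p = ∑ σ : K →ₐ[ℚ] ℂ, σ α := by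
  have h1 : ∀ {x : K}, IsIntegral ℤ x → ∃ n : ℤ, ∑ σ : K →ₐ[ℚ] ℂ, σ x = n := fun {x} hx => by
    have h2 := IsIntegral.sum (s := Finset.univ) (fun σ : K →ₐ[ℚ] ℂ => σ x) fun σ _ =>
      hx.map (σ.restrictScalars ℤ)
    rw [← trace_eq_sum_embeddings] at h2 ⊢
    exact int_of_integral h2
  obtain ⟨a, ha⟩ := h1 hα
  obtain ⟨b, hb⟩ := h1 (hα.pow p)
  simp only [map_pow] at hb
  obtain ⟨r, hr⟩ := dvd_sum_pow_prime hp Finset.univ
    fun σ : K →ₐ[ℚ] ℂ => (⟨σ α, hα.map (σ.restrictScalars ℤ)⟩ : integralClosure ℤ ℂ)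
  have h2 := congrArg Subtype.val hr
  push_cast at h2
  rw [ha, hb] at h2
  have hp0 : (p : ℂ) ≠ 0 := by exact_mod_cast hp.ne_zero
  have h3 : (r : ℂ) = (((a ^ p - b) / p : ℚ) : ℂ) := by push_cast; rw [h2]; field_simp
  obtain ⟨n, hn⟩ := int_of_integral (h3 ▸ r.2)
  rw [h3, hn] at h2
  have h4 : a ^ p - b = p * n := by exact_mod_cast h2
  have := Fact.mk hp
  have h5 : (p : ℤ) ∣ a ^ p - a := by
    rw [← ZMod.intCast_zmod_eq_zero_iff_dvd]; simp
  have h6 : (p : ℤ) ∣ b - a := by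
    have := dvd_sub h5 (Dvd.intro _ h4.symm)
    rwa [sub_sub_sub_cancel_left] at this
  rw [ha, hb] at h ⊢
  rw [← Int.cast_sub, Complex.norm_intCast] at h
  rw [sub_eq_zero.mp (Int.eq_zero_of_abs_lt_dvd h6 (by exact_mod_cast h))]

lemma exists_eq_of_power_sums {κ : Type*} [Fintype κ] (u v : κ → ℂ)
    (h : ∀ k < 2 * Fintype.card κ, ∑ i, u i ^ k = ∑ i, v i ^ k) (i0 : κ) : ∃ i, v i = u i0 := by
  classical
  by_contra hcon
  push Not at hcon
  set A := (Finset.univ.image u ∪ Finset.univ.image v).erase (u i0) with hA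
  have hc : A.card < 2 * Fintype.card κ := by
    refine (Finset.card_erase_lt_of_mem (by simp)).trans_le ((Finset.card_union_le _ _).trans ?_)
    rw [two_mul]
    exact Nat.add_le_add Finset.card_image_le Finset.card_image_le
  set P : ℂ[X] := ∏ a ∈ A, (X - C a) with hP
  have hd : P.natDegree < 2 * Fintype.card κ := by
    rw [hP, natDegree_finsetProd_X_sub_C_eq_card]; exact hc
  have h1 : ∑ i, P.eval (u i) = ∑ i, P.eval (v i) := by
    simp only [eval_eq_sum_range' hd]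
    rw [Finset.sum_comm, Finset.sum_comm (f := fun i k => P.coeff k * v i ^ k)]
    refine Finset.sum_congr rfl fun k hk => ?_
    rw [← Finset.mul_sum, ← Finset.mul_sum, h k (Finset.mem_range.mp hk)]
  have h2 : ∀ a ∈ A, P.eval a = 0 := fun a ha => by
    rw [hP, eval_prod]; exact Finset.prod_eq_zero ha (by simp)
  have h3 : P.eval (u i0) ≠ 0 := by
    rw [hP, eval_prod]
    exact Finset.prod_ne_zero_iff.mpr fun a ha => by
      simpa [sub_eq_zero] using (Finset.mem_erase.mp ha).1.symm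
  rw [Finset.sum_eq_zero (f := fun i => P.eval (v i)) fun i _ => h2 _ (by simp [hA, hcon i]),
    ← Finset.sum_filter_of_ne (p := fun i => u i = u i0) (fun i _ hi => by
      by_contra h4; exact hi (h2 _ (by simp [hA, h4]))),
    Finset.sum_congr rfl (g := fun _ => P.eval (u i0)) fun i hi => by
      rw [(Finset.mem_filter.mp hi).2], Finset.sum_const, nsmul_eq_mul] at h1
  refine mul_ne_zero ?_ h3 h1
  exact_mod_cast Finset.card_ne_zero.mpr ⟨i0, by simp⟩

lemma dob_aux {D : ℕ} (hD : Module.finrank ℚ K ≤ D) {γ : K} (hγ : γ ≠ 0) (hint : IsIntegral ℤ γ)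
    (hh : ∀ σ : K →ₐ[ℚ] ℂ, ‖σ γ‖ ^ (24 * D ^ 2) ≤ 3) : ∃ j, 0 < j ∧ j ≤ 2 * D ^ 2 ∧ γ ^ j = 1 := by
  have hD1 : 1 ≤ D := Module.finrank_pos.trans_le hD
  obtain ⟨p, hp, hp1, hp2⟩ := Nat.exists_prime_lt_and_le_two_mul (6 * D) (by omega)
  have hcard : Fintype.card (K →ₐ[ℚ] ℂ) ≤ D := (AlgHom.card ℚ K ℂ).le.trans hD
  have h1 : ∀ k ≤ 24 * D ^ 2, ‖∑ σ : K →ₐ[ℚ] ℂ, σ γ ^ k‖ ≤ D * 3 := fun k hk => by
    refine (norm_sum_le _ _).trans ((Finset.sum_le_card_nsmul _ _ 3 fun σ _ => ?_).trans ?_)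
    · rw [norm_pow]
      rcases le_total ‖σ γ‖ 1 with h | h
      · exact (pow_le_one₀ (norm_nonneg _) h).trans (by norm_num)
      · exact (pow_le_pow_right₀ h hk).trans (hh σ)
    · rw [nsmul_eq_mul, Finset.card_univ]; gcongr
  obtain ⟨σ0, -, hσ0⟩ := Finset.exists_max_image Finset.univ (fun σ : K →ₐ[ℚ] ℂ => ‖σ γ‖)
    (Finset.card_pos.mp (by rw [Finset.card_univ, AlgHom.card]; exact Module.finrank_pos))
  obtain ⟨σ1, hσ1⟩ := exists_eq_of_power_sums (fun σ : K →ₐ[ℚ] ℂ => σ γ ^ p) (fun σ => σ γ)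
    (fun k hk => by
      have h2 := sum_pow_prime_eq (hint.pow k) hp (by
        simp only [map_pow, ← pow_mul]
        refine (norm_sub_le _ _).trans_lt ?_
        have h3 := h1 (k * p) (by nlinarith)
        have h4 := h1 k (by nlinarith)
        have h5 : (6 * D : ℝ) < p := by exact_mod_cast hp1
        linarith)
      simpa only [map_pow, ← pow_mul, mul_comm] using h2) σ0
  have h2 : ‖σ0 γ‖ ≤ 1 := by
    by_contra h3
    have h4 := hσ0 σ1 (Finset.mem_univ _)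
    rw [hσ1, norm_pow] at h4
    have := pow_lt_pow_right₀ (not_le.mp h3) hp.one_lt
    rw [pow_one] at this
    linarith
  obtain ⟨n, hn, hn1⟩ := Embeddings.pow_eq_one_of_norm_le_one K ℂ hγ hint fun φ =>
    (hσ0 φ.toRatAlgHom (Finset.mem_univ _)).trans h2
  have h3 := (IsPrimitiveRoot.orderOf γ).totient_le_degree_minpoly
  refine ⟨orderOf γ, (isOfFinOrder_iff_pow_eq_one.mpr ⟨n, hn, hn1⟩).orderOf_pos,
    (le_totient_sq _).1.trans ?_, pow_orderOf_eq_one γ⟩
  rw [← (minpoly.monic hint).natDegree_map (algebraMap ℤ ℚ),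
    ← minpoly.isIntegrallyClosed_eq_field_fractions' ℚ hint] at h3
  have := h3.trans ((minpoly.natDegree_le _).trans hD)
  gcongr

lemma lead_unit {Q : ℤ[X]} (hQ : Q ≠ 0) (h : ∀ i, |Q.coeff i| ≤ 1) : |Q.leadingCoeff| = 1 :=
  le_antisymm (h _) (Int.one_le_abs (leadingCoeff_ne_zero.mpr hQ))

lemma integral_of_small {γ : ℂ} {Q : ℤ[X]} (hQ : Q ≠ 0) (h : ∀ i, |Q.coeff i| ≤ 1)
    (h0 : aeval γ Q = 0) : IsIntegral ℤ γ := by
  rcases (abs_eq zero_le_one).mp (lead_unit hQ h) with h1 | h1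
  · exact ⟨Q, h1, h0⟩
  · refine ⟨-Q, ?_, ?_⟩
    · rw [Monic, leadingCoeff_neg, h1, neg_neg]
    · rw [← aeval_def, map_neg, h0, neg_zero]

lemma geom_lt {x : ℝ} (hx : 2 ≤ x) (n : ℕ) : ∑ i ∈ Finset.range n, x ^ i < x ^ n := by
  induction n with
  | zero => simp
  | succ n ih =>
    rw [Finset.sum_range_succ, pow_succ]
    nlinarith [pow_pos (show 0 < x by linarith) n]

lemma not_root {u : ℂ} (hu : 2 ≤ ‖u‖) {Q : ℤ[X]} (hQ : Q ≠ 0) (h : ∀ i, |Q.coeff i| ≤ 1) :
    aeval u Q ≠ 0 := by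
  intro h0
  rw [aeval_eq_sum_range, Finset.sum_range_succ, add_comm, add_eq_zero_iff_eq_neg] at h0
  have h1 := congrArg norm h0
  have h2 : ‖Q.coeff Q.natDegree‖ = 1 := by
    rw [Int.norm_eq_abs]
    exact_mod_cast lead_unit hQ h
  rw [norm_neg, norm_smul, h2, one_mul, norm_pow] at h1
  refine (geom_lt hu Q.natDegree).not_ge (h1.le.trans ((norm_sum_le _ _).trans
    (Finset.sum_le_sum fun i _ => ?_)))
  rw [norm_smul, norm_pow]
  refine mul_le_of_le_one_left (by positivity) ?_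
  rw [Int.norm_eq_abs]
  exact_mod_cast h i

end JT

open Polynomial in
theorem stDob : StDob := by
  intro γ d P hγ hP hd h0
  have hd1 : 1 ≤ d := by
    refine le_trans (Nat.one_le_iff_ne_zero.mpr fun h => hP ?_) hd
    rw [eq_C_of_natDegree_eq_zero h] at h0 ⊢
    simpa using h0
  by_cases hint : IsIntegral ℤ γ
  swap
  · exact Or.inr ⟨1, one_pos, by nlinarith, fun Q hQ h h1 =>
      hint (JT.integral_of_small hQ h (by rwa [pow_one] at h1))⟩
  have hq : IsIntegral ℚ γ := hint.tower_top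
  have := IntermediateField.adjoin.finiteDimensional hq
  have : NumberField (IntermediateField.adjoin ℚ {γ}) := {}
  have hD : Module.finrank ℚ (IntermediateField.adjoin ℚ {γ}) ≤ d := by
    rw [IntermediateField.adjoin.finrank hq]
    exact (natDegree_le_of_dvd (minpoly.dvd ℚ γ h0) hP).trans hd
  set x : IntermediateField.adjoin ℚ {γ} := IntermediateField.AdjoinSimple.gen ℚ γ with hx
  have hxv : (x : ℂ) = γ := rfl
  have hxi : IsIntegral ℤ x :=
    (isIntegral_algHom_iff ((IntermediateField.adjoin ℚ {γ}).val.restrictScalars ℤ)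
      Subtype.val_injective).mp hint
  by_cases hh : ∀ σ : IntermediateField.adjoin ℚ {γ} →ₐ[ℚ] ℂ, ‖σ x‖ ^ (24 * d ^ 2) ≤ 3
  · obtain ⟨j, h1, h2, h3⟩ := JT.dob_aux hD (fun h => hγ (by rw [← hxv, h]; rfl)) hxi hh
    exact Or.inl ⟨j, h1, h2, by rw [← hxv]; exact_mod_cast congrArg Subtype.val h3⟩
  · push Not at hh
    obtain ⟨σ, hσ⟩ := hh
    refine Or.inr ⟨24 * d ^ 2, by positivity, le_rfl, fun Q hQ h h1 => ?_⟩
    refine JT.not_root (u := σ x ^ (24 * d ^ 2)) (by rw [norm_pow]; linarith) hQ h ?_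
    have h2 : aeval (x ^ (24 * d ^ 2)) Q = 0 := by
      apply Subtype.val_injective
      have := aeval_algHom_apply ((IntermediateField.adjoin ℚ {γ}).val.restrictScalars ℤ)
        (x ^ (24 * d ^ 2)) Q
      exact this.symm.trans h1
    have h3 := aeval_algHom_apply (σ.restrictScalars ℤ) (x ^ (24 * d ^ 2)) Q
    rw [h2, map_zero, map_pow] at h3
    exact h3

namespace JT

open Polynomial Filter Module

variable {E A : Type} [NormedAddCommGroup E] [InnerProductSpace ℝ E] [CommRing A] [Algebra ℚ A]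
  {ζ : E →ₗ[ℝ] ℂ} {M : Submodule ℤ E} {W' : Submodule ℤ ℂ} {g : E → A} {ev : A →ₐ[ℚ] ℂ}
  {ρ : ℕ} {α β : ℝ}

/-- counting digit expansions in the base `exp (ζ a)` -/
lemma count (h : St ζ W' M g ev ρ 0 α β) : ∀ᶠ R : ℝ in atTop, ∀ a ∈ M, ∀ n m : ℕ,
    n * ‖a‖ ≤ R → (n + 1) * m ≤ Real.exp R →
    (∀ Q : ℤ[X], Q ≠ 0 → Q.natDegree ≤ n → (∀ i, |Q.coeff i| ≤ m) →
      aeval (Complex.exp (ζ a)) Q ≠ 0) →
    ((m : ℝ) + 1) ^ (n + 1) ≤ Real.exp (Real.exp α * R) := by
  classical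
  filter_upwards [h.cnt] with R hR a ha n m h1 h2 h3
  let v : (Fin (n + 1) → Fin (m + 1)) → A := fun c => ∑ j, (((c j : ℕ) : ℤ) : A) * g ((j : ℕ) • a)
  have hev : ∀ c, ev (v c) =
      aeval (Complex.exp (ζ a)) (ofFn (n + 1) fun j => ((c j : ℕ) : ℤ)) := by
    intro c
    rw [ofFn_eq_sum_monomial, map_sum, map_sum]
    refine Finset.sum_congr rfl fun j _ => ?_
    rw [map_mul, h.nsmul ha, map_pow, h.spec a ha, aeval_monomial]
    simp
  have hinj : Function.Injective v := by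
    intro c c' hc
    by_contra hne
    refine h3 (ofFn (n + 1) ((fun j => ((c j : ℕ) : ℤ)) - fun j => ((c' j : ℕ) : ℤ))) ?_ ?_ ?_ ?_
    · intro h0
      have h4 := injective_ofFn (n + 1) (h0.trans (ofFn_zero _).symm)
      refine hne (funext fun j => Fin.ext ?_)
      have := congrFun h4 j
      simp only [Pi.sub_apply, Pi.zero_apply] at this
      omega
    · exact Nat.lt_succ_iff.mp (ofFn_natDegree_lt (by omega) _)
    · intro i
      rcases lt_or_ge i (n + 1) with hi | hi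
      · rw [ofFn_coeff_eq_val_of_lt _ hi, Pi.sub_apply, abs_le]
        have := (c ⟨i, hi⟩).2
        have := (c' ⟨i, hi⟩).2
        constructor <;> omega
      · rw [ofFn_coeff_eq_zero_of_ge _ hi]
        simp
    · rw [map_sub, map_sub, ← hev, ← hev, hc, sub_self]
  have h4 := hR (Finset.univ.image v) (by
    intro w hw
    obtain ⟨c, -, rfl⟩ := Finset.mem_image.mp hw
    refine Val.mono (Val.sum Finset.univ _ (fun _ => (m : ℝ)) fun j _ =>
      Val.single (nsmul_mem ha _) ?_ ?_) le_rfl le_rfl ?_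
    · refine norm_nsmul_le.trans (le_trans ?_ h1)
      gcongr
      exact Nat.lt_succ_iff.mp j.2
    · rw [Int.cast_natCast, Nat.abs_cast]
      exact_mod_cast Nat.lt_succ_iff.mp (c j).2
    · simpa using h2)
  rw [Finset.card_image_of_injective _ hinj] at h4
  simpa using h4

lemma alpha_nonneg (h : St ζ W' M g ev ρ 0 α β) : 0 ≤ α := by
  obtain ⟨R, h1, h2⟩ := ((count h).and (eventually_gt_atTop 0)).exists
  have h3 := h1 0 M.zero_mem 0 ⌊Real.exp R⌋₊ (by simpa using h2.le)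
    (by simpa using Nat.floor_le (Real.exp_pos R).le) (fun Q hQ hd _ h0 => hQ (by
      rw [eq_C_of_natDegree_eq_zero (Nat.le_zero.mp hd)] at h0 ⊢
      simpa using h0))
  rw [zero_add, pow_one] at h3
  have h4 := Real.exp_lt_exp.mp ((Nat.lt_floor_add_one _).trans_le h3)
  have h5 : 1 < Real.exp α := by nlinarith
  exact (Real.one_lt_exp_iff.mp h5).le

lemma low_degree (h : St ζ W' M g ev ρ 0 α β) {a : E} (ha : a ∈ M) :
    ∃ P : ℚ[X], P ≠ 0 ∧ P.natDegree ≤ ⌊Real.exp α⌋₊ ∧ aeval (Complex.exp (ζ a)) P = 0 := by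
  by_contra hc
  set d := ⌊Real.exp α⌋₊ with hd
  have h0 : Real.exp α < d + 1 := Nat.lt_floor_add_one _
  obtain ⟨R, h1, h2, h3⟩ := ((count h).and ((eventually_ge_atTop (d * ‖a‖)).and
    (eventually_gt_atTop ((d + 1) * Real.log (d + 1) / (d + 1 - Real.exp α))))).exists
  have hd0 : (0 : ℝ) < d + 1 := by positivity
  have h4 := h1 a ha d ⌊Real.exp R / (d + 1)⌋₊ h2
    (by rw [mul_comm, ← le_div_iff₀ hd0]; exact Nat.floor_le (by positivity))
    (fun Q hQ hq _ h5 => hc ⟨Q.map (algebraMap ℤ ℚ),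
      (Polynomial.map_ne_zero_iff (algebraMap ℤ ℚ).injective_int).mpr hQ,
      natDegree_map_le.trans hq, by rwa [aeval_map_algebraMap]⟩)
  have h5 : (Real.exp R / (d + 1)) ^ (d + 1) ≤ Real.exp (Real.exp α * R) :=
    (pow_le_pow_left₀ (by positivity) (Nat.lt_floor_add_one _).le _).trans h4
  rw [← Real.exp_log hd0, ← Real.exp_sub, ← Real.exp_nat_mul, Real.exp_le_exp] at h5
  rw [div_lt_iff₀ (by linarith)] at h3
  push_cast at h5
  nlinarith

lemma norm_lower (hD : StDob) (h : St ζ W' M g ev ρ 0 α β) {Z : ℝ} (hZ : 1 ≤ Z)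
    (hζ : ∀ v, ‖ζ v‖ ≤ Z * ‖v‖) {a : E} (ha : a ∈ M) (h0 : ζ a ≠ 0) :
    Real.exp (-(3 * α + 4)) / Z ≤ ‖a‖ := by
  obtain ⟨P, hP, hd, hr⟩ := low_degree h ha
  have hα := alpha_nonneg h
  have e1 : 1 ≤ Real.exp α := Real.one_le_exp hα
  have e2 : ((⌊Real.exp α⌋₊ : ℕ) : ℝ) ≤ Real.exp α := Nat.floor_le (by positivity)
  have ha0 : 0 < ‖a‖ := norm_pos_iff.mpr fun h => h0 (by rw [h, map_zero])
  have e4 : (50 : ℝ) ≤ Real.exp 4 := by
    have := Real.exp_one_gt_d9
    rw [show (4 : ℝ) = (4 : ℕ) * 1 by norm_num, Real.exp_nat_mul]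
    refine le_trans (by norm_num) (pow_le_pow_left₀ (show (0 : ℝ) ≤ 2.7 by norm_num)
      (by linarith) 4)
  have e3 : Real.exp (-(3 * α + 4)) * (50 * Real.exp α ^ 3) ≤ 1 := by
    rw [Real.exp_neg, Real.exp_add, show 3 * α = (3 : ℕ) * α by norm_num, Real.exp_nat_mul,
      inv_mul_le_iff₀ (by positivity), mul_one, mul_comm]
    gcongr
  have ep := Real.exp_pos (-(3 * α + 4))
  suffices hs : 1 ≤ 50 * Real.exp α ^ 3 * (Z * ‖a‖) by
    rw [div_le_iff₀ (by linarith), mul_comm ‖a‖]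
    have : 0 < Z * ‖a‖ := by positivity
    nlinarith
  rcases hD _ _ P (Complex.exp_ne_zero _) hP hd hr with ⟨j, j0, j1, j2⟩ | ⟨k, k0, k1, k2⟩
  · rw [← Complex.exp_nat_mul, Complex.exp_eq_one_iff] at j2
    obtain ⟨n, hn⟩ := j2
    have hn0 : n ≠ 0 := by
      rintro rfl
      simp [h0, j0.ne'] at hn
    have h1 := congrArg norm hn
    have h2 : (1 : ℝ) ≤ |(n : ℝ)| := by exact_mod_cast Int.one_le_abs hn0
    simp only [norm_mul, Complex.norm_natCast, Complex.norm_intCast, Complex.norm_I,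
      Complex.norm_real, Complex.norm_ofNat, Real.norm_of_nonneg Real.pi_pos.le] at h1
    have h3 : (j : ℝ) ≤ 2 * Real.exp α ^ 3 := by
      have : (j : ℝ) ≤ 2 * ((⌊Real.exp α⌋₊ : ℕ) : ℝ) ^ 2 := by exact_mod_cast j1
      refine this.trans (mul_le_mul_of_nonneg_left ?_ zero_le_two)
      exact (pow_le_pow_left₀ (by positivity) e2 2).trans (pow_le_pow_right₀ e1 (by norm_num))
    have h4 : (j : ℝ) * ‖ζ a‖ ≤ 2 * Real.exp α ^ 3 * (Z * ‖a‖) :=
      mul_le_mul h3 (hζ a) (norm_nonneg _) (by positivity)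
    nlinarith [Real.pi_gt_three]
  · have hk : (0 : ℝ) < k := by exact_mod_cast k0
    have hk1 : (1 : ℝ) ≤ k := by exact_mod_cast k0
    obtain ⟨R, h1, h2, h3⟩ := ((count h).and ((eventually_ge_atTop (2 / ‖a‖)).and
      (eventually_gt_atTop 0))).exists
    have hka : ‖k • a‖ = k * ‖a‖ := by
      rw [← Nat.cast_smul_eq_nsmul ℝ, norm_smul, Real.norm_natCast]
    have hf : ((⌊R / (k * ‖a‖)⌋₊ : ℕ) : ℝ) ≤ R / (k * ‖a‖) := Nat.floor_le (by positivity)
    have h4 := h1 (k • a) (nsmul_mem ha k) ⌊R / (k * ‖a‖)⌋₊ 1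
      (by rw [hka, ← le_div_iff₀ (by positivity)]; exact hf)
      (by
        have h5 : R / (k * ‖a‖) ≤ R ^ 2 / 2 := by
          rw [div_le_iff₀ ha0] at h2
          rw [div_le_iff₀ (by positivity)]
          nlinarith [mul_le_mul_of_nonneg_right hk1 (show 0 ≤ R * (R * ‖a‖) by positivity)]
        have := Real.quadratic_le_exp_of_nonneg h3.le
        push_cast
        linarith)
      (fun Q hQ _ hc => by
        rw [map_nsmul, nsmul_eq_mul, Complex.exp_nat_mul]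
        exact k2 Q hQ (by exact_mod_cast hc))
    rw [Nat.cast_one, one_add_one_eq_two, ← Real.exp_log two_pos, ← Real.exp_nat_mul,
      Real.exp_le_exp] at h4
    push_cast at h4
    have h5 := (Nat.lt_floor_add_one (R / (k * ‖a‖))).le
    have l2 := Real.log_two_gt_d9
    have h6 : R / (k * ‖a‖) * (1 / 2) ≤ Real.exp α * R :=
      (mul_le_mul h5 (by linarith) (by norm_num) (by positivity)).trans h4
    rw [div_mul_eq_mul_div, div_le_iff₀ (by positivity)] at h6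
    have h7 : 1 / 2 ≤ Real.exp α * (k * ‖a‖) := by
      refine le_of_mul_le_mul_left (h6.trans (le_of_eq ?_)) h3
      ring
    have h8 : (k : ℝ) ≤ 24 * Real.exp α ^ 2 := by
      have : (k : ℝ) ≤ 24 * ((⌊Real.exp α⌋₊ : ℕ) : ℝ) ^ 2 := by exact_mod_cast k1
      refine this.trans (mul_le_mul_of_nonneg_left ?_ (by norm_num))
      exact pow_le_pow_left₀ (by positivity) e2 2
    have h9 : Real.exp α * (k * ‖a‖) ≤ Real.exp α * (24 * Real.exp α ^ 2 * (Z * ‖a‖)) := by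
      gcongr
      exact le_mul_of_one_le_left ha0.le hZ
    nlinarith

/-- packing of lattice points -/
lemma pack (h : St ζ W' M g ev ρ 0 α β) {lam R : ℝ} (hl : 0 < lam)
    (hs : ∀ a ∈ M, a ≠ 0 → lam ≤ ‖a‖) (s : Finset E) (hR : ∀ a ∈ s, a ∈ M ∧ ‖a‖ ≤ R) :
    s.card ≤ (⌊2 * R / lam⌋₊ + 1) ^ ρ := by
  classical
  have := h.finite
  have := h.free
  let b := Module.finBasisOfFinrankEq ℤ M h.rk
  set N := ⌊2 * R / lam⌋₊ + 1 with hN
  have : NeZero N := ⟨by omega⟩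
  let f : s → Fin ρ → ZMod N := fun a i => (b.repr ⟨a, (hR a a.2).1⟩ i : ZMod N)
  have hf : Function.Injective f := by
    intro a a' haa
    have h1 : ∀ i, ∃ c : ℤ, b.repr ⟨a', (hR a' a'.2).1⟩ i - b.repr ⟨a, (hR a a.2).1⟩ i = N * c :=
      fun i => (ZMod.intCast_eq_intCast_iff_dvd_sub _ _ _).mp (congrFun haa i)
    choose c hc using h1
    have h2 : (⟨a', (hR a' a'.2).1⟩ - ⟨a, (hR a a.2).1⟩ : M) = N • b.equivFun.symm c := by
      apply b.equivFun.injective
      rw [map_nsmul, b.equivFun.apply_symm_apply, map_sub]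
      ext i
      simpa using hc i
    have h3 : (a' : E) - a = N • (b.equivFun.symm c : E) := by
      simpa using congrArg Subtype.val h2
    by_contra hne
    have h4 : (b.equivFun.symm c : E) ≠ 0 := by
      intro h0
      rw [h0, smul_zero, sub_eq_zero] at h3
      exact hne (Subtype.ext h3.symm)
    have h5 := hs _ (b.equivFun.symm c).2 h4
    have h6 := norm_sub_le (a' : E) a
    rw [h3, ← Nat.cast_smul_eq_nsmul ℝ, norm_smul, Real.norm_natCast] at h6
    have h7 : 2 * R / lam < N := by rw [hN]; push_cast; exact Nat.lt_floor_add_one _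
    rw [div_lt_iff₀ hl] at h7
    have h8 := mul_le_mul_of_nonneg_left h5 (Nat.cast_nonneg (α := ℝ) N)
    linarith [(hR a a.2).2, (hR a' a'.2).2]
  simpa using Fintype.card_le_of_injective f hf

end JT

theorem stT (hD : StDob) : StT := by
  intro E A _ _ _ _ ζ W M g ev ρ α β Z h hZ hζ
  refine ⟨JT.alpha_nonneg h, fun hinj => ?_⟩
  set lam := Real.exp (-(3 * α + 4)) / Z with hlam
  have hl : 0 < lam := by positivity
  obtain ⟨R, ⟨s, h1, h2⟩, h3⟩ := (h.vol.and (Filter.eventually_ge_atTop lam)).exists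
  have hR : 0 < R := hl.trans_le h3
  have h4 := JT.pack h hl
    (fun a ha h0 => JT.norm_lower hD h hZ hζ ha fun h5 => h0 (hinj a ha h5)) s h1
  have h5 : ((⌊2 * R / lam⌋₊ + 1 : ℕ) : ℝ) ≤ Real.exp (3 * α + 6 + Real.log Z) * R := by
    have e1 : ((⌊2 * R / lam⌋₊ : ℕ) : ℝ) ≤ 2 * R / lam := Nat.floor_le (by positivity)
    have e2 : 1 ≤ R / lam := (one_le_div hl).mpr h3
    have e3 : (3 : ℝ) ≤ Real.exp 2 := by linarith [Real.add_one_le_exp 2]
    have e4 : Real.exp (3 * α + 6 + Real.log Z) * R = Real.exp 2 * (R / lam) := by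
      rw [hlam, show 3 * α + 6 + Real.log Z = 2 + (3 * α + 4) + Real.log Z by ring, Real.exp_add,
        Real.exp_add, Real.exp_log (by linarith), Real.exp_neg]
      field_simp
    rw [e4, mul_div_assoc] at *
    push_cast
    nlinarith
  have h6 : Real.exp (-β) * R ^ ρ ≤ (Real.exp (3 * α + 6 + Real.log Z) * R) ^ ρ := by
    refine h2.trans (le_trans ?_ (pow_le_pow_left₀ (by positivity) h5 ρ))
    exact_mod_cast h4
  rw [mul_pow, ← Real.exp_nat_mul] at h6
  exact Real.exp_le_exp.mp (le_of_mul_le_mul_right h6 (by positivity))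

end Pool.Agent.Lib.MP_12eca1_ag.P
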