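import Pool.Agent.Lib.MP_12eca1_ag.P.Defs

/-! Gram determinants: change of basis, distance formula, index formula. -/

namespace Pool.Agent.Lib.MP_12eca1_ag.P

open Module Matrix Set

namespace JV

variable {E : Type*} [NormedAddCommGroup E] [InnerProductSpace ℂ E] {m n : Type*} [Fintype m]
  [DecidableEq m] [Fintype n] [DecidableEq n]

theorem lvol_equiv (e : m ≃ n) (v : n → E) : lvol (v ∘ e) = lvol v := by
  rw [lvol, lvol, ← Matrix.det_submatrix_equiv_self e (gram ℂ v)]
  rfl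

theorem norm_det_chg (v : n → E) (A : Matrix n n ℂ) :
    ‖(gram ℂ fun i => ∑ j, A i j • v j).det‖ = ‖A.det‖ ^ 2 * ‖(gram ℂ v).det‖ := by
  have : (gram ℂ fun i => ∑ j, A i j • v j) = Aᵀᴴ * gram ℂ v * Aᵀ := by
    ext i k
    simp only [gram_apply, sum_inner, inner_sum, inner_smul_left, inner_smul_right, mul_apply,
      conjTranspose_apply, transpose_apply, Finset.sum_mul, Finset.mul_sum, RCLike.star_def]
    exact Finset.sum_congr rfl fun _ _ => Finset.sum_congr rfl fun _ _ => by ring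
  rw [this, det_mul, det_mul, det_conjTranspose, det_transpose, norm_mul, norm_mul, norm_star]
  ring

theorem chg (v : n → E) (A : Matrix n n ℂ) (hv : LinearIndependent ℂ v) (hA : A.det ≠ 0) :
    lvol (fun i => ∑ j, A i j • v j) = Real.log ‖A.det‖ + lvol v := by
  rw [lvol, lvol, norm_det_chg, Real.log_mul (pow_ne_zero _ (norm_ne_zero_iff.2 hA))
    (norm_ne_zero_iff.2 (det_gram_ne_zero_iff_linearIndependent.2 hv)), Real.log_pow]
  push_cast
  ring

theorem step (v : n → E) (w : E) (h : LinearIndependent ℂ (Sum.elim v fun _ : Fin 1 => w)) :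
    ∃ d : ℝ, 0 < d ∧ lvol (Sum.elim v fun _ : Fin 1 => w) = lvol v + Real.log d ∧
      (∀ s ∈ Submodule.span ℂ (range v), d ≤ ‖w - s‖) ∧
      ∃ s ∈ Submodule.span ℂ (range v), ‖w - s‖ = d := by
  set K := Submodule.span ℂ (range v)
  have : FiniteDimensional ℂ K := FiniteDimensional.span_of_finite ℂ (finite_range v)
  have hm : K.starProjection w ∈ K := K.starProjection_apply_mem w
  obtain ⟨c, hc⟩ := (Submodule.mem_span_range_iff_exists_fun ℂ).1 hm
  set w₀ := w - K.starProjection w with hw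
  have ho : ∀ i, inner ℂ (v i) w₀ = 0 := fun i =>
    K.sub_starProjection_mem_orthogonal w _ (Submodule.subset_span ⟨i, rfl⟩)
  have ho' : ∀ i, inner ℂ w₀ (v i) = 0 := fun i => inner_eq_zero_symm.1 (ho i)
  set A : Matrix (n ⊕ Fin 1) (n ⊕ Fin 1) ℂ := fromBlocks 1 0 (of fun _ j => -c j) 1
  have hA : A.det = 1 := by simp [A]
  have e : (fun i => ∑ j, A i j • Sum.elim v (fun _ : Fin 1 => w) j) =
      Sum.elim v fun _ : Fin 1 => w₀ := by
    ext i
    rcases i with i | i
    · simp [A, one_apply]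
    · simp [A, hw, hc, Subsingleton.elim i 0, sub_eq_neg_add]
  have g : gram ℂ (Sum.elim v fun _ : Fin 1 => w₀) =
      fromBlocks (gram ℂ v) 0 0 (of fun _ _ => inner ℂ w₀ w₀) := by
    ext i j
    rcases i with i | i <;> rcases j with j | j <;> simp [ho, ho']
  have g' : ‖(gram ℂ (Sum.elim v fun _ : Fin 1 => w₀)).det‖ = ‖(gram ℂ v).det‖ * ‖w₀‖ ^ 2 := by
    simp [g]
  have n1 := norm_det_chg (Sum.elim v fun _ : Fin 1 => w) A
  rw [e, hA, g', norm_one, one_pow, one_mul] at n1
  have n2 := norm_ne_zero_iff.2 (det_gram_ne_zero_iff_linearIndependent.2 h)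
  rw [← n1] at n2
  refine ⟨‖w₀‖, (norm_nonneg _).lt_of_ne fun h0 => n2 (by simp [← h0]), ?_, fun s hs => ?_,
    _, hm, rfl⟩
  · rw [lvol, lvol, ← n1, Real.log_mul (left_ne_zero_of_mul n2) (right_ne_zero_of_mul n2),
      Real.log_pow]
    push_cast
    ring
  · rw [hw, K.starProjection_minimal]
    exact ciInf_le ⟨0, forall_mem_range.2 fun _ => norm_nonneg _⟩ (⟨s, hs⟩ : K)

theorem split {b : ℕ} {n E : Type*} (v : n → E) (u : Fin (b + 1) → E) :
    Sum.elim v u ∘ ((Equiv.sumAssoc _ _ _).trans ((Equiv.refl n).sumCongr finSumFinEquiv)) =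
      Sum.elim (Sum.elim v (u ∘ Fin.castSucc)) fun _ : Fin 1 => u (Fin.last b) := by
  ext i
  rcases i with (i | i) | i
  · rfl
  · rfl
  · rw [Subsingleton.elim i 0]; rfl

theorem im_Iio {b : ℕ} {α : Type*} (u : Fin (b + 1) → α) (i : Fin b) :
    (u ∘ Fin.castSucc) '' Iio i = u '' Iio i.castSucc := by
  rw [image_comp, Fin.image_castSucc_Iio]

theorem im_last {b : ℕ} {α : Type*} (u : Fin (b + 1) → α) :
    range (u ∘ Fin.castSucc) = u '' Iio (Fin.last b) := by
  rw [range_comp, Fin.range_castSucc]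
  rfl

theorem step' {b : ℕ} (v : n → E) (u : Fin (b + 1) → E) (h : LinearIndependent ℂ (Sum.elim v u)) :
    LinearIndependent ℂ (Sum.elim v (u ∘ Fin.castSucc)) ∧ ∃ d : ℝ, 0 < d ∧
      lvol (Sum.elim v u) = lvol (Sum.elim v (u ∘ Fin.castSucc)) + Real.log d ∧
      (∀ s ∈ Submodule.span ℂ (range v ∪ u '' Iio (Fin.last b)), d ≤ ‖u (Fin.last b) - s‖) ∧
      ∃ s ∈ Submodule.span ℂ (range v ∪ u '' Iio (Fin.last b)), ‖u (Fin.last b) - s‖ = d := by
  have h' := h.comp _ ((Equiv.sumAssoc n (Fin b) (Fin 1)).trans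
    ((Equiv.refl n).sumCongr finSumFinEquiv)).injective
  rw [split] at h'
  refine ⟨h'.comp Sum.inl Sum.inl_injective, ?_⟩
  have := step _ _ h'
  rwa [← split, lvol_equiv, Sum.elim_range, im_last] at this

end JV

open JV

theorem stChg : StChg := fun _ _ _ _ _ _ v A => chg v A

theorem stV : StV := by
  intro E E' _ _ _ _ a a' b v u v' u' γ h h' hγ H
  induction b with
  | zero =>
    have e : ∀ {F : Type} [NormedAddCommGroup F] [InnerProductSpace ℂ F] {c : ℕ} (x : Fin c → F)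
        (y : Fin 0 → F), lvol (Sum.elim x y) = lvol x := fun x y =>
      (lvol_equiv (Equiv.sumEmpty _ _).symm _).symm
    simp [e]
  | succ b ih =>
    obtain ⟨l, d, d0, e, lo, -⟩ := step' v u h
    obtain ⟨l', d', d0', e', -, s', hs', ns'⟩ := step' v' u' h'
    obtain ⟨s, hs, ns⟩ := H _ s' hs'
    have i := ih (u ∘ Fin.castSucc) (u' ∘ Fin.castSucc) (γ ∘ Fin.castSucc) l l' (fun _ => hγ _)
      fun i => by rw [im_Iio, im_Iio]; exact H _
    have k := Real.log_le_log d0 ((lo s hs).trans ns)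
    rw [ns', Real.log_mul (hγ _).ne' d0'.ne'] at k
    rw [Fin.sum_univ_castSucc, e, e']
    simp only [Function.comp_apply] at i
    linarith

theorem stIdx : StIdx := by
  intro V E n _ _ _ _ _ _ ι Λ v hι hΛ hv li hc
  have : Module.Finite ℤ Λ := Module.Finite.iff_fg.2 hΛ.1
  have : IsAddTorsionFree V := .of_isTorsionFree ℂ V
  have h : ∃ x : Fin (finrank ℤ Λ) → V, IsBas Λ x := by
    refine ⟨Λ.subtype ∘ finBasis ℤ Λ, (finBasis ℤ Λ).linearIndependent.map' _ Λ.ker_subtype, ?_⟩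
    rw [range_comp, ← Submodule.map_span, Basis.span_eq, Submodule.map_subtype_top]
  rw [lcov, dif_pos h]
  obtain ⟨b1, b2⟩ := h.choose_spec
  generalize h.choose = b at b1 b2
  have e := Fintype.equivFinOfCardEq hc
  have ind : ∀ x : n → V, (∀ i, x i ∈ Λ) → LinearIndependent ℤ x →
      LinearIndependent ℂ fun i => ι (x i) := fun x h1 h2 =>
    (((linearIndependent_equiv e.symm).1 (hΛ.2 _ _ (fun _ => h1 _)
      (h2.comp _ e.symm.injective))).map' ι (LinearMap.ker_eq_bot.2 hι))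
  have c1 := b1.comp _ e.injective
  have c2 : Submodule.span ℤ (range (b ∘ e)) = Λ := by rw [e.surjective.range_comp, b2]
  have le : (Submodule.span ℤ (range v)).toAddSubgroup ≤ Λ.toAddSubgroup :=
    Submodule.span_le.2 (range_subset_iff.2 hv)
  let B : Basis n ℤ Λ.toAddSubgroup.toIntSubmodule :=
    (Basis.span c1).map (LinearEquiv.ofEq _ _ c2)
  have hB : ∀ j, (B j : V) = b (e j) := fun j => Basis.coe_span_apply c1 j
  have idx := AddSubgroup.relIndex_eq_natAbs_det _ _ le (Basis.span li) B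
  set A := (B.toMatrix fun i => ⟨v i, hv i⟩)ᵀ with hA
  have ev : (fun i => ι (v i)) = fun i => ∑ j, A.map (Int.cast : ℤ → ℂ) i j • ι (b (e j)) := by
    ext i
    have := congrArg Subtype.val (B.sum_toMatrix_smul_self (fun i => ⟨v i, hv i⟩) i)
    simp only [AddSubmonoidClass.coe_finsetSum, SetLike.val_smul_of_tower, hB] at this
    rw [← this, map_sum]
    simp [hA, Int.cast_smul_eq_zsmul]
  have dA : (A.map (Int.cast : ℤ → ℂ)).det = (A.det : ℂ) := ((Int.castRingHom ℂ).map_det A).symm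
  have n1 := norm_ne_zero_iff.2 (det_gram_ne_zero_iff_linearIndependent.2 (ind v hv li))
  rw [ev, norm_det_chg] at n1
  have n2 : (A.map (Int.cast : ℤ → ℂ)).det ≠ 0 := fun h0 => n1 (by simp [h0])
  have i2 : (Submodule.span ℤ (range v)).toAddSubgroup.relIndex Λ.toAddSubgroup =
      A.det.natAbs := by
    rw [idx, hA, det_transpose, Basis.det_apply]
    congr 3
    exact funext fun i => Subtype.ext (Basis.coe_span_apply li i)
  rw [i2, ev, chg (fun j => ι (b (e j))) _
    (ind (b ∘ e) (fun i => c2.le (Submodule.subset_span ⟨i, rfl⟩)) c1) n2,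
    ← lvol_equiv e fun i => ι (b i), dA]
  refine ⟨fun h0 => n2 (by rw [dA, Int.natAbs_eq_zero.1 h0, Int.cast_zero]), ?_⟩
  rw [add_comm, Nat.cast_natAbs, Complex.norm_intCast, Int.cast_abs]
  rfl

end Pool.Agent.Lib.MP_12eca1_ag.P
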