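import Pool.Agent.Lib.MP_12eca1_ag.P.Defs

/-! The exact sequence of multiplication by a form. -/

namespace Pool.Agent.Lib.MP_12eca1_ag.P

open MvPolynomial Module

namespace JX

variable {σ : Type}

theorem toC_inj : Function.Injective (toC : MvPolynomial σ ℤ → MvPolynomial σ ℂ) :=
  MvPolynomial.map_injective _ (RingHom.injective_int (Int.castRingHom ℂ))

theorem mem_Jl {J : Ideal (MvPolynomial σ ℤ)} {R : ℕ} {P : MvPolynomial σ ℂ} :
    P ∈ Jl J R ↔ ∃ Q, Q ∈ J ∧ Q.IsHomogeneous R ∧ toC Q = P := by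
  simp only [Jl, Submodule.mem_map, Submodule.mem_inf, Submodule.restrictScalars_mem,
    mem_homogeneousSubmodule]
  exact ⟨fun ⟨Q, ⟨h1, h2⟩, h3⟩ => ⟨Q, h1, h2, h3⟩, fun ⟨Q, h1, h2, h3⟩ => ⟨Q, ⟨h1, h2⟩, h3⟩⟩

theorem indep_of_int {n : ℕ} (v : Fin n → MvPolynomial σ ℤ) (h : LinearIndependent ℤ v) :
    LinearIndependent ℂ fun i => toC (v i) := by
  classical
  rw [Fintype.linearIndependent_iff] at h ⊢
  intro c hc i
  let b := Basis.ofVectorSpace ℚ ℂ
  refine b.ext_elem fun j => ?_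
  have h1 : ∀ m, ∑ i, b.repr (c i) j * ((coeff m (v i) : ℤ) : ℚ) = 0 := by
    intro m
    have h2 := congrArg (coeff m) hc
    simp only [coeff_sum, coeff_smul, toC, coeff_map, coeff_zero, smul_eq_mul, eq_intCast] at h2
    have h3 := congrArg (fun z => b.repr z j) h2
    simp only [map_sum, map_zero, Finsupp.coe_zero, Pi.zero_apply, Finsupp.coe_finsetSum,
      Finset.sum_apply] at h3
    rw [← h3]
    refine Finset.sum_congr rfl fun i _ => ?_
    rw [mul_comm (c i), ← zsmul_eq_mul, map_zsmul, Finsupp.smul_apply, zsmul_eq_mul, mul_comm]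
  obtain ⟨d, hd⟩ := IsLocalization.exist_integer_multiples_of_finite (nonZeroDivisors ℤ)
    fun i => (b.repr (c i) j : ℚ)
  choose z hz using hd
  have h4 : ∑ i, z i • v i = 0 := by
    ext m
    have h5 : ((∑ i, z i * coeff m (v i) : ℤ) : ℚ) = 0 := by
      push_cast
      have : ∀ i, (z i : ℚ) = (d : ℤ) * b.repr (c i) j := fun i => by
        have := hz i
        simpa [zsmul_eq_mul] using this
      simp only [this, mul_assoc, ← Finset.mul_sum, h1, mul_zero]
    simp only [coeff_sum, coeff_smul, smul_eq_mul, coeff_zero]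
    exact_mod_cast h5
  have h6 := hz i
  rw [h z h4 i] at h6
  have h7 : ((d : ℤ) : ℚ) ≠ 0 := by exact_mod_cast nonZeroDivisors.coe_ne_zero d
  simp only [map_zero, zsmul_eq_mul] at h6
  simpa [h7] using h6.symm

theorem isLat_Jl [Finite σ] (J : Ideal (MvPolynomial σ ℤ)) (R : ℕ) : IsLat (Jl J R) := by
  constructor
  · refine Submodule.FG.map _ ?_
    exact (homogeneousSubmodule_fg σ ℤ R).of_le inf_le_right
  · intro n v hv hi
    choose Q _ _ hQ using fun i => mem_Jl.1 (hv i)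
    have e : v = fun i => toC (Q i) := funext fun i => (hQ i).symm
    rw [e] at hi ⊢
    exact indep_of_int Q (LinearIndependent.of_comp toC.toAddMonoidHom.toIntLinearMap hi)

theorem hc_mul {g : MvPolynomial σ ℤ} {e : ℕ} (hg : g.IsHomogeneous e) (a : MvPolynomial σ ℤ)
    (R : ℕ) : homogeneousComponent (R + e) (g * a) = g * homogeneousComponent R a := by
  induction a using MvPolynomial.induction_on' with
  | monomial m c =>
    have h1 : (monomial m c).IsHomogeneous m.degree := isHomogeneous_monomial _ rfl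
    rw [homogeneousComponent_of_mem h1, homogeneousComponent_of_mem (hg.mul h1)]
    by_cases h : R = m.degree
    · rw [if_pos h, if_pos (by omega)]
    · rw [if_neg h, if_neg (by omega), mul_zero]
  | add p q hp hq => rw [mul_add, map_add, map_add, hp, hq, mul_add]

end JX

open JX in
theorem stX (hL : StL) : StX := by
  intro σ E' E _ _ _ _ _ ι' ι J g e R γ h1 h2 hJ hg hγ hb
  let φ : MvPolynomial σ ℂ →ₗ[ℂ] MvPolynomial σ ℂ := LinearMap.mulLeft ℂ (toC g)
  have hm : ∀ P, P ∈ (Jl ⊤ R).map (φ.restrictScalars ℤ) ↔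
      ∃ a : MvPolynomial σ ℤ, a.IsHomogeneous R ∧ toC (g * a) = P := by
    intro P
    rw [Submodule.mem_map]
    constructor
    · rintro ⟨_, h, rfl⟩
      obtain ⟨a, -, ha, rfl⟩ := mem_Jl.1 h
      exact ⟨a, ha, map_mul _ _ _⟩
    · rintro ⟨a, ha, rfl⟩
      exact ⟨toC a, mem_Jl.2 ⟨a, trivial, ha, rfl⟩, (map_mul _ _ _).symm⟩
  have e1 : Jl J (R + e) ⊔ (Jl ⊤ R).map (φ.restrictScalars ℤ) =
      Jl (J ⊔ Ideal.span {g}) (R + e) := by
    refine le_antisymm (sup_le (fun P h => ?_) fun P h => ?_) fun P h => ?_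
    · obtain ⟨Q, q1, q2, rfl⟩ := mem_Jl.1 h
      exact mem_Jl.2 ⟨Q, Ideal.mem_sup_left q1, q2, rfl⟩
    · obtain ⟨a, ha, rfl⟩ := (hm P).1 h
      exact mem_Jl.2 ⟨g * a, Ideal.mem_sup_right (Ideal.mul_mem_right _ _
        (Ideal.mem_span_singleton_self g)), by rw [add_comm]; exact hg.mul ha, rfl⟩
    · obtain ⟨Q, q1, q2, rfl⟩ := mem_Jl.1 h
      obtain ⟨j, hj, y, hy, rfl⟩ := Submodule.mem_sup.1 q1
      obtain ⟨a, rfl⟩ := Ideal.mem_span_singleton.1 hy
      have : j + g * a = homogeneousComponent (R + e) j + g * homogeneousComponent R a := by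
        rw [← hc_mul hg, ← map_add, homogeneousComponent_of_mem q2, if_pos rfl]
      rw [this, map_add]
      exact Submodule.add_mem_sup
        (mem_Jl.2 ⟨_, hJ j hj _, homogeneousComponent_isHomogeneous _ _, rfl⟩)
        ((hm _).2 ⟨_, homogeneousComponent_isHomogeneous _ _, rfl⟩)
  have e2 : Jl ⊤ R ⊓ (Jl J (R + e)).comap (φ.restrictScalars ℤ) = Jl (col J g) R := by
    ext P
    rw [Submodule.mem_inf, Submodule.mem_comap]
    constructor
    · rintro ⟨p1, p2⟩
      obtain ⟨a, -, ha, rfl⟩ := mem_Jl.1 p1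
      obtain ⟨Q, q1, -, q3⟩ := mem_Jl.1 p2
      have : Q = g * a := toC_inj (by rw [q3, map_mul]; rfl)
      exact mem_Jl.2 ⟨a, show g * a ∈ J from this ▸ q1, ha, rfl⟩
    · intro h
      obtain ⟨a, a1, ha, rfl⟩ := mem_Jl.1 h
      exact ⟨mem_Jl.2 ⟨a, trivial, ha, rfl⟩, mem_Jl.2 ⟨g * a, a1,
        by rw [add_comm]; exact hg.mul ha, map_mul _ _ _⟩⟩
  obtain ⟨r1, r2⟩ := hL _ _ E' E ι' ι φ (Jl ⊤ R) (Jl ⊤ (R + e)) (Jl J (R + e)) γ h1 h2
    (isLat_Jl _ _) (isLat_Jl _ _)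
    (fun P h => by
      obtain ⟨Q, -, q2, rfl⟩ := mem_Jl.1 h
      exact mem_Jl.2 ⟨Q, trivial, q2, rfl⟩)
    (fun P h => by
      obtain ⟨a, ha, rfl⟩ := (hm P).1 h
      exact mem_Jl.2 ⟨g * a, trivial, by rw [add_comm]; exact hg.mul ha, rfl⟩) hγ
    (fun x hx => hb x ((mem_homogeneousSubmodule _ _).1
      ((Submodule.span_le (p := homogeneousSubmodule σ ℂ R)).2 (fun P h => by
        obtain ⟨Q, -, q2, rfl⟩ := mem_Jl.1 h
        exact q2.map _) hx)))
  rw [e1, e2] at r1 r2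
  have r3 : (finrank ℤ (Jl (J ⊔ Ideal.span {g}) (R + e)) : ℝ) + finrank ℤ (Jl (col J g) R) =
      finrank ℤ (Jl J (R + e)) + finrank ℤ (Jl (⊤ : Ideal (MvPolynomial σ ℤ)) R) := by
    exact_mod_cast r1
  unfold Hf chi
  constructor
  · linarith
  · linarith

end Pool.Agent.Lib.MP_12eca1_ag.P
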