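import Pool.Agent.Lib.MP_12eca1_ag.P.JA
import Pool.Agent.Lib.MP_12eca1_ag.P.JB
import Pool.Agent.Lib.MP_12eca1_ag.P.JC
import Pool.Agent.Lib.MP_12eca1_ag.P.JD1
import Pool.Agent.Lib.MP_12eca1_ag.P.JD3
import Pool.Agent.Lib.MP_12eca1_ag.P.JDr
import Pool.Agent.Lib.MP_12eca1_ag.P.JE
import Pool.Agent.Lib.MP_12eca1_ag.P.JF
import Pool.Agent.Lib.MP_12eca1_ag.P.JF1
import Pool.Agent.Lib.MP_12eca1_ag.P.JG
import Pool.Agent.Lib.MP_12eca1_ag.P.JH
import Pool.Agent.Lib.MP_12eca1_ag.P.JIn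
import Pool.Agent.Lib.MP_12eca1_ag.P.JK
import Pool.Agent.Lib.MP_12eca1_ag.P.JL
import Pool.Agent.Lib.MP_12eca1_ag.P.JM
import Pool.Agent.Lib.MP_12eca1_ag.P.JM1
import Pool.Agent.Lib.MP_12eca1_ag.P.JN
import Pool.Agent.Lib.MP_12eca1_ag.P.JOne
import Pool.Agent.Lib.MP_12eca1_ag.P.JQ
import Pool.Agent.Lib.MP_12eca1_ag.P.JS
import Pool.Agent.Lib.MP_12eca1_ag.P.JT
import Pool.Agent.Lib.MP_12eca1_ag.P.JV
import Pool.Agent.Lib.MP_12eca1_ag.P.JX

/-!
Assembly of the polynomial bounds.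
-/

namespace Pool.Agent.Lib.MP_12eca1_ag.P

open Filter Module

theorem thmB : StB :=
  stB (stC (stX (stL stV stIdx)) (stI stIdx)) (stN stG (stHad stV stIdx))
    (stD (stD1 stS (stL stV stIdx) stZ) stD3 (stM stV stChg stIdx))

theorem thmH : StH := stH stQ (stK stE) stDr (stT stDob)

theorem thmM1 : StM1 := stM1 stTB thmB thmH (stIn stS)

theorem thmOne : StOne := stOne stTB thmB (stF (stF1 stE)) stA

lemma exists_coords {ι : Type*} [Fintype ι] (W : Submodule ℚ (ι → ℚ)) :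
    ∃ J : Finset ι, J.card ≤ finrank ℚ W ∧ ∀ w ∈ W, (∀ j ∈ J, w j = 0) → w = 0 := by
  classical
  let f : ι → Dual ℚ W := fun i => (LinearMap.proj i).comp W.subtype
  obtain ⟨κ, a, ha, hsp, hli⟩ := exists_linearIndependent' ℚ f
  have : Finite κ := Finite.of_injective a ha
  let _ := Fintype.ofFinite κ
  refine ⟨Finset.univ.image a, Finset.card_image_le.trans ?_, fun w hw h => ?_⟩
  · rw [← Subspace.dual_finrank_eq]; exact hli.fintype_card_le_finrank
  · ext i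
    obtain ⟨r, hr⟩ := (Submodule.mem_span_range_iff_exists_fun ℚ).mp
      (hsp ▸ Submodule.subset_span ⟨i, rfl⟩ : f i ∈ Submodule.span ℚ (Set.range (f ∘ a)))
    have h1 := congrArg (fun g : Dual ℚ W => g ⟨w, hw⟩) hr
    simp only [LinearMap.sum_apply, LinearMap.smul_apply] at h1
    refine h1.symm.trans (Finset.sum_eq_zero fun j _ => ?_)
    have : (f ∘ a) j ⟨w, hw⟩ = 0 := h _ (Finset.mem_image_of_mem a (Finset.mem_univ j))
    rw [this, smul_zero]

lemma exists_sub {n r : ℕ} (hr : r < n) (S : Set (Fin n → ℤ))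
    (h : ¬ ∃ M : Fin (n - r) → Fin n → ℤ, LinearIndependent ℤ M ∧ ∀ k, M k ∈ S) :
    ∃ e : Fin (r + 1) ↪ Fin n, ∀ m ∈ S, (∀ i, i ∉ Set.range e → m i = 0) → m = 0 := by
  classical
  let f : S → Fin n → ℚ := fun m i => (m.1 i : ℚ)
  obtain ⟨J, h1, h2⟩ := exists_coords (Submodule.span ℚ (Set.range f))
  have h3 : finrank ℚ (Submodule.span ℚ (Set.range f)) < n - r := by
    by_contra h4
    obtain ⟨κ, a, -, hsp, hli⟩ := exists_linearIndependent' ℚ f
    have : Finite κ := hli.finite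
    let _ := Fintype.ofFinite κ
    rw [← hsp, finrank_span_eq_card hli, not_lt] at h4
    obtain ⟨e⟩ : Nonempty (Fin (n - r) ↪ κ) :=
      Function.Embedding.nonempty_of_card_le (by rwa [Fintype.card_fin])
    exact h ⟨fun k => (a (e k)).1, (linearIndependent_algebraMap_comp_iff (R := ℤ) (S := ℚ)).mp
      (hli.comp e e.injective), fun k => (a (e k)).2⟩
  obtain ⟨e⟩ : Nonempty (Fin (r + 1) ↪ (Jᶜ : Finset (Fin n))) :=
    Function.Embedding.nonempty_of_card_le (by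
      rw [Fintype.card_fin, Fintype.card_coe, Finset.card_compl, Fintype.card_fin]; omega)
  refine ⟨e.trans (Function.Embedding.subtype _), fun m hm h3 => funext fun i => ?_⟩
  have h4 := h2 _ (Submodule.subset_span ⟨⟨m, hm⟩, rfl⟩) fun j hj => by
    change ((m j : ℤ) : ℚ) = 0
    rw [h3 j, Int.cast_zero]
    rintro ⟨k, rfl⟩
    exact Finset.mem_compl.mp (e k).2 hj
  have h5 : (m i : ℚ) = 0 := congrFun h4 i
  exact_mod_cast h5

lemma exists_th {T r n : ℕ} {x : Fin n → ℂ} {y : ℂ} (h1 : r < n) (h2 : 4 * r * T < n)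
    (hx : LinearIndependent ℚ x) (hy : y ≠ 0) {K : IntermediateField ℚ ℂ}
    (hK : Algebra.trdeg ℚ K ≤ T) (h3 : ∀ i, Complex.exp (x i * y) ∈ K) {c : ℝ}
    (hc : c * ‖y‖ ≤ 1) : ∀ᶠ q : ℕ in atTop, ∃ e : Fin (r + 1) → Fin n,
      ∀ a : Fin (r + 1) → ℤ, a ≠ 0 → (∀ i, |a i| ≤ q) →
        c * Real.exp (-(q : ℝ) ^ (T + 2)) ≤ ‖∑ i, (a i : ℂ) * x (e i)‖ := by
  have h4 : IntermediateField.adjoin ℚ (Set.range fun i => Complex.exp (x i * y)) ≤ K :=
    IntermediateField.adjoin_le_iff.mpr (by rintro _ ⟨i, rfl⟩; exact h3 i)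
  filter_upwards [thmM1 T r n (fun i => x i * y) h1 h2
    (hx.map' (LinearMap.mulRight ℚ y) (LinearMap.ker_eq_bot.mpr (mul_left_injective₀ hy)))
    ((trdeg_le_of_injective (IntermediateField.inclusion h4)
      (IntermediateField.inclusion_injective h4)).trans hK)] with q hq
  obtain ⟨e, he⟩ := exists_sub h1 {m | (∀ i, |m i| ≤ (q : ℤ)) ∧
    ‖∑ i, (m i : ℂ) * (x i * y)‖ ≤ Real.exp (-(q : ℝ) ^ (T + 2))} hq
  refine ⟨e, fun a ha0 ha => le_of_not_gt fun hlt => ha0 (funext fun i => ?_)⟩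
  have h5 : ∀ j ∉ Set.range e, Function.extend e a 0 j = 0 := fun j hj =>
    Function.extend_apply' _ _ _ hj
  have h6 := he (Function.extend e a 0) ⟨fun j => ?_, ?_⟩ h5
  · rw [← e.injective.extend_apply a 0, h6]; rfl
  · by_cases hj : j ∈ Set.range e
    · obtain ⟨k, rfl⟩ := hj
      rw [e.injective.extend_apply]; exact ha k
    · rw [h5 j hj]; simp
  · rw [← Finset.sum_subset (Finset.subset_univ (Finset.univ.map e)) fun j _ hj => by
      rw [h5 j (by simpa using hj)]; simp, Finset.sum_map]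
    simp only [e.injective.extend_apply, ← mul_assoc, ← Finset.sum_mul, norm_mul]
    nlinarith [mul_le_mul_of_nonneg_right hlt.le (norm_nonneg y),
      mul_le_mul_of_nonneg_right hc (Real.exp_pos (-(q : ℝ) ^ (T + 2))).le]

theorem mainForms (T r n : ℕ) (hr : r < n) (hn : 4 * r * T < n) (z : Fin n → ℂ)
    (hz : LinearIndependent ℚ z)
    (happ : ∀ N : ℕ, ∃ q : ℕ, N ≤ q ∧ ∃ M : Fin (n - r) → Fin n → ℤ, LinearIndependent ℤ M ∧
      ∀ k, (∀ i, |M k i| ≤ (q : ℤ)) ∧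
        ‖∑ i, (M k i : ℂ) * z i‖ ≤ Real.exp (-(q : ℝ) ^ (T + 2))) :
    ((T + 1 : ℕ) : Cardinal) ≤ Algebra.trdeg ℚ
      (IntermediateField.adjoin ℚ (Set.range fun i => Complex.exp (z i))) := by
  by_contra h
  rw [not_le, Nat.cast_succ, ← Cardinal.succ_natCast] at h
  obtain ⟨N, hN⟩ := eventually_atTop.mp (thmM1 T r n z hr hn hz (Order.lt_succ_iff.mp h))
  obtain ⟨q, h1, h2⟩ := happ N
  exact hN q h1 h2

theorem mainDegree (T m n : ℕ) (hm : 24 * T ^ 2 ≤ m) (hn : 24 * T ^ 2 ≤ n)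
    (x : Fin m → ℂ) (y : Fin n → ℂ) (hx : LinearIndependent ℚ x) (hy : LinearIndependent ℚ y) :
    (T : Cardinal) ≤ Algebra.trdeg ℚ (IntermediateField.adjoin ℚ
      (Set.range fun ij : Fin m × Fin n => Complex.exp (x ij.1 * y ij.2))) := by
  rcases T with _ | T
  · simp
  by_contra h
  rw [not_le, Nat.cast_succ, ← Cardinal.succ_natCast, Order.lt_succ_iff] at h
  let i0 : Fin m := ⟨0, lt_of_lt_of_le (by positivity) hm⟩
  let j0 : Fin n := ⟨0, lt_of_lt_of_le (by positivity) hn⟩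
  have hc : 0 < (1 + ‖x i0‖ + ‖y j0‖)⁻¹ := by positivity
  obtain ⟨q, ⟨e, he⟩, ⟨e', he'⟩, h3⟩ := ((exists_th (r := 6 * T + 4) (by nlinarith) (by nlinarith) hx
    (hy.ne_zero j0) h (fun i => IntermediateField.subset_adjoin _ _ ⟨(i, j0), rfl⟩)
    (c := (1 + ‖x i0‖ + ‖y j0‖)⁻¹) (by
      rw [inv_mul_le_iff₀ (by positivity)]; linarith [norm_nonneg (x i0)])).and
    ((exists_th (r := 6 * T + 7) (by nlinarith) (by nlinarith) hy (hx.ne_zero i0) h
      (fun j => IntermediateField.subset_adjoin _ _ ⟨(i0, j), by simp [mul_comm]⟩)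
      (c := (1 + ‖x i0‖ + ‖y j0‖)⁻¹) (by
        rw [inv_mul_le_iff₀ (by positivity)]; linarith [norm_nonneg (y j0)])).and
      (thmOne T m n x y _ hc h))).exists
  exact h3 e e' he he'

end Pool.Agent.Lib.MP_12eca1_ag.P
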