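import Pool.Agent.Lib.MP_12eca1_ag.P.Defs

/-! The auxiliary exponential polynomial, by the pigeonhole principle on Taylor coefficients. -/

namespace Pool.Agent.Lib.MP_12eca1_ag.P

open Filter

namespace JA

lemma pow_le_exp {x a : ℝ} (hx : x ≤ Real.exp a) (hx0 : 0 ≤ x) (ha : 0 ≤ a) {j n : ℕ}
    (hj : j ≤ n) : x ^ j ≤ Real.exp (n * a) := by
  rw [Real.exp_nat_mul]
  exact (pow_le_pow_left₀ hx0 hx j).trans (pow_le_pow_right₀ (Real.one_le_exp ha) hj)

lemma exists_small_comb {Λ κ : Type*} [Fintype Λ] [Fintype κ] (a : Λ → κ → ℝ) {B : ℕ} {δ : ℝ}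
    (hδ : 0 < δ) (ha : ∀ k, ∑ i, |a i k| ≤ B * δ)
    (h : (2 * B + 1) ^ Fintype.card κ < 2 ^ Fintype.card Λ) :
    ∃ p : Λ → ℤ, p ≠ 0 ∧ (∀ i, |p i| ≤ 1) ∧ ∀ k, |∑ i, p i * a i k| ≤ δ := by
  classical
  have hmem : ∀ {p : Λ → ℤ}, p ∈ Fintype.piFinset (fun _ : Λ => Finset.Icc (0 : ℤ) 1) →
      ∀ i, 0 ≤ p i ∧ p i ≤ 1 := fun hp i => Finset.mem_Icc.mp (Fintype.mem_piFinset.mp hp i)
  obtain ⟨p, hp, p', hp', hne, heq⟩ := Finset.exists_ne_map_eq_of_card_lt_of_maps_to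
    (s := Fintype.piFinset fun _ : Λ => Finset.Icc (0 : ℤ) 1)
    (t := Fintype.piFinset fun _ : κ => Finset.Icc (-B : ℤ) B)
    (f := fun p k => ⌊(∑ i, p i * a i k) / δ⌋) (by
      simp only [Fintype.card_piFinset, Int.card_Icc, Finset.prod_const, Finset.card_univ]
      rwa [show ((B : ℤ) + 1 - -B).toNat = 2 * B + 1 by omega]) fun p hp => by
      refine Finset.mem_coe.mpr (Fintype.mem_piFinset.mpr fun k => ?_)
      have h1 : |∑ i, p i * a i k| ≤ B * δ := by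
        refine (Finset.abs_sum_le_sum_abs _ _).trans (le_trans (Finset.sum_le_sum fun i _ => ?_)
          (ha k))
        rw [abs_mul]
        refine mul_le_of_le_one_left (abs_nonneg _) ?_
        exact_mod_cast abs_le.mpr ⟨by linarith [hmem hp i], (hmem hp i).2⟩
      rw [Finset.mem_Icc, Int.le_floor, Int.floor_le_iff, le_div_iff₀ hδ, div_lt_iff₀ hδ]
      push_cast
      constructor <;> nlinarith [abs_le.mp h1]
  refine ⟨p - p', sub_ne_zero.mpr hne, fun i => ?_, fun k => ?_⟩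
  · rw [Pi.sub_apply, abs_le]; constructor <;> linarith [hmem hp i, hmem hp' i]
  · have h1 := Int.abs_sub_lt_one_of_floor_eq_floor (congrFun heq k)
    rw [← sub_div, abs_div, abs_of_pos hδ, div_lt_one hδ, ← Finset.sum_sub_distrib] at h1
    simpa [sub_mul] using h1.le

lemma exists_aux {Λ κ : Type*} [Fintype Λ] [Fintype κ] (a : Λ → κ → ℂ) {U W : ℝ} (hU : 0 ≤ U)
    (hW : 0 ≤ W) (ha : ∀ k, ∑ i, ‖a i k‖ ≤ Real.exp W)
    (h : 4 * Fintype.card κ * (U + W + 3) < Fintype.card Λ) :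
    ∃ p : Λ → ℤ, p ≠ 0 ∧ (∀ i, |p i| ≤ 1) ∧ ∀ k, ‖∑ i, p i * a i k‖ ≤ Real.exp (-U) := by
  obtain ⟨p, h1, h2, h3⟩ := exists_small_comb (κ := κ ⊕ κ)
    (fun i => Sum.elim (fun k => (a i k).re) fun k => (a i k).im) (B := ⌈Real.exp (U + W + 1)⌉₊)
    (Real.exp_pos (-U - 1)) (fun k => by
      refine le_trans ?_ (mul_le_mul_of_nonneg_right (Nat.le_ceil _) (by positivity))
      rw [← Real.exp_add, show U + W + 1 + (-U - 1) = W by ring]
      rcases k with k | k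
      · exact (Finset.sum_le_sum fun i _ => Complex.abs_re_le_norm _).trans (ha k)
      · exact (Finset.sum_le_sum fun i _ => Complex.abs_im_le_norm _).trans (ha k)) (by
      rw [← Nat.cast_lt (α := ℝ)]
      push_cast
      have e1 : 2 * (⌈Real.exp (U + W + 1)⌉₊ : ℝ) + 1 ≤ Real.exp (U + W + 3) := by
        have e2 := (Nat.ceil_lt_add_one (Real.exp_nonneg (U + W + 1))).le
        have e3 := Real.one_le_exp (show 0 ≤ U + W + 1 by positivity)
        have e4 : 5 ≤ Real.exp 1 * Real.exp 1 := by nlinarith [Real.exp_one_gt_d9]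
        rw [show U + W + 3 = U + W + 1 + (1 + 1) by ring, Real.exp_add _ (1 + 1), Real.exp_add 1]
        nlinarith
      refine (pow_le_exp e1 (by positivity) (by positivity) le_rfl).trans_lt ?_
      rw [← Real.exp_log two_pos, ← Real.exp_nat_mul, Real.exp_lt_exp, Fintype.card_sum]
      push_cast
      nlinarith [Real.log_two_gt_d9, Nat.cast_nonneg (α := ℝ) (Fintype.card Λ)])
  refine ⟨p, h1, h2, fun k => (Complex.norm_le_abs_re_add_abs_im _).trans ?_⟩
  have e1 := h3 (Sum.inl k)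
  have e2 := h3 (Sum.inr k)
  have e3 : Real.exp (-U) = Real.exp (-U - 1) * Real.exp 1 := by
    rw [← Real.exp_add]; congr 1; ring
  simp only [Sum.elim_inl, Sum.elim_inr] at e1 e2
  simp only [Complex.re_sum, Complex.im_sum, Complex.mul_re, Complex.mul_im, Complex.intCast_re,
    Complex.intCast_im, zero_mul, sub_zero, add_zero]
  nlinarith [Real.add_one_le_exp 1, Real.exp_pos (-U - 1)]

lemma tail_le {z : ℂ} {W : ℝ} {K : ℕ} (hz : ‖z‖ ≤ W) (hK : 2 * W ≤ K) :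
    ‖Complex.exp z - ∑ j ∈ Finset.range K, z ^ j / j.factorial‖ ≤ Real.exp (3 * W - K) * 2 := by
  have hW := (norm_nonneg z).trans hz
  refine (Complex.exp_bound' (by
    rw [div_le_iff₀ (by positivity)]; push_cast; linarith)).trans ?_
  gcongr ?_ * 2
  have h1 := Real.pow_div_factorial_le_exp (Real.exp 1 * ‖z‖) (by positivity) K
  rw [mul_pow, ← Real.exp_nat_mul, mul_one, mul_div_assoc] at h1
  rw [Real.exp_sub, le_div_iff₀' (Real.exp_pos _)]
  refine h1.trans (Real.exp_le_exp.2 (mul_le_mul ?_ hz (norm_nonneg _) zero_le_three))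
  linarith [Real.exp_one_lt_d9]

lemma core {Λ : Type*} [Fintype Λ] (v : Λ → ℂ) {W V l : ℝ} {K : ℕ} (hW : 0 ≤ W)
    (hv : ∀ a, ‖v a‖ ≤ W) (hV : 0 ≤ V) (hl0 : 0 ≤ l) (hl : Fintype.card Λ ≤ Real.exp l)
    (hK : V + 3 * W + l + 2 ≤ K) (h : 4 * K * (V + K + 1 + (l + W) + 3) < Fintype.card Λ) :
    ∃ p : Λ → ℤ, p ≠ 0 ∧ (∀ a, |p a| ≤ 1) ∧ ∀ s : ℂ, ‖s‖ ≤ 1 →
      ‖∑ a, (p a : ℂ) * Complex.exp (v a * s)‖ ≤ Real.exp (-V) := by
  have hs : ∀ (f : Λ → ℝ) (c : ℝ), 0 ≤ c → (∀ a, f a ≤ c) → ∑ a, f a ≤ Real.exp l * c :=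
    fun f c h0 hc => (Finset.sum_le_card_nsmul _ _ c fun a _ => hc a).trans (by
      rw [Finset.card_univ, nsmul_eq_mul]; gcongr)
  obtain ⟨p, h1, h2, h3⟩ := exists_aux (κ := Fin K) (fun a j => v a ^ (j : ℕ) / (j : ℕ).factorial)
    (U := V + K + 1) (W := l + W) (by positivity) (by positivity) (fun j => by
      rw [Real.exp_add]
      refine hs _ _ (by positivity) fun a => ?_
      rw [norm_div, norm_pow, Complex.norm_natCast]
      exact (Real.pow_div_factorial_le_exp _ (norm_nonneg _) _).trans (Real.exp_le_exp.2 (hv a)))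
    (by rwa [Fintype.card_fin])
  refine ⟨p, h1, h2, fun s hs1 => ?_⟩
  have e : ∑ a, (p a : ℂ) * Complex.exp (v a * s) =
      ∑ j : Fin K, s ^ (j : ℕ) * ∑ a, (p a : ℂ) * (v a ^ (j : ℕ) / (j : ℕ).factorial) +
      ∑ a, (p a : ℂ) * (Complex.exp (v a * s) -
        ∑ j ∈ Finset.range K, (v a * s) ^ j / j.factorial) := by
    simp only [Finset.mul_sum, mul_sub, Finset.sum_range]
    rw [Finset.sum_comm, ← Finset.sum_add_distrib]
    refine Finset.sum_congr rfl fun a _ => ?_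
    rw [Finset.sum_congr rfl fun (j : Fin K) _ => show s ^ (j : ℕ) * ((p a : ℂ) *
      (v a ^ (j : ℕ) / (j : ℕ).factorial)) = p a * ((v a * s) ^ (j : ℕ) / (j : ℕ).factorial) by
        rw [mul_pow]; ring]
    ring
  have e1 : ‖∑ j : Fin K, s ^ (j : ℕ) * ∑ a, (p a : ℂ) * (v a ^ (j : ℕ) / (j : ℕ).factorial)‖ ≤
      Real.exp (-V) * Real.exp (-1) := by
    refine (norm_sum_le _ _).trans ((Finset.sum_le_card_nsmul _ _ (Real.exp (-(V + K + 1)))
      fun j _ => ?_).trans ?_)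
    · rw [norm_mul, norm_pow]
      exact (mul_le_of_le_one_left (norm_nonneg _) (pow_le_one₀ (norm_nonneg _) hs1)).trans (h3 j)
    · rw [Finset.card_fin, nsmul_eq_mul, ← Real.exp_add,
        show -V + -1 = K + -(V + K + 1) by ring, Real.exp_add]
      gcongr
      linarith [Real.add_one_le_exp (K : ℝ)]
  have e2 : ‖∑ a, (p a : ℂ) * (Complex.exp (v a * s) -
      ∑ j ∈ Finset.range K, (v a * s) ^ j / j.factorial)‖ ≤
      Real.exp (-V) * (Real.exp (-1) * Real.exp (-1)) * 2 := by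
    refine (norm_sum_le _ _).trans ((hs _ (Real.exp (3 * W - K) * 2) (by positivity)
      fun a => ?_).trans ?_)
    · rw [norm_mul, Complex.norm_intCast]
      refine (mul_le_of_le_one_left (norm_nonneg _) (by exact_mod_cast h2 a)).trans
        (tail_le ?_ (by linarith))
      rw [norm_mul]
      exact (mul_le_of_le_one_right (norm_nonneg _) hs1).trans (hv a)
    · rw [← mul_assoc, ← Real.exp_add, ← Real.exp_add, ← Real.exp_add]
      exact mul_le_mul_of_nonneg_right (Real.exp_le_exp.2 (by linarith)) zero_le_two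
  have e3 : Real.exp (-1) ≤ 1 / 2 := by
    rw [Real.exp_neg, inv_eq_one_div]
    exact one_div_le_one_div_of_le two_pos (by linarith [Real.add_one_le_exp (1 : ℝ)])
  have e4 := mul_le_mul e3 e3 (Real.exp_nonneg _) (by norm_num)
  rw [e]
  refine (norm_add_le_of_le e1 e2).trans ?_
  nlinarith [Real.exp_pos (-V)]

lemma main (m k : ℕ) {Z b : ℝ} (hZ : 1 ≤ Z) (hb : 0 ≤ b) (hm : 2 * k < m) (hk : 2 ≤ k) :
    ∀ᶠ t : ℕ in atTop, ∀ x : Fin m → ℂ, (∀ i, ‖x i‖ ≤ Z) →
    ∃ p : (Fin m → Fin t) → ℤ, p ≠ 0 ∧ (∀ a, |p a| ≤ 1) ∧ ∀ w : ℂ, ‖w‖ ≤ Z * t →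
      ‖∑ a, (p a : ℂ) * Complex.exp ((∑ i, ((a i : ℕ) : ℂ) * x i) * w)‖ ≤
        Real.exp (-(b * t ^ k)) := by
  set c : ℝ := b + 3 * (m * Z ^ 2) + m + 4 with hc
  filter_upwards [tendsto_natCast_atTop_atTop.eventually_gt_atTop (8 * c ^ 2 : ℝ),
    tendsto_natCast_atTop_atTop.eventually_ge_atTop (1 : ℝ)] with t h1 h2 x hx
  have hr : 0 < Z * t := by positivity
  have t1 : (1 : ℝ) ≤ t ^ k := one_le_pow₀ h2
  have t2 : (t : ℝ) ^ 2 ≤ t ^ k := pow_le_pow_right₀ h2 hk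
  have t3 : (t : ℝ) ≤ t ^ k := le_self_pow₀ h2 (by omega)
  have hcard : (Fintype.card (Fin m → Fin t) : ℝ) = t ^ m := by simp
  have m0 : (0 : ℝ) ≤ m := m.cast_nonneg
  have z0 : 0 ≤ m * Z ^ 2 := by positivity
  have a1 := mul_le_mul_of_nonneg_left t2 z0
  have a2 := mul_le_mul_of_nonneg_left t3 m0
  have a3 := (Nat.ceil_lt_add_one (show 0 ≤ b * t ^ k + 3 * (m * Z ^ 2 * t ^ 2) + m * t + 2 by
    positivity)).le
  obtain ⟨p, p1, p2, p3⟩ := core (fun a : Fin m → Fin t => (∑ i, ((a i : ℕ) : ℂ) * x i) * (Z * t : ℝ))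
    (W := m * Z ^ 2 * t ^ 2) (V := b * t ^ k) (l := m * t) (by positivity) (fun a => by
      rw [norm_mul, Complex.norm_real, Real.norm_of_nonneg hr.le,
        show m * Z ^ 2 * t ^ 2 = m * (t * Z) * (Z * t) by ring]
      gcongr
      refine (norm_sum_le _ _).trans ((Finset.sum_le_card_nsmul _ _ (t * Z) fun i _ => ?_).trans
        (by simp))
      rw [norm_mul, Complex.norm_natCast]
      exact mul_le_mul (by exact_mod_cast (a i).2.le) (hx i) (norm_nonneg _) (by positivity))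
    (by positivity) (by positivity)
    (hcard.trans_le (pow_le_exp (by linarith [Real.add_one_le_exp (t : ℝ)]) (by positivity)
      (by positivity) le_rfl)) (Nat.le_ceil _) (by
      rw [hcard]
      calc _ ≤ 4 * (c * t ^ k) * (2 * (c * t ^ k)) := by
            gcongr <;> rw [hc] <;> nlinarith
        _ = 8 * c ^ 2 * t ^ (2 * k) := by ring
        _ < t * t ^ (2 * k) := by gcongr
        _ ≤ _ := by rw [← pow_succ']; exact pow_le_pow_right₀ h2 hm)
  refine ⟨p, p1, p2, fun w hw => ?_⟩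
  have hr' : ((Z * t : ℝ) : ℂ) ≠ 0 := by exact_mod_cast hr.ne'
  have := p3 (w / (Z * t : ℝ)) (by
    rwa [norm_div, Complex.norm_real, Real.norm_of_nonneg hr.le, div_le_one hr])
  simpa only [mul_assoc, mul_div_cancel₀ _ hr'] using this

end JA

theorem stA : StA := by
  intro m k Z b hm hk
  filter_upwards [JA.main m k (le_max_right Z 1) (le_max_right b 0) hm hk] with t h x hx
  obtain ⟨p, p1, p2, p3⟩ := h x fun i => (hx i).trans (le_max_left _ _)
  refine ⟨p, p1, p2, fun w hw => (p3 w (hw.trans ?_)).trans ?_⟩ <;> gcongr <;> exact le_max_left _ _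

end Pool.Agent.Lib.MP_12eca1_ag.P
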