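import Pool.Agent.Lib.MP_12eca1_ag.P.Basic

/-!
The standard lattice and the initial state of the descent.
-/

namespace Pool.Agent.Lib.MP_12eca1_ag.P

open MvPolynomial Filter Module

namespace JIn

variable {n : ℕ}

/-! ### The standard lattice -/

/-- integral vectors as real vectors -/
noncomputable def iZ (n : ℕ) : (Fin n → ℤ) →ₗ[ℤ] EuclideanSpace ℝ (Fin n) where
  toFun k := WithLp.toLp 2 fun i => (k i : ℝ)
  map_add' k l := by ext i; simp
  map_smul' c k := by ext i; simp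

@[simp] lemma iZ_apply (k : Fin n → ℤ) (i : Fin n) : iZ n k i = k i := rfl

lemma iZ_inj : Function.Injective (iZ n) := fun k l h => funext fun i => by
  have : (k i : ℝ) = l i := congrArg (fun a : EuclideanSpace ℝ (Fin n) => a i) h
  exact_mod_cast this

lemma iZ_mem (k : Fin n → ℤ) : iZ n k ∈ ZL n := fun i => ⟨k i, rfl⟩

lemma exists_iZ {a : EuclideanSpace ℝ (Fin n)} (h : a ∈ ZL n) : ∃ k, a = iZ n k := by
  choose k hk using h
  exact ⟨k, by ext i; exact hk i⟩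

lemma range_iZ : LinearMap.range (iZ n) = ZL n := by
  ext a
  exact ⟨fun ⟨k, hk⟩ => hk ▸ iZ_mem k, fun h => let ⟨k, hk⟩ := exists_iZ h; ⟨k, hk.symm⟩⟩

lemma fg_ZL : (ZL n).FG := by
  rw [← range_iZ, LinearMap.range_eq_map]
  exact Module.Finite.fg_top.map _

lemma rk_ZL : finrank ℤ (ZL n) = n := by
  rw [← range_iZ, LinearMap.finrank_range_of_inj iZ_inj, finrank_fin_fun]

lemma inner_eq (ξ a : EuclideanSpace ℝ (Fin n)) : inner ℝ ξ a = ∑ i, a i * ξ i := by
  simp [PiLp.inner_apply]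

lemma disc_ZL : Disc (ZL n) := by
  intro ψ
  let φ : (Fin n → ℤ) →ₗ[ℤ] ℤ := ψ ∘ₗ (iZ n).codRestrict (ZL n) iZ_mem
  refine ⟨iZ n fun i => φ fun j => if i = j then 1 else 0, fun a => ?_⟩
  obtain ⟨a, ha⟩ := a
  obtain ⟨k, rfl⟩ := exists_iZ ha
  have h : ψ ⟨iZ n k, ha⟩ = φ k := rfl
  rw [h, LinearMap.pi_apply_eq_sum_univ φ k, inner_eq]
  simp

lemma one_le_norm {a : EuclideanSpace ℝ (Fin n)} (h : a ∈ ZL n) (h0 : a ≠ 0) : 1 ≤ ‖a‖ := by
  obtain ⟨k, rfl⟩ := exists_iZ h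
  have hk : k ≠ 0 := fun e => h0 (by rw [e, map_zero])
  obtain ⟨i, hi⟩ := Function.ne_iff.1 hk
  refine le_trans ?_ (PiLp.norm_apply_le (iZ n k) i)
  rw [iZ_apply, Real.norm_eq_abs, ← Int.cast_abs]
  exact_mod_cast Int.one_le_abs hi

lemma thin_ZL : Thin (ZL n) 0 := by
  intro ξ h1 ⟨a, _, h2⟩
  rw [neg_zero, Real.exp_zero]
  refine one_le_norm (fun i => ?_) fun e => h2 (by rw [e, inner_zero_left])
  obtain ⟨k, hk⟩ := h1 _ (iZ_mem (Pi.single i 1))
  refine ⟨k, ?_⟩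
  rw [← hk, inner_eq]
  simp [Pi.single_apply]

lemma vol_ZL : Vol (ZL n) n (n * Real.log (n + 1)) := by
  classical
  filter_upwards [eventually_ge_atTop 0] with R hR
  have hn : (0 : ℝ) < n + 1 := by positivity
  have h0 : 0 ≤ R / (n + 1) := by positivity
  refine ⟨(Fintype.piFinset fun _ : Fin n => Finset.range (⌊R / (n + 1)⌋₊ + 1)).image
    fun k => iZ n fun i => (k i : ℤ), fun a ha => ?_, ?_⟩
  · obtain ⟨k, hk, rfl⟩ := Finset.mem_image.1 ha
    refine ⟨iZ_mem _, (pow_le_pow_iff_left₀ (norm_nonneg _) hR two_ne_zero).1 ?_⟩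
    rw [EuclideanSpace.real_norm_sq_eq]
    have h1 : ∀ i, (iZ n (fun i => (k i : ℤ)) i) ^ 2 ≤ (R / (n + 1)) ^ 2 := fun i => by
      rw [iZ_apply, Int.cast_natCast]
      refine pow_le_pow_left₀ (Nat.cast_nonneg _) ?_ 2
      exact (Nat.le_floor_iff h0).1
        (Nat.le_of_lt_succ (Finset.mem_range.1 (Fintype.mem_piFinset.1 hk i)))
    refine (Finset.sum_le_sum fun i _ => h1 i).trans ?_
    rw [Finset.sum_const, Finset.card_univ, Fintype.card_fin, nsmul_eq_mul, div_pow,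
      ← mul_div_assoc, div_le_iff₀ (by positivity)]
    have : (n : ℝ) ≤ (n + 1) ^ 2 := by nlinarith
    nlinarith [sq_nonneg R]
  · rw [Finset.card_image_of_injective _ fun k l h => funext fun i => by
      exact_mod_cast congrFun (iZ_inj h) i]
    rw [Fintype.card_piFinset, Finset.prod_const, Finset.card_range, Finset.card_univ,
      Fintype.card_fin, Real.exp_neg, Real.exp_nat_mul, Real.exp_log hn, ← inv_pow, ← mul_pow]
    push_cast
    refine pow_le_pow_left₀ (by positivity) ?_ n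
    rw [← div_eq_inv_mul]
    exact (Nat.lt_floor_add_one _).le

/-! ### Characters as monomials -/

/-- the exponent of the monomial attached to a lattice vector -/
noncomputable def mo (a : EuclideanSpace ℝ (Fin n)) : Fin n ⊕ Fin n →₀ ℕ :=
  Finsupp.equivFunOnFinite.symm (Sum.elim (fun i => ⌊a i⌋.toNat) fun i => (-⌊a i⌋).toNat)

lemma aeval_mo {K : Type} [CommRing K] [Algebra K ℂ] (z : Fin n → ℂ)
    {a : EuclideanSpace ℝ (Fin n)} (h : a ∈ ZL n) (c : K) :
    aeval (ex2 z) (monomial (mo a) c) = algebraMap K ℂ c * Complex.exp (zt z a) := by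
  obtain ⟨k, rfl⟩ := exists_iZ h
  rw [aeval_monomial, Finsupp.prod_fintype _ _ (by simp), Fintype.prod_sum_type,
    ← Finset.prod_mul_distrib]
  congr 1
  change _ = Complex.exp (∑ i, ((iZ n k i : ℝ) : ℂ) * z i)
  rw [Complex.exp_sum]
  refine Finset.prod_congr rfl fun i _ => ?_
  simp only [mo, ex2, Finsupp.equivFunOnFinite_symm_apply_apply, Sum.elim_inl, Sum.elim_inr,
    iZ_apply, Int.floor_intCast, ← Complex.exp_nat_mul, ← Complex.exp_add]
  congr 1
  have h1 : (((k i).toNat : ℂ)) - ((-k i).toNat : ℂ) = (k i : ℂ) := by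
    exact_mod_cast congrArg (Int.cast : ℤ → ℂ) (Int.toNat_sub_toNat_neg (k i))
  rw [Complex.ofReal_intCast, ← h1]
  ring

lemma degree_mo {a : EuclideanSpace ℝ (Fin n)} (h : a ∈ ZL n) {R : ℝ} (hR : ‖a‖ ≤ R) :
    (mo a).degree ≤ n * ⌈R⌉₊ := by
  obtain ⟨k, rfl⟩ := exists_iZ h
  rw [Finsupp.degree_eq_sum, Fintype.sum_sum_type, ← Finset.sum_add_distrib]
  refine (Finset.sum_le_card_nsmul _ _ ⌈R⌉₊ fun i _ => ?_).trans (by simp)
  simp only [mo, Finsupp.equivFunOnFinite_symm_apply_apply, Sum.elim_inl, Sum.elim_inr,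
    iZ_apply, Int.floor_intCast]
  have h1 : |(k i : ℝ)| ≤ ⌈R⌉₊ := ((PiLp.norm_apply_le (iZ n k) i).trans hR).trans (Nat.le_ceil R)
  have h2 : |k i| ≤ (⌈R⌉₊ : ℤ) := by exact_mod_cast h1
  rw [abs_le] at h2
  omega

lemma clear_den {σ : Type} (P : MvPolynomial σ ℚ) : ∃ (c : ℤ) (Q : MvPolynomial σ ℤ), c ≠ 0 ∧
    ∀ x : σ → ℂ, aeval x Q = c * aeval x P := by
  induction P using MvPolynomial.induction_on with
  | C a =>
    refine ⟨a.den, C a.num, by exact_mod_cast a.den_nz, fun x => ?_⟩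
    have : ((a.num : ℚ) : ℂ) = (((a.den : ℚ) * a : ℚ) : ℂ) := by rw [Rat.den_mul_eq_num]
    rw [Rat.cast_mul, Rat.cast_intCast, Rat.cast_natCast] at this
    simpa using this
  | add p q hp hq =>
    obtain ⟨c, P, hc, h⟩ := hp
    obtain ⟨d, Q, hd, h'⟩ := hq
    refine ⟨c * d, C d * P + C c * Q, mul_ne_zero hc hd, fun x => ?_⟩
    simp only [map_add, map_mul, h, h', eq_intCast, map_intCast, Int.cast_mul]
    ring
  | mul_X p i hp =>
    obtain ⟨c, P, hc, h⟩ := hp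
    exact ⟨c, P * X i, hc, fun x => by simp only [map_mul, h, aeval_X, mul_assoc]⟩

/-- the ring generated by the exponentials -/
abbrev AA (z : Fin n → ℂ) : Type :=
  (aeval (ex2 z) : MvPolynomial (Fin n ⊕ Fin n) ℚ →ₐ[ℚ] ℂ).range

/-- the generic point -/
noncomputable def gg (z : Fin n → ℂ) (a : EuclideanSpace ℝ (Fin n)) : AA z :=
  (aeval (ex2 z) : MvPolynomial (Fin n ⊕ Fin n) ℚ →ₐ[ℚ] ℂ).rangeRestrict (monomial (mo a) 1)

lemma coe_gg (z : Fin n → ℂ) {a : EuclideanSpace ℝ (Fin n)} (h : a ∈ ZL n) :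
    (gg z a : ℂ) = Complex.exp (zt z a) := by
  have := aeval_mo z h (1 : ℚ)
  rw [RingHom.map_one, one_mul] at this
  exact this

lemma ind_gg (z : Fin n → ℂ) {T : ℕ} (h : TB (ex2 z) T) :
    (T : Cardinal) ≤ Algebra.trdeg ℚ (Algebra.adjoin ℚ (gg z '' ZL n)) := by
  obtain ⟨e, he, -⟩ := h
  let ε : Fin n ⊕ Fin n → EuclideanSpace ℝ (Fin n) :=
    Sum.elim (fun i => iZ n (Pi.single i 1)) fun i => iZ n (Pi.single i (-1))
  have hε : ∀ j, ε j ∈ ZL n := by rintro (i | i) <;> exact iZ_mem _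
  have hv : ∀ j, (gg z (ε j) : ℂ) = ex2 z j := fun j => by
    rw [coe_gg z (hε j)]
    rcases j with i | i <;> simp [ε, ex2, zt, Pi.single_apply, apply_ite]
  let x : Fin T → Algebra.adjoin ℚ (gg z '' ZL n) := fun t =>
    ⟨gg z (ε (e t)), Algebra.subset_adjoin ⟨_, hε _, rfl⟩⟩
  have hx : AlgebraicIndependent ℚ x := AlgebraicIndependent.of_comp
    ((Subalgebra.val _).comp (Subalgebra.val _)) (by
      convert he using 1
      funext t
      exact hv (e t))
  simpa using hx.cardinalMk_le_trdeg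

/-! ### Counting -/

lemma val_poly (z : Fin n → ℂ) {R L : ℝ} {v : AA z} (h : v ∈ Val (ZL n) (gg z) R L) :
    ∃ P : MvPolynomial (Fin n ⊕ Fin n) ℤ, P.totalDegree ≤ n * ⌈R⌉₊ ∧ l1 P ≤ L ∧
      aeval (ex2 z) P = (v : ℂ) := by
  obtain ⟨l, h1, h2, rfl⟩ := h
  suffices H : ∃ P : MvPolynomial (Fin n ⊕ Fin n) ℤ, P.totalDegree ≤ n * ⌈R⌉₊ ∧
      l1 P ≤ (l.map fun p => |(p.1 : ℝ)|).sum ∧
      aeval (ex2 z) P = (((l.map fun p => (p.1 : AA z) * gg z p.2).sum : AA z) : ℂ) by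
    obtain ⟨P, a1, a2, a3⟩ := H
    exact ⟨P, a1, a2.trans h2, a3⟩
  clear h2
  induction l with
  | nil => exact ⟨0, by simp, by simp, by simp⟩
  | cons p l ih =>
    obtain ⟨P, a1, a2, a3⟩ := ih fun q hq => h1 q (List.mem_cons_of_mem _ hq)
    obtain ⟨b1, b2⟩ := h1 p List.mem_cons_self
    refine ⟨monomial (mo p.2) p.1 + P, (totalDegree_add _ _).trans (max_le
      ((totalDegree_monomial_le _ _).trans (degree_mo b1 b2)) a1), ?_, ?_⟩
    · rw [List.map_cons, List.sum_cons]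
      refine (l1_add_le _ _).trans (add_le_add ?_ a2)
      rw [l1_monomial, Int.norm_eq_abs]
    · rw [List.map_cons, List.sum_cons, map_add, aeval_mo z b1, a3, Subalgebra.coe_add,
        Subalgebra.coe_mul, coe_gg z b1]
      simp

/-- the number of families of integral polynomials of bounded degree and length -/
lemma card_le {α ι : Type} [Fintype ι] {T : ℕ} (s : Finset α) (f : α → ι → MvPolynomial (Fin T) ℤ)
    (D b : ℕ) (hD : ∀ v ∈ s, ∀ l, (f v l).totalDegree ≤ D) (hb : ∀ v ∈ s, ∀ l, l1 (f v l) ≤ b)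
    (hf : Set.InjOn f s) : s.card ≤ (2 * b + 1) ^ (Fintype.card ι * (D + 1) ^ T) := by
  classical
  let ex : (Fin T → Fin (D + 1)) → (Fin T →₀ ℕ) := fun y =>
    Finsupp.equivFunOnFinite.symm fun t => (y t : ℕ)
  refine (Finset.card_le_card_of_injOn
    (t := Fintype.piFinset fun _ : ι × (Fin T → Fin (D + 1)) => Finset.Icc (-(b : ℤ)) b)
    (fun v x => coeff (ex x.2) (f v x.1)) (fun v hv => ?_) fun v hv w hw e => ?_).trans (le_of_eq ?_)
  · refine Finset.mem_coe.2 (Fintype.mem_piFinset.2 fun x => Finset.mem_Icc.2 (abs_le.1 ?_))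
    have := (norm_coeff_le_l1 (f v x.1) (ex x.2)).trans (hb v hv x.1)
    rw [Int.norm_eq_abs] at this
    exact_mod_cast this
  · refine hf hv hw (funext fun l => MvPolynomial.ext _ _ fun m => ?_)
    by_cases hm : m.degree ≤ D
    · have h1 : ex (fun t => ⟨m t, Nat.lt_succ_of_le ((Finsupp.le_degree t m).trans hm)⟩) = m := by
        ext t; simp [ex]
      have := congrFun e (l, fun t => ⟨m t, Nat.lt_succ_of_le ((Finsupp.le_degree t m).trans hm)⟩)
      simpa only [h1] using this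
    · rw [not_le] at hm
      rw [coeff_eq_zero_of_totalDegree_lt ((hD v hv l).trans_lt hm),
        coeff_eq_zero_of_totalDegree_lt ((hD w hw l).trans_lt hm)]
  · rw [Fintype.card_piFinset, Finset.prod_const, Int.card_Icc]
    congr 1
    · omega
    · simp

lemma psi_sub {κ M : Type} [AddCommGroup M] (Φ : (κ →₀ ℕ) → M) (P Q : MvPolynomial κ ℤ) :
    ∑ m ∈ (P - Q).support, coeff m (P - Q) • Φ m =
      ∑ m ∈ P.support, coeff m P • Φ m - ∑ m ∈ Q.support, coeff m Q • Φ m := by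
  classical
  have h : ∀ (R : MvPolynomial κ ℤ), R.support ⊆ P.support ∪ Q.support →
      ∑ m ∈ R.support, coeff m R • Φ m = ∑ m ∈ P.support ∪ Q.support, coeff m R • Φ m :=
    fun R hR => Finset.sum_subset hR fun m _ hm => by rw [notMem_support_iff.1 hm, zero_smul]
  rw [h _ (support_sub _ P Q), h P Finset.subset_union_left, h Q Finset.subset_union_right,
    ← Finset.sum_sub_distrib]
  exact Finset.sum_congr rfl fun m _ => by rw [coeff_sub, sub_smul]

lemma cnt_gg (hS : StS) (z : Fin n → ℂ) {T : ℕ} (h : TB (ex2 z) T) :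
    ∃ α, Cnt (ZL n) (gg z) (T + 1) α := by
  obtain ⟨d, C, H⟩ := hS _ _ T h
  set c : ℝ := C * (2 * n + 1) + 1 with hc
  have hc0 : 0 < c := by positivity
  refine ⟨(c + 4) * (d * c ^ T), ?_⟩
  filter_upwards [eventually_ge_atTop 1] with R hR s hs
  obtain ⟨Φ, h1, h2⟩ := H (n * ⌈R⌉₊)
  choose! P p1 p2 p3 using fun v (hv : v ∈ s) => val_poly z (hs v hv)
  have hm : ∀ v ∈ s, ∀ m ∈ (P v).support, m.degree ≤ n * ⌈R⌉₊ := fun v hv m hm =>
    (le_totalDegree hm).trans (p1 v hv)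
  have key := card_le s (fun v l => ∑ m ∈ (P v).support, coeff m (P v) • Φ m l)
    (C * (n * ⌈R⌉₊ + 1)) ⌈Real.exp R * (C : ℝ) ^ (n * ⌈R⌉₊ + 1)⌉₊
    (fun v hv l => (totalDegree_finsetSum _ _).trans (Finset.sup_le fun m h =>
      (totalDegree_smul_le _ _).trans (h1 m (hm v hv m h) l).1))
    (fun v hv l => by
      refine le_trans ?_ (Nat.le_ceil _)
      refine (l1_sum_le _ _).trans ((Finset.sum_le_sum fun m h => (l1_smul_le _ _).trans
        (mul_le_mul_of_nonneg_left (h1 m (hm v hv m h) l).2 (norm_nonneg _))).trans ?_)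
      rw [← Finset.sum_mul]
      exact mul_le_mul_of_nonneg_right (p2 v hv) (by positivity))
    (fun v hv w hw e => by
      have := (h2 (P v - P w) ((totalDegree_sub _ _).trans (max_le (p1 v hv) (p1 w hw)))).2
        fun l => by rw [psi_sub, sub_eq_zero]; exact congrFun e l
      rw [map_sub, p3 v hv, p3 w hw, sub_eq_zero] at this
      exact Subtype.ext this)
  rw [Fintype.card_fin] at key
  have r1 : (⌈R⌉₊ : ℝ) ≤ 2 * R := by linarith [Nat.ceil_lt_add_one (a := R) (by linarith)]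
  have r2 : ((n * ⌈R⌉₊ + 1 : ℕ) : ℝ) ≤ (2 * n + 1) * R := by
    push_cast
    nlinarith [mul_le_mul_of_nonneg_left r1 (Nat.cast_nonneg (α := ℝ) n)]
  have r3 : ((C * (n * ⌈R⌉₊ + 1) : ℕ) : ℝ) + R ≤ c * R := by
    rw [Nat.cast_mul, hc]
    nlinarith [mul_le_mul_of_nonneg_left r2 (Nat.cast_nonneg (α := ℝ) C)]
  have r4 : Real.exp R * (C : ℝ) ^ (n * ⌈R⌉₊ + 1) ≤ Real.exp (c * R) := by
    have h3 : (C : ℝ) ^ (n * ⌈R⌉₊ + 1) ≤ Real.exp ((C * (n * ⌈R⌉₊ + 1) : ℕ) : ℝ) := by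
      rw [Nat.cast_mul, mul_comm (C : ℝ), Real.exp_nat_mul]
      exact pow_le_pow_left₀ (Nat.cast_nonneg _) (by linarith [Real.add_one_le_exp (C : ℝ)]) _
    refine (mul_le_mul_of_nonneg_left h3 (Real.exp_pos R).le).trans ?_
    rw [← Real.exp_add]
    exact Real.exp_le_exp.2 (by linarith)
  have r5 : ((2 * ⌈Real.exp R * (C : ℝ) ^ (n * ⌈R⌉₊ + 1)⌉₊ + 1 : ℕ) : ℝ) ≤
      Real.exp ((c + 4) * R) := by
    have h3 := Nat.ceil_lt_add_one (a := Real.exp R * (C : ℝ) ^ (n * ⌈R⌉₊ + 1)) (by positivity)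
    have h4 : 1 ≤ Real.exp (c * R) := Real.one_le_exp (by positivity)
    have h5 : 5 ≤ Real.exp (4 * R) := by linarith [Real.add_one_le_exp (4 * R)]
    rw [add_mul, Real.exp_add]
    push_cast
    nlinarith
  have r6 : ((d * (C * (n * ⌈R⌉₊ + 1) + 1) ^ T : ℕ) : ℝ) ≤ d * (c * R) ^ T := by
    rw [Nat.cast_mul, Nat.cast_pow, Nat.cast_add, Nat.cast_one]
    exact mul_le_mul_of_nonneg_left (pow_le_pow_left₀ (by positivity) (by linarith) T)
      (Nat.cast_nonneg _)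
  calc (s.card : ℝ) ≤ ((2 * ⌈Real.exp R * (C : ℝ) ^ (n * ⌈R⌉₊ + 1)⌉₊ + 1 : ℕ) : ℝ) ^
        (d * (C * (n * ⌈R⌉₊ + 1) + 1) ^ T) := by exact_mod_cast key
    _ ≤ Real.exp ((c + 4) * R) ^ (d * (C * (n * ⌈R⌉₊ + 1) + 1) ^ T) :=
        pow_le_pow_left₀ (Nat.cast_nonneg _) r5 _
    _ ≤ Real.exp (Real.exp ((c + 4) * (d * c ^ T)) * R ^ (T + 1)) := by
        rw [← Real.exp_nat_mul]
        refine Real.exp_le_exp.2 ((mul_le_mul_of_nonneg_right r6 (by positivity)).trans ?_)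
        have h3 : (c + 4) * (d * c ^ T) ≤ Real.exp ((c + 4) * (d * c ^ T)) := by
          linarith [Real.add_one_le_exp ((c + 4) * (d * c ^ T))]
        refine le_trans (le_of_eq ?_) (mul_le_mul_of_nonneg_right h3 (by positivity))
        rw [mul_pow, pow_succ]
        ring

end JIn

open JIn in
theorem stIn (hS : StS) : StIn := by
  intro n T z h
  obtain ⟨α, hα⟩ := cnt_gg hS z h
  refine ⟨thin_ZL, fun a => one_le_norm, AA z, inferInstance, inferInstance, inferInstance, gg z, α,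
    n * Real.log (n + 1), fun a ha e => by rw [← coe_gg z ha, e]; rfl, fun z' W hW hz => ?_⟩
  have hk : RingHom.ker (aeval (ex2 z) :
      MvPolynomial (Fin n ⊕ Fin n) ℚ →ₐ[ℚ] ℂ).rangeRestrict.toRingHom ≤
      RingHom.ker (aeval (ex2 z') : MvPolynomial (Fin n ⊕ Fin n) ℚ →ₐ[ℚ] ℂ).toRingHom := by
    intro P hP
    have h1 : aeval (ex2 z) P = 0 := congrArg Subtype.val hP
    obtain ⟨c, Q, hc, hQ⟩ := clear_den P
    have h2 := hz Q (by rw [hQ, h1, mul_zero])
    rw [hQ, mul_eq_zero] at h2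
    exact h2.resolve_left (by exact_mod_cast hc)
  refine ⟨AlgHom.liftOfSurjective _ (AlgHom.rangeRestrict_surjective _) _ hk, fg_ZL, rk_ZL, disc_ZL,
    hW, Subtype.ext ?_, fun a ha b hb => Subtype.ext ?_, fun a ha => ?_, ind_gg z h, hα, vol_ZL⟩
  · rw [coe_gg z (Submodule.zero_mem _), map_zero, Complex.exp_zero]
    rfl
  · rw [Subalgebra.coe_mul, coe_gg z ha, coe_gg z hb, coe_gg z (Submodule.add_mem _ ha hb), map_add,
      Complex.exp_add]
  · rw [gg, AlgHom.liftOfSurjective_apply, aeval_mo z' ha, map_one, one_mul]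

end Pool.Agent.Lib.MP_12eca1_ag.P
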